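import Pool.Agent.Helper89.TQ.Spec

/-! TQ (helper89), part `BRIDGE`. -/

set_option autoImplicit false

namespace Pool.Agent.Helper6.TQ.BRIDGE

open Finset Pool.Agent.R6.Trade Pool.Agent.Helper89.TQ

section
variable {N : Type} [DecidableEq N]

lemma vec_ins (τ : N → Fin 3) {S : Finset N} {u : N} (hu : u ∉ S) (k : Fin 3) :
    vec τ (insert u S) k = vec τ S k + if τ u = k then 1 else 0 := by
  unfold vec
  rw [filter_insert]
  by_cases h : τ u = k
  · rw [if_pos h, if_pos h, card_insert_of_notMem]
    exact fun h' => hu (mem_filter.1 h').1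
  · rw [if_neg h, if_neg h, add_zero]

lemma exists_mem (τ : N → Fin 3) {S : Finset N} {j : Fin 3} (h : 0 < vec τ S j) :
    ∃ v ∈ S, τ v = j := by
  unfold vec at h
  obtain ⟨v, hv⟩ := card_pos.1 h
  exact ⟨v, (mem_filter.1 hv).1, (mem_filter.1 hv).2⟩

lemma exists_notMem [Fintype N] (τ : N → Fin 3) {S : Finset N} {i : Fin 3}
    (h : vec τ S i < nn τ i) : ∃ u, u ∉ S ∧ τ u = i := by
  by_contra hcon
  push Not at hcon
  have h1 : univ.filter (fun v => τ v = i) ⊆ S.filter (fun v => τ v = i) := by
    intro u hu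
    have h2 := (mem_filter.1 hu).2
    refine mem_filter.2 ⟨?_, h2⟩
    by_contra h3
    exact hcon u h3 h2
  have h2 := card_le_card h1
  unfold vec nn at h
  omega

/-- adding a voter -/
lemma add_step [Fintype N] {W : Finset N → Prop} (hmono : ∀ S T : Finset N, S ⊆ T → W S → W T)
    (τ : N → Fin 3) {S : Finset N} (hS : W S) {i : Fin 3} (h : vec τ S i < nn τ i) :
    ∃ S', W S' ∧ ∀ k, vec τ S' k = vec τ S k + if i = k then 1 else 0 := by
  obtain ⟨u, hu, hui⟩ := exists_notMem τ h
  refine ⟨insert u S, hmono _ _ (subset_insert _ _) hS, fun k => ?_⟩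
  rw [vec_ins τ hu k, hui]

/-- replacing a voter -/
lemma move_step [Fintype N] {W : Finset N → Prop} (τ : N → Fin 3)
    (hτ : ∀ u v, AtLeast W u v ↔ τ u ≤ τ v) {S : Finset N} (hS : W S) {i j : Fin 3} (hij : i < j)
    (h : vec τ S i < nn τ i) (h' : 0 < vec τ S j) :
    ∃ S', W S' ∧ ∀ k, vec τ S' k + (if j = k then 1 else 0) =
      vec τ S k + if i = k then 1 else 0 := by
  obtain ⟨u, hu, hui⟩ := exists_notMem τ h
  obtain ⟨v, hv, hvj⟩ := exists_mem τ h'
  have huv : u ∉ S.erase v := fun h => hu (mem_erase.1 h).2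
  refine ⟨insert u (S.erase v), ?_, fun k => ?_⟩
  · have h1 : AtLeast W u v := (hτ u v).2 (by rw [hui, hvj]; exact hij.le)
    refine h1 (S.erase v) huv (notMem_erase _ _) ?_
    rwa [insert_erase hv]
  · rw [vec_ins τ huv k, hui]
    have h2 := vec_ins τ (notMem_erase v S) k
    rw [insert_erase hv, hvj] at h2
    omega

/-- the shift monotonicity -/
lemma shift_mono [Fintype N] {W : Finset N → Prop}
    (hmono : ∀ S T : Finset N, S ⊆ T → W S → W T) (τ : N → Fin 3)
    (hτ : ∀ u v, AtLeast W u v ↔ τ u ≤ τ v) (T : Finset N) (m : ℕ) :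
    ∀ S : Finset N, W S → GE (vec τ T) (vec τ S) →
      3 * vec τ T 0 + 2 * vec τ T 1 + vec τ T 2 = m + (3 * vec τ S 0 + 2 * vec τ S 1 + vec τ S 2) →
      W T := by
  induction m using Nat.strong_induction_on with
  | _ m ih =>
    intro S hS hge hm
    have hy : ∀ i, vec τ T i ≤ nn τ i := fun i => vec_le τ T i
    have hy0 := hy 0
    have hy1 := hy 1
    have hy2 := hy 2
    obtain ⟨g0, g1, g2⟩ := hge
    by_cases heq : vec τ S = vec τ T
    · exact win_of_vec_eq hmono τ (fun a b hab => (hτ a b).2 hab.le) _ S T rfl heq hS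
    have fin : ∀ S' : Finset N, W S' → GE (vec τ T) (vec τ S') →
        3 * vec τ S 0 + 2 * vec τ S 1 + vec τ S 2 <
          3 * vec τ S' 0 + 2 * vec τ S' 1 + vec τ S' 2 → W T := by
      intro S' hS' hge' hlt
      obtain ⟨g0', g1', g2'⟩ := hge'
      refine ih (3 * vec τ T 0 + 2 * vec τ T 1 + vec τ T 2 -
        (3 * vec τ S' 0 + 2 * vec τ S' 1 + vec τ S' 2)) (by omega) S' hS' ⟨g0', g1', g2'⟩ (by omega)
    by_cases c0 : vec τ S 0 < vec τ T 0
    · by_cases c1 : vec τ S 0 + vec τ S 1 = vec τ T 0 + vec τ T 1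
      · obtain ⟨S', hS', hv⟩ := move_step τ hτ hS (i := 0) (j := 1) (by decide) (by omega)
          (by omega)
        have v0 := hv 0
        have v1 := hv 1
        have v2 := hv 2
        simp at v0 v1 v2
        exact fin S' hS' ⟨by omega, by omega, by omega⟩ (by omega)
      · by_cases c2 : vec τ S 0 + vec τ S 1 + vec τ S 2 = vec τ T 0 + vec τ T 1 + vec τ T 2
        · obtain ⟨S', hS', hv⟩ := move_step τ hτ hS (i := 0) (j := 2) (by decide) (by omega)
            (by omega)
          have v0 := hv 0
          have v1 := hv 1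
          have v2 := hv 2
          simp at v0 v1 v2
          exact fin S' hS' ⟨by omega, by omega, by omega⟩ (by omega)
        · obtain ⟨S', hS', hv⟩ := add_step hmono τ hS (i := 0) (by omega)
          have v0 := hv 0
          have v1 := hv 1
          have v2 := hv 2
          simp at v0 v1 v2
          exact fin S' hS' ⟨by omega, by omega, by omega⟩ (by omega)
    · by_cases c1 : vec τ S 1 < vec τ T 1
      · by_cases c2 : vec τ S 0 + vec τ S 1 + vec τ S 2 = vec τ T 0 + vec τ T 1 + vec τ T 2
        · obtain ⟨S', hS', hv⟩ := move_step τ hτ hS (i := 1) (j := 2) (by decide) (by omega)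
            (by omega)
          have v0 := hv 0
          have v1 := hv 1
          have v2 := hv 2
          simp at v0 v1 v2
          exact fin S' hS' ⟨by omega, by omega, by omega⟩ (by omega)
        · obtain ⟨S', hS', hv⟩ := add_step hmono τ hS (i := 1) (by omega)
          have v0 := hv 0
          have v1 := hv 1
          have v2 := hv 2
          simp at v0 v1 v2
          exact fin S' hS' ⟨by omega, by omega, by omega⟩ (by omega)
      · by_cases c2 : vec τ S 2 < vec τ T 2
        · obtain ⟨S', hS', hv⟩ := add_step hmono τ hS (i := 2) (by omega)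
          have v0 := hv 0
          have v1 := hv 1
          have v2 := hv 2
          simp at v0 v1 v2
          exact fin S' hS' ⟨by omega, by omega, by omega⟩ (by omega)
        · exfalso
          apply heq
          funext k
          fin_cases k
          · show vec τ S 0 = vec τ T 0
            omega
          · show vec τ S 1 = vec τ T 1
            omega
          · show vec τ S 2 = vec τ T 2
            omega

lemma above_min {W : Finset N → Prop} (τ : N → Fin 3) {a b : Fin 3 → ℕ}
    (hab : ∀ v, MinWin W τ v ↔ v = a ∨ v = b) (m : ℕ) :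
    ∀ S : Finset N, W S → 3 * vec τ S 0 + 2 * vec τ S 1 + vec τ S 2 = m →
      Win a b (vec τ S) := by
  induction m using Nat.strong_induction_on with
  | _ m ih =>
    intro S hS hm
    by_cases hmin : MinWin W τ (vec τ S)
    · rcases (hab _).1 hmin with h | h
      · left
        rw [h]
        exact ⟨le_rfl, le_rfl, le_rfl⟩
      · right
        rw [h]
        exact ⟨le_rfl, le_rfl, le_rfl⟩
    · unfold MinWin at hmin
      push Not at hmin
      obtain ⟨T, hT, hge, hne⟩ := hmin ⟨S, hS, rfl⟩
      obtain ⟨g0, g1, g2⟩ := hge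
      have hlt : 3 * vec τ T 0 + 2 * vec τ T 1 + vec τ T 2 < m := by
        by_contra hcon
        apply hne
        funext k
        fin_cases k
        · show vec τ T 0 = vec τ S 0
          omega
        · show vec τ T 1 = vec τ S 1
          omega
        · show vec τ T 2 = vec τ S 2
          omega
      rcases ih _ hlt T hT rfl with h | h
      · left
        obtain ⟨k0, k1, k2⟩ := h
        exact ⟨by omega, by omega, by omega⟩
      · right
        obtain ⟨k0, k1, k2⟩ := h
        exact ⟨by omega, by omega, by omega⟩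

end

theorem main : S_BRIDGE := by
  intro N _ _ W τ a b hS hsurj hτ hne hab
  obtain ⟨hW0, hW1, hmono⟩ := hS
  obtain ⟨⟨Sa, hSa, hva⟩, hamin⟩ := (hab a).2 (Or.inl rfl)
  obtain ⟨⟨Sb, hSb, hvb⟩, hbmin⟩ := (hab b).2 (Or.inr rfl)
  have hiff : ∀ S, W S ↔ Win a b (vec τ S) := by
    intro S
    refine ⟨fun h => above_min τ hab _ S h rfl, fun h => ?_⟩
    rcases h with h | h
    · rw [← hva] at h
      obtain ⟨g0, g1, g2⟩ := h
      refine shift_mono hmono τ hτ S (3 * vec τ S 0 + 2 * vec τ S 1 + vec τ S 2 -
        (3 * vec τ Sa 0 + 2 * vec τ Sa 1 + vec τ Sa 2)) Sa hSa ⟨g0, g1, g2⟩ (by omega)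
    · rw [← hvb] at h
      obtain ⟨g0, g1, g2⟩ := h
      refine shift_mono hmono τ hτ S (3 * vec τ S 0 + 2 * vec τ S 1 + vec τ S 2 -
        (3 * vec τ Sb 0 + 2 * vec τ Sb 1 + vec τ Sb 2)) Sb hSb ⟨g0, g1, g2⟩ (by omega)
  have hdiff : ∀ i j : Fin 3, i < j → ∃ x : Fin 3 → ℕ, (∀ k, x k + (if j = k then 1 else 0) ≤ nn τ k) ∧
      Win a b (fun k => x k + if i = k then 1 else 0) ∧
      ¬ Win a b (fun k => x k + if j = k then 1 else 0) := by
    intro i j hij
    obtain ⟨u, hu⟩ := hsurj i
    obtain ⟨v, hv⟩ := hsurj j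
    have h1 : ¬ AtLeast W v u := by
      rw [hτ, hu, hv]
      exact not_le.2 hij
    unfold AtLeast at h1
    push Not at h1
    obtain ⟨S, hvS, huS, hw, hl⟩ := h1
    refine ⟨vec τ S, fun k => ?_, ?_, ?_⟩
    · have := vec_le τ (insert v S) k
      rw [vec_ins τ hvS k, hv] at this
      exact this
    · have h2 := (hiff _).1 hw
      have h3 : vec τ (insert u S) = fun k => vec τ S k + if i = k then 1 else 0 := by
        funext k
        rw [vec_ins τ huS k, hu]
      rwa [h3] at h2
    · intro h2
      apply hl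
      apply (hiff _).2
      have h3 : vec τ (insert v S) = fun k => vec τ S k + if j = k then 1 else 0 := by
        funext k
        rw [vec_ins τ hvS k, hv]
      rwa [h3]
  refine ⟨fun i => ?_, fun i => ?_, ?_, ?_, ?_, ?_, hiff⟩
  · rw [← hva]
    exact vec_le τ Sa i
  · rw [← hvb]
    exact vec_le τ Sb i
  · intro h
    apply hne
    rw [← hvb] at h
    rw [← hamin Sb hSb h, hvb]
  · intro h
    apply hne
    rw [← hva] at h
    rw [← hbmin Sa hSa h, hva]
  · obtain ⟨x, hx, hw, hl⟩ := hdiff 0 1 (by decide)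
    have hx1 := hx 1
    rw [if_pos rfl] at hx1
    unfold Win at hw hl
    rw [not_or] at hl
    obtain ⟨la, lb⟩ := hl
    rcases hw with h | h
    · left
      unfold GE at h la
      simp at h la
      omega
    · right
      unfold GE at h lb
      simp at h lb
      omega
  · obtain ⟨x, hx, hw, hl⟩ := hdiff 1 2 (by decide)
    have hx1 := hx 2
    rw [if_pos rfl] at hx1
    unfold Win at hw hl
    rw [not_or] at hl
    obtain ⟨la, lb⟩ := hl
    rcases hw with h | h
    · left
      unfold GE at h la
      simp at h la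
      omega
    · right
      unfold GE at h lb
      simp at h lb
      omega

end Pool.Agent.Helper6.TQ.BRIDGE
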