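import Pool.Agent.Helper89.TQ.Ctx

/-! TQ (helper89): hard integer lemmas, generated by a search for case distinctions. -/

set_option autoImplicit false
set_option linter.all false
set_option maxHeartbeats 4000000

namespace Pool.Agent.Helper6.TQ

open Pool.Agent.Helper89.TQ

theorem c0_11_23_33_k3 {n1 n2 n3 A1 A2 A3 B1 B2 B3 m11_1 m11_2 m11_3 m13_1 m13_2 m13_3 m22_1 m22_2 m22_3 m23_1 m23_2 m23_3 m33_1 m33_2 m33_3 : ℤ}
    (C : Ctx0 n1 n2 n3 A1 A2 A3 B1 B2 B3 m11_1 m11_2 m11_3 m13_1 m13_2 m13_3 m22_1 m22_2 m22_3 m23_1 m23_2 m23_3 m33_1 m33_2 m33_3)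
    (e0 : 0 < B1)
    (e1 : 0 < A2)
    (e2 : 0 < B3)
    (e3 : 0 < A3)
    (s1 : 3 * A1 + 0 * B1 ≤ m11_1 + m23_1 + m33_1)
    (s2 : 3 * A2 + 0 * B2 ≤ m11_2 + m23_2 + m33_2)
    (s3 : 3 * A3 + 0 * B3 ≤ m11_3 + m23_3 + m33_3) : F1 n1 n2 n3 A1 A2 A3 B1 B2 B3 ∨ F2 n1 n2 n3 A1 A2 A3 B1 B2 B3 := by
  by_contra hc
  rw [not_or] at hc
  obtain ⟨hF1, hF2⟩ := hc
  unfold F1 at hF1
  unfold F2 at hF2
  have d0 : ((0 ≤ -1 + A1) ∧ (0 ≤ -1 + A1 - A2 + n2)) ∨ ((0 ≤ -1 + B1) ∧ (0 ≤ -1 + B1 - B2 + n2)) := by
    have h := C.t12
    clear C e0 e1 e2 e3 s1 s2 s3 hF1 hF2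
    omega
  have d1 : ((0 ≤ -1 - A1 + A2) ∧ (0 ≤ -1 + A2 - A3 + n3)) ∨ ((0 ≤ -1 - B1 + B2) ∧ (0 ≤ -1 + B2 - B3 + n3)) := by
    have h := C.t23
    clear C e0 e1 e2 e3 s1 s2 s3 hF1 hF2
    omega
  have d2 : ((0 ≤ 1 - A1 + m13_1) ∧ (0 ≤ -1 + A1 - m13_1)) ∨ ((0 ≤ 1 - B3 + m13_1) ∧ (0 ≤ -1 + B3 - m13_1)) := by
    have h := C.f13_2
    clear C e0 e1 e2 e3 s1 s2 s3 hF1 hF2
    omega
  have d3 : ((0 ≤ 0 - m13_1 + m13_2 - n2) ∧ (0 ≤ 0 + m13_1 - m13_2 + n2)) ∨ ((0 ≤ 1 - B3 + m13_2) ∧ (0 ≤ -1 + B3 - m13_2)) := by
    have h := C.f13_5
    clear C e0 e1 e2 e3 s1 s2 s3 hF1 hF2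
    omega
  have d4 : ((0 ≤ 0 - m13_2 + m13_3 - n3) ∧ (0 ≤ 0 + m13_2 - m13_3 + n3)) ∨ ((0 ≤ 1 - B3 + m13_3) ∧ (0 ≤ -1 + B3 - m13_3)) := by
    have h := C.f13_8
    clear C e0 e1 e2 e3 s1 s2 s3 hF1 hF2
    omega
  have d5 : ((0 ≤ 0 + m22_1 - n1) ∧ (0 ≤ 0 - m22_1 + n1)) ∨ ((0 ≤ 1 - B2 + m22_1) ∧ (0 ≤ -1 + B2 - m22_1)) := by
    have h := C.f22_2
    clear C e0 e1 e2 e3 s1 s2 s3 hF1 hF2
    omega
  have d6 : ((0 ≤ 0 - m22_1 + m22_2 - n2) ∧ (0 ≤ 0 + m22_1 - m22_2 + n2)) ∨ ((0 ≤ 1 - B2 + m22_2) ∧ (0 ≤ -1 + B2 - m22_2)) := by
    have h := C.f22_5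
    clear C e0 e1 e2 e3 s1 s2 s3 hF1 hF2
    omega
  have d7 : ((0 ≤ 0 + m23_1 - n1) ∧ (0 ≤ 0 - m23_1 + n1)) ∨ ((0 ≤ 1 - A2 + m23_1) ∧ (0 ≤ -1 + A2 - m23_1)) ∨ ((0 ≤ 1 - B3 + m23_1) ∧ (0 ≤ -1 + B3 - m23_1)) := by
    have h := C.f23_3
    clear C e0 e1 e2 e3 s1 s2 s3 hF1 hF2
    omega
  have d8 : ((0 ≤ 0 - m23_1 + m23_2 - n2) ∧ (0 ≤ 0 + m23_1 - m23_2 + n2)) ∨ ((0 ≤ 1 - A2 + m23_2) ∧ (0 ≤ -1 + A2 - m23_2)) ∨ ((0 ≤ 1 - B3 + m23_2) ∧ (0 ≤ -1 + B3 - m23_2)) := by
    have h := C.f23_7
    clear C e0 e1 e2 e3 s1 s2 s3 hF1 hF2
    omega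
  have d9 : ((0 ≤ 0 - m23_2 + m23_3 - n3) ∧ (0 ≤ 0 + m23_2 - m23_3 + n3)) ∨ ((0 ≤ 1 - B3 + m23_3) ∧ (0 ≤ -1 + B3 - m23_3)) := by
    have h := C.f23_10
    clear C e0 e1 e2 e3 s1 s2 s3 hF1 hF2
    omega
  have d10 : ((0 ≤ 0 + m33_1 - n1) ∧ (0 ≤ 0 - m33_1 + n1)) ∨ ((0 ≤ 1 - A3 + m33_1) ∧ (0 ≤ -1 + A3 - m33_1)) := by
    have h := C.f33_2
    clear C e0 e1 e2 e3 s1 s2 s3 hF1 hF2
    omega
  have d12 : ((0 ≤ 0 - m33_2 + m33_3 - n3) ∧ (0 ≤ 0 + m33_2 - m33_3 + n3)) ∨ ((0 ≤ 1 - A3 + m33_3) ∧ (0 ≤ -1 + A3 - m33_3)) := by
    have h := C.f33_8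
    clear C e0 e1 e2 e3 s1 s2 s3 hF1 hF2
    omega
  have d13 : ((0 ≤ 0 - B1)) ∨ ((0 ≤ 0 - A2)) ∨ ((0 ≤ 0 - B3)) ∨ ((0 ≤ -1 + 2 * B1 - m11_1 - m23_1)) ∨ ((0 ≤ -1 + 2 * B2 - m11_2 - m23_2)) ∨ ((0 ≤ -1 + 2 * B3 - m11_3 - m23_3)) := by
    have h := C.p11_23B
    clear C e0 e1 e2 e3 s1 s2 s3 hF1 hF2
    omega
  have d14 : ((0 ≤ 0 - B1)) ∨ ((0 ≤ 0 - A3)) ∨ ((0 ≤ -1 + 2 * A1 - m11_1 - m33_1)) ∨ ((0 ≤ -1 + 2 * A2 - m11_2 - m33_2)) ∨ ((0 ≤ -1 + 2 * A3 - m11_3 - m33_3)) := by
    have h := C.p11_33A
    clear C e0 e1 e2 e3 s1 s2 s3 hF1 hF2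
    omega
  have d15 : ((0 ≤ 0 - A1)) ∨ ((0 ≤ 0 - B3)) ∨ ((0 ≤ 0 - A2)) ∨ ((0 ≤ -1 + 2 * A1 - m13_1 - m23_1)) ∨ ((0 ≤ -1 + 2 * A2 - m13_2 - m23_2)) ∨ ((0 ≤ -1 + 2 * A3 - m13_3 - m23_3)) := by
    have h := C.p13_23A
    clear C e0 e1 e2 e3 s1 s2 s3 hF1 hF2
    omega
  have d16 : ((0 ≤ 0 - B2)) ∨ ((0 ≤ 0 - A3)) ∨ ((0 ≤ -1 + 2 * A1 - m22_1 - m33_1)) ∨ ((0 ≤ -1 + 2 * A2 - m22_2 - m33_2)) ∨ ((0 ≤ -1 + 2 * A3 - m22_3 - m33_3)) := by
    have h := C.p22_33A
    clear C e0 e1 e2 e3 s1 s2 s3 hF1 hF2
    omega
  have d17 : ((0 ≤ 0 - A2)) ∨ ((0 ≤ 0 - B3)) ∨ ((0 ≤ 0 - A3)) ∨ ((0 ≤ -1 + 2 * A1 - m23_1 - m33_1)) ∨ ((0 ≤ -1 + 2 * A2 - m23_2 - m33_2)) ∨ ((0 ≤ -1 + 2 * A3 - m23_3 - m33_3)) := by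
    have h := C.p23_33A
    clear C e0 e1 e2 e3 s1 s2 s3 hF1 hF2
    omega
  have d18 : ((0 ≤ 0 - A1 + A2 - n2)) ∨ ((0 ≤ 1 + A2 - A3)) ∨ ((0 ≤ 0 + B1 - B2)) ∨ ((0 ≤ 1 - B2 + B3 - n3)) := by
    have h := C.tzmp
    clear C e0 e1 e2 e3 s1 s2 s3 hF1 hF2
    omega
  have d19 : ((0 ≤ 0 - A1)) ∨ ((0 ≤ 1 - A1 + A2 - n2)) ∨ ((0 ≤ 0 + A2 - A3)) ∨ ((0 ≤ 0 + B1 - n1)) ∨ ((0 ≤ 1 + B1 - B2)) ∨ ((0 ≤ 0 - B2 + B3 - n3)) := by
    have h := C.tpmz
    clear C e0 e1 e2 e3 s1 s2 s3 hF1 hF2
    omega
  have d20 : ((0 ≤ 0 + A1 - n1)) ∨ ((0 ≤ 0 - 2 * A1 + n1)) ∨ ((0 ≤ 2 - n2)) ∨ ((0 ≤ 2 - 2 * A1 + 2 * n1 - n3)) ∨ ((0 ≤ 0 - A1 + A2 - n2)) ∨ ((0 ≤ -2 + A1 - A2 + n2)) ∨ ((0 ≤ 0 - A1 - A2 + A3 + n1 - n3)) ∨ ((0 ≤ -2 + A1 + A2 - A3 - n1 + n3)) ∨ ((0 ≤ -1 - 2 * A1 + B1 + n1)) ∨ ((0 ≤ -1 + 2 * A1 - B1 - n1)) ∨ ((0 ≤ 0 - B1 + B2 - n2)) ∨ ((0 ≤ -2 + B1 - B2 + n2)) ∨ ((0 ≤ -1 - B2 + B3 - n3)) ∨ ((0 ≤ -1 + B2 - B3 + n3)) := by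
    have h := hF1
    clear C e0 e1 e2 e3 s1 s2 s3 hF1 hF2
    omega
  rcases d2 with ⟨g1, g2⟩ | ⟨g3, g4⟩
  · rcases d17 with g5 | g6 | g7 | g8 | g9 | g10
    · linarith only [g5, e1]
    · linarith only [g6, e2]
    · linarith only [g7, e3]
    · linarith only [g8, s1, C.o0, C.f11_0]
    · rcases d14 with g11 | g12 | g13 | g14 | g15
      · linarith only [g11, e0]
      · linarith only [g12, e3]
      · rcases d8 with ⟨g16, g17⟩ | ⟨g18, g19⟩ | ⟨g20, g21⟩
        · linarith only [C.f23_5, s1, s2, C.o0, C.f11_0, C.f11_1, g16, g13, g9]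
        · rcases d13 with g22 | g23 | g24 | g25 | g26 | g27
          · linarith only [g22, e0]
          · linarith only [g23, e1]
          · linarith only [g24, e2]
          · linarith only [g13, s1, C.o0, C.f11_0, g25]
          · linarith only [g9, s2, C.o1, g18, g26]
          · rcases d9 with ⟨g28, g29⟩ | ⟨g30, g31⟩
            · linarith only [C.b5, s2, C.o1, C.f11_2, g18, g28, g27, g9]
            · linarith only [g30, s2, C.b5, C.o1, C.f11_2, g27, g9]
        · linarith only [C.a4, C.o2, C.f23_5, g20]
      · linarith only [C.f23_5, s2, g14]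
      · rcases d12 with ⟨g32, g33⟩ | ⟨g34, g35⟩
        · linarith only [C.f23_5, s2, s3, C.b5, C.o1, C.f11_2, C.f23_9, g32, g15]
        · linarith only [g34, s2, s3, C.b5, C.o1, C.f11_2, C.f23_9, g15, g9]
    · rcases d14 with g36 | g37 | g38 | g39 | g40
      · linarith only [g36, e0]
      · linarith only [g37, e3]
      · rcases d8 with ⟨g41, g42⟩ | ⟨g43, g44⟩ | ⟨g45, g46⟩
        · linarith only [C.a3, s1, g41, C.f23_5, g38]
        · rcases d13 with g47 | g48 | g49 | g50 | g51 | g52
          · linarith only [g47, e0]
          · linarith only [g48, e1]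
          · linarith only [g49, e2]
          · linarith only [g50, s1, C.o0, C.f11_0, g38]
          · rcases d18 with g53 | g54 | g55 | g56
            · linarith only [g53, s2, C.f11_1, g44, C.f33_3, g38]
            · linarith only [C.o1, s2, g54, C.f33_4, g51]
            · linarith only [C.a3, s1, g55, C.o0, C.f11_0, C.f11_1, C.f23_1, g43, g51, g38]
            · rcases d12 with ⟨g57, g58⟩ | ⟨g59, g60⟩
              · linarith only [s2, s3, C.o1, C.f11_2, g43, g57, C.f33_7, g51, g10]
              · rcases d15 with g61 | g62 | g63 | g64 | g65 | g66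
                · linarith only [g61, e0, C.o0]
                · linarith only [g62, e2]
                · linarith only [g63, e1]
                · linarith only [g64, s1, g1, g38]
                · rcases d3 with ⟨g67, g68⟩ | ⟨g69, g70⟩
                  · rcases d0 with ⟨g71, g72⟩ | ⟨g73, g74⟩
                    · rcases d9 with ⟨g75, g76⟩ | ⟨g77, g78⟩
                      · linarith only [s3, C.o0, C.f11_0, C.f11_1, C.f11_2, g1, g67, g43, g75, g59, g65, g10]
                      · rcases d19 with g79 | g80 | g81 | g82 | g83 | g84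
                        · linarith only [g79, g71]
                        · rcases d10 with ⟨g85, g86⟩ | ⟨g87, g88⟩
                          · rcases d20 with g89 | g90 | g91 | g92 | g93 | g94 | g95 | g96 | g97 | g98 | g99 | g100 | g101 | g102
                            · linarith only [C.f23_0, s1, g89, C.o0, C.f11_0, g86]
                            · linarith only [g38, e0, C.f11_0, g85, g90]
                            · linarith only [s1, g72, C.f23_1, g38, g91]
                            · linarith only [C.b3, s2, s3, g80, C.b5, C.f11_0, C.f11_1, C.f11_2, g44, g78, g85, C.f33_4, g60, g38, g92]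
                            · linarith only [g93, g72]
                            · linarith only [g94, g80]
                            · linarith only [g95, s3, g80, C.f11_1, C.f11_2, g85, g38, g10]
                            · linarith only [C.f23_0, s1, g72, g56, C.f11_1, g43, g77, g86, g59, g51, g10, g96]
                            · linarith only [g38, C.f11_0, g85, g97]
                            · linarith only [s3, s1, g80, g56, C.f11_0, C.f11_1, C.f11_2, C.f23_0, g43, g77, g86, g59, g51, g10, g98]
                            · rcases d7 with ⟨g103, g104⟩ | ⟨g105, g106⟩ | ⟨g107, g108⟩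
                              · rcases d5 with ⟨g109, g110⟩ | ⟨g111, g112⟩
                                · rcases d6 with ⟨g113, g114⟩ | ⟨g115, g116⟩
                                  · linarith only [C.f22_4, s1, C.b3, C.f11_0, g109, g113, g104, g85, g38]
                                  · rcases d16 with g117 | g118 | g119 | g120 | g121
                                    · linarith only [e0, s1, g72, g99, C.f23_1, g38, g117]
                                    · linarith only [g118, e3]
                                    · linarith only [g119, s1, g109, g104, g85, g38]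
                                    · linarith only [g120, s2, g99, C.f11_0, C.f11_1, g115, g44]
                                    · linarith only [s3, g99, C.f11_0, C.f11_1, C.f11_2, g115, C.f22_6, g59, g121, g10]
                                · rcases d6 with ⟨g122, g123⟩ | ⟨g124, g125⟩
                                  · linarith only [C.f22_4, s1, g72, g111, g122, C.f23_1, g38]
                                  · rcases d16 with g126 | g127 | g128 | g129 | g130
                                    · linarith only [e0, s1, g72, g99, C.f23_1, g38, g126]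
                                    · linarith only [g127, e3]
                                    · linarith only [g128, s1, g72, g99, C.f11_0, g111, C.f23_1]
                                    · linarith only [g129, s2, g99, C.f11_0, C.f11_1, g124, g44]
                                    · linarith only [s3, g99, C.f11_0, C.f11_1, C.f11_2, g124, C.f22_6, g59, g130, g10]
                              · rcases d5 with ⟨g131, g132⟩ | ⟨g133, g134⟩
                                · rcases d6 with ⟨g135, g136⟩ | ⟨g137, g138⟩
                                  · linarith only [C.f22_4, s1, C.b3, C.f11_0, g131, g135, C.f23_0, g85, g38]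
                                  · rcases d16 with g139 | g140 | g141 | g142 | g143
                                    · linarith only [e0, s1, g72, g99, g106, g38, g139]
                                    · linarith only [g140, e3]
                                    · linarith only [g141, s1, g131, C.f23_0, g85, g38]
                                    · linarith only [g142, s2, g99, C.f11_0, C.f11_1, g137, g44]
                                    · linarith only [s3, g99, C.f11_0, C.f11_1, C.f11_2, g137, C.f22_6, g59, g143, g10]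
                                · rcases d6 with ⟨g144, g145⟩ | ⟨g146, g147⟩
                                  · linarith only [C.f22_4, s1, g72, g133, g144, g106, g38]
                                  · rcases d16 with g148 | g149 | g150 | g151 | g152
                                    · linarith only [e0, s1, g72, g99, g106, g38, g148]
                                    · linarith only [g149, e3]
                                    · linarith only [g150, s1, g72, g99, C.f11_0, g133, g106]
                                    · linarith only [g151, s2, g99, C.f11_0, C.f11_1, g146, g44]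
                                    · linarith only [s3, g99, C.f11_0, C.f11_1, C.f11_2, g146, C.f22_6, g59, g152, g10]
                              · linarith only [s3, s1, s2, g80, g99, g56, C.f11_0, C.f11_1, C.f11_2, C.f23_0, C.f23_1, g107, g44, g78, g85, C.f33_4, g60, g38]
                            · linarith only [C.o0, g80, g100, C.f11_0, C.f11_1, g43, g51]
                            · linarith only [g101, C.b5]
                            · rcases d7 with ⟨g153, g154⟩ | ⟨g155, g156⟩ | ⟨g157, g158⟩
                              · rcases d1 with ⟨g159, g160⟩ | ⟨g161, g162⟩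
                                · rcases d5 with ⟨g163, g164⟩ | ⟨g165, g166⟩
                                  · rcases d6 with ⟨g167, g168⟩ | ⟨g169, g170⟩
                                    · linarith only [s3, s1, g56, C.f11_1, C.f11_2, g163, g167, C.f22_4, g154, g77, g85, g59, g38, g10]
                                    · rcases d16 with g171 | g172 | g173 | g174 | g175
                                      · linarith only [e0, s1, C.f11_0, g163, C.f22_1, g154, g85, g38, g171]
                                      · linarith only [g172, e3]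
                                      · linarith only [g173, s1, g163, g154, g85, g38]
                                      · linarith only [g174, s1, s2, g80, C.f11_1, g169, g154, g44, g85, g51, g38]
                                      · linarith only [s3, s1, g80, g102, C.f11_1, C.f11_2, g169, C.f22_6, g154, g43, g78, g85, g59, g51, g38, g175]
                                  · rcases d6 with ⟨g176, g177⟩ | ⟨g178, g179⟩
                                    · linarith only [C.f22_4, g159, g72, g165, g176]
                                    · rcases d16 with g180 | g181 | g182 | g183 | g184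
                                      · linarith only [e0, s1, g72, C.f11_0, C.f11_1, g154, C.f23_1, g43, g85, g51, g38, g180]
                                      · linarith only [g181, e3]
                                      · linarith only [g182, s1, g72, C.f11_1, g165, g154, C.f23_1, g43, g85, g51, g38]
                                      · linarith only [g183, s1, s2, g80, C.f11_1, g178, g154, g44, g85, g51, g38]
                                      · linarith only [s3, s1, g80, g102, C.f11_1, C.f11_2, g178, C.f22_6, g154, g43, g78, g85, g59, g51, g38, g184]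
                                · rcases d5 with ⟨g185, g186⟩ | ⟨g187, g188⟩
                                  · rcases d6 with ⟨g189, g190⟩ | ⟨g191, g192⟩
                                    · linarith only [s3, s1, g56, C.f11_1, C.f11_2, g185, g189, C.f22_4, g154, g77, g85, g59, g38, g10]
                                    · rcases d16 with g193 | g194 | g195 | g196 | g197
                                      · linarith only [e0, s1, C.f11_0, g185, C.f22_1, g154, g85, g38, g193]
                                      · linarith only [g194, e3]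
                                      · linarith only [g195, s1, g185, g154, g85, g38]
                                      · linarith only [g196, s1, s2, g80, C.f11_1, g191, g154, g44, g85, g51, g38]
                                      · linarith only [s3, s1, g80, g162, C.f11_1, C.f11_2, g191, C.f22_6, g154, g43, g78, g85, g59, g51, g38, g197]
                                  · rcases d6 with ⟨g198, g199⟩ | ⟨g200, g201⟩
                                    · linarith only [C.f22_4, C.a2, g72, g187, g198]
                                    · rcases d16 with g202 | g203 | g204 | g205 | g206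
                                      · linarith only [e0, s1, g72, C.f11_0, C.f11_1, g154, C.f23_1, g43, g85, g51, g38, g202]
                                      · linarith only [g203, e3]
                                      · linarith only [g204, s1, g72, C.f11_1, g187, g154, C.f23_1, g43, g85, g51, g38]
                                      · linarith only [g205, s1, s2, g80, C.f11_1, g200, g154, g44, g85, g51, g38]
                                      · linarith only [s3, s1, g80, g162, C.f11_1, C.f11_2, g200, C.f22_6, g154, g43, g78, g85, g59, g51, g38, g206]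
                              · rcases d5 with ⟨g207, g208⟩ | ⟨g209, g210⟩
                                · rcases d6 with ⟨g211, g212⟩ | ⟨g213, g214⟩
                                  · linarith only [s3, s1, g56, C.f11_1, C.f11_2, g207, g211, C.f22_4, C.f23_0, g77, g85, g59, g38, g10]
                                  · rcases d16 with g215 | g216 | g217 | g218 | g219
                                    · linarith only [e0, s1, C.f11_0, g207, C.f22_1, C.f23_0, g85, g38, g215]
                                    · linarith only [g216, e3]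
                                    · linarith only [g217, s1, g207, C.f23_0, g85, g38]
                                    · linarith only [g218, s1, s2, g80, C.f11_1, g207, C.f22_1, g213, C.f23_0, g155, g44, g85, g38]
                                    · linarith only [s3, s1, g80, g102, C.f11_1, C.f11_2, g207, C.f22_1, g213, C.f22_6, C.f23_0, g155, g78, g85, g59, g38, g219]
                                · rcases d6 with ⟨g220, g221⟩ | ⟨g222, g223⟩
                                  · linarith only [C.f22_4, s1, g72, g209, g220, g156, g38]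
                                  · rcases d16 with g224 | g225 | g226 | g227 | g228
                                    · linarith only [e0, s1, g72, C.f11_0, C.f11_1, C.f23_0, g156, g43, g85, g51, g38, g224]
                                    · linarith only [g225, e3]
                                    · linarith only [g226, s1, g72, C.f11_1, g209, C.f23_0, g156, g43, g85, g51, g38]
                                    · linarith only [g227, s1, s2, g80, C.f11_1, g222, C.f23_0, g44, g85, g51, g38]
                                    · linarith only [s3, s1, g80, g102, C.f11_1, C.f11_2, g222, C.f22_6, C.f23_0, g43, g78, g85, g59, g51, g38, g228]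
                              · linarith only [C.b2, s1, s2, s3, g80, g56, C.f11_0, C.f11_1, C.f11_2, C.f23_0, C.f23_1, g157, g44, g78, g85, C.f33_4, g60, g38]
                          · linarith only [g87, s1, s2, g80, C.f11_1, C.f23_1, g44, C.f33_4, g38]
                        · linarith only [g81, s2, C.o0, C.f11_0, C.f11_1, g1, g67, C.f33_4, g65]
                        · linarith only [g82, s1, C.o0, C.f23_0, g38]
                        · linarith only [g72, s1, g83, C.o0, C.f11_0, C.f11_1, C.f23_1, g43, g51, g38]
                        · linarith only [g65, s3, g84, C.o0, C.f11_0, C.f11_1, C.f11_2, g1, g67, g43, g77, g59, g51, g10]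
                    · linarith only [g65, g74, C.o0, C.f11_0, C.f11_1, g1, g67, g43, g51]
                  · linarith only [g65, s2, C.o1, C.o2, g69, g43, C.f33_4, g51]
                · rcases d19 with g229 | g230 | g231 | g232 | g233 | g234
                  · linarith only [g229, e0, C.o0]
                  · rcases d3 with ⟨g235, g236⟩ | ⟨g237, g238⟩
                    · rcases d4 with ⟨g239, g240⟩ | ⟨g241, g242⟩
                      · linarith only [s3, C.o0, C.f11_0, C.f11_1, C.f11_2, g1, g235, g239, g60, g66]
                      · linarith only [g241, s3, g230, g56, C.o0, C.f11_0, C.f11_1, C.f11_2, g43, g60, g51, g66]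
                    · linarith only [s3, s2, g230, g56, C.o0, C.f11_0, C.f11_1, C.f11_2, g2, C.f13_3, g237, g44, C.f33_4, g51, g10]
                  · linarith only [C.o1, s2, g231, C.f33_4, g51]
                  · linarith only [C.a1, g232, C.o0]
                  · linarith only [C.a3, s1, g233, C.o0, C.f11_0, C.f11_1, C.f23_1, g43, g51, g38]
                  · rcases d1 with ⟨g243, g244⟩ | ⟨g245, g246⟩
                    · rcases d4 with ⟨g247, g248⟩ | ⟨g249, g250⟩
                      · rcases d3 with ⟨g251, g252⟩ | ⟨g253, g254⟩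
                        · linarith only [s3, C.o0, C.f11_0, C.f11_1, C.f11_2, g1, g251, g247, g60, g66]
                        · linarith only [C.a4, s3, g244, g234, C.o1, C.f11_2, g253, g247, g43, g60, g51, g66]
                      · linarith only [C.o1, s3, g234, C.f11_2, g249, g43, g60, g51, g66]
                    · linarith only [g246, g234]
          · rcases d15 with g255 | g256 | g257 | g258 | g259 | g260
            · linarith only [g255, e0, C.o0]
            · linarith only [g256, e2]
            · linarith only [g257, e1]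
            · linarith only [g258, s1, g1, g38]
            · rcases d7 with ⟨g261, g262⟩ | ⟨g263, g264⟩ | ⟨g265, g266⟩
              · rcases d0 with ⟨g267, g268⟩ | ⟨g269, g270⟩
                · rcases d1 with ⟨g271, g272⟩ | ⟨g273, g274⟩
                  · rcases d3 with ⟨g275, g276⟩ | ⟨g277, g278⟩
                    · rcases d10 with ⟨g279, g280⟩ | ⟨g281, g282⟩
                      · rcases d12 with ⟨g283, g284⟩ | ⟨g285, g286⟩
                        · linarith only [s3, s1, s2, C.f11_1, C.f11_2, g1, g275, g262, g43, g279, g283, C.f33_7, g38, g259, g10]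
                        · rcases d9 with ⟨g287, g288⟩ | ⟨g289, g290⟩
                          · linarith only [s3, C.o0, C.f11_0, C.f11_1, C.f11_2, g1, g275, g43, g287, g285, g259, g10]
                          · rcases d18 with g291 | g292 | g293 | g294
                            · linarith only [g291, g268]
                            · linarith only [g292, s2, C.o0, C.f11_0, C.f11_1, g1, g275, C.f33_4, g259]
                            · linarith only [g268, s1, g293, C.b5, C.o0, C.f11_0, C.f11_1, C.f11_2, g261, C.f23_1, g289, g280, g52]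
                            · rcases d20 with g295 | g296 | g297 | g298 | g299 | g300 | g301 | g302 | g303 | g304 | g305 | g306 | g307 | g308
                              · linarith only [g295, s1, C.o0, C.f11_0, g262, g280]
                              · linarith only [g38, e0, C.f11_0, g279, g296]
                              · linarith only [s1, g268, C.o0, C.f11_0, g261, C.f23_1, g280, g297]
                              · linarith only [s3, s2, C.f11_1, C.f11_2, g1, g275, g43, g279, C.f33_4, g38, g259, g10, g298]
                              · linarith only [g299, g268]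
                              · linarith only [g300, g1, g275, g43, g259]
                              · linarith only [g301, s3, C.f11_1, C.f11_2, g1, g275, g43, g279, g38, g259, g10]
                              · linarith only [C.f33_3, s2, C.f11_2, g1, g275, g289, g280, g285, g52, g259, g10, g302]
                              · linarith only [g38, C.f11_0, g279, g303]
                              · linarith only [s2, C.f11_0, C.f11_1, g1, g275, g43, g280, C.f33_3, g259, g304]
                              · rcases d5 with ⟨g309, g310⟩ | ⟨g311, g312⟩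
                                · rcases d6 with ⟨g313, g314⟩ | ⟨g315, g316⟩
                                  · linarith only [C.f22_4, s1, C.b3, C.o0, C.f11_0, g309, g313, g262, g280]
                                  · rcases d16 with g317 | g318 | g319 | g320 | g321
                                    · linarith only [e0, e1, s1, g268, g305, C.f11_0, g261, C.f23_1, g280, g317]
                                    · linarith only [g318, e3]
                                    · linarith only [g319, s1, C.o0, C.f11_0, g309, g262]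
                                    · linarith only [g320, s2, g305, C.f11_0, C.f11_1, g315, g44]
                                    · linarith only [s3, g305, C.f11_0, C.f11_1, C.f11_2, g315, C.f22_6, g285, g321, g10]
                                · rcases d6 with ⟨g322, g323⟩ | ⟨g324, g325⟩
                                  · linarith only [C.f22_4, s1, g268, C.o0, C.f11_0, g311, g322, g261, C.f23_1, g280]
                                  · rcases d16 with g326 | g327 | g328 | g329 | g330
                                    · linarith only [e0, e1, s1, g268, g305, C.f11_0, g261, C.f23_1, g280, g326]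
                                    · linarith only [g327, e3]
                                    · linarith only [g328, s1, g268, g305, C.f11_0, g311, C.f23_1]
                                    · linarith only [g329, s2, g305, C.f11_0, C.f11_1, g324, g44]
                                    · linarith only [s3, g305, C.f11_0, C.f11_1, C.f11_2, g324, C.f22_6, g285, g330, g10]
                              · linarith only [C.b5, g306, C.f11_0, C.f11_1, C.f11_2, g289, g52]
                              · linarith only [g307, C.b5]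
                              · rcases d5 with ⟨g331, g332⟩ | ⟨g333, g334⟩
                                · rcases d6 with ⟨g335, g336⟩ | ⟨g337, g338⟩
                                  · linarith only [s3, s1, g294, C.o0, C.f11_0, C.f11_1, C.f11_2, g331, g335, C.f22_4, g262, g289, g280, g285, g10]
                                  · rcases d16 with g339 | g340 | g341 | g342 | g343
                                    · linarith only [e0, e1, s1, g268, g308, C.f11_0, C.f11_1, C.f11_2, g331, C.f22_1, g262, g289, g280, g52, g339]
                                    · linarith only [g340, e3]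
                                    · linarith only [g341, s1, C.o0, C.f11_0, g331, g262]
                                    · linarith only [g342, s2, g308, C.f11_2, g337, g44, g289, g52]
                                    · linarith only [s3, g308, g337, C.f22_6, g285, g52, g343]
                                · rcases d6 with ⟨g344, g345⟩ | ⟨g346, g347⟩
                                  · linarith only [C.f22_4, g271, g268, g333, g344]
                                  · rcases d16 with g348 | g349 | g350 | g351 | g352
                                    · linarith only [e0, e1, s1, g268, g308, C.f11_0, C.f11_1, C.f11_2, g261, C.f23_1, g289, g280, g52, g348]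
                                    · linarith only [g349, e3]
                                    · linarith only [g350, s1, g268, g308, C.f11_1, C.f11_2, g333, C.f23_1, g289, g52]
                                    · linarith only [g351, s2, g308, C.f11_2, g346, g44, g289, g52]
                                    · linarith only [s3, g308, g346, C.f22_6, g285, g52, g352]
                      · linarith only [g281, s2, C.o0, C.f11_0, C.f11_1, g1, g275, g261, C.f23_1, C.f33_0, C.f33_4, g259]
                    · rcases d9 with ⟨g353, g354⟩ | ⟨g355, g356⟩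
                      · linarith only [C.a4, s2, g272, C.f11_2, g277, g43, g353, C.f33_4, g52, g259]
                      · linarith only [g355, s2, g272, C.f11_2, g277, C.f33_4, g52, g259]
                  · rcases d9 with ⟨g357, g358⟩ | ⟨g359, g360⟩
                    · linarith only [C.b3, g274, C.o1, C.f11_0, C.f11_1, C.f11_2, g43, g357, g52]
                    · rcases d19 with g361 | g362 | g363 | g364 | g365 | g366
                      · linarith only [g361, g267]
                      · rcases d18 with g367 | g368 | g369 | g370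
                        · linarith only [g367, g268]
                        · linarith only [g368, s2, g274, C.o1, C.f11_2, g44, g359, C.f33_4, g52]
                        · linarith only [g369, g273]
                        · rcases d10 with ⟨g371, g372⟩ | ⟨g373, g374⟩
                          · rcases d12 with ⟨g375, g376⟩ | ⟨g377, g378⟩
                            · linarith only [s3, s2, g362, C.o0, C.f11_0, C.f11_1, C.f11_2, g44, g359, g375, g52, g10]
                            · rcases d5 with ⟨g379, g380⟩ | ⟨g381, g382⟩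
                              · rcases d6 with ⟨g383, g384⟩ | ⟨g385, g386⟩
                                · linarith only [s3, s1, g370, C.o0, C.f11_0, C.f11_1, C.f11_2, g379, g383, C.f22_4, g262, g359, g372, g377, g10]
                                · rcases d16 with g387 | g388 | g389 | g390 | g391
                                  · linarith only [e0, e1, s1, g268, g274, C.f11_0, C.f11_1, C.f11_2, g379, C.f22_1, g262, g359, g372, g52, g387]
                                  · linarith only [g388, e3]
                                  · linarith only [g389, s1, C.o0, C.f11_0, g379, g262]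
                                  · linarith only [g390, s2, g274, C.f11_2, g385, g44, g359, g52]
                                  · linarith only [s3, g274, g385, C.f22_6, g377, g52, g391]
                              · rcases d6 with ⟨g392, g393⟩ | ⟨g394, g395⟩
                                · linarith only [C.f22_4, C.a2, g268, g381, g392]
                                · rcases d16 with g396 | g397 | g398 | g399 | g400
                                  · linarith only [e0, e1, s1, g268, g274, C.f11_0, C.f11_1, C.f11_2, g261, C.f23_1, g359, g372, g52, g396]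
                                  · linarith only [g397, e3]
                                  · linarith only [g398, s1, g268, g274, C.f11_1, C.f11_2, g381, C.f23_1, g359, g52]
                                  · linarith only [g399, s2, g274, C.f11_2, g394, g44, g359, g52]
                                  · linarith only [s3, g274, g394, C.f22_6, g377, g52, g400]
                          · linarith only [g373, s2, g362, C.o0, C.f11_0, C.f11_1, g261, C.f23_1, g44, C.f33_0, C.f33_4]
                      · linarith only [g363, s2, g274, C.o1, C.f11_2, g44, g359, C.f33_4, g52]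
                      · linarith only [g364, s1, g268, g274, C.o1, C.f11_0, C.f11_1, C.f11_2, g262, g359, C.f33_0, g52]
                      · linarith only [g365, s1, g268, g274, C.o1, C.f11_0, C.f11_1, C.f11_2, g261, C.f23_1, g359, C.f33_0, g52]
                      · linarith only [g366, g274]
                · rcases d1 with ⟨g401, g402⟩ | ⟨g403, g404⟩
                  · rcases d3 with ⟨g405, g406⟩ | ⟨g407, g408⟩
                    · rcases d9 with ⟨g409, g410⟩ | ⟨g411, g412⟩
                      · linarith only [C.b5, g270, C.o0, C.f11_0, C.f11_1, C.f11_2, g1, g405, g43, g409, g52, g259]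
                      · rcases d10 with ⟨g413, g414⟩ | ⟨g415, g416⟩
                        · rcases d20 with g417 | g418 | g419 | g420 | g421 | g422 | g423 | g424 | g425 | g426 | g427 | g428 | g429 | g430
                          · linarith only [g417, s1, C.o0, C.f11_0, g262, g414]
                          · linarith only [g38, g269, C.f11_0, g413, g418]
                          · linarith only [s1, s2, C.o0, C.f11_0, C.f11_1, g261, C.f23_1, g44, g414, C.f33_3, g419]
                          · linarith only [g259, s2, s3, C.f11_1, C.f11_2, g1, g405, g43, g413, C.f33_4, g38, g10, g420]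
                          · linarith only [C.f33_3, s2, g421, C.f11_1, g44, g38]
                          · linarith only [g259, g422, g1, g405, g43]
                          · linarith only [g423, s3, C.f11_1, C.f11_2, g1, g405, g43, g413, g38, g259, g10]
                          · rcases d12 with ⟨g431, g432⟩ | ⟨g433, g434⟩
                            · linarith only [s3, s1, s2, C.f11_1, C.f11_2, g1, g405, g262, g43, g411, g413, g431, g52, g38, g259, g10]
                            · linarith only [C.f33_3, s2, C.f11_2, g1, g405, g411, g414, g433, g52, g259, g10, g424]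
                          · linarith only [g425, C.f11_0, g413, g38]
                          · linarith only [C.f33_3, s2, C.f11_0, C.f11_1, g1, g405, g43, g414, g259, g426]
                          · linarith only [g427, g270]
                          · linarith only [g428, C.b5, C.f11_0, C.f11_1, C.f11_2, g411, g52]
                          · linarith only [g429, C.b5]
                          · linarith only [g270, g430, C.f11_0, C.f11_1, C.f11_2, g411, g52]
                        · linarith only [g415, s2, C.o0, C.f11_0, C.f11_1, g1, g405, g261, C.f23_1, C.f33_0, C.f33_4, g259]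
                    · rcases d9 with ⟨g435, g436⟩ | ⟨g437, g438⟩
                      · linarith only [C.a4, s2, g402, C.f11_2, g407, g43, g435, C.f33_4, g52, g259]
                      · linarith only [g437, s2, g402, C.f11_2, g407, C.f33_4, g52, g259]
                  · rcases d9 with ⟨g439, g440⟩ | ⟨g441, g442⟩
                    · linarith only [g439, g270, g404, C.o1, C.f11_0, C.f11_1, C.f11_2, g43, g52]
                    · linarith only [g441, g270, g404, C.f11_0, C.f11_1, C.f11_2, g52]
              · rcases d0 with ⟨g443, g444⟩ | ⟨g445, g446⟩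
                · rcases d1 with ⟨g447, g448⟩ | ⟨g449, g450⟩
                  · rcases d3 with ⟨g451, g452⟩ | ⟨g453, g454⟩
                    · rcases d10 with ⟨g455, g456⟩ | ⟨g457, g458⟩
                      · rcases d12 with ⟨g459, g460⟩ | ⟨g461, g462⟩
                        · linarith only [s3, s1, s2, C.f11_1, C.f11_2, g1, g451, C.f23_0, g43, g455, g459, C.f33_7, g38, g259, g10]
                        · rcases d9 with ⟨g463, g464⟩ | ⟨g465, g466⟩
                          · linarith only [s3, C.o0, C.f11_0, C.f11_1, C.f11_2, g1, g451, g43, g463, g461, g259, g10]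
                          · rcases d18 with g467 | g468 | g469 | g470
                            · linarith only [g467, g444]
                            · linarith only [g468, s2, C.o0, C.f11_0, C.f11_1, g1, g451, C.f33_4, g259]
                            · linarith only [g444, s1, g469, C.b5, C.f11_0, C.f11_1, C.f11_2, g264, g465, g52, g38]
                            · rcases d20 with g471 | g472 | g473 | g474 | g475 | g476 | g477 | g478 | g479 | g480 | g481 | g482 | g483 | g484
                              · linarith only [C.f23_0, s1, g471, C.o0, C.f11_0, g456]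
                              · linarith only [g38, e0, C.f11_0, g455, g472]
                              · linarith only [s1, g444, g264, g38, g473]
                              · linarith only [s3, s2, C.f11_1, C.f11_2, g1, g451, g43, g455, C.f33_4, g38, g259, g10, g474]
                              · linarith only [g475, g444]
                              · linarith only [g476, g1, g451, g43, g259]
                              · linarith only [g477, s3, C.f11_1, C.f11_2, g1, g451, g43, g455, g38, g259, g10]
                              · linarith only [C.f33_3, s2, C.f11_2, g1, g451, g465, g456, g461, g52, g259, g10, g478]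
                              · linarith only [g38, C.f11_0, g455, g479]
                              · linarith only [s2, C.f11_0, C.f11_1, g1, g451, g43, g456, C.f33_3, g259, g480]
                              · rcases d5 with ⟨g485, g486⟩ | ⟨g487, g488⟩
                                · rcases d6 with ⟨g489, g490⟩ | ⟨g491, g492⟩
                                  · linarith only [C.f22_4, C.a1, C.b3, C.o0, g485, g489]
                                  · rcases d16 with g493 | g494 | g495 | g496 | g497
                                    · linarith only [e0, e1, s1, g444, g481, C.f11_0, g485, C.f22_1, g264, g456, g493]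
                                    · linarith only [g494, e3]
                                    · linarith only [C.a1, g485, g455, g495]
                                    · linarith only [g496, s2, g481, C.f11_0, C.f11_1, g491, g44]
                                    · linarith only [s3, g481, C.f11_0, C.f11_1, C.f11_2, g491, C.f22_6, g461, g497, g10]
                                · rcases d6 with ⟨g498, g499⟩ | ⟨g500, g501⟩
                                  · linarith only [C.f22_4, g447, g444, g487, g498]
                                  · rcases d16 with g502 | g503 | g504 | g505 | g506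
                                    · linarith only [e0, s1, g444, g481, g264, g38, g502]
                                    · linarith only [g503, e3]
                                    · linarith only [g504, s1, g444, g481, C.f11_0, g487, g264]
                                    · linarith only [g505, s2, g481, C.f11_0, C.f11_1, g500, g44]
                                    · linarith only [s3, g481, C.f11_0, C.f11_1, C.f11_2, g500, C.f22_6, g461, g506, g10]
                              · linarith only [C.b5, g482, C.f11_0, C.f11_1, C.f11_2, g465, g52]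
                              · linarith only [g483, C.b5]
                              · rcases d19 with g507 | g508 | g509 | g510 | g511 | g512
                                · linarith only [g507, g443]
                                · rcases d5 with ⟨g513, g514⟩ | ⟨g515, g516⟩
                                  · rcases d6 with ⟨g517, g518⟩ | ⟨g519, g520⟩
                                    · linarith only [s3, C.a1, g470, C.o0, C.f11_0, C.f11_1, C.f11_2, g513, g517, C.f22_4, g465, g461, g10]
                                    · rcases d16 with g521 | g522 | g523 | g524 | g525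
                                      · linarith only [e1, g513, C.f22_1, C.f23_0, g263, g521]
                                      · linarith only [g522, e3]
                                      · linarith only [g523, s1, C.o0, C.f11_0, g513, C.f23_0]
                                      · linarith only [g524, s2, g508, C.o0, C.f11_0, C.f11_1, g513, C.f22_1, g519, C.f23_0, g263, g44]
                                      · linarith only [s3, g508, g484, C.o0, C.f11_0, C.f11_1, C.f11_2, g513, C.f22_1, g519, C.f22_6, C.f23_0, g263, g466, g461, g525]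
                                  · rcases d6 with ⟨g526, g527⟩ | ⟨g528, g529⟩
                                    · linarith only [C.f22_4, g447, g444, g515, g526]
                                    · rcases d16 with g530 | g531 | g532 | g533 | g534
                                      · linarith only [e0, s1, g444, g484, C.f11_0, C.f11_1, C.f11_2, g264, g465, g52, g38, g530]
                                      · linarith only [g531, e3]
                                      · linarith only [g532, s1, g444, g484, C.f11_1, C.f11_2, g515, g264, g465, g52]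
                                      · linarith only [g533, s2, g484, C.f11_2, g528, g44, g465, g52]
                                      · linarith only [s3, g484, g528, C.f22_6, g461, g52, g534]
                                · linarith only [g448, s2, g509, C.f11_2, g44, g465, C.f33_4, g461, g52, g10]
                                · linarith only [C.a1, g510, C.o0]
                                · linarith only [g444, g447, g511, g484, C.f11_0, C.f11_1, C.f11_2, g465, g52]
                                · linarith only [g512, g484]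
                      · linarith only [s1, s2, C.f11_1, g1, g451, g264, g457, C.f33_4, g38, g259]
                    · rcases d9 with ⟨g535, g536⟩ | ⟨g537, g538⟩
                      · linarith only [C.a4, s2, g448, C.f11_2, g453, g43, g535, C.f33_4, g52, g259]
                      · linarith only [g537, s2, g448, C.f11_2, g453, C.f33_4, g52, g259]
                  · rcases d9 with ⟨g539, g540⟩ | ⟨g541, g542⟩
                    · linarith only [C.b3, g450, C.o1, C.f11_0, C.f11_1, C.f11_2, g43, g539, g52]
                    · rcases d19 with g543 | g544 | g545 | g546 | g547 | g548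
                      · linarith only [g543, g443]
                      · rcases d18 with g549 | g550 | g551 | g552
                        · linarith only [g549, g444]
                        · linarith only [g550, s2, g450, C.o1, C.f11_2, g44, g541, C.f33_4, g52]
                        · linarith only [g551, g449]
                        · rcases d12 with ⟨g553, g554⟩ | ⟨g555, g556⟩
                          · linarith only [s3, s2, g544, C.o0, C.f11_0, C.f11_1, C.f11_2, g44, g541, g553, g52, g10]
                          · rcases d5 with ⟨g557, g558⟩ | ⟨g559, g560⟩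
                            · rcases d6 with ⟨g561, g562⟩ | ⟨g563, g564⟩
                              · linarith only [s3, C.a1, g552, C.o0, C.f11_0, C.f11_1, C.f11_2, g557, g561, C.f22_4, g541, g555, g10]
                              · rcases d16 with g565 | g566 | g567 | g568 | g569
                                · linarith only [e1, g557, C.f22_1, C.f23_0, g263, g565]
                                · linarith only [g566, e3]
                                · linarith only [g567, s1, C.o0, C.f11_0, g557, C.f23_0]
                                · linarith only [g568, s2, g544, C.o0, C.f11_0, C.f11_1, g557, C.f22_1, g563, C.f23_0, g263, g44]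
                                · linarith only [s3, g544, g450, C.o0, C.f11_0, C.f11_1, C.f11_2, g557, C.f22_1, g563, C.f22_6, C.f23_0, g263, g542, g555, g569]
                            · rcases d6 with ⟨g570, g571⟩ | ⟨g572, g573⟩
                              · linarith only [C.f22_4, C.a2, g444, g559, g570]
                              · rcases d16 with g574 | g575 | g576 | g577 | g578
                                · linarith only [e0, s1, g444, g450, C.f11_0, C.f11_1, C.f11_2, g264, g541, g52, g38, g574]
                                · linarith only [g575, e3]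
                                · linarith only [g576, s1, g444, g450, C.f11_1, C.f11_2, g559, g264, g541, g52]
                                · linarith only [g577, s2, g450, C.f11_2, g572, g44, g541, g52]
                                · linarith only [s3, g450, g572, C.f22_6, g555, g52, g578]
                      · linarith only [g545, s2, g450, C.o1, C.f11_2, g44, g541, C.f33_4, g52]
                      · linarith only [g546, s2, g450, C.o1, C.f11_0, C.f11_1, C.f11_2, g44, g541, C.f33_0, C.f33_3, g52]
                      · linarith only [g547, s1, s2, g450, C.f11_0, C.f11_1, C.f11_2, g264, g44, g541, C.f33_3, g52, g38]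
                      · linarith only [g548, g450]
                · rcases d1 with ⟨g579, g580⟩ | ⟨g581, g582⟩
                  · rcases d3 with ⟨g583, g584⟩ | ⟨g585, g586⟩
                    · rcases d5 with ⟨g587, g588⟩ | ⟨g589, g590⟩
                      · linarith only [C.f22_1, g446, C.o0, g1, g583, g587, C.f23_0, g263, g43, g259]
                      · rcases d9 with ⟨g591, g592⟩ | ⟨g593, g594⟩
                        · linarith only [C.b5, g446, C.o0, C.f11_0, C.f11_1, C.f11_2, g1, g583, g43, g591, g52, g259]
                        · rcases d10 with ⟨g595, g596⟩ | ⟨g597, g598⟩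
                          · rcases d20 with g599 | g600 | g601 | g602 | g603 | g604 | g605 | g606 | g607 | g608 | g609 | g610 | g611 | g612
                            · linarith only [C.f22_0, s1, s2, g599, C.b5, C.o0, C.f11_0, C.f11_1, C.f11_2, g589, g264, g44, g593, g596, C.f33_3, g52]
                            · linarith only [g38, g445, C.f11_0, g595, g600]
                            · linarith only [s2, s1, C.f11_1, g264, g44, C.f33_3, g38, g601]
                            · linarith only [g259, s2, s3, C.f11_1, C.f11_2, g1, g583, g43, g595, C.f33_4, g38, g10, g602]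
                            · linarith only [C.f33_3, s2, g603, C.f11_1, g44, g38]
                            · linarith only [g259, g604, g1, g583, g43]
                            · linarith only [g605, s3, C.f11_1, C.f11_2, g1, g583, g43, g595, g38, g259, g10]
                            · rcases d12 with ⟨g613, g614⟩ | ⟨g615, g616⟩
                              · linarith only [s3, s2, C.o0, C.f11_0, C.f11_1, C.f11_2, g1, g583, g43, g593, g613, g52, g259, g10]
                              · linarith only [C.f33_3, s2, C.f11_2, g1, g583, g593, g596, g615, g52, g259, g10, g606]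
                            · linarith only [g607, C.f11_0, g595, g38]
                            · linarith only [C.f33_3, s2, C.f11_0, C.f11_1, g1, g583, g43, g596, g259, g608]
                            · linarith only [g609, g446]
                            · linarith only [C.b5, g610, C.f11_0, C.f11_1, C.f11_2, g593, g52]
                            · linarith only [g611, C.b5]
                            · linarith only [g446, g612, C.f11_0, C.f11_1, C.f11_2, g593, g52]
                          · linarith only [s1, s2, C.f11_1, g1, g583, g264, g597, C.f33_4, g38, g259]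
                    · rcases d9 with ⟨g617, g618⟩ | ⟨g619, g620⟩
                      · linarith only [C.a4, s2, g580, C.f11_2, g585, g43, g617, C.f33_4, g52, g259]
                      · linarith only [g619, s2, g580, C.f11_2, g585, C.f33_4, g52, g259]
                  · rcases d9 with ⟨g621, g622⟩ | ⟨g623, g624⟩
                    · linarith only [g621, g446, g582, C.o1, C.f11_0, C.f11_1, C.f11_2, g43, g52]
                    · linarith only [g623, g446, g582, C.f11_0, C.f11_1, C.f11_2, g52]
              · linarith only [C.a4, C.o2, C.f23_1, g265]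
            · rcases d7 with ⟨g625, g626⟩ | ⟨g627, g628⟩ | ⟨g629, g630⟩
              · rcases d0 with ⟨g631, g632⟩ | ⟨g633, g634⟩
                · rcases d1 with ⟨g635, g636⟩ | ⟨g637, g638⟩
                  · rcases d3 with ⟨g639, g640⟩ | ⟨g641, g642⟩
                    · rcases d4 with ⟨g643, g644⟩ | ⟨g645, g646⟩
                      · linarith only [s3, C.o0, C.f11_0, C.f11_1, C.f11_2, g1, g639, g643, C.f33_7, g260]
                      · rcases d9 with ⟨g647, g648⟩ | ⟨g649, g650⟩
                        · linarith only [g636, C.o2, g645, g43, g647, g260]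
                        · linarith only [g649, C.o2, g645, g260]
                    · rcases d4 with ⟨g651, g652⟩ | ⟨g653, g654⟩
                      · linarith only [C.a4, g636, g641, g651, C.f13_7]
                      · rcases d9 with ⟨g655, g656⟩ | ⟨g657, g658⟩
                        · linarith only [g260, s3, C.b5, C.o1, g653, g43, g655, C.f33_7, g52]
                        · linarith only [g657, s3, g653, C.f33_7, g52, g260]
                  · rcases d9 with ⟨g659, g660⟩ | ⟨g661, g662⟩
                    · linarith only [C.b3, g638, C.o1, C.f11_0, C.f11_1, C.f11_2, g43, g659, g52]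
                    · rcases d19 with g663 | g664 | g665 | g666 | g667 | g668
                      · linarith only [g663, g631]
                      · rcases d3 with ⟨g669, g670⟩ | ⟨g671, g672⟩
                        · rcases d4 with ⟨g673, g674⟩ | ⟨g675, g676⟩
                          · linarith only [C.a5, s3, g632, g1, g669, g673, g661, g52, g260, g10]
                          · linarith only [g675, s3, g661, g52, g260, g10]
                        · linarith only [s3, s2, g664, C.o0, C.f11_0, C.f11_1, g2, C.f13_3, g671, g44, g661, C.f33_4, g52, g10]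
                      · linarith only [g665, s2, g638, C.o1, C.f11_2, g44, g661, C.f33_4, g52]
                      · linarith only [g666, s1, g632, g638, C.o1, C.f11_0, C.f11_1, C.f11_2, g626, g661, C.f33_0, g52]
                      · linarith only [g667, s1, g632, g638, C.o1, C.f11_0, C.f11_1, C.f11_2, g625, C.f23_1, g661, C.f33_0, g52]
                      · linarith only [g668, g638]
                · rcases d1 with ⟨g677, g678⟩ | ⟨g679, g680⟩
                  · rcases d3 with ⟨g681, g682⟩ | ⟨g683, g684⟩
                    · rcases d4 with ⟨g685, g686⟩ | ⟨g687, g688⟩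
                      · linarith only [s3, C.o0, C.f11_0, C.f11_1, C.f11_2, g1, g681, g685, C.f33_7, g260]
                      · rcases d9 with ⟨g689, g690⟩ | ⟨g691, g692⟩
                        · linarith only [g634, g678, C.b5, C.f11_0, C.f11_1, C.f11_2, g687, g43, g689, g52, g260]
                        · linarith only [g691, C.o2, g687, g260]
                    · rcases d4 with ⟨g693, g694⟩ | ⟨g695, g696⟩
                      · linarith only [C.a4, g678, g683, g693, C.f13_7]
                      · rcases d9 with ⟨g697, g698⟩ | ⟨g699, g700⟩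
                        · linarith only [g634, g678, C.b5, C.f11_0, C.f11_1, C.f11_2, g695, g43, g697, g52, g260]
                        · linarith only [g699, C.o2, g695, g260]
                  · rcases d9 with ⟨g701, g702⟩ | ⟨g703, g704⟩
                    · linarith only [g701, g634, g680, C.o1, C.f11_0, C.f11_1, C.f11_2, g43, g52]
                    · linarith only [g703, g634, g680, C.f11_0, C.f11_1, C.f11_2, g52]
              · rcases d0 with ⟨g705, g706⟩ | ⟨g707, g708⟩
                · rcases d1 with ⟨g709, g710⟩ | ⟨g711, g712⟩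
                  · rcases d3 with ⟨g713, g714⟩ | ⟨g715, g716⟩
                    · rcases d4 with ⟨g717, g718⟩ | ⟨g719, g720⟩
                      · linarith only [s3, C.o0, C.f11_0, C.f11_1, C.f11_2, g1, g713, g717, C.f33_7, g260]
                      · rcases d9 with ⟨g721, g722⟩ | ⟨g723, g724⟩
                        · linarith only [g710, C.o2, g719, g43, g721, g260]
                        · linarith only [g723, C.o2, g719, g260]
                    · rcases d4 with ⟨g725, g726⟩ | ⟨g727, g728⟩
                      · linarith only [C.a4, g710, g715, g725, C.f13_7]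
                      · rcases d9 with ⟨g729, g730⟩ | ⟨g731, g732⟩
                        · linarith only [g260, s3, C.b5, C.o1, g727, g43, g729, C.f33_7, g52]
                        · linarith only [g731, s3, g727, C.f33_7, g52, g260]
                  · rcases d9 with ⟨g733, g734⟩ | ⟨g735, g736⟩
                    · linarith only [C.b3, g712, C.o1, C.f11_0, C.f11_1, C.f11_2, g43, g733, g52]
                    · rcases d19 with g737 | g738 | g739 | g740 | g741 | g742
                      · linarith only [g737, g705]
                      · rcases d3 with ⟨g743, g744⟩ | ⟨g745, g746⟩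
                        · rcases d4 with ⟨g747, g748⟩ | ⟨g749, g750⟩
                          · linarith only [C.a5, s3, g706, g1, g743, g747, g735, g52, g260, g10]
                          · linarith only [g749, s3, g735, g52, g260, g10]
                        · linarith only [s3, s2, g738, C.o0, C.f11_0, C.f11_1, g2, C.f13_3, g745, g44, g735, C.f33_4, g52, g10]
                      · linarith only [g739, s2, g712, C.o1, C.f11_2, g44, g735, C.f33_4, g52]
                      · linarith only [g740, s2, g712, C.o1, C.f11_0, C.f11_1, C.f11_2, g44, g735, C.f33_0, C.f33_3, g52]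
                      · linarith only [g741, s1, s2, g712, C.f11_0, C.f11_1, C.f11_2, g628, g44, g735, C.f33_3, g52, g38]
                      · linarith only [g742, g712]
                · rcases d1 with ⟨g751, g752⟩ | ⟨g753, g754⟩
                  · rcases d3 with ⟨g755, g756⟩ | ⟨g757, g758⟩
                    · rcases d4 with ⟨g759, g760⟩ | ⟨g761, g762⟩
                      · linarith only [s3, C.o0, C.f11_0, C.f11_1, C.f11_2, g1, g755, g759, C.f33_7, g260]
                      · rcases d9 with ⟨g763, g764⟩ | ⟨g765, g766⟩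
                        · linarith only [g708, g752, C.b5, C.f11_0, C.f11_1, C.f11_2, g761, g43, g763, g52, g260]
                        · linarith only [g765, C.o2, g761, g260]
                    · rcases d4 with ⟨g767, g768⟩ | ⟨g769, g770⟩
                      · linarith only [C.a4, g752, g757, g767, C.f13_7]
                      · rcases d9 with ⟨g771, g772⟩ | ⟨g773, g774⟩
                        · linarith only [g708, g752, C.b5, C.f11_0, C.f11_1, C.f11_2, g769, g43, g771, g52, g260]
                        · linarith only [g773, C.o2, g769, g260]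
                  · rcases d9 with ⟨g775, g776⟩ | ⟨g777, g778⟩
                    · linarith only [g775, g708, g754, C.o1, C.f11_0, C.f11_1, C.f11_2, g43, g52]
                    · linarith only [g777, g708, g754, C.f11_0, C.f11_1, C.f11_2, g52]
              · linarith only [C.a4, s3, C.f23_1, g629, C.f33_7, g52]
        · linarith only [C.a4, C.o2, C.f23_5, g45]
      · linarith only [g39, s2, C.f23_5]
      · rcases d12 with ⟨g779, g780⟩ | ⟨g781, g782⟩
        · linarith only [C.f23_5, s2, s3, C.b5, C.o1, C.f11_2, C.f23_9, g779, g40]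
        · linarith only [g781, s3, C.b3, C.b5, C.f11_0, C.f11_1, C.f11_2, C.f23_9, g40]
  · linarith only [C.a2, C.a4, C.o2, C.f13_0, g3]


theorem c0_11_22_33_k0 {n1 n2 n3 A1 A2 A3 B1 B2 B3 m11_1 m11_2 m11_3 m13_1 m13_2 m13_3 m22_1 m22_2 m22_3 m23_1 m23_2 m23_3 m33_1 m33_2 m33_3 : ℤ}
    (C : Ctx0 n1 n2 n3 A1 A2 A3 B1 B2 B3 m11_1 m11_2 m11_3 m13_1 m13_2 m13_3 m22_1 m22_2 m22_3 m23_1 m23_2 m23_3 m33_1 m33_2 m33_3)
    (e0 : 0 < B1)
    (e1 : 0 < B2)
    (e2 : 0 < A3)
    (s1 : 0 * A1 + 3 * B1 ≤ m11_1 + m22_1 + m33_1)
    (s2 : 0 * A2 + 3 * B2 ≤ m11_2 + m22_2 + m33_2)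
    (s3 : 0 * A3 + 3 * B3 ≤ m11_3 + m22_3 + m33_3) : False := by
  have d0 : ((0 ≤ -1 + A1) ∧ (0 ≤ -1 + A1 - A2 + n2)) ∨ ((0 ≤ -1 + B1) ∧ (0 ≤ -1 + B1 - B2 + n2)) := by
    have h := C.t12
    clear C e0 e1 e2 s1 s2 s3
    omega
  have d1 : ((0 ≤ -1 - A1 + A2) ∧ (0 ≤ -1 + A2 - A3 + n3)) ∨ ((0 ≤ -1 - B1 + B2) ∧ (0 ≤ -1 + B2 - B3 + n3)) := by
    have h := C.t23
    clear C e0 e1 e2 s1 s2 s3
    omega
  have d2 : ((0 ≤ 1 - A1 + m13_1) ∧ (0 ≤ -1 + A1 - m13_1)) ∨ ((0 ≤ 1 - B3 + m13_1) ∧ (0 ≤ -1 + B3 - m13_1)) := by
    have h := C.f13_2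
    clear C e0 e1 e2 s1 s2 s3
    omega
  have d3 : ((0 ≤ 0 - m13_1 + m13_2 - n2) ∧ (0 ≤ 0 + m13_1 - m13_2 + n2)) ∨ ((0 ≤ 1 - B3 + m13_2) ∧ (0 ≤ -1 + B3 - m13_2)) := by
    have h := C.f13_5
    clear C e0 e1 e2 s1 s2 s3
    omega
  have d4 : ((0 ≤ 0 - m13_2 + m13_3 - n3) ∧ (0 ≤ 0 + m13_2 - m13_3 + n3)) ∨ ((0 ≤ 1 - B3 + m13_3) ∧ (0 ≤ -1 + B3 - m13_3)) := by
    have h := C.f13_8
    clear C e0 e1 e2 s1 s2 s3
    omega
  have d7 : ((0 ≤ 0 + m33_1 - n1) ∧ (0 ≤ 0 - m33_1 + n1)) ∨ ((0 ≤ 1 - A3 + m33_1) ∧ (0 ≤ -1 + A3 - m33_1)) := by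
    have h := C.f33_2
    clear C e0 e1 e2 s1 s2 s3
    omega
  have d9 : ((0 ≤ 0 - m33_2 + m33_3 - n3) ∧ (0 ≤ 0 + m33_2 - m33_3 + n3)) ∨ ((0 ≤ 1 - A3 + m33_3) ∧ (0 ≤ -1 + A3 - m33_3)) := by
    have h := C.f33_8
    clear C e0 e1 e2 s1 s2 s3
    omega
  have d10 : ((0 ≤ 0 - B1)) ∨ ((0 ≤ 0 - A3)) ∨ ((0 ≤ -1 + 2 * B1 - m11_1 - m33_1)) ∨ ((0 ≤ -1 + 2 * B2 - m11_2 - m33_2)) ∨ ((0 ≤ -1 + 2 * B3 - m11_3 - m33_3)) := by
    have h := C.p11_33B
    clear C e0 e1 e2 s1 s2 s3
    omega
  have d11 : ((0 ≤ 0 - A1)) ∨ ((0 ≤ 0 - B3)) ∨ ((0 ≤ 0 - B2)) ∨ ((0 ≤ -1 + 2 * B1 - m13_1 - m22_1)) ∨ ((0 ≤ -1 + 2 * B2 - m13_2 - m22_2)) ∨ ((0 ≤ -1 + 2 * B3 - m13_3 - m22_3)) := by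
    have h := C.p13_22B
    clear C e0 e1 e2 s1 s2 s3
    omega
  have d12 : ((0 ≤ 0 - A1 + A2 - n2)) ∨ ((0 ≤ 1 + A2 - A3)) ∨ ((0 ≤ 0 + B1 - B2)) ∨ ((0 ≤ 1 - B2 + B3 - n3)) := by
    have h := C.tzmp
    clear C e0 e1 e2 s1 s2 s3
    omega
  have d13 : ((0 ≤ 0 + A1 - A2)) ∨ ((0 ≤ 1 - A2 + A3 - n3)) ∨ ((0 ≤ 0 - B1 + B2 - n2)) ∨ ((0 ≤ 1 + B2 - B3)) ∨ ((0 ≤ -1 + A2 - B2) ∧ (0 ≤ 1 + A3 - B3)) := by
    have h := C.tzpm
    clear C e0 e1 e2 s1 s2 s3
    omega
  have d15 : ((0 ≤ 0 - A1)) ∨ ((0 ≤ 0 - A1 + A2 - n2)) ∨ ((0 ≤ 0 - A2 + A3 - n3)) ∨ ((0 ≤ 0 + B1 - n1)) ∨ ((0 ≤ 0 + B1 - B2)) ∨ ((0 ≤ 0 + B2 - B3)) ∨ ((0 ≤ 1 + A3 - B3)) ∨ ((0 ≤ 1 - A1 + B1) ∧ (0 ≤ 0 - A2 + B2)) := by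
    have h := C.tpzm
    clear C e0 e1 e2 s1 s2 s3
    omega
  rcases d2 with ⟨g1, g2⟩ | ⟨g3, g4⟩
  · rcases d10 with g5 | g6 | g7 | g8 | g9
    · linarith only [g5, e0]
    · linarith only [g6, e2]
    · rcases d7 with ⟨g10, g11⟩ | ⟨g12, g13⟩
      · linarith only [g10, C.a1, C.o0, C.f11_0, g7]
      · linarith only [C.a4, s1, C.o1, C.f11_0, C.f22_1, g12, g7]
    · linarith only [s2, C.f22_4, g8]
    · rcases d9 with ⟨g14, g15⟩ | ⟨g16, g17⟩
      · linarith only [g14, s2, s3, C.f11_2, C.f22_4, C.f22_6, g9]
      · rcases d0 with ⟨g18, g19⟩ | ⟨g20, g21⟩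
        · rcases d12 with g22 | g23 | g24 | g25
          · linarith only [g22, g19]
          · rcases d1 with ⟨g26, g27⟩ | ⟨g28, g29⟩
            · rcases d13 with g30 | g31 | g32 | g33 | ⟨g34, g35⟩
              · linarith only [g30, g26]
              · linarith only [s2, s3, g23, g31, C.f11_2, C.f22_4, C.f22_6, C.f33_4, g16, g9]
              · rcases d11 with g36 | g37 | g38 | g39 | g40 | g41
                · linarith only [g36, g18]
                · linarith only [g37, e0, s2, s3, g26, g19, g32, C.f11_2, C.f22_4, C.f22_6, C.f33_4, g16, g9]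
                · linarith only [g38, e1]
                · linarith only [g39, s2, g19, g23, g32, C.f11_0, C.f11_1, g1, C.f22_3, C.f33_4]
                · rcases d3 with ⟨g42, g43⟩ | ⟨g44, g45⟩
                  · linarith only [g40, s2, g19, g23, g32, C.f11_0, C.f11_1, g1, g42, C.f33_4]
                  · linarith only [g40, s2, s3, C.f11_2, g44, C.f22_4, C.f22_6, C.f33_4, g16, g9]
                · rcases d4 with ⟨g46, g47⟩ | ⟨g48, g49⟩
                  · rcases d3 with ⟨g50, g51⟩ | ⟨g52, g53⟩
                    · linarith only [g50, s2, s3, g19, g23, g32, C.f11_0, C.f11_1, g1, g46, C.f22_4, C.f22_6, C.f33_4, g9, g41]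
                    · linarith only [g52, s2, s3, C.f11_2, g46, C.f22_4, C.f22_6, C.f33_4, g16, g9, g41]
                  · linarith only [g48, s3, g9, g41]
              · linarith only [g33, s2, s3, C.f11_2, C.f22_4, C.f22_6, C.f33_4, g16, g9]
              · rcases d11 with g54 | g55 | g56 | g57 | g58 | g59
                · linarith only [g54, g18]
                · linarith only [g55, e0, s2, s3, g26, g19, g35, C.f11_0, C.f11_1, C.f11_2, C.f22_4, C.f22_6, C.f33_4, g16, g9]
                · linarith only [g56, e1]
                · linarith only [g57, s2, s3, g19, g23, g35, C.f11_0, C.f11_1, C.f11_2, g1, C.f22_3, C.f22_4, C.f22_6, C.f33_4, g16, g9]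
                · rcases d3 with ⟨g60, g61⟩ | ⟨g62, g63⟩
                  · linarith only [g58, s2, s3, g19, g23, g35, C.f11_2, g1, g60, C.f22_4, C.f22_6, C.f33_4, g16, g9]
                  · linarith only [g58, s2, s3, C.f11_2, g62, C.f22_4, C.f22_6, C.f33_4, g16, g9]
                · rcases d4 with ⟨g64, g65⟩ | ⟨g66, g67⟩
                  · rcases d3 with ⟨g68, g69⟩ | ⟨g70, g71⟩
                    · linarith only [g68, s2, s3, g19, g23, g35, C.f11_2, g1, g64, C.f22_4, C.f22_6, C.f33_4, g16, g9, g59]
                    · linarith only [g70, s2, s3, C.f11_2, g64, C.f22_4, C.f22_6, C.f33_4, g16, g9, g59]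
                  · linarith only [g66, s3, g9, g59]
            · rcases d15 with g72 | g73 | g74 | g75 | g76 | g77 | g78 | ⟨g79, g80⟩
              · linarith only [g72, g18]
              · linarith only [g73, g19]
              · linarith only [g23, s2, s3, g74, C.f11_2, C.f22_4, C.f22_6, C.f33_4, g16, g9]
              · linarith only [C.a1, g75, C.o0]
              · linarith only [g76, g28]
              · linarith only [g77, s2, s3, C.f11_2, C.f22_4, C.f22_6, C.f33_4, g16, g9]
              · rcases d11 with g81 | g82 | g83 | g84 | g85 | g86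
                · linarith only [g81, g18]
                · linarith only [g82, e0, s2, s3, C.a2, g19, g78, C.f11_0, C.f11_1, C.f11_2, C.f22_4, C.f22_6, C.f33_4, g16, g9]
                · linarith only [g83, e1]
                · linarith only [g84, s2, s3, g19, g23, g78, C.f11_0, C.f11_1, C.f11_2, g1, C.f22_3, C.f22_4, C.f22_6, C.f33_4, g16, g9]
                · rcases d3 with ⟨g87, g88⟩ | ⟨g89, g90⟩
                  · linarith only [g85, s2, s3, g19, g23, g78, C.f11_2, g1, g87, C.f22_4, C.f22_6, C.f33_4, g16, g9]
                  · linarith only [g85, s2, s3, C.f11_2, g89, C.f22_4, C.f22_6, C.f33_4, g16, g9]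
                · rcases d4 with ⟨g91, g92⟩ | ⟨g93, g94⟩
                  · rcases d3 with ⟨g95, g96⟩ | ⟨g97, g98⟩
                    · linarith only [g95, s2, s3, g19, g23, g78, C.f11_2, g1, g91, C.f22_4, C.f22_6, C.f33_4, g16, g9, g86]
                    · linarith only [g97, s2, s3, C.f11_2, g91, C.f22_4, C.f22_6, C.f33_4, g16, g9, g86]
                  · linarith only [g93, s3, g9, g86]
              · rcases d13 with g99 | g100 | g101 | g102 | ⟨g103, g104⟩
                · rcases d3 with ⟨g105, g106⟩ | ⟨g107, g108⟩
                  · rcases d11 with g109 | g110 | g111 | g112 | g113 | g114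
                    · linarith only [g109, g18]
                    · linarith only [g110, e0, s2, s3, C.a2, C.o0, g80, C.f11_2, C.f22_4, C.f22_6, C.f33_4, g16, g9]
                    · linarith only [g111, e1]
                    · linarith only [C.f33_1, s1, g99, g23, C.f11_0, g1, g112]
                    · linarith only [g113, s2, g23, C.o0, g80, C.f11_0, C.f11_1, g1, g105, C.f33_4]
                    · rcases d4 with ⟨g115, g116⟩ | ⟨g117, g118⟩
                      · linarith only [g115, s2, s3, g23, C.o0, g80, C.f11_0, C.f11_1, g1, g105, C.f22_4, C.f22_6, C.f33_4, g9, g114]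
                      · linarith only [g117, s3, g9, g114]
                  · linarith only [s1, s3, g99, g79, C.o1, C.f11_1, C.f11_2, g2, C.f13_3, g107, C.f22_1, C.f22_4, C.f22_6, C.f33_1, g16, g9]
                · linarith only [g100, s2, s3, g23, C.f11_2, C.f22_4, C.f22_6, C.f33_4, g16, g9]
                · linarith only [g101, s2, g23, g80, C.f11_0, C.f11_1, C.f22_4, C.f33_4]
                · linarith only [g102, s2, s3, C.f11_2, C.f22_4, C.f22_6, C.f33_4, g16, g9]
                · linarith only [g103, g80]
          · rcases d13 with g119 | g120 | g121 | g122 | ⟨g123, g124⟩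
            · rcases d1 with ⟨g125, g126⟩ | ⟨g127, g128⟩
              · linarith only [g125, g119]
              · linarith only [g127, g24]
            · linarith only [g120, s3, C.a2, g19, g24, C.o0, C.f11_0, C.f11_1, C.f11_2, C.f22_4, C.f22_6, g16, g9]
            · linarith only [g121, C.a2, g19, g24]
            · linarith only [s2, s3, g122, C.f11_2, C.f22_4, C.f22_6, C.f33_4, g16, g9]
            · linarith only [g124, s3, C.a2, g19, g24, C.f11_0, C.f11_1, C.f11_2, C.f22_4, C.f22_6, g16, g9]
          · linarith only [g25, s3, C.f22_4, C.f22_6, g9]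
        · rcases d13 with g129 | g130 | g131 | g132 | ⟨g133, g134⟩
          · rcases d1 with ⟨g135, g136⟩ | ⟨g137, g138⟩
            · linarith only [g135, g129]
            · rcases d15 with g139 | g140 | g141 | g142 | g143 | g144 | g145 | ⟨g146, g147⟩
              · linarith only [g139, g20, g129, g137, C.o1]
              · linarith only [g21, g129, g140, g137]
              · linarith only [g21, s3, g141, C.o1, C.f11_0, C.f11_1, C.f11_2, C.f22_4, C.f22_6, g16, g9]
              · linarith only [g137, C.a1, g129, g142, C.o1]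
              · linarith only [g143, g137]
              · linarith only [g144, s2, s3, C.f11_2, C.f22_4, C.f22_6, C.f33_4, g16, g9]
              · linarith only [g145, s3, g21, C.f11_0, C.f11_1, C.f11_2, C.f22_4, C.f22_6, g16, g9]
              · rcases d12 with g148 | g149 | g150 | g151
                · linarith only [g148, g21, C.o0, g147]
                · rcases d3 with ⟨g152, g153⟩ | ⟨g154, g155⟩
                  · rcases d11 with g156 | g157 | g158 | g159 | g160 | g161
                    · linarith only [g156, g20, C.o0]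
                    · linarith only [g157, g20, s2, s3, C.a2, C.o0, g147, C.f11_2, C.f22_4, C.f22_6, C.f33_4, g16, g9]
                    · linarith only [g158, e1]
                    · linarith only [C.f33_1, s1, g129, g149, C.f11_0, g1, g159]
                    · linarith only [g160, s2, g149, C.o0, g147, C.f11_0, C.f11_1, g1, g152, C.f33_4]
                    · rcases d4 with ⟨g162, g163⟩ | ⟨g164, g165⟩
                      · linarith only [g162, s2, s3, g149, C.o0, g147, C.f11_0, C.f11_1, g1, g152, C.f22_4, C.f22_6, C.f33_4, g9, g161]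
                      · linarith only [g164, s3, g9, g161]
                  · linarith only [C.f22_1, s1, s3, g129, g146, C.o1, C.f11_1, C.f11_2, g2, C.f13_3, g154, C.f22_4, C.f22_6, C.f33_1, g16, g9]
                · linarith only [g150, g137]
                · linarith only [g151, s3, C.f22_4, C.f22_6, g9]
          · linarith only [C.o1, s3, g130, g21, C.f11_0, C.f11_1, C.f11_2, C.f22_4, C.f22_6, g16, g9]
          · linarith only [g131, g21]
          · linarith only [g132, s2, s3, C.f11_2, C.f22_4, C.f22_6, C.f33_4, g16, g9]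
          · linarith only [g134, s3, g21, C.f11_0, C.f11_1, C.f11_2, C.f22_4, C.f22_6, g16, g9]
  · linarith only [C.a4, C.a2, C.o2, C.f13_0, g3]


theorem c3_22_22_33_k0 {n1 n2 n3 A1 A2 A3 B1 B2 B3 m11_1 m11_2 m11_3 m22_1 m22_2 m22_3 m23_1 m23_2 m23_3 m33_1 m33_2 m33_3 : ℤ}
    (C : Ctx3 n1 n2 n3 A1 A2 A3 B1 B2 B3 m11_1 m11_2 m11_3 m22_1 m22_2 m22_3 m23_1 m23_2 m23_3 m33_1 m33_2 m33_3)
    (e0 : 0 < B2)
    (e1 : 0 < A3)
    (s1 : 0 * A1 + 3 * B1 ≤ m22_1 + m22_1 + m33_1)
    (s2 : 0 * A2 + 3 * B2 ≤ m22_2 + m22_2 + m33_2)
    (s3 : 0 * A3 + 3 * B3 ≤ m22_3 + m22_3 + m33_3) : False := by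
  have d0 : ((0 ≤ -1 + A1) ∧ (0 ≤ -1 + A1 - A2 + n2)) ∨ ((0 ≤ -1 + B1) ∧ (0 ≤ -1 + B1 - B2 + n2)) := by
    have h := C.t12
    clear C e0 e1 s1 s2 s3
    omega
  have d2 : ((0 ≤ 0 + m22_1 - n1) ∧ (0 ≤ 0 - m22_1 + n1)) ∨ ((0 ≤ 1 - B2 + m22_1) ∧ (0 ≤ -1 + B2 - m22_1)) := by
    have h := C.f22_2
    clear C e0 e1 s1 s2 s3
    omega
  have d3 : ((0 ≤ 0 - m22_1 + m22_2 - n2) ∧ (0 ≤ 0 + m22_1 - m22_2 + n2)) ∨ ((0 ≤ 1 - B2 + m22_2) ∧ (0 ≤ -1 + B2 - m22_2)) := by
    have h := C.f22_5
    clear C e0 e1 s1 s2 s3
    omega
  have d4 : ((0 ≤ 0 + m23_1 - n1) ∧ (0 ≤ 0 - m23_1 + n1)) ∨ ((0 ≤ 1 - A2 + m23_1) ∧ (0 ≤ -1 + A2 - m23_1)) ∨ ((0 ≤ 1 - B3 + m23_1) ∧ (0 ≤ -1 + B3 - m23_1)) := by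
    have h := C.f23_3
    clear C e0 e1 s1 s2 s3
    omega
  have d5 : ((0 ≤ 0 - m23_1 + m23_2 - n2) ∧ (0 ≤ 0 + m23_1 - m23_2 + n2)) ∨ ((0 ≤ 1 - A2 + m23_2) ∧ (0 ≤ -1 + A2 - m23_2)) ∨ ((0 ≤ 1 - B3 + m23_2) ∧ (0 ≤ -1 + B3 - m23_2)) := by
    have h := C.f23_7
    clear C e0 e1 s1 s2 s3
    omega
  have d6 : ((0 ≤ 0 - m23_2 + m23_3 - n3) ∧ (0 ≤ 0 + m23_2 - m23_3 + n3)) ∨ ((0 ≤ 1 - B3 + m23_3) ∧ (0 ≤ -1 + B3 - m23_3)) := by
    have h := C.f23_10
    clear C e0 e1 s1 s2 s3
    omega
  have d7 : ((0 ≤ 0 + m33_1 - n1) ∧ (0 ≤ 0 - m33_1 + n1)) ∨ ((0 ≤ 1 - A3 + m33_1) ∧ (0 ≤ -1 + A3 - m33_1)) := by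
    have h := C.f33_2
    clear C e0 e1 s1 s2 s3
    omega
  have d9 : ((0 ≤ 0 - m33_2 + m33_3 - n3) ∧ (0 ≤ 0 + m33_2 - m33_3 + n3)) ∨ ((0 ≤ 1 - A3 + m33_3) ∧ (0 ≤ -1 + A3 - m33_3)) := by
    have h := C.f33_8
    clear C e0 e1 s1 s2 s3
    omega
  have d10 : ((0 ≤ 0 - B2)) ∨ ((0 ≤ 0 - A2)) ∨ ((0 ≤ 0 - B3)) ∨ ((0 ≤ -1 + 2 * B1 - m22_1 - m23_1)) ∨ ((0 ≤ -1 + 2 * B2 - m22_2 - m23_2)) ∨ ((0 ≤ -1 + 2 * B3 - m22_3 - m23_3)) := by
    have h := C.p22_23B
    clear C e0 e1 s1 s2 s3
    omega
  have d11 : ((0 ≤ 0 - B2)) ∨ ((0 ≤ 0 - A3)) ∨ ((0 ≤ -1 + 2 * A1 - m22_1 - m33_1)) ∨ ((0 ≤ -1 + 2 * A2 - m22_2 - m33_2)) ∨ ((0 ≤ -1 + 2 * A3 - m22_3 - m33_3)) := by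
    have h := C.p22_33A
    clear C e0 e1 s1 s2 s3
    omega
  have d13 : ((0 ≤ 0 + A1 - n1)) ∨ ((0 ≤ 0 + A1 - A2)) ∨ ((0 ≤ 0 + A2 - A3)) ∨ ((0 ≤ 0 - B1)) ∨ ((0 ≤ 0 - B1 + B2 - n2)) ∨ ((0 ≤ 0 - B2 + B3 - n3)) := by
    have h := C.tmzp
    clear C e0 e1 s1 s2 s3
    omega
  have d15 : ((0 ≤ 0 - A1 + A2 - n2)) ∨ ((0 ≤ 1 + A2 - A3)) ∨ ((0 ≤ 0 + B1 - B2)) ∨ ((0 ≤ 1 - B2 + B3 - n3)) := by
    have h := C.tzmp
    clear C e0 e1 s1 s2 s3
    omega
  rcases d9 with ⟨g1, g2⟩ | ⟨g3, g4⟩
  · linarith only [s2, s3, C.o2, C.f22_4, C.f22_6, g1, C.f33_7]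
  · rcases d11 with g5 | g6 | g7 | g8 | g9
    · linarith only [g5, e0]
    · linarith only [g6, e1]
    · rcases d7 with ⟨g10, g11⟩ | ⟨g12, g13⟩
      · linarith only [g10, s1, C.o0, C.f22_0, g7]
      · linarith only [g12, s1, s2, C.o0, C.f22_1, C.f22_4, C.f33_4, g7]
    · rcases d4 with ⟨g14, g15⟩ | ⟨g16, g17⟩ | ⟨g18, g19⟩
      · rcases d5 with ⟨g20, g21⟩ | ⟨g22, g23⟩ | ⟨g24, g25⟩
        · linarith only [C.a1, C.a3, g14, g20, C.f23_5]
        · rcases d6 with ⟨g26, g27⟩ | ⟨g28, g29⟩
          · linarith only [C.f23_9, s2, s3, C.o2, C.f22_4, C.f22_6, g22, g26, g4, g8]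
          · rcases d10 with g30 | g31 | g32 | g33 | g34 | g35
            · linarith only [g30, e0]
            · linarith only [C.a1, C.a0, g14, C.f23_1, g31]
            · linarith only [g32, e0, s2, C.o2, C.f22_4, C.f33_4]
            · linarith only [C.a1, s1, C.o0, g14, C.f33_0, g33]
            · rcases d7 with ⟨g36, g37⟩ | ⟨g38, g39⟩
              · rcases d13 with g40 | g41 | g42 | g43 | g44 | g45
                · rcases d15 with g46 | g47 | g48 | g49
                  · linarith only [g46, s2, g40, g22, g37, C.f33_3, g34, g8]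
                  · linarith only [g47, s2, g22, C.f33_4, g34, g8]
                  · linarith only [g48, s1, g40, C.o0, C.f22_1, g37]
                  · linarith only [g49, s2, s3, C.o2, C.f22_6, g22, g4, g34, g8]
                · linarith only [C.b2, s2, g41, C.o0, g22, g34, g8]
                · linarith only [g42, s2, g22, C.f33_4, g34, g8]
                · rcases d0 with ⟨g50, g51⟩ | ⟨g52, g53⟩
                  · linarith only [g50, g43, C.o0]
                  · linarith only [g52, g43]
                · linarith only [g44, s2, C.a3, C.o0, g22, g34, g8]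
                · linarith only [g45, s2, s3, C.o2, C.f22_6, g22, g4, g34, g8]
              · linarith only [g38, s2, g14, C.f23_1, g22, C.f33_0, C.f33_4, g34, g8]
            · linarith only [g35, s3, C.o2, g28, g4]
        · linarith only [C.a4, C.o2, C.f23_5, g24]
      · rcases d5 with ⟨g54, g55⟩ | ⟨g56, g57⟩ | ⟨g58, g59⟩
        · linarith only [C.o1, C.a3, C.b2, C.o0, g16, g54, C.f23_5]
        · rcases d2 with ⟨g60, g61⟩ | ⟨g62, g63⟩
          · linarith only [g60, s2, C.f22_1, C.f22_4, C.f23_0, g16, g8]
          · rcases d3 with ⟨g64, g65⟩ | ⟨g66, g67⟩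
            · linarith only [C.b2, C.a3, C.o0, C.o1, g62, g64, C.f22_4]
            · rcases d6 with ⟨g68, g69⟩ | ⟨g70, g71⟩
              · linarith only [C.f23_9, s3, C.o1, C.o2, g67, C.f22_6, g56, g68, g4]
              · rcases d10 with g72 | g73 | g74 | g75 | g76 | g77
                · linarith only [g72, e0]
                · linarith only [g73, e0, C.o1]
                · linarith only [e1, C.o2, g74]
                · rcases d13 with g78 | g79 | g80 | g81 | g82 | g83
                  · linarith only [g78, s1, C.o0, C.o1, g63, g16, C.f33_0, g75]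
                  · linarith only [C.b2, g79, C.o0, C.o1]
                  · linarith only [g75, s2, g80, C.b2, g62, g67, g16, C.f33_4]
                  · linarith only [C.o1, e0, g81, g62, g16, g75]
                  · linarith only [C.a3, g82, C.o0, C.o1]
                  · linarith only [g83, s3, C.o2, g67, C.f22_6, g4]
                · rcases d13 with g84 | g85 | g86 | g87 | g88 | g89
                  · linarith only [s2, s1, g84, C.o0, g63, g67, C.f23_0, g16, C.f33_0, g8]
                  · linarith only [C.b2, s2, g85, C.o0, g67, g8]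
                  · linarith only [g76, s2, g86, g67, g56, C.f33_4]
                  · rcases d0 with ⟨g90, g91⟩ | ⟨g92, g93⟩
                    · linarith only [g90, g87, C.o0]
                    · linarith only [g92, g87]
                  · linarith only [C.o1, C.a3, g88, C.o0]
                  · linarith only [g89, s3, C.o2, g67, C.f22_6, g4]
                · linarith only [g77, s3, C.o2, g70, g4]
        · linarith only [C.a4, C.o2, C.f23_5, g58]
      · linarith only [C.a4, C.o2, C.f23_1, g18]
    · linarith only [g9, s3, C.o2, g3]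


theorem c2_11_13_22_k0 {n1 n2 n3 A1 A2 A3 B1 B2 B3 m11_1 m11_2 m11_3 m12_1 m12_2 m12_3 m13_1 m13_2 m13_3 m22_1 m22_2 m22_3 m33_1 m33_2 m33_3 : ℤ}
    (C : Ctx2 n1 n2 n3 A1 A2 A3 B1 B2 B3 m11_1 m11_2 m11_3 m12_1 m12_2 m12_3 m13_1 m13_2 m13_3 m22_1 m22_2 m22_3 m33_1 m33_2 m33_3)
    (e0 : 0 < B1)
    (e1 : 0 < A1)
    (e2 : 0 < B3)
    (e3 : 0 < A2)
    (s1 : 0 * A1 + 3 * B1 ≤ m11_1 + m13_1 + m22_1)
    (s2 : 0 * A2 + 3 * B2 ≤ m11_2 + m13_2 + m22_2)
    (s3 : 0 * A3 + 3 * B3 ≤ m11_3 + m13_3 + m22_3) : False := by
  have d2 : ((0 ≤ 1 - A1 + m13_1) ∧ (0 ≤ -1 + A1 - m13_1)) ∨ ((0 ≤ 1 - B3 + m13_1) ∧ (0 ≤ -1 + B3 - m13_1)) := by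
    have h := C.f13_2
    clear C e0 e1 e2 e3 s1 s2 s3
    omega
  have d4 : ((0 ≤ 0 - m13_2 + m13_3 - n3) ∧ (0 ≤ 0 + m13_2 - m13_3 + n3)) ∨ ((0 ≤ 1 - B3 + m13_3) ∧ (0 ≤ -1 + B3 - m13_3)) := by
    have h := C.f13_8
    clear C e0 e1 e2 e3 s1 s2 s3
    omega
  have d6 : ((0 ≤ 0 - m22_1 + m22_2 - n2) ∧ (0 ≤ 0 + m22_1 - m22_2 + n2)) ∨ ((0 ≤ 1 - A2 + m22_2) ∧ (0 ≤ -1 + A2 - m22_2)) := by
    have h := C.f22_5
    clear C e0 e1 e2 e3 s1 s2 s3
    omega
  have d7 : ((0 ≤ 0 + m33_1 - n1) ∧ (0 ≤ 0 - m33_1 + n1)) ∨ ((0 ≤ 1 - A3 + m33_1) ∧ (0 ≤ -1 + A3 - m33_1)) := by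
    have h := C.f33_2
    clear C e0 e1 e2 e3 s1 s2 s3
    omega
  have d8 : ((0 ≤ 0 - m33_1 + m33_2 - n2) ∧ (0 ≤ 0 + m33_1 - m33_2 + n2)) ∨ ((0 ≤ 1 - A3 + m33_2) ∧ (0 ≤ -1 + A3 - m33_2)) := by
    have h := C.f33_5
    clear C e0 e1 e2 e3 s1 s2 s3
    omega
  have d9 : ((0 ≤ 0 - m33_2 + m33_3 - n3) ∧ (0 ≤ 0 + m33_2 - m33_3 + n3)) ∨ ((0 ≤ 1 - A3 + m33_3) ∧ (0 ≤ -1 + A3 - m33_3)) := by
    have h := C.f33_8
    clear C e0 e1 e2 e3 s1 s2 s3
    omega
  have d10 : ((0 ≤ 0 - B1)) ∨ ((0 ≤ 0 - A1)) ∨ ((0 ≤ 0 - B3)) ∨ ((0 ≤ -1 + 2 * B1 - m11_1 - m13_1)) ∨ ((0 ≤ -1 + 2 * B2 - m11_2 - m13_2)) ∨ ((0 ≤ -1 + 2 * B3 - m11_3 - m13_3)) := by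
    have h := C.p11_13B
    clear C e0 e1 e2 e3 s1 s2 s3
    omega
  have d11 : ((0 ≤ 0 - B1)) ∨ ((0 ≤ 0 - A2)) ∨ ((0 ≤ -1 + 2 * B1 - m11_1 - m22_1)) ∨ ((0 ≤ -1 + 2 * B2 - m11_2 - m22_2)) ∨ ((0 ≤ -1 + 2 * B3 - m11_3 - m22_3)) := by
    have h := C.p11_22B
    clear C e0 e1 e2 e3 s1 s2 s3
    omega
  have d12 : ((0 ≤ 0 - B1)) ∨ ((0 ≤ 0 - A3)) ∨ ((0 ≤ -1 + 2 * B1 - m11_1 - m33_1)) ∨ ((0 ≤ -1 + 2 * B2 - m11_2 - m33_2)) ∨ ((0 ≤ -1 + 2 * B3 - m11_3 - m33_3)) := by
    have h := C.p11_33B
    clear C e0 e1 e2 e3 s1 s2 s3
    omega
  have d14 : ((0 ≤ 0 + A1 - n1)) ∨ ((0 ≤ 0 + A1 - A2)) ∨ ((0 ≤ 0 + A2 - A3)) ∨ ((0 ≤ 0 - B1)) ∨ ((0 ≤ 0 - B1 + B2 - n2)) ∨ ((0 ≤ 0 - B2 + B3 - n3)) := by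
    have h := C.tmzp
    clear C e0 e1 e2 e3 s1 s2 s3
    omega
  have d15 : ((0 ≤ 0 - A1 + A2 - n2)) ∨ ((0 ≤ 1 + A2 - A3)) ∨ ((0 ≤ 0 + B1 - B2)) ∨ ((0 ≤ 1 - B2 + B3 - n3)) := by
    have h := C.tzmp
    clear C e0 e1 e2 e3 s1 s2 s3
    omega
  have d16 : ((0 ≤ 0 + A1 - A2)) ∨ ((0 ≤ 1 - A2 + A3 - n3)) ∨ ((0 ≤ 0 - B1 + B2 - n2)) ∨ ((0 ≤ 1 + B2 - B3)) := by
    have h := C.tzpm
    clear C e0 e1 e2 e3 s1 s2 s3
    omega
  rcases d2 with ⟨g1, g2⟩ | ⟨g3, g4⟩
  · rcases d10 with g5 | g6 | g7 | g8 | g9 | g10
    · linarith only [g5, e0]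
    · linarith only [g6, e1]
    · linarith only [g7, e2]
    · rcases d11 with g11 | g12 | g13 | g14 | g15
      · linarith only [g11, e0]
      · linarith only [g12, e3]
      · linarith only [g13, s1, C.f11_0, g8]
      · rcases d16 with g16 | g17 | g18 | g19
        · linarith only [g8, s1, g16, C.f11_0, g1, C.f22_1]
        · rcases d14 with g20 | g21 | g22 | g23 | g24 | g25
          · rcases d15 with g26 | g27 | g28 | g29
            · linarith only [C.b3, g20, g26, C.b1, C.o1]
            · linarith only [g27, s2, s3, g17, C.f11_2, C.f13_4, C.f13_7, C.f22_6, g14]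
            · linarith only [C.a2, s1, g28, C.o1, C.f11_0, g2, C.f22_1]
            · rcases d4 with ⟨g30, g31⟩ | ⟨g32, g33⟩
              · linarith only [s2, s3, C.f11_2, g30, C.f13_7, C.f22_6, g14]
              · rcases d6 with ⟨g34, g35⟩ | ⟨g36, g37⟩
                · linarith only [g8, s1, s3, g29, C.o1, C.f11_0, C.f11_1, C.f11_2, g33, g34, C.f22_4, C.f22_6]
                · rcases d7 with ⟨g38, g39⟩ | ⟨g40, g41⟩
                  · rcases d12 with g42 | g43 | g44 | g45 | g46
                    · linarith only [g42, e0]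
                    · linarith only [e3, s2, s3, g17, C.f11_2, C.f13_4, g33, C.f22_6, g14, g43]
                    · linarith only [C.o0, C.a1, C.f11_0, g38, g44]
                    · rcases d8 with ⟨g47, g48⟩ | ⟨g49, g50⟩
                      · linarith only [s2, s3, C.a1, g17, C.o0, C.o2, C.f11_0, C.f11_1, C.f11_2, g2, C.f13_3, g33, g37, C.f22_6, g38, g47, g45]
                      · linarith only [C.a4, s2, s3, g17, C.f11_2, C.f13_4, g33, g37, C.f22_6, g49, g45]
                    · rcases d9 with ⟨g51, g52⟩ | ⟨g53, g54⟩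
                      · rcases d8 with ⟨g55, g56⟩ | ⟨g57, g58⟩
                        · linarith only [g55, s3, C.a1, g17, C.o0, C.o2, C.f11_0, C.f11_1, C.f11_2, g33, g37, C.f22_6, g38, g51, g46]
                        · linarith only [C.a4, s3, g33, g37, C.f22_6, g57, g51, g46]
                      · linarith only [g53, s3, g17, g33, g37, C.f22_6, g46]
                  · linarith only [s2, s1, s3, g20, g17, C.f11_0, C.f11_2, g1, C.f13_4, g33, C.f22_1, C.f22_6, C.f33_0, g40, g8, g14]
          · linarith only [g21, s1, C.f11_0, g1, C.f22_1, g8]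
          · linarith only [g22, s2, s3, g17, C.f11_2, C.f13_4, C.f13_7, C.f22_6, g14]
          · linarith only [g23, e0]
          · linarith only [C.f13_3, s2, g24, C.f11_0, g8, g14]
          · linarith only [g25, s3, C.f11_2, C.f13_7, C.f22_6, g14]
        · linarith only [s2, g18, C.f11_0, C.f13_3, g8, g14]
        · linarith only [g19, s2, C.f13_4, g14]
      · linarith only [C.f13_7, s3, g15]
    · linarith only [g9, s2, C.o1, C.f22_4]
    · rcases d4 with ⟨g59, g60⟩ | ⟨g61, g62⟩
      · linarith only [g59, s2, s3, C.o1, C.f11_2, C.f22_4, C.f22_6, g10]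
      · linarith only [C.b3, s3, C.o1, C.f11_0, C.f11_1, C.f11_2, g61, C.f22_4, C.f22_6, g10]
  · linarith only [C.b4, C.a2, C.o1, C.f13_0, g3]


theorem c0_11_13_23_k3 {n1 n2 n3 A1 A2 A3 B1 B2 B3 m11_1 m11_2 m11_3 m13_1 m13_2 m13_3 m22_1 m22_2 m22_3 m23_1 m23_2 m23_3 m33_1 m33_2 m33_3 : ℤ}
    (C : Ctx0 n1 n2 n3 A1 A2 A3 B1 B2 B3 m11_1 m11_2 m11_3 m13_1 m13_2 m13_3 m22_1 m22_2 m22_3 m23_1 m23_2 m23_3 m33_1 m33_2 m33_3)
    (e0 : 0 < B1)
    (e1 : 0 < A1)
    (e2 : 0 < B3)
    (e3 : 0 < A2)
    (s1 : 3 * A1 + 0 * B1 ≤ m11_1 + m13_1 + m23_1)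
    (s2 : 3 * A2 + 0 * B2 ≤ m11_2 + m13_2 + m23_2)
    (s3 : 3 * A3 + 0 * B3 ≤ m11_3 + m13_3 + m23_3) : False := by
  have d1 : ((0 ≤ -1 - A1 + A2) ∧ (0 ≤ -1 + A2 - A3 + n3)) ∨ ((0 ≤ -1 - B1 + B2) ∧ (0 ≤ -1 + B2 - B3 + n3)) := by
    have h := C.t23
    clear C e0 e1 e2 e3 s1 s2 s3
    omega
  have d4 : ((0 ≤ 0 - m13_2 + m13_3 - n3) ∧ (0 ≤ 0 + m13_2 - m13_3 + n3)) ∨ ((0 ≤ 1 - B3 + m13_3) ∧ (0 ≤ -1 + B3 - m13_3)) := by
    have h := C.f13_8
    clear C e0 e1 e2 e3 s1 s2 s3
    omega
  have d8 : ((0 ≤ 0 - m23_1 + m23_2 - n2) ∧ (0 ≤ 0 + m23_1 - m23_2 + n2)) ∨ ((0 ≤ 1 - A2 + m23_2) ∧ (0 ≤ -1 + A2 - m23_2)) ∨ ((0 ≤ 1 - B3 + m23_2) ∧ (0 ≤ -1 + B3 - m23_2)) := by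
    have h := C.f23_7
    clear C e0 e1 e2 e3 s1 s2 s3
    omega
  have d9 : ((0 ≤ 0 - m23_2 + m23_3 - n3) ∧ (0 ≤ 0 + m23_2 - m23_3 + n3)) ∨ ((0 ≤ 1 - B3 + m23_3) ∧ (0 ≤ -1 + B3 - m23_3)) := by
    have h := C.f23_10
    clear C e0 e1 e2 e3 s1 s2 s3
    omega
  have d23 : ((0 ≤ 0 - A1)) ∨ ((0 ≤ 0 - B3)) ∨ ((0 ≤ 0 - A2)) ∨ ((0 ≤ -1 + 2 * A1 - m13_1 - m23_1)) ∨ ((0 ≤ -1 + 2 * A2 - m13_2 - m23_2)) ∨ ((0 ≤ -1 + 2 * A3 - m13_3 - m23_3)) := by
    have h := C.p13_23A
    clear C e0 e1 e2 e3 s1 s2 s3
    omega
  have d34 : ((0 ≤ 0 + A1 - n1)) ∨ ((0 ≤ 1 + A1 - A2)) ∨ ((0 ≤ 0 - B1)) ∨ ((0 ≤ 1 - B1 + B2 - n2)) := by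
    have h := C.tmpp
    clear C e0 e1 e2 e3 s1 s2 s3
    omega
  have d37 : ((0 ≤ 0 - A1)) ∨ ((0 ≤ 1 - A1 + A2 - n2)) ∨ ((0 ≤ 0 + B1 - n1)) ∨ ((0 ≤ 1 + B1 - B2)) ∨ ((0 ≤ 1 + A3 - B3)) := by
    have h := C.tpmm
    clear C e0 e1 e2 e3 s1 s2 s3
    omega
  have d38 : ((0 ≤ 0 - A1)) ∨ ((0 ≤ 1 - A1 + A2 - n2)) ∨ ((0 ≤ 0 + A2 - A3)) ∨ ((0 ≤ 0 + B1 - n1)) ∨ ((0 ≤ 1 + B1 - B2)) ∨ ((0 ≤ 0 - B2 + B3 - n3)) := by
    have h := C.tpmz
    clear C e0 e1 e2 e3 s1 s2 s3
    omega
  rcases d34 with g1 | g2 | g3 | g4
  · linarith only [C.b1, s1, g1, C.f11_0, C.f13_0, C.f23_0]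
  · linarith only [C.b2, s1, g2, C.o1, C.f11_0, C.f13_0, C.f23_1]
  · linarith only [g3, e0]
  · rcases d23 with g5 | g6 | g7 | g8 | g9 | g10
    · linarith only [g5, e1]
    · linarith only [g6, e2]
    · linarith only [g7, e3]
    · linarith only [g8, s1, C.o0, C.f11_0]
    · linarith only [C.o1, s2, g4, C.f11_0, C.f11_1, g9]
    · rcases d37 with g11 | g12 | g13 | g14 | g15
      · linarith only [g11, e1]
      · linarith only [C.o0, s2, g12, C.f11_0, C.f11_1, C.f13_0, C.f13_3, C.f23_5]
      · linarith only [g13, s1, C.o0, C.f11_0, C.f13_0, C.f23_0]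
      · linarith only [g14, s1, s2, g4, C.o0, C.f11_0, C.f11_1, C.f13_0, C.f13_3, C.f23_1, C.f23_5]
      · rcases d38 with g16 | g17 | g18 | g19 | g20 | g21
        · linarith only [g16, e1]
        · linarith only [C.o0, s2, g17, C.f11_0, C.f11_1, C.f13_0, C.f13_3, C.f23_5]
        · linarith only [C.o1, s2, g18, g4, g15, C.f11_0, C.f11_1, C.f13_4, C.f23_5]
        · linarith only [C.a1, g19, C.o0]
        · linarith only [g20, s1, s2, g4, C.o0, C.f11_0, C.f11_1, C.f13_0, C.f13_3, C.f23_1, C.f23_5]
        · rcases d8 with ⟨g22, g23⟩ | ⟨g24, g25⟩ | ⟨g26, g27⟩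
          · linarith only [C.a3, s1, C.o0, C.f11_0, C.f13_0, g22, C.f23_5]
          · rcases d1 with ⟨g28, g29⟩ | ⟨g30, g31⟩
            · rcases d4 with ⟨g32, g33⟩ | ⟨g34, g35⟩
              · linarith only [C.f13_7, s2, g29, g4, g21, g15, C.f11_0, C.f11_1, g32, g25]
              · rcases d9 with ⟨g36, g37⟩ | ⟨g38, g39⟩
                · linarith only [g36, g29, C.o2, g34, g24, g10]
                · linarith only [g38, C.o2, g34, g10]
            · linarith only [g31, g21]
          · linarith only [C.a4, C.o2, C.f23_5, g26]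


theorem c2_11_22_33_k3 {n1 n2 n3 A1 A2 A3 B1 B2 B3 m11_1 m11_2 m11_3 m12_1 m12_2 m12_3 m13_1 m13_2 m13_3 m22_1 m22_2 m22_3 m33_1 m33_2 m33_3 : ℤ}
    (C : Ctx2 n1 n2 n3 A1 A2 A3 B1 B2 B3 m11_1 m11_2 m11_3 m12_1 m12_2 m12_3 m13_1 m13_2 m13_3 m22_1 m22_2 m22_3 m33_1 m33_2 m33_3)
    (e0 : 0 < B1)
    (e1 : 0 < A2)
    (e2 : 0 < A3)
    (s1 : 3 * A1 + 0 * B1 ≤ m11_1 + m22_1 + m33_1)
    (s2 : 3 * A2 + 0 * B2 ≤ m11_2 + m22_2 + m33_2)
    (s3 : 3 * A3 + 0 * B3 ≤ m11_3 + m22_3 + m33_3) : False := by
  have d2 : ((0 ≤ 1 - A1 + m12_1) ∧ (0 ≤ -1 + A1 - m12_1)) ∨ ((0 ≤ 1 - B2 + m12_1) ∧ (0 ≤ -1 + B2 - m12_1)) := by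
    have h := C.f12_2
    clear C e0 e1 e2 s1 s2 s3
    omega
  have d3 : ((0 ≤ 0 - m12_1 + m12_2 - n2) ∧ (0 ≤ 0 + m12_1 - m12_2 + n2)) ∨ ((0 ≤ 1 - B2 + m12_2) ∧ (0 ≤ -1 + B2 - m12_2)) := by
    have h := C.f12_5
    clear C e0 e1 e2 s1 s2 s3
    omega
  have d5 : ((0 ≤ 0 - m22_1 + m22_2 - n2) ∧ (0 ≤ 0 + m22_1 - m22_2 + n2)) ∨ ((0 ≤ 1 - A2 + m22_2) ∧ (0 ≤ -1 + A2 - m22_2)) := by
    have h := C.f22_5
    clear C e0 e1 e2 s1 s2 s3
    omega
  have d6 : ((0 ≤ 0 + m33_1 - n1) ∧ (0 ≤ 0 - m33_1 + n1)) ∨ ((0 ≤ 1 - A3 + m33_1) ∧ (0 ≤ -1 + A3 - m33_1)) := by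
    have h := C.f33_2
    clear C e0 e1 e2 s1 s2 s3
    omega
  have d8 : ((0 ≤ 0 - m33_2 + m33_3 - n3) ∧ (0 ≤ 0 + m33_2 - m33_3 + n3)) ∨ ((0 ≤ 1 - A3 + m33_3) ∧ (0 ≤ -1 + A3 - m33_3)) := by
    have h := C.f33_8
    clear C e0 e1 e2 s1 s2 s3
    omega
  have d9 : ((0 ≤ 0 - B1)) ∨ ((0 ≤ 0 - A3)) ∨ ((0 ≤ -1 + 2 * A1 - m11_1 - m33_1)) ∨ ((0 ≤ -1 + 2 * A2 - m11_2 - m33_2)) ∨ ((0 ≤ -1 + 2 * A3 - m11_3 - m33_3)) := by
    have h := C.p11_33A
    clear C e0 e1 e2 s1 s2 s3
    omega
  have d11 : ((0 ≤ 0 - A1)) ∨ ((0 ≤ 0 - B2)) ∨ ((0 ≤ 0 - A3)) ∨ ((0 ≤ -1 + 2 * A1 - m12_1 - m33_1)) ∨ ((0 ≤ -1 + 2 * A2 - m12_2 - m33_2)) ∨ ((0 ≤ -1 + 2 * A3 - m12_3 - m33_3)) := by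
    have h := C.p12_33A
    clear C e0 e1 e2 s1 s2 s3
    omega
  have d14 : ((0 ≤ 0 + A1 - n1)) ∨ ((0 ≤ 1 + A1 - A2)) ∨ ((0 ≤ 0 - B1)) ∨ ((0 ≤ 1 - B1 + B2 - n2)) := by
    have h := C.tmpp
    clear C e0 e1 e2 s1 s2 s3
    omega
  rcases d2 with ⟨g1, g2⟩ | ⟨g3, g4⟩
  · rcases d3 with ⟨g5, g6⟩ | ⟨g7, g8⟩
    · linarith only [C.f12_4, C.b3, C.o0, g1, g5]
    · rcases d9 with g9 | g10 | g11 | g12 | g13
      · linarith only [g9, e0]
      · linarith only [g10, e2]
      · rcases d14 with g14 | g15 | g16 | g17
        · linarith only [C.f22_0, s1, g14, C.o0, C.f11_0, C.f33_0]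
        · linarith only [g11, s1, g15, C.f22_1]
        · linarith only [g16, e0]
        · rcases d5 with ⟨g18, g19⟩ | ⟨g20, g21⟩
          · linarith only [C.a3, s1, g18, C.f22_4, g11]
          · rcases d11 with g22 | g23 | g24 | g25 | g26 | g27
            · linarith only [g22, e0, C.o0]
            · linarith only [C.b2, e0, g23]
            · linarith only [g24, e2]
            · rcases d6 with ⟨g28, g29⟩ | ⟨g30, g31⟩
              · linarith only [g28, s1, C.o0, C.f11_0, g1, C.f22_0, g25]
              · linarith only [g30, s1, C.a4, C.o0, C.f11_0, g1, C.f22_1, g25]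
            · linarith only [g26, s2, g17, C.f11_0, C.f11_1, g7, g21]
            · rcases d8 with ⟨g32, g33⟩ | ⟨g34, g35⟩
              · linarith only [s2, s3, g17, C.f11_0, C.f11_1, C.f11_2, g7, C.f12_6, g21, C.f22_6, g32, g27]
              · linarith only [g34, s3, g17, C.o1, C.f11_0, C.f11_1, C.f11_2, g7, C.f12_6, g21, C.f22_6, g27]
      · linarith only [g12, s2, C.f22_4]
      · rcases d8 with ⟨g36, g37⟩ | ⟨g38, g39⟩
        · linarith only [s2, s3, C.f11_2, C.f22_4, C.f22_6, g36, g13]
        · linarith only [g38, s3, C.b3, C.o1, C.f11_0, C.f11_1, C.f11_2, C.f22_4, C.f22_6, g13]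
  · linarith only [C.a2, C.o1, C.f12_0, g3]


end Pool.Agent.Helper6.TQ
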