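import Pool.Agent.Helper89.TQ.Ctx

/-! TQ (helper89): hard integer lemmas, generated by a search for case distinctions. -/

set_option autoImplicit false
set_option linter.all false
set_option maxHeartbeats 4000000

namespace Pool.Agent.Helper6.TQ

open Pool.Agent.Helper89.TQ

theorem c0_11_33_33_k3 {n1 n2 n3 A1 A2 A3 B1 B2 B3 m11_1 m11_2 m11_3 m13_1 m13_2 m13_3 m22_1 m22_2 m22_3 m23_1 m23_2 m23_3 m33_1 m33_2 m33_3 : ℤ}
    (C : Ctx0 n1 n2 n3 A1 A2 A3 B1 B2 B3 m11_1 m11_2 m11_3 m13_1 m13_2 m13_3 m22_1 m22_2 m22_3 m23_1 m23_2 m23_3 m33_1 m33_2 m33_3)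
    (e0 : 0 < B1)
    (e1 : 0 < A3)
    (s1 : 3 * A1 + 0 * B1 ≤ m11_1 + m33_1 + m33_1)
    (s2 : 3 * A2 + 0 * B2 ≤ m11_2 + m33_2 + m33_2)
    (s3 : 3 * A3 + 0 * B3 ≤ m11_3 + m33_3 + m33_3) : False := by
  have d0 : ((0 ≤ -1 + A1) ∧ (0 ≤ -1 + A1 - A2 + n2)) ∨ ((0 ≤ -1 + B1) ∧ (0 ≤ -1 + B1 - B2 + n2)) := by
    have h := C.t12
    clear C e0 e1 s1 s2 s3
    omega
  have d1 : ((0 ≤ -1 - A1 + A2) ∧ (0 ≤ -1 + A2 - A3 + n3)) ∨ ((0 ≤ -1 - B1 + B2) ∧ (0 ≤ -1 + B2 - B3 + n3)) := by
    have h := C.t23
    clear C e0 e1 s1 s2 s3
    omega
  have d2 : ((0 ≤ 1 - A1 + m13_1) ∧ (0 ≤ -1 + A1 - m13_1)) ∨ ((0 ≤ 1 - B3 + m13_1) ∧ (0 ≤ -1 + B3 - m13_1)) := by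
    have h := C.f13_2
    clear C e0 e1 s1 s2 s3
    omega
  have d3 : ((0 ≤ 0 - m13_1 + m13_2 - n2) ∧ (0 ≤ 0 + m13_1 - m13_2 + n2)) ∨ ((0 ≤ 1 - B3 + m13_2) ∧ (0 ≤ -1 + B3 - m13_2)) := by
    have h := C.f13_5
    clear C e0 e1 s1 s2 s3
    omega
  have d4 : ((0 ≤ 0 - m13_2 + m13_3 - n3) ∧ (0 ≤ 0 + m13_2 - m13_3 + n3)) ∨ ((0 ≤ 1 - B3 + m13_3) ∧ (0 ≤ -1 + B3 - m13_3)) := by
    have h := C.f13_8
    clear C e0 e1 s1 s2 s3
    omega
  have d5 : ((0 ≤ 0 + m22_1 - n1) ∧ (0 ≤ 0 - m22_1 + n1)) ∨ ((0 ≤ 1 - B2 + m22_1) ∧ (0 ≤ -1 + B2 - m22_1)) := by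
    have h := C.f22_2
    clear C e0 e1 s1 s2 s3
    omega
  have d6 : ((0 ≤ 0 - m22_1 + m22_2 - n2) ∧ (0 ≤ 0 + m22_1 - m22_2 + n2)) ∨ ((0 ≤ 1 - B2 + m22_2) ∧ (0 ≤ -1 + B2 - m22_2)) := by
    have h := C.f22_5
    clear C e0 e1 s1 s2 s3
    omega
  have d7 : ((0 ≤ 0 + m23_1 - n1) ∧ (0 ≤ 0 - m23_1 + n1)) ∨ ((0 ≤ 1 - A2 + m23_1) ∧ (0 ≤ -1 + A2 - m23_1)) ∨ ((0 ≤ 1 - B3 + m23_1) ∧ (0 ≤ -1 + B3 - m23_1)) := by
    have h := C.f23_3
    clear C e0 e1 s1 s2 s3
    omega
  have d8 : ((0 ≤ 0 - m23_1 + m23_2 - n2) ∧ (0 ≤ 0 + m23_1 - m23_2 + n2)) ∨ ((0 ≤ 1 - A2 + m23_2) ∧ (0 ≤ -1 + A2 - m23_2)) ∨ ((0 ≤ 1 - B3 + m23_2) ∧ (0 ≤ -1 + B3 - m23_2)) := by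
    have h := C.f23_7
    clear C e0 e1 s1 s2 s3
    omega
  have d9 : ((0 ≤ 0 - m23_2 + m23_3 - n3) ∧ (0 ≤ 0 + m23_2 - m23_3 + n3)) ∨ ((0 ≤ 1 - B3 + m23_3) ∧ (0 ≤ -1 + B3 - m23_3)) := by
    have h := C.f23_10
    clear C e0 e1 s1 s2 s3
    omega
  have d10 : ((0 ≤ 0 + m33_1 - n1) ∧ (0 ≤ 0 - m33_1 + n1)) ∨ ((0 ≤ 1 - A3 + m33_1) ∧ (0 ≤ -1 + A3 - m33_1)) := by
    have h := C.f33_2
    clear C e0 e1 s1 s2 s3
    omega
  have d11 : ((0 ≤ 0 - m33_1 + m33_2 - n2) ∧ (0 ≤ 0 + m33_1 - m33_2 + n2)) ∨ ((0 ≤ 1 - A3 + m33_2) ∧ (0 ≤ -1 + A3 - m33_2)) := by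
    have h := C.f33_5
    clear C e0 e1 s1 s2 s3
    omega
  have d12 : ((0 ≤ 0 - m33_2 + m33_3 - n3) ∧ (0 ≤ 0 + m33_2 - m33_3 + n3)) ∨ ((0 ≤ 1 - A3 + m33_3) ∧ (0 ≤ -1 + A3 - m33_3)) := by
    have h := C.f33_8
    clear C e0 e1 s1 s2 s3
    omega
  have d13 : ((0 ≤ 0 - B1)) ∨ ((0 ≤ 0 - A1)) ∨ ((0 ≤ 0 - B3)) ∨ ((0 ≤ -1 + 2 * B1 - m11_1 - m13_1)) ∨ ((0 ≤ -1 + 2 * B2 - m11_2 - m13_2)) ∨ ((0 ≤ -1 + 2 * B3 - m11_3 - m13_3)) := by
    have h := C.p11_13B
    clear C e0 e1 s1 s2 s3
    omega
  have d15 : ((0 ≤ 0 - B1)) ∨ ((0 ≤ 0 - A2)) ∨ ((0 ≤ 0 - B3)) ∨ ((0 ≤ -1 + 2 * B1 - m11_1 - m23_1)) ∨ ((0 ≤ -1 + 2 * B2 - m11_2 - m23_2)) ∨ ((0 ≤ -1 + 2 * B3 - m11_3 - m23_3)) := by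
    have h := C.p11_23B
    clear C e0 e1 s1 s2 s3
    omega
  have d16 : ((0 ≤ 0 - B1)) ∨ ((0 ≤ 0 - A3)) ∨ ((0 ≤ -1 + 2 * A1 - m11_1 - m33_1)) ∨ ((0 ≤ -1 + 2 * A2 - m11_2 - m33_2)) ∨ ((0 ≤ -1 + 2 * A3 - m11_3 - m33_3)) := by
    have h := C.p11_33A
    clear C e0 e1 s1 s2 s3
    omega
  have d17 : ((0 ≤ 0 - B1)) ∨ ((0 ≤ 0 - A3)) ∨ ((0 ≤ -1 + 2 * B1 - m11_1 - m33_1)) ∨ ((0 ≤ -1 + 2 * B2 - m11_2 - m33_2)) ∨ ((0 ≤ -1 + 2 * B3 - m11_3 - m33_3)) := by
    have h := C.p11_33B
    clear C e0 e1 s1 s2 s3
    omega
  have d18 : ((0 ≤ 0 - B2)) ∨ ((0 ≤ 0 - A3)) ∨ ((0 ≤ -1 + 2 * A1 - m22_1 - m33_1)) ∨ ((0 ≤ -1 + 2 * A2 - m22_2 - m33_2)) ∨ ((0 ≤ -1 + 2 * A3 - m22_3 - m33_3)) := by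
    have h := C.p22_33A
    clear C e0 e1 s1 s2 s3
    omega
  have d19 : ((0 ≤ 0 + A1 - n1)) ∨ ((0 ≤ 0 + A1 - A2)) ∨ ((0 ≤ 0 + A2 - A3)) ∨ ((0 ≤ 0 - B1)) ∨ ((0 ≤ 0 - B1 + B2 - n2)) ∨ ((0 ≤ 0 - B2 + B3 - n3)) := by
    have h := C.tmzp
    clear C e0 e1 s1 s2 s3
    omega
  have d20 : ((0 ≤ 0 + A1 - n1)) ∨ ((0 ≤ 1 + A1 - A2)) ∨ ((0 ≤ 0 - B1)) ∨ ((0 ≤ 1 - B1 + B2 - n2)) := by
    have h := C.tmpp
    clear C e0 e1 s1 s2 s3
    omega
  have d21 : ((0 ≤ 0 - A1 + A2 - n2)) ∨ ((0 ≤ 1 + A2 - A3)) ∨ ((0 ≤ 0 + B1 - B2)) ∨ ((0 ≤ 1 - B2 + B3 - n3)) := by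
    have h := C.tzmp
    clear C e0 e1 s1 s2 s3
    omega
  have d22 : ((0 ≤ 0 + A1 - A2)) ∨ ((0 ≤ 1 - A2 + A3 - n3)) ∨ ((0 ≤ 0 - B1 + B2 - n2)) ∨ ((0 ≤ 1 + B2 - B3)) ∨ ((0 ≤ -1 + A2 - B2) ∧ (0 ≤ 1 + A3 - B3)) := by
    have h := C.tzpm
    clear C e0 e1 s1 s2 s3
    omega
  have d23 : ((0 ≤ 0 - A1)) ∨ ((0 ≤ 1 - A1 + A2 - n2)) ∨ ((0 ≤ 0 + A2 - A3)) ∨ ((0 ≤ 0 + B1 - n1)) ∨ ((0 ≤ 1 + B1 - B2)) ∨ ((0 ≤ 0 - B2 + B3 - n3)) := by
    have h := C.tpmz
    clear C e0 e1 s1 s2 s3
    omega
  have d24 : ((0 ≤ 0 - A1)) ∨ ((0 ≤ 0 - A1 + A2 - n2)) ∨ ((0 ≤ 0 - A2 + A3 - n3)) ∨ ((0 ≤ 0 + B1 - n1)) ∨ ((0 ≤ 0 + B1 - B2)) ∨ ((0 ≤ 0 + B2 - B3)) ∨ ((0 ≤ 1 + A3 - B3)) ∨ ((0 ≤ 1 - A1 + B1) ∧ (0 ≤ 0 - A2 + B2)) := by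
    have h := C.tpzm
    clear C e0 e1 s1 s2 s3
    omega
  rcases d17 with g1 | g2 | g3 | g4 | g5
  · linarith only [g1, e0]
  · linarith only [g2, e1]
  · linarith only [s1, C.o0, C.f11_0, g3]
  · linarith only [C.o1, s2, C.b3, C.f11_0, C.f11_1, g4]
  · rcases d2 with ⟨g6, g7⟩ | ⟨g8, g9⟩
    · rcases d12 with ⟨g10, g11⟩ | ⟨g12, g13⟩
      · linarith only [s2, C.b5, C.o1, C.o2, C.f11_2, g10, C.f33_7, g5]
      · rcases d16 with g14 | g15 | g16 | g17 | g18
        · linarith only [g14, e0]
        · linarith only [g15, e1]
        · rcases d20 with g19 | g20 | g21 | g22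
          · linarith only [g19, s1, C.o0, C.f11_0, C.f33_0]
          · rcases d7 with ⟨g23, g24⟩ | ⟨g25, g26⟩ | ⟨g27, g28⟩
            · linarith only [s1, g20, C.o0, C.f11_0, g23, C.f23_1, C.f33_0]
            · rcases d5 with ⟨g29, g30⟩ | ⟨g31, g32⟩
              · linarith only [C.o1, s1, g20, C.o0, C.f11_0, g29, C.f22_1, C.f33_0]
              · rcases d8 with ⟨g33, g34⟩ | ⟨g35, g36⟩ | ⟨g37, g38⟩
                · rcases d0 with ⟨g39, g40⟩ | ⟨g41, g42⟩
                  · linarith only [g40, C.a2, g25, g33, C.f23_5]
                  · linarith only [C.b2, g42, g25, g33, C.f23_5]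
                · rcases d0 with ⟨g43, g44⟩ | ⟨g45, g46⟩
                  · rcases d6 with ⟨g47, g48⟩ | ⟨g49, g50⟩
                    · linarith only [C.f22_4, C.a2, g44, g31, g47]
                    · rcases d1 with ⟨g51, g52⟩ | ⟨g53, g54⟩
                      · rcases d15 with g55 | g56 | g57 | g58 | g59 | g60
                        · linarith only [g55, e0]
                        · linarith only [g56, e0, g51, C.o0]
                        · linarith only [C.b4, e0, C.b2, g57]
                        · linarith only [g58, g51, C.o0, C.f11_0, g25]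
                        · rcases d18 with g61 | g62 | g63 | g64 | g65
                          · linarith only [s2, e0, s1, g51, C.f11_0, C.f11_1, g35, C.f33_3, g61, g59, g16]
                          · linarith only [g62, e1]
                          · linarith only [g63, s1, g51, g44, C.f11_1, g31, g35, g59]
                          · rcases d11 with ⟨g66, g67⟩ | ⟨g68, g69⟩
                            · linarith only [g64, s1, g44, C.f11_1, g49, g35, g66, g59]
                            · rcases d24 with g70 | g71 | g72 | g73 | g74 | g75 | g76 | ⟨g77, g78⟩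
                              · linarith only [g70, g43]
                              · linarith only [g71, g44]
                              · linarith only [g72, g52]
                              · linarith only [g73, s1, C.f11_0, C.f33_0, g16]
                              · linarith only [g44, s1, g51, g74, C.f11_0, C.f11_1, g35, g59, g16]
                              · linarith only [C.o2, s2, g75, C.o1, g35, g69, g59]
                              · rcases d19 with g79 | g80 | g81 | g82 | g83 | g84
                                · linarith only [g79, s1, C.f33_0, g16]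
                                · linarith only [g80, g51]
                                · linarith only [C.o1, s2, g81, g35, g69, g59]
                                · linarith only [g82, e0]
                                · rcases d21 with g85 | g86 | g87 | g88
                                  · linarith only [g85, g44]
                                  · linarith only [g86, s2, g83, C.f11_0, C.f11_1, g49, g69, g64]
                                  · linarith only [g87, g51, g44, g83]
                                  · linarith only [g88, s3, g83, g76, C.f11_0, C.f11_1, C.f11_2, g13]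
                                · linarith only [g52, s3, g84, g76, C.f11_2, g35, g13, g59]
                              · rcases d22 with g89 | g90 | g91 | g92 | ⟨g93, g94⟩
                                · linarith only [g89, g51]
                                · linarith only [g59, s3, g90, C.o1, C.f11_2, g35, g13]
                                · linarith only [g64, s2, g91, g78, C.f11_0, C.f11_1, g49]
                                · linarith only [s1, g20, g92, C.o0, C.o1, C.o2, C.f11_0, C.f33_1]
                                · linarith only [g93, g78]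
                          · linarith only [g52, s3, C.f11_2, g49, C.f22_6, g35, g59, g65]
                        · rcases d19 with g95 | g96 | g97 | g98 | g99 | g100
                          · linarith only [g95, s1, C.o0, C.f11_0, C.f33_0]
                          · linarith only [g96, g51]
                          · linarith only [C.f33_1, s1, g20, g97, C.o0, C.f11_0]
                          · linarith only [g98, e0]
                          · rcases d21 with g101 | g102 | g103 | g104
                            · linarith only [g101, g44]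
                            · linarith only [C.o1, s2, g102, g99, C.f11_0, C.f11_1, C.f33_4]
                            · linarith only [g44, g51, g103, g99]
                            · rcases d24 with g105 | g106 | g107 | g108 | g109 | g110 | g111 | ⟨g112, g113⟩
                              · linarith only [g105, g43]
                              · linarith only [g106, g44]
                              · linarith only [g107, g52]
                              · linarith only [g108, s1, C.o0, C.f11_0, C.f33_0]
                              · linarith only [g109, g51, g44, g99]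
                              · linarith only [g104, s2, s3, g99, g110, C.o1, C.f11_0, C.f11_1, C.f11_2, C.f33_4, g13]
                              · linarith only [g111, s3, g99, g104, C.f11_0, C.f11_1, C.f11_2, g13]
                              · rcases d18 with g114 | g115 | g116 | g117 | g118
                                · linarith only [g114, e0, g51, C.o0, g113]
                                · linarith only [g115, e1]
                                · linarith only [g116, s1, g51, C.o0, g113, C.f11_0, g31]
                                · linarith only [s2, g99, g113, C.f11_0, C.f11_1, g49, g117]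
                                · linarith only [g118, s3, g99, C.f11_0, C.f11_1, C.f11_2, g49, C.f22_6, g13]
                          · rcases d3 with ⟨g119, g120⟩ | ⟨g121, g122⟩
                            · rcases d9 with ⟨g123, g124⟩ | ⟨g125, g126⟩
                              · rcases d24 with g127 | g128 | g129 | g130 | g131 | g132 | g133 | ⟨g134, g135⟩
                                · linarith only [g127, g43]
                                · linarith only [g128, g44]
                                · linarith only [g129, g52]
                                · linarith only [g130, s1, C.f11_0, C.f33_0, g16]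
                                · linarith only [g131, s1, g51, C.b5, C.f11_0, g35, g123, C.f23_9, g16]
                                · linarith only [g52, s1, g20, g132, g100, C.f33_1, g16]
                                · linarith only [g133, s3, C.b5, C.o1, g35, g123, g13, g60]
                                · rcases d18 with g136 | g137 | g138 | g139 | g140
                                  · linarith only [g136, e0, s1, g51, g135, C.f11_0, g16]
                                  · linarith only [g137, e1]
                                  · linarith only [g138, s1, g51, g135, g31, g16]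
                                  · rcases d22 with g141 | g142 | g143 | g144 | ⟨g145, g146⟩
                                    · linarith only [g141, g51]
                                    · linarith only [g60, s3, g142, C.b5, C.o1, g35, g123, g13]
                                    · linarith only [s2, g143, g135, C.f11_0, C.f11_1, g49, g139]
                                    · linarith only [g144, s2, C.o0, g135, C.f11_0, C.f11_1, g6, g119, C.f13_4, g49, g139]
                                    · linarith only [g145, g135]
                                  · linarith only [g60, s3, C.b5, C.o1, g49, C.f22_6, g35, g123, g13, g140]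
                              · rcases d24 with g147 | g148 | g149 | g150 | g151 | g152 | g153 | ⟨g154, g155⟩
                                · linarith only [g147, g43]
                                · linarith only [g148, g44]
                                · linarith only [g149, g52]
                                · linarith only [g150, s1, C.o0, C.f11_0, C.f33_0]
                                · linarith only [g44, g51, g151, C.b5, C.f11_0, C.f11_1, C.f11_2, g125, g60]
                                · linarith only [C.a4, g52, g152, g100]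
                                · linarith only [g153, s3, g125, g13, g60]
                                · rcases d18 with g156 | g157 | g158 | g159 | g160
                                  · linarith only [g156, e0, g51, C.o0, g155]
                                  · linarith only [g157, e1]
                                  · linarith only [g158, s1, g51, C.o0, g155, C.f11_0, g31]
                                  · rcases d22 with g161 | g162 | g163 | g164 | ⟨g165, g166⟩
                                    · linarith only [g161, g51]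
                                    · linarith only [g60, s3, g162, C.b5, C.o1, g125, g13]
                                    · linarith only [s2, g163, g155, C.f11_0, C.f11_1, g49, g159]
                                    · linarith only [g164, s2, C.o0, g155, C.f11_0, C.f11_1, g6, g119, C.f13_4, g49, g159]
                                    · linarith only [g165, g155]
                                  · linarith only [g60, s3, C.b5, g49, C.f22_6, g125, g13, g160]
                            · rcases d24 with g167 | g168 | g169 | g170 | g171 | g172 | g173 | ⟨g174, g175⟩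
                              · linarith only [g167, g43]
                              · linarith only [g168, g44]
                              · linarith only [g169, g52]
                              · linarith only [g170, s1, C.o0, C.f11_0, C.f33_0]
                              · linarith only [s1, g171, C.b5, C.o0, C.f11_0, C.f11_1, C.f11_2, g7, C.f13_3, g121, C.f33_1, g12, g5]
                              · linarith only [g52, s1, g20, g172, g100, C.o0, C.f11_0, C.f33_1]
                              · rcases d9 with ⟨g176, g177⟩ | ⟨g178, g179⟩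
                                · linarith only [g173, s3, C.b5, C.o1, g35, g176, g13, g60]
                                · linarith only [g178, s3, g173, g13, g60]
                              · rcases d9 with ⟨g180, g181⟩ | ⟨g182, g183⟩
                                · linarith only [C.f13_3, s1, s3, g20, C.b5, g174, C.o1, C.f11_0, C.f11_1, C.f11_2, g7, g121, g35, g180, C.f33_1, g13, g60]
                                · linarith only [g182, s1, s3, g20, C.b5, g174, C.o1, C.f11_0, C.f11_1, C.f11_2, g7, C.f13_3, g121, C.f33_1, g13, g60]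
                      · rcases d9 with ⟨g184, g185⟩ | ⟨g186, g187⟩
                        · linarith only [C.f23_9, g54, C.o1, g35, g184]
                        · rcases d24 with g188 | g189 | g190 | g191 | g192 | g193 | g194 | ⟨g195, g196⟩
                          · linarith only [g188, g43]
                          · linarith only [g189, g44]
                          · linarith only [C.o1, g190, g54, C.o2]
                          · linarith only [g191, s1, C.f11_0, C.f33_0, g16]
                          · linarith only [g192, g53]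
                          · linarith only [g193, s1, g20, C.o1, C.o2, C.f33_1, g16]
                          · rcases d15 with g197 | g198 | g199 | g200 | g201 | g202
                            · linarith only [g197, e0]
                            · linarith only [g43, C.a2, g198]
                            · linarith only [e1, C.o2, g199]
                            · rcases d18 with g203 | g204 | g205 | g206 | g207
                              · linarith only [g203, e0, g53]
                              · linarith only [g204, e1]
                              · linarith only [C.a2, s1, g53, g31, g25, g200, g205]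
                              · rcases d11 with ⟨g208, g209⟩ | ⟨g210, g211⟩
                                · linarith only [C.a2, s1, g44, g54, g194, C.f11_0, C.f11_1, C.f11_2, g49, g25, g208, g12, g200, g5, g206]
                                · linarith only [g210, s1, g53, C.o0, C.f11_0, g49, g25, C.f33_1, g200, g206]
                              · linarith only [g54, C.o2, g49, C.f22_6, g12, g207]
                            · rcases d18 with g212 | g213 | g214 | g215 | g216
                              · linarith only [g44, e0, C.a2, C.o0, C.f11_0, C.f11_1, g35, g212, g201]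
                              · linarith only [g213, e1]
                              · linarith only [C.a2, s1, g44, C.f11_1, g31, g35, g201, g214]
                              · rcases d11 with ⟨g217, g218⟩ | ⟨g219, g220⟩
                                · linarith only [s1, g44, C.f11_1, g49, g35, g217, g201, g215]
                                · rcases d19 with g221 | g222 | g223 | g224 | g225 | g226
                                  · linarith only [g221, s1, C.o0, C.f11_0, C.f33_0]
                                  · linarith only [g44, s1, g222, C.f11_1, g49, g35, C.f33_1, g219, g201, g215]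
                                  · linarith only [g20, s1, g223, C.o0, C.f11_0, C.f33_1]
                                  · linarith only [g224, e0]
                                  · rcases d21 with g227 | g228 | g229 | g230
                                    · linarith only [g227, g44]
                                    · linarith only [s2, g228, g225, C.f11_0, C.f11_1, g49, g220, g215]
                                    · linarith only [g229, g53]
                                    · linarith only [g230, s3, g225, g194, C.f11_0, C.f11_1, C.f11_2, g13]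
                                  · linarith only [g226, g54]
                              · linarith only [g54, C.o2, g49, C.f22_6, g12, g216]
                            · linarith only [g202, s3, g194, g186, g13]
                          · rcases d18 with g231 | g232 | g233 | g234 | g235
                            · linarith only [g231, e0, C.a2, C.o0, g196]
                            · linarith only [g232, e1]
                            · linarith only [g233, s1, C.a2, C.o0, g196, C.f11_0, g31]
                            · rcases d19 with g236 | g237 | g238 | g239 | g240 | g241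
                              · linarith only [g236, s1, C.o0, C.f11_0, C.f33_0]
                              · rcases d11 with ⟨g242, g243⟩ | ⟨g244, g245⟩
                                · linarith only [s2, s1, C.o0, g196, C.f11_0, C.f11_1, g49, g242, g234]
                                · linarith only [g244, s1, g237, C.o0, g196, C.f11_0, g49, C.f33_1, g234]
                              · linarith only [g20, s1, g238, C.o0, C.f11_0, C.f33_1]
                              · linarith only [g239, e0]
                              · linarith only [g240, s2, g196, C.f11_0, C.f11_1, g49, g234]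
                              · linarith only [g241, g54]
                            · linarith only [C.o2, g54, g49, C.f22_6, g12, g235]
                  · rcases d6 with ⟨g246, g247⟩ | ⟨g248, g249⟩
                    · linarith only [C.b2, g46, g31, g246, C.f22_4]
                    · rcases d19 with g250 | g251 | g252 | g253 | g254 | g255
                      · linarith only [g250, s1, C.f33_0, g16]
                      · rcases d1 with ⟨g256, g257⟩ | ⟨g258, g259⟩
                        · linarith only [g256, g251]
                        · rcases d23 with g260 | g261 | g262 | g263 | g264 | g265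
                          · linarith only [g260, g45, C.o0]
                          · linarith only [g261, g251, g258, g46]
                          · linarith only [g262, s1, g251, C.o0, C.f11_0, C.f33_1]
                          · linarith only [g263, s1, C.o0, C.f11_0, C.f33_0]
                          · rcases d21 with g266 | g267 | g268 | g269
                            · linarith only [g46, g251, g266, g258]
                            · linarith only [C.o0, s1, g251, g267, C.f11_0, C.f33_1]
                            · linarith only [g268, g258]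
                            · rcases d3 with ⟨g270, g271⟩ | ⟨g272, g273⟩
                              · rcases d4 with ⟨g274, g275⟩ | ⟨g276, g277⟩
                                · linarith only [C.f13_7, g46, g259, C.o0, g6, g270, g274]
                                · rcases d13 with g278 | g279 | g280 | g281 | g282 | g283
                                  · linarith only [g278, g45]
                                  · linarith only [g279, g45, C.o0]
                                  · linarith only [C.a5, g45, C.a4, g258, g269, g280]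
                                  · rcases d18 with g284 | g285 | g286 | g287 | g288
                                    · linarith only [g284, g45, g258]
                                    · linarith only [g285, e1]
                                    · linarith only [g281, s1, g258, g6, g31, g286]
                                    · rcases d11 with ⟨g289, g290⟩ | ⟨g291, g292⟩
                                      · linarith only [g281, s1, g251, g258, g46, g6, g248, g289, g287]
                                      · linarith only [C.f33_1, s1, g251, g258, g6, g248, g291, g281, g287]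
                                    · linarith only [g288, g259, C.o2, g248, C.f22_6, g12]
                                  · linarith only [g46, C.o0, C.f11_0, C.f11_1, g6, g270, g282]
                                  · linarith only [g283, g46, g259, C.f11_0, C.f11_1, C.f11_2, g276]
                              · linarith only [g5, s1, g264, g259, C.o0, C.f11_0, C.f11_1, C.f11_2, g7, C.f13_3, g272, C.f33_1, g12]
                          · linarith only [g265, g259]
                      · linarith only [g20, s1, g252, C.f33_1, g16]
                      · linarith only [g253, g45]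
                      · linarith only [g254, g46]
                      · rcases d1 with ⟨g293, g294⟩ | ⟨g295, g296⟩
                        · rcases d15 with g297 | g298 | g299 | g300 | g301 | g302
                          · linarith only [g297, g45]
                          · linarith only [s1, g45, g293, C.f11_0, g298, g16]
                          · linarith only [C.b2, g45, C.a4, g294, g255, g299]
                          · linarith only [g300, s1, g293, C.f11_0, g25, g16]
                          · rcases d22 with g303 | g304 | g305 | g306 | ⟨g307, g308⟩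
                            · linarith only [g303, g293]
                            · linarith only [C.o1, s3, g304, C.f11_2, g35, g13, g301]
                            · linarith only [g305, g46]
                            · linarith only [C.o1, s2, g294, g306, g255, g35, C.f33_4, g301]
                            · linarith only [g46, g307, C.f11_0, C.f11_1, g35, g301]
                          · rcases d22 with g309 | g310 | g311 | g312 | ⟨g313, g314⟩
                            · linarith only [g309, g293]
                            · rcases d9 with ⟨g315, g316⟩ | ⟨g317, g318⟩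
                              · linarith only [g315, s3, g310, C.b5, C.o1, g35, g13, g302]
                              · linarith only [g317, s3, g310, C.b5, C.o1, g13, g302]
                            · linarith only [g311, g46]
                            · linarith only [g312, s1, g20, g294, g255, C.f33_1, g16]
                            · rcases d9 with ⟨g319, g320⟩ | ⟨g321, g322⟩
                              · linarith only [g319, s3, C.b5, g313, g314, g35, g13, g302]
                              · linarith only [g321, s3, g314, g13, g302]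
                        · linarith only [g296, g255]
                · linarith only [s1, g20, C.o0, C.o2, C.f11_0, C.f23_5, g37, C.f33_1]
            · linarith only [s1, s3, g20, C.o0, C.f11_0, C.f23_1, g27, C.f33_1, g13, g5]
          · linarith only [g21, e0]
          · rcases d0 with ⟨g323, g324⟩ | ⟨g325, g326⟩
            · rcases d1 with ⟨g327, g328⟩ | ⟨g329, g330⟩
              · rcases d24 with g331 | g332 | g333 | g334 | g335 | g336 | g337 | ⟨g338, g339⟩
                · linarith only [g331, g323]
                · linarith only [g332, g324]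
                · linarith only [g333, g328]
                · linarith only [g334, s1, C.f11_0, C.f33_0, g16]
                · linarith only [g324, g327, g335, g22]
                · linarith only [C.o2, s2, g22, g336, C.o1, C.f11_0, C.f11_1, C.f33_4]
                · rcases d19 with g340 | g341 | g342 | g343 | g344 | g345
                  · linarith only [g340, s1, C.f33_0, g16]
                  · linarith only [g341, g327]
                  · linarith only [C.b4, s2, g342, g22, g337, C.f11_0, C.f11_1, C.f33_4]
                  · linarith only [g343, e0]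
                  · rcases d21 with g346 | g347 | g348 | g349
                    · linarith only [g346, g324]
                    · linarith only [C.o1, s2, g347, g344, C.f11_0, C.f11_1, C.f33_4]
                    · linarith only [g324, g327, g348, g344]
                    · linarith only [g349, s3, g344, g337, C.f11_0, C.f11_1, C.f11_2, g13]
                  · linarith only [g22, s3, g345, g337, C.f11_0, C.f11_1, C.f11_2, g13]
                · rcases d22 with g350 | g351 | g352 | g353 | ⟨g354, g355⟩
                  · linarith only [g350, g327]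
                  · linarith only [g351, s3, g22, C.o1, C.f11_0, C.f11_1, C.f11_2, g13]
                  · rcases d10 with ⟨g356, g357⟩ | ⟨g358, g359⟩
                    · rcases d5 with ⟨g360, g361⟩ | ⟨g362, g363⟩
                      · rcases d6 with ⟨g364, g365⟩ | ⟨g366, g367⟩
                        · linarith only [C.f22_4, s1, C.b3, C.o0, C.f11_0, g360, g364, g357]
                        · rcases d18 with g368 | g369 | g370 | g371 | g372
                          · linarith only [g368, e0, s1, C.o0, C.f11_0, g360, C.f22_1, g357]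
                          · linarith only [g369, e1]
                          · linarith only [g370, s1, C.o0, C.f11_0, g360, g357]
                          · linarith only [s2, g352, g339, C.f11_0, C.f11_1, g366, g371]
                          · linarith only [g372, s3, g352, C.f11_0, C.f11_1, C.f11_2, g366, C.f22_6, g13]
                      · rcases d6 with ⟨g373, g374⟩ | ⟨g375, g376⟩
                        · linarith only [g327, C.b3, C.o0, g339, g362, g373, C.f22_4]
                        · rcases d18 with g377 | g378 | g379 | g380 | g381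
                          · linarith only [g377, e0, g327, C.o0, g339]
                          · linarith only [g378, e1]
                          · linarith only [g379, s1, g327, C.o0, g339, C.f11_0, g362]
                          · linarith only [s2, g352, g339, C.f11_0, C.f11_1, g375, g380]
                          · linarith only [g381, s3, g352, C.f11_0, C.f11_1, C.f11_2, g375, C.f22_6, g13]
                    · linarith only [g16, s2, g327, g352, g338, C.o1, C.f11_0, C.f11_1, g358, C.f33_4]
                  · linarith only [C.o2, s2, g22, g353, C.o1, C.f11_0, C.f11_1, C.f33_4]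
                  · linarith only [g354, g339]
              · rcases d24 with g382 | g383 | g384 | g385 | g386 | g387 | g388 | ⟨g389, g390⟩
                · linarith only [g382, g323]
                · linarith only [g383, g324]
                · linarith only [C.o1, s3, g384, g22, C.f11_0, C.f11_1, C.f11_2, g13]
                · linarith only [g385, s1, C.f11_0, C.f33_0, g16]
                · linarith only [g386, g329]
                · linarith only [C.o2, s2, g22, g387, C.o1, C.f11_0, C.f11_1, C.f33_4]
                · rcases d19 with g391 | g392 | g393 | g394 | g395 | g396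
                  · linarith only [s1, g391, C.f33_0, g16]
                  · rcases d21 with g397 | g398 | g399 | g400
                    · linarith only [g397, g324]
                    · linarith only [C.o0, s1, g392, g398, C.f11_0, C.f33_1]
                    · linarith only [g399, g329]
                    · rcases d23 with g401 | g402 | g403 | g404 | g405 | g406
                      · linarith only [g401, g323]
                      · linarith only [g402, s3, g392, g329, g400, g388, C.f11_0, C.f11_1, C.f11_2, g13]
                      · linarith only [C.b4, s2, g403, g22, g388, C.f11_0, C.f11_1, C.f33_4]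
                      · linarith only [s1, g404, C.o0, C.f11_0, C.f33_0]
                      · rcases d3 with ⟨g407, g408⟩ | ⟨g409, g410⟩
                        · rcases d4 with ⟨g411, g412⟩ | ⟨g413, g414⟩
                          · linarith only [C.a5, s3, g392, g329, g400, g388, C.f11_0, C.f11_1, C.f11_2, g6, g407, g411, C.f13_7, g13]
                          · rcases d13 with g415 | g416 | g417 | g418 | g419 | g420
                            · linarith only [g415, e0]
                            · linarith only [g416, g323]
                            · linarith only [e1, C.o2, g417]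
                            · rcases d5 with ⟨g421, g422⟩ | ⟨g423, g424⟩
                              · linarith only [C.f22_1, s1, g405, C.o0, C.f11_0, g421, C.f33_0]
                              · rcases d6 with ⟨g425, g426⟩ | ⟨g427, g428⟩
                                · linarith only [C.f22_4, s3, g329, g400, g388, C.f11_0, C.f11_1, C.f11_2, g423, g425, g13]
                                · rcases d18 with g429 | g430 | g431 | g432 | g433
                                  · linarith only [g429, e0, g329]
                                  · linarith only [g430, e1]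
                                  · linarith only [g431, s1, g329, g6, g423, g418]
                                  · rcases d11 with ⟨g434, g435⟩ | ⟨g436, g437⟩
                                    · linarith only [g434, s1, s3, g392, g329, g400, g388, C.f11_0, C.f11_1, C.f11_2, g6, g427, g13, g418, g432]
                                    · linarith only [g436, s1, g392, g329, g6, g427, C.f33_1, g418, g432]
                                  · linarith only [g433, g330, C.o2, g427, C.f22_6, g12]
                            · linarith only [C.o0, s3, g400, g388, C.f11_0, C.f11_1, C.f11_2, g6, g407, g13, g419]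
                            · linarith only [g420, s3, g388, g413, g13]
                        · linarith only [g22, s1, g405, C.o0, C.o2, C.f11_0, g7, C.f13_3, g409, C.f33_1]
                      · linarith only [g406, g330]
                  · linarith only [C.b4, s2, g393, g22, g388, C.f11_0, C.f11_1, C.f33_4]
                  · linarith only [g394, e0]
                  · rcases d21 with g438 | g439 | g440 | g441
                    · linarith only [g438, g324]
                    · linarith only [C.o1, s2, g439, g395, C.f11_0, C.f11_1, C.f33_4]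
                    · linarith only [g440, g329]
                    · linarith only [g441, s3, g395, g388, C.f11_0, C.f11_1, C.f11_2, g13]
                  · linarith only [g396, g330]
                · rcases d19 with g442 | g443 | g444 | g445 | g446 | g447
                  · linarith only [s1, g442, C.o0, C.f11_0, C.f33_0]
                  · rcases d5 with ⟨g448, g449⟩ | ⟨g450, g451⟩
                    · linarith only [C.f22_1, s1, g443, C.o0, C.o1, C.f11_0, g448, C.f33_0]
                    · rcases d6 with ⟨g452, g453⟩ | ⟨g454, g455⟩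
                      · linarith only [g324, C.a2, g450, g452, C.f22_4]
                      · rcases d18 with g456 | g457 | g458 | g459 | g460
                        · linarith only [g456, e0, C.a2, C.o0, g390]
                        · linarith only [g457, e1]
                        · linarith only [g458, s1, C.a2, C.o0, g390, C.f11_0, g450]
                        · rcases d11 with ⟨g461, g462⟩ | ⟨g463, g464⟩
                          · linarith only [g461, s1, s2, C.o0, g390, C.f11_0, C.f11_1, g454, g459]
                          · linarith only [g463, s1, g443, C.o0, g390, C.f11_0, g454, C.f33_1, g459]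
                        · linarith only [g22, s3, C.f11_0, C.f11_1, C.f11_2, g454, C.f22_6, g13, g460]
                  · linarith only [s2, g444, g22, C.o1, C.f11_0, C.f11_1, C.f33_4]
                  · linarith only [g445, e0]
                  · rcases d5 with ⟨g465, g466⟩ | ⟨g467, g468⟩
                    · rcases d6 with ⟨g469, g470⟩ | ⟨g471, g472⟩
                      · linarith only [C.f22_4, s1, C.b3, C.o0, C.f11_0, g465, g469, C.f33_0]
                      · rcases d18 with g473 | g474 | g475 | g476 | g477
                        · linarith only [g473, e0, s1, C.o0, C.f11_0, g465, C.f22_1, C.f33_0]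
                        · linarith only [g474, e1]
                        · linarith only [g475, s1, C.o0, C.f11_0, g465, C.f33_0]
                        · linarith only [g476, s2, g446, g390, C.f11_0, C.f11_1, g471]
                        · linarith only [g477, s3, g446, C.f11_0, C.f11_1, C.f11_2, g471, C.f22_6, g13]
                    · rcases d6 with ⟨g478, g479⟩ | ⟨g480, g481⟩
                      · linarith only [C.a2, C.b3, C.o0, g390, g467, g478, C.f22_4]
                      · rcases d18 with g482 | g483 | g484 | g485 | g486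
                        · linarith only [g482, e0, C.a2, C.o0, g390]
                        · linarith only [g483, e1]
                        · linarith only [g484, s1, C.a2, C.o0, g390, C.f11_0, g467]
                        · linarith only [s2, g446, g390, C.f11_0, C.f11_1, g480, g485]
                        · linarith only [g486, s3, g446, C.f11_0, C.f11_1, C.f11_2, g480, C.f22_6, g13]
                  · linarith only [g447, g330]
            · rcases d19 with g487 | g488 | g489 | g490 | g491 | g492
              · linarith only [g487, s1, C.o0, C.f11_0, C.f33_0]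
              · rcases d1 with ⟨g493, g494⟩ | ⟨g495, g496⟩
                · linarith only [g493, g488]
                · rcases d23 with g497 | g498 | g499 | g500 | g501 | g502
                  · linarith only [g497, g325, C.o0]
                  · linarith only [g495, g488, g498, g326]
                  · linarith only [g499, s1, g488, C.o0, C.f11_0, C.f33_1]
                  · linarith only [g500, s1, C.o0, C.f11_0, C.f33_0]
                  · rcases d21 with g503 | g504 | g505 | g506
                    · linarith only [g503, g488, g495, g326]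
                    · linarith only [C.f33_1, s1, g488, g504, C.o0, C.f11_0]
                    · linarith only [g505, g495]
                    · rcases d3 with ⟨g507, g508⟩ | ⟨g509, g510⟩
                      · rcases d4 with ⟨g511, g512⟩ | ⟨g513, g514⟩
                        · linarith only [C.f13_7, g326, g496, C.o0, g6, g507, g511]
                        · rcases d13 with g515 | g516 | g517 | g518 | g519 | g520
                          · linarith only [g515, g325]
                          · linarith only [g516, g325, C.o0]
                          · linarith only [e1, s3, g22, g506, C.f11_0, C.f11_1, C.f11_2, g13, g517]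
                          · rcases d5 with ⟨g521, g522⟩ | ⟨g523, g524⟩
                            · linarith only [C.f22_1, s1, g501, C.o0, C.f11_0, g521, C.f33_0]
                            · rcases d6 with ⟨g525, g526⟩ | ⟨g527, g528⟩
                              · linarith only [C.f22_4, g495, g326, g523, g525]
                              · rcases d18 with g529 | g530 | g531 | g532 | g533
                                · linarith only [g529, g325, g495]
                                · linarith only [g530, e1]
                                · linarith only [g518, s1, g495, g6, g523, g531]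
                                · rcases d11 with ⟨g534, g535⟩ | ⟨g536, g537⟩
                                  · linarith only [g518, s1, g488, g495, g326, g6, g527, g534, g532]
                                  · linarith only [C.f33_1, s1, g488, g495, g6, g527, g536, g518, g532]
                                · linarith only [g533, s3, g22, C.f11_0, C.f11_1, C.f11_2, g527, C.f22_6, g13]
                          · linarith only [g519, g326, C.o0, C.f11_0, C.f11_1, g6, g507]
                          · linarith only [g520, g326, g496, C.f11_0, C.f11_1, C.f11_2, g513]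
                      · linarith only [g509, s1, s3, g501, g22, g506, C.o0, C.f11_0, C.f11_1, C.f11_2, g7, C.f13_3, C.f33_1, g13]
                  · linarith only [g502, g496]
              · linarith only [s2, g489, g22, C.o1, C.f11_0, C.f11_1, C.f33_4]
              · linarith only [g490, g325]
              · linarith only [g491, g326]
              · rcases d22 with g538 | g539 | g540 | g541 | ⟨g542, g543⟩
                · rcases d1 with ⟨g544, g545⟩ | ⟨g546, g547⟩
                  · linarith only [g544, g538]
                  · linarith only [g547, g492]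
                · linarith only [C.o1, s3, g539, g22, C.f11_0, C.f11_1, C.f11_2, g13]
                · linarith only [g540, g326]
                · linarith only [s3, s2, g22, g541, g492, C.o1, C.f11_0, C.f11_1, C.f11_2, C.f33_4, g13]
                · linarith only [g543, s3, g22, g492, C.f11_0, C.f11_1, C.f11_2, g13]
        · rcases d20 with g548 | g549 | g550 | g551
          · linarith only [g548, s1, s2, C.a3, C.f11_1, C.f33_0, g17]
          · rcases d7 with ⟨g552, g553⟩ | ⟨g554, g555⟩ | ⟨g556, g557⟩
            · linarith only [g549, s1, s2, C.a3, C.f11_1, g552, C.f23_1, C.f33_0, g17]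
            · rcases d8 with ⟨g558, g559⟩ | ⟨g560, g561⟩ | ⟨g562, g563⟩
              · rcases d0 with ⟨g564, g565⟩ | ⟨g566, g567⟩
                · linarith only [C.f23_5, C.a2, g565, g554, g558]
                · linarith only [C.b2, g567, g554, g558, C.f23_5]
              · rcases d9 with ⟨g568, g569⟩ | ⟨g570, g571⟩
                · linarith only [C.b3, s2, C.b5, C.f11_0, C.f11_1, g560, g568, C.f23_9, g17]
                · rcases d0 with ⟨g572, g573⟩ | ⟨g574, g575⟩
                  · rcases d24 with g576 | g577 | g578 | g579 | g580 | g581 | g582 | ⟨g583, g584⟩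
                    · linarith only [g576, g572]
                    · linarith only [g577, g573]
                    · linarith only [g578, s2, s3, C.f11_2, g13, g17]
                    · linarith only [s1, s2, g573, g579, C.f11_0, C.f11_1, C.f33_0, g17]
                    · rcases d15 with g585 | g586 | g587 | g588 | g589 | g590
                      · linarith only [g585, e0]
                      · linarith only [C.a2, e0, s2, g573, C.f11_0, C.f11_1, g586, g17]
                      · linarith only [C.b4, e0, C.b2, g587]
                      · linarith only [C.a2, s2, g573, C.f11_0, C.f11_1, g554, g588, g17]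
                      · linarith only [g589, s2, C.a2, g573, g580, C.f11_0, C.f11_1, g560, g17]
                      · rcases d1 with ⟨g591, g592⟩ | ⟨g593, g594⟩
                        · linarith only [g591, g573, g580, C.b5, C.f11_0, C.f11_1, C.f11_2, g570, g590]
                        · linarith only [g593, g580]
                    · linarith only [C.b3, s2, g581, C.o2, C.f11_0, C.f11_1, C.f33_4, g17]
                    · rcases d15 with g595 | g596 | g597 | g598 | g599 | g600
                      · linarith only [g595, e0]
                      · linarith only [C.a2, g572, g596]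
                      · linarith only [e1, C.o2, g597]
                      · linarith only [C.a2, s2, g573, C.f11_0, C.f11_1, g554, g598, g17]
                      · rcases d21 with g601 | g602 | g603 | g604
                        · linarith only [g601, g573]
                        · linarith only [g602, s2, C.f33_4, g17]
                        · linarith only [C.a2, s2, g573, g603, C.f11_0, C.f11_1, g560, g599, g17]
                        · linarith only [g604, s2, s3, g582, C.f11_2, g560, g13, g599, g17]
                      · linarith only [g600, s3, g582, g570, g13]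
                    · linarith only [g583, s2, g573, C.f11_0, C.f11_1, g17]
                  · rcases d15 with g605 | g606 | g607 | g608 | g609 | g610
                    · linarith only [g605, g574]
                    · linarith only [C.a2, g574, s2, C.a3, C.f11_0, C.f11_1, g606, g17]
                    · linarith only [C.b4, g574, C.b2, g607]
                    · linarith only [g608, s2, C.b2, g575, C.f11_0, C.f11_1, g554, g17]
                    · linarith only [g609, s2, g575, C.f11_0, C.f11_1, g560, g17]
                    · rcases d22 with g611 | g612 | g613 | g614 | ⟨g615, g616⟩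
                      · rcases d1 with ⟨g617, g618⟩ | ⟨g619, g620⟩
                        · linarith only [g617, g611]
                        · linarith only [g620, g575, C.f11_0, C.f11_1, C.f11_2, g570, g610]
                      · linarith only [s2, s3, g612, C.f11_2, g13, g17]
                      · linarith only [g613, g575]
                      · linarith only [g614, s2, s3, g575, C.f11_0, C.f11_1, g570, C.f33_4, g13, g610, g17]
                      · linarith only [g616, s3, g570, g13, g610]
              · linarith only [C.f23_5, s2, C.o2, g562, C.f33_4, g17]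
            · linarith only [C.o2, s2, C.f23_1, g556, C.f33_4, g17]
          · linarith only [g550, e0]
          · rcases d7 with ⟨g621, g622⟩ | ⟨g623, g624⟩ | ⟨g625, g626⟩
            · rcases d8 with ⟨g627, g628⟩ | ⟨g629, g630⟩ | ⟨g631, g632⟩
              · linarith only [C.f23_5, s1, s2, C.a3, C.f11_1, g621, g627, C.f33_0, g17]
              · rcases d9 with ⟨g633, g634⟩ | ⟨g635, g636⟩
                · linarith only [C.b5, s2, C.b3, C.f11_0, C.f11_1, g629, g633, C.f23_9, g17]
                · rcases d10 with ⟨g637, g638⟩ | ⟨g639, g640⟩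
                  · rcases d24 with g641 | g642 | g643 | g644 | g645 | g646 | g647 | ⟨g648, g649⟩
                    · linarith only [g641, e0, s2, C.a3, C.f11_0, C.f11_1, g17]
                    · rcases d0 with ⟨g650, g651⟩ | ⟨g652, g653⟩
                      · linarith only [g651, g642]
                      · rcases d15 with g654 | g655 | g656 | g657 | g658 | g659
                        · linarith only [g654, g652]
                        · linarith only [g655, g652, s1, s2, C.a3, C.f11_0, C.f11_1, g621, C.f23_1, g638, g17]
                        · linarith only [C.b4, g652, s1, s2, C.a3, g551, C.f11_1, g621, C.f23_1, g638, g656, g17]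
                        · linarith only [g657, s1, s2, C.a3, C.f11_0, C.f11_1, g621, g638, g17]
                        · linarith only [g658, s2, g653, C.f11_0, C.f11_1, g629, g17]
                        · rcases d22 with g660 | g661 | g662 | g663 | ⟨g664, g665⟩
                          · linarith only [g660, s1, s2, C.a3, C.f11_1, g621, C.f23_1, g638, g17]
                          · linarith only [g661, s2, s3, C.f11_2, g13, g17]
                          · linarith only [g662, g653]
                          · linarith only [g663, s2, s3, g653, C.f11_0, C.f11_1, g635, C.f33_4, g13, g659, g17]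
                          · linarith only [g665, s3, g635, g13, g659]
                    · linarith only [g643, s2, s3, C.f11_2, g13, g17]
                    · linarith only [s1, s2, C.a3, g644, C.f11_0, C.f11_1, g638, g17]
                    · linarith only [g645, s1, s2, C.a3, g551, C.f11_1, g621, C.f23_1, g638, g17]
                    · linarith only [C.b3, s2, g646, C.o2, C.f11_0, C.f11_1, C.f33_4, g17]
                    · rcases d15 with g666 | g667 | g668 | g669 | g670 | g671
                      · linarith only [g666, e0]
                      · linarith only [g667, e0, s1, s2, C.a3, C.f11_0, C.f11_1, g621, C.f23_1, g638, g17]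
                      · linarith only [g668, e0, s1, s2, C.a3, C.o2, C.f11_0, C.f11_1, g621, C.f23_1, g638, C.f33_4, g17]
                      · linarith only [g669, s1, s2, C.a3, C.f11_0, C.f11_1, g621, g638, g17]
                      · rcases d19 with g672 | g673 | g674 | g675 | g676 | g677
                        · linarith only [g672, s1, s2, C.a3, C.f11_1, g638, g17]
                        · linarith only [g673, s1, s2, C.a3, C.f11_1, g621, C.f23_1, g638, g17]
                        · linarith only [g674, s2, C.f33_4, g17]
                        · linarith only [g675, e0]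
                        · rcases d21 with g678 | g679 | g680 | g681
                          · rcases d0 with ⟨g682, g683⟩ | ⟨g684, g685⟩
                            · linarith only [g683, g678]
                            · linarith only [g685, g676]
                          · linarith only [g679, s2, C.f33_4, g17]
                          · linarith only [g680, s1, s2, C.a3, g676, C.f11_1, g621, C.f23_1, g638, g17]
                          · linarith only [g681, s3, g676, g647, C.f11_0, C.f11_1, C.f11_2, g13]
                        · linarith only [g677, s2, s3, g647, C.f11_2, g629, g13, g670, g17]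
                      · linarith only [g671, s3, g647, g635, g13]
                    · linarith only [g649, s2, C.b3, C.f11_0, C.f11_1, g17]
                  · linarith only [g639, s2, g621, C.f23_1, C.f33_0, C.f33_4, g17]
              · linarith only [C.o2, s2, C.f23_5, g631, C.f33_4, g17]
            · rcases d8 with ⟨g686, g687⟩ | ⟨g688, g689⟩ | ⟨g690, g691⟩
              · rcases d0 with ⟨g692, g693⟩ | ⟨g694, g695⟩
                · linarith only [C.f23_5, C.a2, g693, g623, g686]
                · linarith only [C.b2, g695, g623, g686, C.f23_5]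
              · rcases d9 with ⟨g696, g697⟩ | ⟨g698, g699⟩
                · linarith only [C.b3, s2, C.b5, C.f11_0, C.f11_1, g688, g696, C.f23_9, g17]
                · rcases d0 with ⟨g700, g701⟩ | ⟨g702, g703⟩
                  · rcases d24 with g704 | g705 | g706 | g707 | g708 | g709 | g710 | ⟨g711, g712⟩
                    · linarith only [g704, g700]
                    · linarith only [g705, g701]
                    · linarith only [g706, s2, s3, C.f11_2, g13, g17]
                    · linarith only [s1, s2, g701, g707, C.f11_0, C.f11_1, C.f33_0, g17]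
                    · rcases d1 with ⟨g713, g714⟩ | ⟨g715, g716⟩
                      · linarith only [g551, g713, g701, g708]
                      · linarith only [g715, g708]
                    · linarith only [C.b3, s2, g709, C.o2, C.f11_0, C.f11_1, C.f33_4, g17]
                    · rcases d15 with g717 | g718 | g719 | g720 | g721 | g722
                      · linarith only [g717, e0]
                      · linarith only [C.a2, e0, s2, g701, C.f11_0, C.f11_1, g718, g17]
                      · linarith only [g719, e0, s1, s2, g701, C.o2, C.f11_0, C.f11_1, C.f33_1, g17]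
                      · linarith only [g720, s2, C.a2, g701, C.f11_0, C.f11_1, g623, g17]
                      · rcases d21 with g723 | g724 | g725 | g726
                        · linarith only [g723, g701]
                        · linarith only [g724, s2, C.f33_4, g17]
                        · linarith only [C.a2, s2, g701, g725, C.f11_0, C.f11_1, g688, g721, g17]
                        · linarith only [g726, s2, s3, g710, C.f11_2, g688, g13, g721, g17]
                      · linarith only [g722, s3, g710, g698, g13]
                    · linarith only [g711, s2, g701, C.f11_0, C.f11_1, g17]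
                  · rcases d15 with g727 | g728 | g729 | g730 | g731 | g732
                    · linarith only [g727, g702]
                    · linarith only [g728, g702, s2, C.b2, g703, C.f11_0, C.f11_1, g17]
                    · linarith only [C.b4, g702, C.b2, g729]
                    · linarith only [g730, s2, C.b2, g703, C.f11_0, C.f11_1, g623, g17]
                    · linarith only [g731, s2, g703, C.f11_0, C.f11_1, g688, g17]
                    · rcases d22 with g733 | g734 | g735 | g736 | ⟨g737, g738⟩
                      · rcases d1 with ⟨g739, g740⟩ | ⟨g741, g742⟩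
                        · linarith only [g739, g733]
                        · linarith only [g742, g703, C.f11_0, C.f11_1, C.f11_2, g698, g732]
                      · linarith only [s2, s3, g734, C.f11_2, g13, g17]
                      · linarith only [g735, g703]
                      · linarith only [g736, s2, s3, g703, C.f11_0, C.f11_1, g698, C.f33_4, g13, g732, g17]
                      · linarith only [g738, s3, g698, g13, g732]
              · linarith only [C.f23_5, s2, C.o2, g690, C.f33_4, g17]
            · linarith only [C.o2, s2, C.f23_1, g625, C.f33_4, g17]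
        · linarith only [g18, s3, g13]
    · linarith only [g8, s1, s3, C.o0, C.f11_0, C.f13_0, C.f33_1, C.f33_7, g5]


theorem c0_11_23_33_k1 {n1 n2 n3 A1 A2 A3 B1 B2 B3 m11_1 m11_2 m11_3 m13_1 m13_2 m13_3 m22_1 m22_2 m22_3 m23_1 m23_2 m23_3 m33_1 m33_2 m33_3 : ℤ}
    (C : Ctx0 n1 n2 n3 A1 A2 A3 B1 B2 B3 m11_1 m11_2 m11_3 m13_1 m13_2 m13_3 m22_1 m22_2 m22_3 m23_1 m23_2 m23_3 m33_1 m33_2 m33_3)
    (e0 : 0 < B1)
    (e1 : 0 < A2)
    (e2 : 0 < B3)
    (e3 : 0 < A3)
    (s1 : 1 * A1 + 2 * B1 ≤ m11_1 + m23_1 + m33_1)
    (s2 : 1 * A2 + 2 * B2 ≤ m11_2 + m23_2 + m33_2)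
    (s3 : 1 * A3 + 2 * B3 ≤ m11_3 + m23_3 + m33_3) : False := by
  have d1 : ((0 ≤ -1 - A1 + A2) ∧ (0 ≤ -1 + A2 - A3 + n3)) ∨ ((0 ≤ -1 - B1 + B2) ∧ (0 ≤ -1 + B2 - B3 + n3)) := by
    have h := C.t23
    clear C e0 e1 e2 e3 s1 s2 s3
    omega
  have d2 : ((0 ≤ 1 - A1 + m13_1) ∧ (0 ≤ -1 + A1 - m13_1)) ∨ ((0 ≤ 1 - B3 + m13_1) ∧ (0 ≤ -1 + B3 - m13_1)) := by
    have h := C.f13_2
    clear C e0 e1 e2 e3 s1 s2 s3
    omega
  have d3 : ((0 ≤ 0 - m13_1 + m13_2 - n2) ∧ (0 ≤ 0 + m13_1 - m13_2 + n2)) ∨ ((0 ≤ 1 - B3 + m13_2) ∧ (0 ≤ -1 + B3 - m13_2)) := by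
    have h := C.f13_5
    clear C e0 e1 e2 e3 s1 s2 s3
    omega
  have d4 : ((0 ≤ 0 - m13_2 + m13_3 - n3) ∧ (0 ≤ 0 + m13_2 - m13_3 + n3)) ∨ ((0 ≤ 1 - B3 + m13_3) ∧ (0 ≤ -1 + B3 - m13_3)) := by
    have h := C.f13_8
    clear C e0 e1 e2 e3 s1 s2 s3
    omega
  have d7 : ((0 ≤ 0 + m23_1 - n1) ∧ (0 ≤ 0 - m23_1 + n1)) ∨ ((0 ≤ 1 - A2 + m23_1) ∧ (0 ≤ -1 + A2 - m23_1)) ∨ ((0 ≤ 1 - B3 + m23_1) ∧ (0 ≤ -1 + B3 - m23_1)) := by
    have h := C.f23_3
    clear C e0 e1 e2 e3 s1 s2 s3
    omega
  have d8 : ((0 ≤ 0 - m23_1 + m23_2 - n2) ∧ (0 ≤ 0 + m23_1 - m23_2 + n2)) ∨ ((0 ≤ 1 - A2 + m23_2) ∧ (0 ≤ -1 + A2 - m23_2)) ∨ ((0 ≤ 1 - B3 + m23_2) ∧ (0 ≤ -1 + B3 - m23_2)) := by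
    have h := C.f23_7
    clear C e0 e1 e2 e3 s1 s2 s3
    omega
  have d9 : ((0 ≤ 0 - m23_2 + m23_3 - n3) ∧ (0 ≤ 0 + m23_2 - m23_3 + n3)) ∨ ((0 ≤ 1 - B3 + m23_3) ∧ (0 ≤ -1 + B3 - m23_3)) := by
    have h := C.f23_10
    clear C e0 e1 e2 e3 s1 s2 s3
    omega
  have d11 : ((0 ≤ 0 - m33_1 + m33_2 - n2) ∧ (0 ≤ 0 + m33_1 - m33_2 + n2)) ∨ ((0 ≤ 1 - A3 + m33_2) ∧ (0 ≤ -1 + A3 - m33_2)) := by
    have h := C.f33_5
    clear C e0 e1 e2 e3 s1 s2 s3
    omega
  have d12 : ((0 ≤ 0 - m33_2 + m33_3 - n3) ∧ (0 ≤ 0 + m33_2 - m33_3 + n3)) ∨ ((0 ≤ 1 - A3 + m33_3) ∧ (0 ≤ -1 + A3 - m33_3)) := by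
    have h := C.f33_8
    clear C e0 e1 e2 e3 s1 s2 s3
    omega
  have d18 : ((0 ≤ 0 - B1)) ∨ ((0 ≤ 0 - A2)) ∨ ((0 ≤ 0 - B3)) ∨ ((0 ≤ -1 + 2 * B1 - m11_1 - m23_1)) ∨ ((0 ≤ -1 + 2 * B2 - m11_2 - m23_2)) ∨ ((0 ≤ -1 + 2 * B3 - m11_3 - m23_3)) := by
    have h := C.p11_23B
    clear C e0 e1 e2 e3 s1 s2 s3
    omega
  have d20 : ((0 ≤ 0 - B1)) ∨ ((0 ≤ 0 - A3)) ∨ ((0 ≤ -1 + 2 * B1 - m11_1 - m33_1)) ∨ ((0 ≤ -1 + 2 * B2 - m11_2 - m33_2)) ∨ ((0 ≤ -1 + 2 * B3 - m11_3 - m33_3)) := by
    have h := C.p11_33B
    clear C e0 e1 e2 e3 s1 s2 s3
    omega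
  have d25 : ((0 ≤ 0 - A1)) ∨ ((0 ≤ 0 - B3)) ∨ ((0 ≤ 0 - A3)) ∨ ((0 ≤ -1 + 2 * A1 - m13_1 - m33_1)) ∨ ((0 ≤ -1 + 2 * A2 - m13_2 - m33_2)) ∨ ((0 ≤ -1 + 2 * A3 - m13_3 - m33_3)) := by
    have h := C.p13_33A
    clear C e0 e1 e2 e3 s1 s2 s3
    omega
  have d31 : ((0 ≤ 0 - A2)) ∨ ((0 ≤ 0 - B3)) ∨ ((0 ≤ 0 - A3)) ∨ ((0 ≤ -1 + 2 * A1 - m23_1 - m33_1)) ∨ ((0 ≤ -1 + 2 * A2 - m23_2 - m33_2)) ∨ ((0 ≤ -1 + 2 * A3 - m23_3 - m33_3)) := by
    have h := C.p23_33A
    clear C e0 e1 e2 e3 s1 s2 s3
    omega
  have d33 : ((0 ≤ 0 + A1 - n1)) ∨ ((0 ≤ 0 + A1 - A2)) ∨ ((0 ≤ 0 + A2 - A3)) ∨ ((0 ≤ 0 - B1)) ∨ ((0 ≤ 0 - B1 + B2 - n2)) ∨ ((0 ≤ 0 - B2 + B3 - n3)) := by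
    have h := C.tmzp
    clear C e0 e1 e2 e3 s1 s2 s3
    omega
  have d35 : ((0 ≤ 0 - A1 + A2 - n2)) ∨ ((0 ≤ 1 + A2 - A3)) ∨ ((0 ≤ 0 + B1 - B2)) ∨ ((0 ≤ 1 - B2 + B3 - n3)) := by
    have h := C.tzmp
    clear C e0 e1 e2 e3 s1 s2 s3
    omega
  have d38 : ((0 ≤ 0 - A1)) ∨ ((0 ≤ 1 - A1 + A2 - n2)) ∨ ((0 ≤ 0 + A2 - A3)) ∨ ((0 ≤ 0 + B1 - n1)) ∨ ((0 ≤ 1 + B1 - B2)) ∨ ((0 ≤ 0 - B2 + B3 - n3)) := by
    have h := C.tpmz
    clear C e0 e1 e2 e3 s1 s2 s3
    omega
  have d39 : ((0 ≤ 0 - A1)) ∨ ((0 ≤ 0 - A1 + A2 - n2)) ∨ ((0 ≤ 0 - A2 + A3 - n3)) ∨ ((0 ≤ 0 + B1 - n1)) ∨ ((0 ≤ 0 + B1 - B2)) ∨ ((0 ≤ 0 + B2 - B3)) ∨ ((0 ≤ 1 + A3 - B3)) ∨ ((0 ≤ 1 - A1 + B1) ∧ (0 ≤ 0 - A2 + B2)) := by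
    have h := C.tpzm
    clear C e0 e1 e2 e3 s1 s2 s3
    omega
  rcases d2 with ⟨g1, g2⟩ | ⟨g3, g4⟩
  · rcases d18 with g5 | g6 | g7 | g8 | g9 | g10
    · linarith only [g5, e0]
    · linarith only [g6, e1]
    · linarith only [g7, e2]
    · rcases d20 with g11 | g12 | g13 | g14 | g15
      · linarith only [g11, e0]
      · linarith only [g12, e3]
      · linarith only [s1, C.o0, C.f11_0, g8, g13]
      · linarith only [s2, C.f23_5, g14]
      · rcases d7 with ⟨g16, g17⟩ | ⟨g18, g19⟩ | ⟨g20, g21⟩
        · linarith only [g16, s1, C.o0, C.f11_0, C.f33_0, g8]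
        · rcases d1 with ⟨g22, g23⟩ | ⟨g24, g25⟩
          · linarith only [g22, C.o0, C.f11_0, g18, g8]
          · rcases d39 with g26 | g27 | g28 | g29 | g30 | g31 | g32 | ⟨g33, g34⟩
            · linarith only [g26, e0, C.o0]
            · linarith only [C.b3, g27, g24, C.o0, C.f11_0, g18, g8]
            · linarith only [C.o1, s3, g28, g25, C.f23_9, g15]
            · linarith only [s1, g29, C.o0, C.f33_0, g8]
            · linarith only [g30, g24]
            · linarith only [s3, s1, g31, C.o0, C.o1, C.f11_0, g18, C.f23_9, C.f33_1, g8, g15]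
            · linarith only [g32, s3, C.f23_9, g15]
            · rcases d35 with g35 | g36 | g37 | g38
              · linarith only [g35, C.b3, C.o0, g34]
              · linarith only [C.f33_1, s1, g36, C.o0, C.f11_0, g18, g8]
              · linarith only [g37, g24]
              · rcases d33 with g39 | g40 | g41 | g42 | g43 | g44
                · linarith only [g39, s1, C.f33_0, g8]
                · rcases d8 with ⟨g45, g46⟩ | ⟨g47, g48⟩ | ⟨g49, g50⟩
                  · linarith only [g45, s3, C.a2, g38, C.o0, g34, C.f11_0, C.f11_1, C.f11_2, g18, C.f23_5, C.f23_9, C.f33_7]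
                  · rcases d9 with ⟨g51, g52⟩ | ⟨g53, g54⟩
                    · linarith only [g51, g25, C.o1, g47, C.f23_9]
                    · rcases d12 with ⟨g55, g56⟩ | ⟨g57, g58⟩
                      · linarith only [s2, g25, C.f11_2, g48, g55, g15]
                      · rcases d31 with g59 | g60 | g61 | g62 | g63 | g64
                        · linarith only [g59, e1]
                        · linarith only [g60, e2]
                        · linarith only [g61, e3]
                        · linarith only [g62, s1, g33, C.f11_0]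
                        · rcases d11 with ⟨g65, g66⟩ | ⟨g67, g68⟩
                          · linarith only [g63, s1, s3, g40, g38, g34, C.f11_0, C.f11_1, C.f11_2, g19, g47, g54, g65, g58]
                          · linarith only [C.f33_1, s1, g40, g33, C.f11_0, g19, g47, g67, g63]
                        · linarith only [g64, s3, g57, g15]
                  · linarith only [g49, s1, s3, g40, g33, C.f11_0, g19, C.f23_5, C.f23_9, C.f33_1, g15]
                · linarith only [g41, s1, C.o0, C.f11_0, g18, C.f33_1, g8]
                · linarith only [g42, e0]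
                · linarith only [C.f33_7, s3, g43, g38, C.f11_0, C.f11_1, C.f11_2, C.f23_9]
                · linarith only [g44, g25]
        · linarith only [g20, s1, s3, C.o0, C.f11_0, C.f23_9, C.f33_1, g8, g15]
    · rcases d12 with ⟨g69, g70⟩ | ⟨g71, g72⟩
      · linarith only [C.a5, s2, g69, C.f33_7, g9]
      · rcases d38 with g73 | g74 | g75 | g76 | g77 | g78
        · linarith only [g73, e0, C.o0]
        · rcases d20 with g79 | g80 | g81 | g82 | g83
          · linarith only [g79, e0]
          · linarith only [g80, e3]
          · linarith only [g74, s2, C.o0, C.f11_0, C.f33_3, g9, g81]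
          · linarith only [g74, s2, C.b3, C.o0, C.f11_0, C.f11_1, g9, g82]
          · rcases d3 with ⟨g84, g85⟩ | ⟨g86, g87⟩
            · rcases d4 with ⟨g88, g89⟩ | ⟨g90, g91⟩
              · linarith only [C.f13_7, s3, C.o0, C.f11_0, C.f11_1, C.f11_2, g1, g84, g88, C.f23_9, g72]
              · rcases d25 with g92 | g93 | g94 | g95 | g96 | g97
                · linarith only [g92, e0, C.o0]
                · linarith only [g93, e2]
                · linarith only [g94, e3]
                · rcases d39 with g98 | g99 | g100 | g101 | g102 | g103 | g104 | ⟨g105, g106⟩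
                  · linarith only [g98, e0, C.o0]
                  · linarith only [g99, s2, g1, C.f33_3, g9, g95]
                  · linarith only [g74, s3, g100, C.o0, C.f11_0, C.f11_1, C.f11_2, C.f23_9, g72, g83]
                  · linarith only [g101, C.a1, C.o0]
                  · rcases d8 with ⟨g107, g108⟩ | ⟨g109, g110⟩ | ⟨g111, g112⟩
                    · linarith only [C.a2, s1, s2, g102, C.f11_1, g1, g107, C.f33_3, g9, g95]
                    · linarith only [g109, s1, s2, C.a2, g102, C.f11_1, g1, C.f23_1, C.f33_3, g9, g95]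
                    · linarith only [g111, s1, s2, s3, C.a2, g102, C.f11_1, g1, C.f23_1, C.f23_9, C.f33_3, C.f33_4, g9, g83, g95]
                  · linarith only [g74, s2, s3, C.b3, g103, C.o0, C.f23_9, C.f33_4, g9, g83]
                  · linarith only [g104, s3, C.f23_9, g83]
                  · linarith only [C.f33_3, s2, g74, C.o0, g106, C.f11_0, C.f11_1, g1, C.f23_5, g95]
                · linarith only [C.a3, s2, g1, g84, g9, g96]
                · linarith only [g97, s3, g90, C.f23_9, g71, g83]
            · linarith only [s2, s3, g74, g2, C.f13_3, g86, C.f23_9, C.f33_4, g9, g83]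
        · linarith only [g75, s2, C.f33_4, g9]
        · linarith only [C.a1, g76, C.o0]
        · rcases d20 with g113 | g114 | g115 | g116 | g117
          · linarith only [g113, e0]
          · linarith only [g114, e3]
          · rcases d8 with ⟨g118, g119⟩ | ⟨g120, g121⟩ | ⟨g122, g123⟩
            · linarith only [g118, s1, s2, g77, C.o0, C.f11_0, C.f11_1, C.f23_1, C.f33_3, g9, g115]
            · linarith only [g120, s1, s2, g77, C.o0, C.f11_0, C.f11_1, C.f23_1, C.f33_3, g9, g115]
            · linarith only [g122, s1, s2, g77, C.o0, C.o2, C.f11_0, C.f11_1, C.f23_1, C.f33_3, C.f33_4, g9, g115]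
          · linarith only [C.a2, s2, g77, C.b3, C.o0, C.f11_0, C.f11_1, g9, g116]
          · rcases d3 with ⟨g124, g125⟩ | ⟨g126, g127⟩
            · rcases d4 with ⟨g128, g129⟩ | ⟨g130, g131⟩
              · linarith only [C.f13_7, s3, C.o0, C.f11_0, C.f11_1, C.f11_2, g1, g124, g128, C.f23_9, g72]
              · rcases d25 with g132 | g133 | g134 | g135 | g136 | g137
                · linarith only [g132, e0, C.o0]
                · linarith only [g133, e2]
                · linarith only [g134, e3]
                · rcases d39 with g138 | g139 | g140 | g141 | g142 | g143 | g144 | ⟨g145, g146⟩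
                  · linarith only [g138, e0, C.o0]
                  · linarith only [g139, s2, g1, C.f33_3, g9, g135]
                  · linarith only [C.b5, s1, s3, g140, g77, C.f11_0, g1, C.f23_1, C.f23_9, g117, g135]
                  · linarith only [g141, C.a1, C.o0]
                  · rcases d8 with ⟨g147, g148⟩ | ⟨g149, g150⟩ | ⟨g151, g152⟩
                    · linarith only [C.a2, s1, s2, g142, C.f11_1, g1, g147, C.f33_3, g9, g135]
                    · linarith only [g149, s1, s2, C.a2, g142, C.f11_1, g1, C.f23_1, C.f33_3, g9, g135]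
                    · linarith only [g151, s1, s2, s3, C.a2, g142, C.f11_1, g1, C.f23_1, C.f23_9, C.f33_3, C.f33_4, g9, g117, g135]
                  · linarith only [g77, s1, s2, s3, g143, C.f11_0, g1, C.f23_1, C.f23_9, C.f33_4, g9, g117, g135]
                  · linarith only [g144, s3, C.f23_9, g117]
                  · linarith only [g146, s1, g77, C.f11_0, g1, C.f23_1, g135]
                · linarith only [C.a3, s2, g1, g124, g9, g136]
                · linarith only [g137, s3, g130, C.f23_9, g71, g117]
            · linarith only [C.a2, s2, s3, g77, C.f11_0, C.f11_1, C.f11_2, g2, C.f13_3, g126, C.f23_8, C.f33_4, g71, g9, g117]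
        · linarith only [C.f23_8, s3, g78, C.f11_2, g72, g9]
    · linarith only [g10, s3, C.f33_7]
  · linarith only [C.a4, C.a2, C.o2, C.f13_0, g3]


theorem c0_13_23_33_k2 {n1 n2 n3 A1 A2 A3 B1 B2 B3 m11_1 m11_2 m11_3 m13_1 m13_2 m13_3 m22_1 m22_2 m22_3 m23_1 m23_2 m23_3 m33_1 m33_2 m33_3 : ℤ}
    (C : Ctx0 n1 n2 n3 A1 A2 A3 B1 B2 B3 m11_1 m11_2 m11_3 m13_1 m13_2 m13_3 m22_1 m22_2 m22_3 m23_1 m23_2 m23_3 m33_1 m33_2 m33_3)
    (e0 : 0 < A1)
    (e1 : 0 < B3)
    (e2 : 0 < A2)
    (e3 : 0 < A3)
    (s1 : 2 * A1 + 1 * B1 ≤ m13_1 + m23_1 + m33_1)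
    (s2 : 2 * A2 + 1 * B2 ≤ m13_2 + m23_2 + m33_2)
    (s3 : 2 * A3 + 1 * B3 ≤ m13_3 + m23_3 + m33_3) : False := by
  have d0 : ((0 ≤ -1 + A1) ∧ (0 ≤ -1 + A1 - A2 + n2)) ∨ ((0 ≤ -1 + B1) ∧ (0 ≤ -1 + B1 - B2 + n2)) := by
    have h := C.t12
    clear C e0 e1 e2 e3 s1 s2 s3
    omega
  have d1 : ((0 ≤ -1 - A1 + A2) ∧ (0 ≤ -1 + A2 - A3 + n3)) ∨ ((0 ≤ -1 - B1 + B2) ∧ (0 ≤ -1 + B2 - B3 + n3)) := by
    have h := C.t23
    clear C e0 e1 e2 e3 s1 s2 s3
    omega
  have d2 : ((0 ≤ 1 - A1 + m13_1) ∧ (0 ≤ -1 + A1 - m13_1)) ∨ ((0 ≤ 1 - B3 + m13_1) ∧ (0 ≤ -1 + B3 - m13_1)) := by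
    have h := C.f13_2
    clear C e0 e1 e2 e3 s1 s2 s3
    omega
  have d4 : ((0 ≤ 0 - m13_2 + m13_3 - n3) ∧ (0 ≤ 0 + m13_2 - m13_3 + n3)) ∨ ((0 ≤ 1 - B3 + m13_3) ∧ (0 ≤ -1 + B3 - m13_3)) := by
    have h := C.f13_8
    clear C e0 e1 e2 e3 s1 s2 s3
    omega
  have d7 : ((0 ≤ 0 + m23_1 - n1) ∧ (0 ≤ 0 - m23_1 + n1)) ∨ ((0 ≤ 1 - A2 + m23_1) ∧ (0 ≤ -1 + A2 - m23_1)) ∨ ((0 ≤ 1 - B3 + m23_1) ∧ (0 ≤ -1 + B3 - m23_1)) := by
    have h := C.f23_3
    clear C e0 e1 e2 e3 s1 s2 s3
    omega
  have d9 : ((0 ≤ 0 - m23_2 + m23_3 - n3) ∧ (0 ≤ 0 + m23_2 - m23_3 + n3)) ∨ ((0 ≤ 1 - B3 + m23_3) ∧ (0 ≤ -1 + B3 - m23_3)) := by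
    have h := C.f23_10
    clear C e0 e1 e2 e3 s1 s2 s3
    omega
  have d25 : ((0 ≤ 0 - A1)) ∨ ((0 ≤ 0 - B3)) ∨ ((0 ≤ 0 - A3)) ∨ ((0 ≤ -1 + 2 * A1 - m13_1 - m33_1)) ∨ ((0 ≤ -1 + 2 * A2 - m13_2 - m33_2)) ∨ ((0 ≤ -1 + 2 * A3 - m13_3 - m33_3)) := by
    have h := C.p13_33A
    clear C e0 e1 e2 e3 s1 s2 s3
    omega
  have d31 : ((0 ≤ 0 - A2)) ∨ ((0 ≤ 0 - B3)) ∨ ((0 ≤ 0 - A3)) ∨ ((0 ≤ -1 + 2 * A1 - m23_1 - m33_1)) ∨ ((0 ≤ -1 + 2 * A2 - m23_2 - m33_2)) ∨ ((0 ≤ -1 + 2 * A3 - m23_3 - m33_3)) := by
    have h := C.p23_33A
    clear C e0 e1 e2 e3 s1 s2 s3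
    omega
  have d36 : ((0 ≤ 0 + A1 - A2)) ∨ ((0 ≤ 1 - A2 + A3 - n3)) ∨ ((0 ≤ 0 - B1 + B2 - n2)) ∨ ((0 ≤ 1 + B2 - B3)) ∨ ((0 ≤ -1 + A2 - B2) ∧ (0 ≤ 1 + A3 - B3)) := by
    have h := C.tzpm
    clear C e0 e1 e2 e3 s1 s2 s3
    omega
  have d39 : ((0 ≤ 0 - A1)) ∨ ((0 ≤ 0 - A1 + A2 - n2)) ∨ ((0 ≤ 0 - A2 + A3 - n3)) ∨ ((0 ≤ 0 + B1 - n1)) ∨ ((0 ≤ 0 + B1 - B2)) ∨ ((0 ≤ 0 + B2 - B3)) ∨ ((0 ≤ 1 + A3 - B3)) ∨ ((0 ≤ 1 - A1 + B1) ∧ (0 ≤ 0 - A2 + B2)) := by
    have h := C.tpzm
    clear C e0 e1 e2 e3 s1 s2 s3
    omega
  rcases d2 with ⟨g1, g2⟩ | ⟨g3, g4⟩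
  · rcases d25 with g5 | g6 | g7 | g8 | g9 | g10
    · linarith only [g5, e0]
    · linarith only [g6, e1]
    · linarith only [g7, e3]
    · rcases d31 with g11 | g12 | g13 | g14 | g15 | g16
      · linarith only [g11, e2]
      · linarith only [g12, e1]
      · linarith only [g13, e3]
      · rcases d39 with g17 | g18 | g19 | g20 | g21 | g22 | g23 | ⟨g24, g25⟩
        · linarith only [g17, e0]
        · rcases d0 with ⟨g26, g27⟩ | ⟨g28, g29⟩
          · linarith only [g27, g18]
          · rcases d36 with g30 | g31 | g32 | g33 | ⟨g34, g35⟩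
            · linarith only [g30, g18, C.b2, g29]
            · linarith only [g31, s1, s3, g18, g29, C.b5, g2, C.f13_7, C.f23_9, C.f33_7, g14]
            · linarith only [g32, g29]
            · linarith only [g33, s1, s3, g18, C.a4, g29, g2, C.f13_7, C.f23_9, C.f33_7, g14]
            · linarith only [g35, s3, C.f13_7, C.f23_9, C.f33_7]
        · linarith only [C.o1, s3, g19, C.b5, C.f13_7, C.f23_9, C.f33_7]
        · linarith only [g20, s1, C.a1, g2, g14]
        · rcases d1 with ⟨g36, g37⟩ | ⟨g38, g39⟩
          · rcases d36 with g40 | g41 | g42 | g43 | ⟨g44, g45⟩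
            · linarith only [g40, g36]
            · linarith only [g41, s1, s3, g36, g21, C.b5, g2, C.f13_7, C.f23_9, C.f33_7, g14]
            · linarith only [g42, g36, C.a3, g21]
            · linarith only [g43, s1, s3, g36, C.a4, g21, g2, C.f13_7, C.f23_9, C.f33_7, g14]
            · linarith only [g45, s3, C.f13_7, C.f23_9, C.f33_7]
          · linarith only [g38, g21]
        · linarith only [C.a4, s3, g22, C.o1, C.f13_7, C.f23_9, C.f33_7]
        · linarith only [g23, s3, C.f13_7, C.f23_9, C.f33_7]
        · linarith only [g24, s1, g2, g14]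
      · rcases d4 with ⟨g46, g47⟩ | ⟨g48, g49⟩
        · linarith only [g15, s2, C.b5, g46, C.f13_7]
        · rcases d36 with g50 | g51 | g52 | g53 | ⟨g54, g55⟩
          · rcases d7 with ⟨g56, g57⟩ | ⟨g58, g59⟩ | ⟨g60, g61⟩
            · linarith only [C.a1, g50, g56, C.f23_1]
            · rcases d1 with ⟨g62, g63⟩ | ⟨g64, g65⟩
              · linarith only [g62, g50]
              · rcases d39 with g66 | g67 | g68 | g69 | g70 | g71 | g72 | ⟨g73, g74⟩
                · linarith only [g66, e0]
                · linarith only [C.b3, g50, g67, g64]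
                · linarith only [C.o1, s3, g68, g65, g49, C.f23_9, C.f33_7]
                · linarith only [g69, s1, g50, g2, g59, C.f33_0]
                · linarith only [g70, g64]
                · linarith only [C.a4, s3, g71, C.o1, g49, C.f23_9, C.f33_7]
                · linarith only [g72, s3, g49, C.f23_9, C.f33_7]
                · linarith only [g8, s1, g50, g73, g59]
            · linarith only [C.a4, s3, g49, C.f23_1, g60, C.f23_9, C.f33_7]
          · linarith only [C.o1, s3, g51, C.b5, g49, C.f23_9, C.f33_7]
          · rcases d0 with ⟨g75, g76⟩ | ⟨g77, g78⟩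
            · rcases d39 with g79 | g80 | g81 | g82 | g83 | g84 | g85 | ⟨g86, g87⟩
              · linarith only [g79, g75]
              · linarith only [g80, g76]
              · linarith only [C.o1, s3, g81, C.b5, g49, C.f23_9, C.f33_7]
              · linarith only [C.a1, g82, C.o0]
              · linarith only [g76, C.a2, g83, g52]
              · linarith only [C.a4, s3, g84, C.o1, g49, C.f23_9, C.f33_7]
              · linarith only [g85, s3, g49, C.f23_9, C.f33_7]
              · linarith only [g15, s2, g52, g86, g2, C.f13_3]
            · linarith only [g78, g52]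
          · linarith only [C.a4, s3, g53, C.o1, g49, C.f23_9, C.f33_7]
          · linarith only [g55, s3, g49, C.f23_9, C.f33_7]
      · linarith only [g16, s3, C.f13_7]
    · rcases d9 with ⟨g88, g89⟩ | ⟨g90, g91⟩
      · linarith only [s2, C.b5, g88, C.f23_9, g9]
      · rcases d39 with g92 | g93 | g94 | g95 | g96 | g97 | g98 | ⟨g99, g100⟩
        · linarith only [g92, e0]
        · rcases d0 with ⟨g101, g102⟩ | ⟨g103, g104⟩
          · linarith only [g102, g93]
          · rcases d36 with g105 | g106 | g107 | g108 | ⟨g109, g110⟩
            · linarith only [g105, g93, C.b2, g104]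
            · linarith only [C.o0, s3, g93, g106, g104, C.b5, C.f13_7, g91, C.f33_7]
            · linarith only [g107, g104]
            · linarith only [g108, s2, s3, g93, g2, C.f13_3, C.f13_7, C.f23_5, g91, C.f33_4, C.f33_7]
            · linarith only [g110, s3, C.f13_7, g91, C.f33_7]
        · linarith only [g94, s2, s3, C.b5, C.f13_7, C.f23_5, g91, C.f33_7, g9]
        · linarith only [g95, C.a1, C.o0]
        · rcases d1 with ⟨g111, g112⟩ | ⟨g113, g114⟩
          · rcases d36 with g115 | g116 | g117 | g118 | ⟨g119, g120⟩
            · linarith only [g115, g111]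
            · linarith only [g116, s3, g111, g96, C.b5, C.o0, C.f13_7, g91, C.f33_7]
            · linarith only [C.a3, g111, g96, g117]
            · linarith only [C.a4, s3, g111, g96, g118, C.o0, C.f13_7, g91, C.f33_7]
            · linarith only [g120, s3, C.f13_7, g91, C.f33_7]
          · linarith only [g113, g96]
        · linarith only [C.a4, s2, s3, g97, C.f13_7, C.f23_5, g91, C.f33_7, g9]
        · linarith only [g98, s3, C.f13_7, g91, C.f33_7]
        · linarith only [g100, s2, C.f23_5, g9]
    · linarith only [g10, s3, C.f23_9]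
  · linarith only [C.a4, s3, C.a2, C.f13_0, g3, C.f13_7, C.f23_9, C.f33_7]


theorem c3_22_33_33_k3 {n1 n2 n3 A1 A2 A3 B1 B2 B3 m11_1 m11_2 m11_3 m22_1 m22_2 m22_3 m23_1 m23_2 m23_3 m33_1 m33_2 m33_3 : ℤ}
    (C : Ctx3 n1 n2 n3 A1 A2 A3 B1 B2 B3 m11_1 m11_2 m11_3 m22_1 m22_2 m22_3 m23_1 m23_2 m23_3 m33_1 m33_2 m33_3)
    (e0 : 0 < B2)
    (e1 : 0 < A3)
    (s1 : 3 * A1 + 0 * B1 ≤ m22_1 + m33_1 + m33_1)
    (s2 : 3 * A2 + 0 * B2 ≤ m22_2 + m33_2 + m33_2)
    (s3 : 3 * A3 + 0 * B3 ≤ m22_3 + m33_3 + m33_3) : False := by
  have d0 : ((0 ≤ -1 + A1) ∧ (0 ≤ -1 + A1 - A2 + n2)) ∨ ((0 ≤ -1 + B1) ∧ (0 ≤ -1 + B1 - B2 + n2)) := by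
    have h := C.t12
    clear C e0 e1 s1 s2 s3
    omega
  have d2 : ((0 ≤ 0 + m22_1 - n1) ∧ (0 ≤ 0 - m22_1 + n1)) ∨ ((0 ≤ 1 - B2 + m22_1) ∧ (0 ≤ -1 + B2 - m22_1)) := by
    have h := C.f22_2
    clear C e0 e1 s1 s2 s3
    omega
  have d3 : ((0 ≤ 0 - m22_1 + m22_2 - n2) ∧ (0 ≤ 0 + m22_1 - m22_2 + n2)) ∨ ((0 ≤ 1 - B2 + m22_2) ∧ (0 ≤ -1 + B2 - m22_2)) := by
    have h := C.f22_5
    clear C e0 e1 s1 s2 s3
    omega
  have d4 : ((0 ≤ 0 + m23_1 - n1) ∧ (0 ≤ 0 - m23_1 + n1)) ∨ ((0 ≤ 1 - A2 + m23_1) ∧ (0 ≤ -1 + A2 - m23_1)) ∨ ((0 ≤ 1 - B3 + m23_1) ∧ (0 ≤ -1 + B3 - m23_1)) := by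
    have h := C.f23_3
    clear C e0 e1 s1 s2 s3
    omega
  have d5 : ((0 ≤ 0 - m23_1 + m23_2 - n2) ∧ (0 ≤ 0 + m23_1 - m23_2 + n2)) ∨ ((0 ≤ 1 - A2 + m23_2) ∧ (0 ≤ -1 + A2 - m23_2)) ∨ ((0 ≤ 1 - B3 + m23_2) ∧ (0 ≤ -1 + B3 - m23_2)) := by
    have h := C.f23_7
    clear C e0 e1 s1 s2 s3
    omega
  have d6 : ((0 ≤ 0 - m23_2 + m23_3 - n3) ∧ (0 ≤ 0 + m23_2 - m23_3 + n3)) ∨ ((0 ≤ 1 - B3 + m23_3) ∧ (0 ≤ -1 + B3 - m23_3)) := by
    have h := C.f23_10
    clear C e0 e1 s1 s2 s3
    omega
  have d7 : ((0 ≤ 0 + m33_1 - n1) ∧ (0 ≤ 0 - m33_1 + n1)) ∨ ((0 ≤ 1 - A3 + m33_1) ∧ (0 ≤ -1 + A3 - m33_1)) := by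
    have h := C.f33_2
    clear C e0 e1 s1 s2 s3
    omega
  have d9 : ((0 ≤ 0 - m33_2 + m33_3 - n3) ∧ (0 ≤ 0 + m33_2 - m33_3 + n3)) ∨ ((0 ≤ 1 - A3 + m33_3) ∧ (0 ≤ -1 + A3 - m33_3)) := by
    have h := C.f33_8
    clear C e0 e1 s1 s2 s3
    omega
  have d10 : ((0 ≤ 0 - B2)) ∨ ((0 ≤ 0 - A3)) ∨ ((0 ≤ -1 + 2 * A1 - m22_1 - m33_1)) ∨ ((0 ≤ -1 + 2 * A2 - m22_2 - m33_2)) ∨ ((0 ≤ -1 + 2 * A3 - m22_3 - m33_3)) := by
    have h := C.p22_33A
    clear C e0 e1 s1 s2 s3
    omega
  have d12 : ((0 ≤ 0 - A2)) ∨ ((0 ≤ 0 - B3)) ∨ ((0 ≤ 0 - A3)) ∨ ((0 ≤ -1 + 2 * A1 - m23_1 - m33_1)) ∨ ((0 ≤ -1 + 2 * A2 - m23_2 - m33_2)) ∨ ((0 ≤ -1 + 2 * A3 - m23_3 - m33_3)) := by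
    have h := C.p23_33A
    clear C e0 e1 s1 s2 s3
    omega
  have d13 : ((0 ≤ 0 + A1 - n1)) ∨ ((0 ≤ 0 + A1 - A2)) ∨ ((0 ≤ 0 + A2 - A3)) ∨ ((0 ≤ 0 - B1)) ∨ ((0 ≤ 0 - B1 + B2 - n2)) ∨ ((0 ≤ 0 - B2 + B3 - n3)) := by
    have h := C.tmzp
    clear C e0 e1 s1 s2 s3
    omega
  have d15 : ((0 ≤ 0 - A1 + A2 - n2)) ∨ ((0 ≤ 1 + A2 - A3)) ∨ ((0 ≤ 0 + B1 - B2)) ∨ ((0 ≤ 1 - B2 + B3 - n3)) := by
    have h := C.tzmp
    clear C e0 e1 s1 s2 s3
    omega
  rcases d9 with ⟨g1, g2⟩ | ⟨g3, g4⟩
  · linarith only [g1, s2, s3, C.o1, C.f22_4, C.f22_6, C.f33_7]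
  · rcases d10 with g5 | g6 | g7 | g8 | g9
    · linarith only [g5, e0]
    · linarith only [g6, e1]
    · rcases d2 with ⟨g10, g11⟩ | ⟨g12, g13⟩
      · linarith only [g10, s1, C.f33_0, g7]
      · linarith only [C.b2, s1, C.o0, g12, g7]
    · rcases d4 with ⟨g14, g15⟩ | ⟨g16, g17⟩ | ⟨g18, g19⟩
      · rcases d5 with ⟨g20, g21⟩ | ⟨g22, g23⟩ | ⟨g24, g25⟩
        · linarith only [C.f23_5, s2, g14, g20, C.f33_0, C.f33_3, g8]
        · rcases d12 with g26 | g27 | g28 | g29 | g30 | g31
          · linarith only [e0, C.o1, g26]
          · linarith only [C.b4, e0, g27]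
          · linarith only [g28, e1]
          · linarith only [C.f22_0, s1, C.a1, g14, g29]
          · linarith only [C.f22_4, s2, C.o1, g22, g30]
          · rcases d6 with ⟨g32, g33⟩ | ⟨g34, g35⟩
            · linarith only [g32, s3, C.o1, C.f22_4, C.f22_6, g22, g4, g31]
            · rcases d7 with ⟨g36, g37⟩ | ⟨g38, g39⟩
              · rcases d13 with g40 | g41 | g42 | g43 | g44 | g45
                · rcases d15 with g46 | g47 | g48 | g49
                  · linarith only [C.f22_4, s2, g40, g46, C.o1, g37, C.f33_3]
                  · linarith only [g47, s2, C.o1, C.f22_4, C.f33_4]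
                  · linarith only [g48, s1, g40, C.o0, C.f22_1, g37]
                  · linarith only [g49, s3, C.f22_4, C.f22_6, g34, g4, g31]
                · linarith only [C.b2, g41, C.o0, C.o1]
                · linarith only [C.f22_4, s2, g42, C.o1, C.f33_4]
                · rcases d0 with ⟨g50, g51⟩ | ⟨g52, g53⟩
                  · linarith only [g50, g43, C.o0]
                  · linarith only [g52, g43]
                · linarith only [g44, C.a3, C.o0, C.o1]
                · linarith only [g45, s3, C.f22_4, C.f22_6, g34, g4, g31]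
              · linarith only [s2, C.o1, C.f22_4, g14, C.f23_1, C.f33_0, g38, C.f33_4]
        · linarith only [C.o2, s2, C.f23_5, g24, C.f33_4, g8]
      · rcases d5 with ⟨g54, g55⟩ | ⟨g56, g57⟩ | ⟨g58, g59⟩
        · linarith only [C.o1, C.a3, C.b2, C.o0, g16, g54, C.f23_5]
        · rcases d12 with g60 | g61 | g62 | g63 | g64 | g65
          · linarith only [g60, e0, C.o1]
          · linarith only [C.b4, e0, g61]
          · linarith only [g62, e1]
          · linarith only [C.f22_1, s1, C.b2, C.o0, C.o1, g16, g63]
          · linarith only [C.f22_4, s2, C.o1, g56, g64]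
          · rcases d2 with ⟨g66, g67⟩ | ⟨g68, g69⟩
            · linarith only [g66, C.o1, C.f22_1, C.f23_0, g16]
            · rcases d3 with ⟨g70, g71⟩ | ⟨g72, g73⟩
              · linarith only [C.b2, C.a3, C.o0, C.o1, g68, g70, C.f22_4]
              · rcases d6 with ⟨g74, g75⟩ | ⟨g76, g77⟩
                · linarith only [g74, s3, C.o1, g73, C.f22_6, g56, g4, g65]
                · rcases d13 with g78 | g79 | g80 | g81 | g82 | g83
                  · linarith only [C.f23_0, s1, g78, C.o1, g69, g16, C.f33_0]
                  · linarith only [C.b2, g79, C.o0, C.o1]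
                  · linarith only [s2, g80, C.o1, g73, C.f33_4]
                  · rcases d0 with ⟨g84, g85⟩ | ⟨g86, g87⟩
                    · linarith only [g84, g81, C.o0]
                    · linarith only [g86, g81]
                  · linarith only [C.a3, g82, C.o0, C.o1]
                  · linarith only [g83, s3, g73, C.f22_6, g76, g4, g65]
        · linarith only [C.o2, s2, C.f23_5, g58, C.f33_4, g8]
      · linarith only [C.o2, s2, C.f23_1, g18, C.f33_4, g8]
    · linarith only [g9, s3, g4]


theorem c0_22_23_33_k3 {n1 n2 n3 A1 A2 A3 B1 B2 B3 m11_1 m11_2 m11_3 m13_1 m13_2 m13_3 m22_1 m22_2 m22_3 m23_1 m23_2 m23_3 m33_1 m33_2 m33_3 : ℤ}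
    (C : Ctx0 n1 n2 n3 A1 A2 A3 B1 B2 B3 m11_1 m11_2 m11_3 m13_1 m13_2 m13_3 m22_1 m22_2 m22_3 m23_1 m23_2 m23_3 m33_1 m33_2 m33_3)
    (e0 : 0 < B2)
    (e1 : 0 < A2)
    (e2 : 0 < B3)
    (e3 : 0 < A3)
    (s1 : 3 * A1 + 0 * B1 ≤ m22_1 + m23_1 + m33_1)
    (s2 : 3 * A2 + 0 * B2 ≤ m22_2 + m23_2 + m33_2)
    (s3 : 3 * A3 + 0 * B3 ≤ m22_3 + m23_3 + m33_3) : False := by
  have d2 : ((0 ≤ 1 - A1 + m13_1) ∧ (0 ≤ -1 + A1 - m13_1)) ∨ ((0 ≤ 1 - B3 + m13_1) ∧ (0 ≤ -1 + B3 - m13_1)) := by
    have h := C.f13_2
    clear C e0 e1 e2 e3 s1 s2 s3
    omega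
  have d3 : ((0 ≤ 0 - m13_1 + m13_2 - n2) ∧ (0 ≤ 0 + m13_1 - m13_2 + n2)) ∨ ((0 ≤ 1 - B3 + m13_2) ∧ (0 ≤ -1 + B3 - m13_2)) := by
    have h := C.f13_5
    clear C e0 e1 e2 e3 s1 s2 s3
    omega
  have d4 : ((0 ≤ 0 - m13_2 + m13_3 - n3) ∧ (0 ≤ 0 + m13_2 - m13_3 + n3)) ∨ ((0 ≤ 1 - B3 + m13_3) ∧ (0 ≤ -1 + B3 - m13_3)) := by
    have h := C.f13_8
    clear C e0 e1 e2 e3 s1 s2 s3
    omega
  have d5 : ((0 ≤ 0 + m22_1 - n1) ∧ (0 ≤ 0 - m22_1 + n1)) ∨ ((0 ≤ 1 - B2 + m22_1) ∧ (0 ≤ -1 + B2 - m22_1)) := by
    have h := C.f22_2
    clear C e0 e1 e2 e3 s1 s2 s3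
    omega
  have d6 : ((0 ≤ 0 - m22_1 + m22_2 - n2) ∧ (0 ≤ 0 + m22_1 - m22_2 + n2)) ∨ ((0 ≤ 1 - B2 + m22_2) ∧ (0 ≤ -1 + B2 - m22_2)) := by
    have h := C.f22_5
    clear C e0 e1 e2 e3 s1 s2 s3
    omega
  have d8 : ((0 ≤ 0 - m23_1 + m23_2 - n2) ∧ (0 ≤ 0 + m23_1 - m23_2 + n2)) ∨ ((0 ≤ 1 - A2 + m23_2) ∧ (0 ≤ -1 + A2 - m23_2)) ∨ ((0 ≤ 1 - B3 + m23_2) ∧ (0 ≤ -1 + B3 - m23_2)) := by
    have h := C.f23_7
    clear C e0 e1 e2 e3 s1 s2 s3
    omega
  have d9 : ((0 ≤ 0 - m23_2 + m23_3 - n3) ∧ (0 ≤ 0 + m23_2 - m23_3 + n3)) ∨ ((0 ≤ 1 - B3 + m23_3) ∧ (0 ≤ -1 + B3 - m23_3)) := by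
    have h := C.f23_10
    clear C e0 e1 e2 e3 s1 s2 s3
    omega
  have d10 : ((0 ≤ 0 + m33_1 - n1) ∧ (0 ≤ 0 - m33_1 + n1)) ∨ ((0 ≤ 1 - A3 + m33_1) ∧ (0 ≤ -1 + A3 - m33_1)) := by
    have h := C.f33_2
    clear C e0 e1 e2 e3 s1 s2 s3
    omega
  have d12 : ((0 ≤ 0 - m33_2 + m33_3 - n3) ∧ (0 ≤ 0 + m33_2 - m33_3 + n3)) ∨ ((0 ≤ 1 - A3 + m33_3) ∧ (0 ≤ -1 + A3 - m33_3)) := by
    have h := C.f33_8
    clear C e0 e1 e2 e3 s1 s2 s3
    omega
  have d13 : ((0 ≤ 0 - A1)) ∨ ((0 ≤ 0 - B3)) ∨ ((0 ≤ 0 - A2)) ∨ ((0 ≤ -1 + 2 * A1 - m13_1 - m23_1)) ∨ ((0 ≤ -1 + 2 * A2 - m13_2 - m23_2)) ∨ ((0 ≤ -1 + 2 * A3 - m13_3 - m23_3)) := by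
    have h := C.p13_23A
    clear C e0 e1 e2 e3 s1 s2 s3
    omega
  have d14 : ((0 ≤ 0 - B2)) ∨ ((0 ≤ 0 - A3)) ∨ ((0 ≤ -1 + 2 * A1 - m22_1 - m33_1)) ∨ ((0 ≤ -1 + 2 * A2 - m22_2 - m33_2)) ∨ ((0 ≤ -1 + 2 * A3 - m22_3 - m33_3)) := by
    have h := C.p22_33A
    clear C e0 e1 e2 e3 s1 s2 s3
    omega
  have d15 : ((0 ≤ 0 - A2)) ∨ ((0 ≤ 0 - B3)) ∨ ((0 ≤ 0 - A3)) ∨ ((0 ≤ -1 + 2 * A1 - m23_1 - m33_1)) ∨ ((0 ≤ -1 + 2 * A2 - m23_2 - m33_2)) ∨ ((0 ≤ -1 + 2 * A3 - m23_3 - m33_3)) := by
    have h := C.p23_33A
    clear C e0 e1 e2 e3 s1 s2 s3
    omega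
  rcases d2 with ⟨g1, g2⟩ | ⟨g3, g4⟩
  · rcases d12 with ⟨g5, g6⟩ | ⟨g7, g8⟩
    · linarith only [C.f23_5, s2, s3, C.b5, C.o1, C.f22_4, C.f22_6, C.f23_9, g5, C.f33_7]
    · rcases d15 with g9 | g10 | g11 | g12 | g13 | g14
      · linarith only [g9, e1]
      · linarith only [g10, e2]
      · linarith only [g11, e3]
      · rcases d6 with ⟨g15, g16⟩ | ⟨g17, g18⟩
        · linarith only [g15, s1, C.b3, C.o0, C.f22_4, g12]
        · rcases d14 with g19 | g20 | g21 | g22 | g23
          · linarith only [g19, e0]
          · linarith only [g20, e3]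
          · rcases d10 with ⟨g24, g25⟩ | ⟨g26, g27⟩
            · linarith only [g24, s1, C.f22_0, g21, g12]
            · linarith only [g26, s1, s2, C.o1, C.f22_1, g18, C.f23_5, C.f33_4, g21, g12]
          · linarith only [g22, s2, C.f23_5]
          · linarith only [C.b5, s3, g17, C.f22_6, C.f23_9, g7, g23]
      · linarith only [C.f22_4, s2, C.o1, g13]
      · rcases d14 with g28 | g29 | g30 | g31 | g32
        · linarith only [g28, e0]
        · linarith only [g29, e3]
        · rcases d8 with ⟨g33, g34⟩ | ⟨g35, g36⟩ | ⟨g37, g38⟩
          · linarith only [g33, s1, s2, C.f22_3, C.f23_5, C.f33_3, g30]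
          · rcases d9 with ⟨g39, g40⟩ | ⟨g41, g42⟩
            · linarith only [g39, s3, C.o1, C.f22_4, C.f22_6, g35, g7, g14]
            · rcases d13 with g43 | g44 | g45 | g46 | g47 | g48
              · linarith only [C.b0, g43, C.o0]
              · linarith only [g44, e2]
              · linarith only [g45, e1]
              · linarith only [g46, s1, g1, g30]
              · rcases d3 with ⟨g49, g50⟩ | ⟨g51, g52⟩
                · rcases d5 with ⟨g53, g54⟩ | ⟨g55, g56⟩
                  · linarith only [s2, s1, C.b3, C.o0, g1, g49, g53, C.f22_4, C.f23_0, g35, C.f33_3, g47, g30]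
                  · linarith only [g55, s1, s2, g1, g49, C.f22_4, C.f23_1, C.f33_3, g47, g30]
                · linarith only [C.o2, s2, C.o1, g51, C.f22_4, C.f33_4, g47]
              · rcases d4 with ⟨g57, g58⟩ | ⟨g59, g60⟩
                · rcases d3 with ⟨g61, g62⟩ | ⟨g63, g64⟩
                  · linarith only [C.a3, s3, C.o1, g1, g61, g57, C.f22_4, C.f22_6, g8, g48]
                  · linarith only [C.b4, s3, g63, g57, C.f22_4, C.f22_6, g8, g48]
                · linarith only [C.o2, g59, g41, g48]
          · linarith only [g37, s2, C.o1, C.o2, C.f22_4, C.f23_5, C.f33_4]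
        · linarith only [C.f23_5, s2, g31]
        · linarith only [g32, s3, g7, g14]
  · linarith only [C.a4, C.a2, C.o2, C.f13_0, g3]


theorem c0_11_22_23_k3 {n1 n2 n3 A1 A2 A3 B1 B2 B3 m11_1 m11_2 m11_3 m13_1 m13_2 m13_3 m22_1 m22_2 m22_3 m23_1 m23_2 m23_3 m33_1 m33_2 m33_3 : ℤ}
    (C : Ctx0 n1 n2 n3 A1 A2 A3 B1 B2 B3 m11_1 m11_2 m11_3 m13_1 m13_2 m13_3 m22_1 m22_2 m22_3 m23_1 m23_2 m23_3 m33_1 m33_2 m33_3)
    (e0 : 0 < B1)
    (e1 : 0 < B2)
    (e2 : 0 < A2)
    (e3 : 0 < B3)
    (s1 : 3 * A1 + 0 * B1 ≤ m11_1 + m22_1 + m23_1)
    (s2 : 3 * A2 + 0 * B2 ≤ m11_2 + m22_2 + m23_2)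
    (s3 : 3 * A3 + 0 * B3 ≤ m11_3 + m22_3 + m23_3) : False := by
  have d34 : ((0 ≤ 0 + A1 - n1)) ∨ ((0 ≤ 1 + A1 - A2)) ∨ ((0 ≤ 0 - B1)) ∨ ((0 ≤ 1 - B1 + B2 - n2)) := by
    have h := C.tmpp
    clear C e0 e1 e2 e3 s1 s2 s3
    omega
  rcases d34 with g1 | g2 | g3 | g4
  · linarith only [C.f22_0, s1, g1, C.o0, C.f11_0, C.f23_0]
  · linarith only [C.f23_1, s1, g2, C.o0, C.o1, C.f11_0, C.f22_1]
  · linarith only [g3, e0]
  · linarith only [g4, s2, C.o1, C.f11_0, C.f11_1, C.f22_4, C.f23_5]


end Pool.Agent.Helper6.TQ
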