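import Pool.Agent.Helper89.TQ.Ctx

/-! TQ (helper89): hard integer lemmas, generated by a search for case distinctions. -/

set_option autoImplicit false
set_option linter.all false
set_option maxHeartbeats 4000000

namespace Pool.Agent.Helper6.TQ

open Pool.Agent.Helper89.TQ

theorem c0_11_11_33_k1 {n1 n2 n3 A1 A2 A3 B1 B2 B3 m11_1 m11_2 m11_3 m13_1 m13_2 m13_3 m22_1 m22_2 m22_3 m23_1 m23_2 m23_3 m33_1 m33_2 m33_3 : ℤ}
    (C : Ctx0 n1 n2 n3 A1 A2 A3 B1 B2 B3 m11_1 m11_2 m11_3 m13_1 m13_2 m13_3 m22_1 m22_2 m22_3 m23_1 m23_2 m23_3 m33_1 m33_2 m33_3)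
    (e0 : 0 < B1)
    (e1 : 0 < A3)
    (s1 : 1 * A1 + 2 * B1 ≤ m11_1 + m11_1 + m33_1)
    (s2 : 1 * A2 + 2 * B2 ≤ m11_2 + m11_2 + m33_2)
    (s3 : 1 * A3 + 2 * B3 ≤ m11_3 + m11_3 + m33_3) : False := by
  have d0 : ((0 ≤ -1 + A1) ∧ (0 ≤ -1 + A1 - A2 + n2)) ∨ ((0 ≤ -1 + B1) ∧ (0 ≤ -1 + B1 - B2 + n2)) := by
    have h := C.t12
    clear C e0 e1 s1 s2 s3
    omega
  have d1 : ((0 ≤ -1 - A1 + A2) ∧ (0 ≤ -1 + A2 - A3 + n3)) ∨ ((0 ≤ -1 - B1 + B2) ∧ (0 ≤ -1 + B2 - B3 + n3)) := by
    have h := C.t23
    clear C e0 e1 s1 s2 s3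
    omega
  have d2 : ((0 ≤ 1 - A1 + m13_1) ∧ (0 ≤ -1 + A1 - m13_1)) ∨ ((0 ≤ 1 - B3 + m13_1) ∧ (0 ≤ -1 + B3 - m13_1)) := by
    have h := C.f13_2
    clear C e0 e1 s1 s2 s3
    omega
  have d3 : ((0 ≤ 0 - m13_1 + m13_2 - n2) ∧ (0 ≤ 0 + m13_1 - m13_2 + n2)) ∨ ((0 ≤ 1 - B3 + m13_2) ∧ (0 ≤ -1 + B3 - m13_2)) := by
    have h := C.f13_5
    clear C e0 e1 s1 s2 s3
    omega
  have d4 : ((0 ≤ 0 - m13_2 + m13_3 - n3) ∧ (0 ≤ 0 + m13_2 - m13_3 + n3)) ∨ ((0 ≤ 1 - B3 + m13_3) ∧ (0 ≤ -1 + B3 - m13_3)) := by
    have h := C.f13_8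
    clear C e0 e1 s1 s2 s3
    omega
  have d6 : ((0 ≤ 0 - m33_1 + m33_2 - n2) ∧ (0 ≤ 0 + m33_1 - m33_2 + n2)) ∨ ((0 ≤ 1 - A3 + m33_2) ∧ (0 ≤ -1 + A3 - m33_2)) := by
    have h := C.f33_5
    clear C e0 e1 s1 s2 s3
    omega
  have d7 : ((0 ≤ 0 - m33_2 + m33_3 - n3) ∧ (0 ≤ 0 + m33_2 - m33_3 + n3)) ∨ ((0 ≤ 1 - A3 + m33_3) ∧ (0 ≤ -1 + A3 - m33_3)) := by
    have h := C.f33_8
    clear C e0 e1 s1 s2 s3
    omega
  have d8 : ((0 ≤ 0 - B1)) ∨ ((0 ≤ 0 - A1)) ∨ ((0 ≤ 0 - B3)) ∨ ((0 ≤ -1 + 2 * B1 - m11_1 - m13_1)) ∨ ((0 ≤ -1 + 2 * B2 - m11_2 - m13_2)) ∨ ((0 ≤ -1 + 2 * B3 - m11_3 - m13_3)) := by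
    have h := C.p11_13B
    clear C e0 e1 s1 s2 s3
    omega
  have d9 : ((0 ≤ 0 - B1)) ∨ ((0 ≤ 0 - A3)) ∨ ((0 ≤ -1 + 2 * A1 - m11_1 - m33_1)) ∨ ((0 ≤ -1 + 2 * A2 - m11_2 - m33_2)) ∨ ((0 ≤ -1 + 2 * A3 - m11_3 - m33_3)) := by
    have h := C.p11_33A
    clear C e0 e1 s1 s2 s3
    omega
  have d10 : ((0 ≤ 0 - B1)) ∨ ((0 ≤ 0 - A3)) ∨ ((0 ≤ -1 + 2 * B1 - m11_1 - m33_1)) ∨ ((0 ≤ -1 + 2 * B2 - m11_2 - m33_2)) ∨ ((0 ≤ -1 + 2 * B3 - m11_3 - m33_3)) := by
    have h := C.p11_33B
    clear C e0 e1 s1 s2 s3
    omega
  have d11 : ((0 ≤ 0 + A1 - n1)) ∨ ((0 ≤ 0 + A1 - A2)) ∨ ((0 ≤ 0 + A2 - A3)) ∨ ((0 ≤ 0 - B1)) ∨ ((0 ≤ 0 - B1 + B2 - n2)) ∨ ((0 ≤ 0 - B2 + B3 - n3)) := by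
    have h := C.tmzp
    clear C e0 e1 s1 s2 s3
    omega
  have d12 : ((0 ≤ 0 + A1 - n1)) ∨ ((0 ≤ 1 + A1 - A2)) ∨ ((0 ≤ 0 - B1)) ∨ ((0 ≤ 1 - B1 + B2 - n2)) := by
    have h := C.tmpp
    clear C e0 e1 s1 s2 s3
    omega
  have d13 : ((0 ≤ 0 + A1 - A2)) ∨ ((0 ≤ 1 - A2 + A3 - n3)) ∨ ((0 ≤ 0 - B1 + B2 - n2)) ∨ ((0 ≤ 1 + B2 - B3)) ∨ ((0 ≤ -1 + A2 - B2) ∧ (0 ≤ 1 + A3 - B3)) := by
    have h := C.tzpm
    clear C e0 e1 s1 s2 s3
    omega
  have d14 : ((0 ≤ 0 - A1)) ∨ ((0 ≤ 1 - A1 + A2 - n2)) ∨ ((0 ≤ 0 + A2 - A3)) ∨ ((0 ≤ 0 + B1 - n1)) ∨ ((0 ≤ 1 + B1 - B2)) ∨ ((0 ≤ 0 - B2 + B3 - n3)) := by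
    have h := C.tpmz
    clear C e0 e1 s1 s2 s3
    omega
  rcases d2 with ⟨g1, g2⟩ | ⟨g3, g4⟩
  · rcases d10 with g5 | g6 | g7 | g8 | g9
    · linarith only [g5, e0]
    · linarith only [g6, e1]
    · linarith only [C.o0, s1, C.f11_0, g7]
    · rcases d6 with ⟨g10, g11⟩ | ⟨g12, g13⟩
      · linarith only [s2, s1, C.o0, C.o1, C.f11_0, C.f11_1, g10, g8]
      · linarith only [g12, s2, C.a4, C.o1, g8]
    · rcases d12 with g14 | g15 | g16 | g17
      · linarith only [g14, s1, C.f11_0, C.f33_0]
      · rcases d0 with ⟨g18, g19⟩ | ⟨g20, g21⟩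
        · rcases d1 with ⟨g22, g23⟩ | ⟨g24, g25⟩
          · rcases d11 with g26 | g27 | g28 | g29 | g30 | g31
            · linarith only [g26, s1, C.f11_0, C.f33_0]
            · linarith only [g27, g22]
            · linarith only [g28, s1, g15, C.f11_0, C.f33_1]
            · linarith only [g29, e0]
            · rcases d14 with g32 | g33 | g34 | g35 | g36 | g37
              · linarith only [g32, g18]
              · rcases d3 with ⟨g38, g39⟩ | ⟨g40, g41⟩
                · rcases d4 with ⟨g42, g43⟩ | ⟨g44, g45⟩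
                  · linarith only [g42, s3, C.o0, C.f11_0, C.f11_1, C.f11_2, g1, g38, C.f13_7, C.f33_7]
                  · rcases d7 with ⟨g46, g47⟩ | ⟨g48, g49⟩
                    · linarith only [s2, s3, g33, g30, C.o0, C.o2, C.f11_0, C.f11_1, C.f11_2, g46, C.f33_7]
                    · rcases d8 with g50 | g51 | g52 | g53 | g54 | g55
                      · linarith only [g50, e0]
                      · linarith only [g51, g18]
                      · linarith only [e1, C.o2, g52]
                      · rcases d9 with g56 | g57 | g58 | g59 | g60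
                        · linarith only [g56, e0]
                        · linarith only [g57, e1]
                        · linarith only [g53, s1, g1, g58]
                        · linarith only [s2, g19, g30, C.f11_1, g1, g53, g59]
                        · linarith only [g60, s3, C.o2, g48]
                      · rcases d9 with g61 | g62 | g63 | g64 | g65
                        · linarith only [g61, e0]
                        · linarith only [g62, e1]
                        · linarith only [g54, s1, C.b3, C.f11_1, g1, g38, g63]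
                        · linarith only [s2, g19, g1, g38, g54, g64]
                        · linarith only [g65, s3, C.o2, g48]
                      · linarith only [g55, s3, g44, g49]
                · linarith only [g40, s2, g33, g30, C.o2, C.f11_0, C.f11_1, g2, C.f13_3, C.f33_4]
              · linarith only [g34, s2, g30, C.f11_0, C.f11_1, C.f33_4]
              · linarith only [C.o0, s1, g35, C.f11_0, C.f33_0]
              · linarith only [g36, g22, g19, g30]
              · linarith only [s3, g30, g37, C.f11_0, C.f11_1, C.f11_2, C.f33_7]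
            · rcases d13 with g66 | g67 | g68 | g69 | ⟨g70, g71⟩
              · linarith only [g66, g22]
              · rcases d3 with ⟨g72, g73⟩ | ⟨g74, g75⟩
                · rcases d4 with ⟨g76, g77⟩ | ⟨g78, g79⟩
                  · linarith only [g76, s3, C.o0, C.f11_0, C.f11_1, C.f11_2, g1, g72, C.f13_7, C.f33_7]
                  · rcases d8 with g80 | g81 | g82 | g83 | g84 | g85
                    · linarith only [g80, e0]
                    · linarith only [g81, g18]
                    · linarith only [e1, C.o2, g82]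
                    · rcases d9 with g86 | g87 | g88 | g89 | g90
                      · linarith only [g86, e0]
                      · linarith only [g87, e1]
                      · linarith only [g83, s1, g1, g88]
                      · rcases d6 with ⟨g91, g92⟩ | ⟨g93, g94⟩
                        · linarith only [g91, s1, s2, g67, C.b5, C.o0, C.o2, C.f11_0, C.f11_1, g89]
                        · linarith only [g93, s1, s2, g15, g67, C.b5, C.o2, C.f11_0, C.f33_1, g89]
                      · rcases d7 with ⟨g95, g96⟩ | ⟨g97, g98⟩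
                        · rcases d6 with ⟨g99, g100⟩ | ⟨g101, g102⟩
                          · linarith only [s1, s2, g23, C.b5, C.o0, C.o2, C.f11_0, C.f11_1, C.f11_2, g99, g95, g90]
                          · linarith only [g101, s2, g23, C.b5, C.o0, C.o2, C.f11_0, C.f11_1, C.f11_2, g1, g72, C.f13_4, g95, g90]
                        · linarith only [s3, C.o2, g97, g90]
                    · linarith only [C.o0, s3, g31, C.f11_0, C.f11_1, C.f11_2, g1, g72, C.f33_7, g84]
                    · linarith only [g85, s3, g78, C.f33_7]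
                · rcases d4 with ⟨g103, g104⟩ | ⟨g105, g106⟩
                  · linarith only [C.a4, g23, g74, g103, C.f13_7]
                  · rcases d8 with g107 | g108 | g109 | g110 | g111 | g112
                    · linarith only [g107, e0]
                    · linarith only [g108, g18]
                    · linarith only [e1, C.o2, g109]
                    · rcases d6 with ⟨g113, g114⟩ | ⟨g115, g116⟩
                      · linarith only [C.f33_4, s1, C.o2, C.f11_0, g2, C.f13_3, g74, g113]
                      · rcases d9 with g117 | g118 | g119 | g120 | g121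
                        · linarith only [g117, e0]
                        · linarith only [g118, e1]
                        · linarith only [g110, s1, g1, g119]
                        · linarith only [g120, s1, g15, C.o2, C.f11_0, C.f11_1, C.f13_3, g74, C.f33_1, g115, g110]
                        · rcases d7 with ⟨g122, g123⟩ | ⟨g124, g125⟩
                          · linarith only [s1, s3, g15, g23, C.o2, C.f11_0, C.f33_1, g115, g122, g121]
                          · linarith only [g124, s3, C.o2, g121]
                    · linarith only [s3, s1, g15, g23, g31, C.f11_0, C.f11_2, g74, C.f33_1, C.f33_7, g111]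
                    · linarith only [g112, s3, g105, C.f33_7]
              · linarith only [C.f33_7, s3, g68, g31, C.f11_0, C.f11_1, C.f11_2]
              · linarith only [s1, g15, g23, g69, g31, C.f11_0, C.f33_1]
              · rcases d3 with ⟨g126, g127⟩ | ⟨g128, g129⟩
                · rcases d4 with ⟨g130, g131⟩ | ⟨g132, g133⟩
                  · linarith only [g130, s3, C.o0, C.f11_0, C.f11_1, C.f11_2, g1, g126, C.f13_7, C.f33_7]
                  · rcases d8 with g134 | g135 | g136 | g137 | g138 | g139
                    · linarith only [g134, e0]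
                    · linarith only [g135, g18]
                    · linarith only [e1, C.o2, g136]
                    · rcases d9 with g140 | g141 | g142 | g143 | g144
                      · linarith only [g140, e0]
                      · linarith only [g141, e1]
                      · linarith only [g142, s1, g1, g137]
                      · rcases d6 with ⟨g145, g146⟩ | ⟨g147, g148⟩
                        · linarith only [g137, s1, g19, C.f11_1, g1, g145, g143]
                        · linarith only [C.f33_1, s1, g15, g19, C.f11_1, g1, g147, g137, g143]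
                      · rcases d7 with ⟨g149, g150⟩ | ⟨g151, g152⟩
                        · rcases d6 with ⟨g153, g154⟩ | ⟨g155, g156⟩
                          · linarith only [s1, s3, C.o0, C.o2, C.f11_0, C.f11_1, C.f11_2, g153, g149, g144]
                          · linarith only [g155, s2, C.b5, C.o0, g70, C.o2, C.f11_0, C.f11_1, C.f11_2, g1, g126, C.f13_4, g149, g144]
                        · linarith only [s3, C.o2, g151, g144]
                    · linarith only [s3, g31, C.o0, C.f11_0, C.f11_1, C.f11_2, g1, g126, C.f33_7, g138]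
                    · linarith only [g139, s3, g132, C.f33_7]
                · rcases d4 with ⟨g157, g158⟩ | ⟨g159, g160⟩
                  · linarith only [C.a4, C.b5, g70, C.o2, g128, g157, C.f13_7]
                  · rcases d8 with g161 | g162 | g163 | g164 | g165 | g166
                    · linarith only [g161, e0]
                    · linarith only [g162, g18]
                    · linarith only [e1, C.o2, g163]
                    · rcases d6 with ⟨g167, g168⟩ | ⟨g169, g170⟩
                      · linarith only [C.f33_4, s1, C.o2, C.f11_0, g2, C.f13_3, g128, g167]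
                      · rcases d7 with ⟨g171, g172⟩ | ⟨g173, g174⟩
                        · linarith only [C.f33_7, s1, g15, C.b5, g70, C.o2, C.f11_0, C.f33_1, g169, g171]
                        · linarith only [g9, s1, g15, C.b5, g70, C.f11_1, C.f11_2, C.f13_3, g128, C.f33_1, g173, g164]
                    · linarith only [s3, s1, g15, g31, g70, C.f11_0, C.f11_2, g128, C.f33_1, g165, g9]
                    · linarith only [s3, g159, C.f33_7, g166]
          · rcases d11 with g175 | g176 | g177 | g178 | g179 | g180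
            · linarith only [g175, s1, C.f11_0, C.f33_0]
            · rcases d14 with g181 | g182 | g183 | g184 | g185 | g186
              · linarith only [g181, g18]
              · rcases d3 with ⟨g187, g188⟩ | ⟨g189, g190⟩
                · rcases d4 with ⟨g191, g192⟩ | ⟨g193, g194⟩
                  · linarith only [C.b3, g25, C.o0, g1, g187, g191, C.f13_7]
                  · rcases d7 with ⟨g195, g196⟩ | ⟨g197, g198⟩
                    · linarith only [C.f33_7, s2, g176, g182, g24, g25, C.o0, C.o2, C.f11_0, C.f11_1, g195]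
                    · rcases d8 with g199 | g200 | g201 | g202 | g203 | g204
                      · linarith only [g199, e0]
                      · linarith only [g200, g18]
                      · linarith only [e1, C.o2, g201]
                      · rcases d9 with g205 | g206 | g207 | g208 | g209
                        · linarith only [g205, e0]
                        · linarith only [g206, e1]
                        · linarith only [g207, s1, g1, g202]
                        · linarith only [s2, g176, g182, g24, C.f11_1, g1, g202, g208]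
                        · linarith only [g209, s3, C.o2, g197]
                      · rcases d9 with g210 | g211 | g212 | g213 | g214
                        · linarith only [g210, e0]
                        · linarith only [g211, e1]
                        · linarith only [C.b3, s1, C.f11_1, g1, g187, g203, g212]
                        · linarith only [s2, g19, g1, g187, g203, g213]
                        · linarith only [g214, s3, C.o2, g197]
                      · linarith only [g204, s3, g193, g198]
                · linarith only [g189, s1, g176, g182, C.o2, C.f11_0, g2, C.f13_3, C.f33_1]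
              · linarith only [s1, g176, g183, C.f11_0, C.f33_1]
              · linarith only [C.o0, s1, g184, C.f11_0, C.f33_0]
              · rcases d3 with ⟨g215, g216⟩ | ⟨g217, g218⟩
                · rcases d4 with ⟨g219, g220⟩ | ⟨g221, g222⟩
                  · linarith only [g19, C.a2, g185, g25, C.o0, g1, g215, g219, C.f13_7]
                  · rcases d8 with g223 | g224 | g225 | g226 | g227 | g228
                    · linarith only [g223, e0]
                    · linarith only [g224, g18]
                    · linarith only [C.b4, e0, g24, g225]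
                    · rcases d9 with g229 | g230 | g231 | g232 | g233
                      · linarith only [g229, e0]
                      · linarith only [g230, e1]
                      · linarith only [g231, s1, g1, g226]
                      · rcases d6 with ⟨g234, g235⟩ | ⟨g236, g237⟩
                        · linarith only [g232, s1, g19, C.f11_1, g1, g234, g226]
                        · linarith only [C.a4, s2, g176, g24, C.f11_0, g1, g236, g226, g232]
                      · rcases d7 with ⟨g238, g239⟩ | ⟨g240, g241⟩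
                        · rcases d6 with ⟨g242, g243⟩ | ⟨g244, g245⟩
                          · linarith only [s2, s1, s3, g176, C.a5, g24, C.o2, C.f11_0, C.f11_1, g242, g238, g233]
                          · linarith only [g244, s2, C.a2, g185, g25, C.o0, C.o2, C.f11_0, C.f11_1, C.f11_2, g1, g215, C.f13_4, g238, g233]
                        · linarith only [s3, C.o2, g240, g233]
                    · rcases d9 with g246 | g247 | g248 | g249 | g250
                      · linarith only [g246, e0]
                      · linarith only [g247, e1]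
                      · linarith only [g19, s1, C.a2, g185, C.f11_1, g1, g215, g227, g248]
                      · linarith only [g249, s2, g19, g1, g215, g227]
                      · rcases d7 with ⟨g251, g252⟩ | ⟨g253, g254⟩
                        · linarith only [s2, s3, g176, C.a5, g24, C.o2, C.f11_0, C.f11_1, C.f11_2, g1, g215, g251, g227, g250]
                        · linarith only [g253, s3, C.o2, g250]
                    · linarith only [s3, g221, C.f33_7, g228]
                · rcases d6 with ⟨g255, g256⟩ | ⟨g257, g258⟩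
                  · linarith only [C.f33_4, s1, C.o2, C.f11_0, g2, C.f13_3, g217, g255]
                  · rcases d7 with ⟨g259, g260⟩ | ⟨g261, g262⟩
                    · linarith only [C.f33_7, s1, g185, g25, C.o0, C.o2, C.f11_0, C.f33_1, g257, g259]
                    · linarith only [g9, s1, g185, g25, C.f11_0, C.f11_1, C.f11_2, g2, C.f13_3, g217, C.f33_1, g261]
              · linarith only [g186, g25]
            · linarith only [g15, s1, g177, C.f11_0, C.f33_1]
            · linarith only [g178, e0]
            · rcases d7 with ⟨g263, g264⟩ | ⟨g265, g266⟩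
              · linarith only [s2, s3, g179, C.o1, C.o2, C.f11_0, C.f11_1, C.f11_2, g263, C.f33_7]
              · rcases d14 with g267 | g268 | g269 | g270 | g271 | g272
                · linarith only [g267, g18]
                · rcases d3 with ⟨g273, g274⟩ | ⟨g275, g276⟩
                  · rcases d4 with ⟨g277, g278⟩ | ⟨g279, g280⟩
                    · linarith only [C.f13_7, s3, C.o0, C.f11_0, C.f11_1, C.f11_2, g1, g273, g277, g266]
                    · rcases d8 with g281 | g282 | g283 | g284 | g285 | g286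
                      · linarith only [g281, e0]
                      · linarith only [g282, g18]
                      · linarith only [e1, C.o2, g283]
                      · rcases d9 with g287 | g288 | g289 | g290 | g291
                        · linarith only [g287, e0]
                        · linarith only [g288, e1]
                        · linarith only [g284, s1, g1, g289]
                        · linarith only [s2, g19, g179, C.f11_1, g1, g284, g290]
                        · linarith only [g291, s3, C.o2, g265]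
                      · rcases d9 with g292 | g293 | g294 | g295 | g296
                        · linarith only [g292, e0]
                        · linarith only [g293, e1]
                        · linarith only [g285, s1, C.b3, C.f11_1, g1, g273, g294]
                        · linarith only [s2, g19, g1, g273, g285, g295]
                        · linarith only [g296, s3, C.o2, g265]
                      · linarith only [g286, s3, g279, g266]
                  · linarith only [g15, s1, g268, C.o2, C.f11_0, g2, C.f13_3, g275, C.f33_1]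
                · linarith only [g15, s1, g269, C.f11_0, C.f33_1]
                · linarith only [C.o0, s1, g270, C.f11_0, C.f33_0]
                · rcases d3 with ⟨g297, g298⟩ | ⟨g299, g300⟩
                  · rcases d4 with ⟨g301, g302⟩ | ⟨g303, g304⟩
                    · linarith only [C.f13_7, s3, C.o0, C.f11_0, C.f11_1, C.f11_2, g1, g297, g301, g266]
                    · rcases d8 with g305 | g306 | g307 | g308 | g309 | g310
                      · linarith only [g305, e0]
                      · linarith only [g306, g18]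
                      · linarith only [e1, C.o2, g307]
                      · rcases d9 with g311 | g312 | g313 | g314 | g315
                        · linarith only [g311, e0]
                        · linarith only [g312, e1]
                        · linarith only [g308, s1, g1, g313]
                        · linarith only [g15, s2, g24, g179, C.f11_1, g1, g308, g314]
                        · linarith only [g315, s3, C.o2, g265]
                      · rcases d9 with g316 | g317 | g318 | g319 | g320
                        · linarith only [g316, e0]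
                        · linarith only [g317, e1]
                        · linarith only [g309, s1, C.b3, C.f11_1, g1, g297, g318]
                        · linarith only [s2, g19, g1, g297, g309, g319]
                        · linarith only [g320, s3, C.o2, g265]
                      · linarith only [g310, s3, g303, g266]
                  · linarith only [g271, s2, C.a2, g179, C.o2, C.f11_0, C.f11_1, g2, C.f13_3, g299, C.f33_4]
                · linarith only [g272, g25]
            · linarith only [g180, g25]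
        · rcases d11 with g321 | g322 | g323 | g324 | g325 | g326
          · linarith only [g321, s1, C.f11_0, C.f33_0]
          · rcases d1 with ⟨g327, g328⟩ | ⟨g329, g330⟩
            · linarith only [g327, g322]
            · rcases d14 with g331 | g332 | g333 | g334 | g335 | g336
              · linarith only [C.o0, g20, g331]
              · linarith only [g21, g322, g332, g329]
              · linarith only [g333, s1, g322, C.f11_0, C.f33_1]
              · linarith only [C.o0, s1, g334, C.f11_0, C.f33_0]
              · rcases d3 with ⟨g337, g338⟩ | ⟨g339, g340⟩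
                · rcases d4 with ⟨g341, g342⟩ | ⟨g343, g344⟩
                  · linarith only [g330, g21, C.o0, g1, g337, g341, C.f13_7]
                  · rcases d8 with g345 | g346 | g347 | g348 | g349 | g350
                    · linarith only [g345, g20]
                    · linarith only [C.o0, g20, g346]
                    · linarith only [g347, g20, s1, C.o0, C.o2, C.f11_0, C.f33_1]
                    · rcases d9 with g351 | g352 | g353 | g354 | g355
                      · linarith only [g351, g20]
                      · linarith only [g352, e1]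
                      · linarith only [g353, s1, g1, g348]
                      · rcases d6 with ⟨g356, g357⟩ | ⟨g358, g359⟩
                        · linarith only [g354, s1, g322, g329, g21, C.f11_1, g1, g356, g348]
                        · linarith only [C.a4, s2, g322, g329, C.f11_0, g1, g358, g348, g354]
                      · rcases d7 with ⟨g360, g361⟩ | ⟨g362, g363⟩
                        · rcases d6 with ⟨g364, g365⟩ | ⟨g366, g367⟩
                          · linarith only [s2, s1, s3, g322, C.a5, g329, C.o2, C.f11_0, C.f11_1, g364, g360, g355]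
                          · linarith only [g366, s2, C.a2, g335, g330, C.o0, C.o2, C.f11_0, C.f11_1, C.f11_2, g1, g337, C.f13_4, g360, g355]
                        · linarith only [s3, C.o2, g362, g355]
                    · linarith only [g21, C.o0, C.f11_0, C.f11_1, g1, g337, g349]
                    · linarith only [s3, g343, C.f33_7, g350]
                · rcases d6 with ⟨g368, g369⟩ | ⟨g370, g371⟩
                  · linarith only [C.f33_4, s1, C.o2, C.f11_0, g2, C.f13_3, g339, g368]
                  · rcases d7 with ⟨g372, g373⟩ | ⟨g374, g375⟩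
                    · linarith only [C.f33_7, s1, g335, g330, C.o0, C.o2, C.f11_0, C.f33_1, g370, g372]
                    · linarith only [g9, s1, g335, g330, C.f11_0, C.f11_1, C.f11_2, g2, C.f13_3, g339, C.f33_1, g374]
              · linarith only [g336, g330]
          · linarith only [g15, s1, g323, C.f11_0, C.f33_1]
          · linarith only [g324, g20]
          · linarith only [g325, g21]
          · rcases d1 with ⟨g376, g377⟩ | ⟨g378, g379⟩
            · rcases d13 with g380 | g381 | g382 | g383 | ⟨g384, g385⟩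
              · linarith only [g380, g376]
              · rcases d3 with ⟨g386, g387⟩ | ⟨g388, g389⟩
                · rcases d4 with ⟨g390, g391⟩ | ⟨g392, g393⟩
                  · linarith only [g390, s3, C.o0, C.f11_0, C.f11_1, C.f11_2, g1, g386, C.f13_7, C.f33_7]
                  · rcases d8 with g394 | g395 | g396 | g397 | g398 | g399
                    · linarith only [g394, g20]
                    · linarith only [g395, g20, C.o0]
                    · linarith only [e1, C.o2, g396]
                    · rcases d9 with g400 | g401 | g402 | g403 | g404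
                      · linarith only [g400, g20]
                      · linarith only [g401, e1]
                      · linarith only [g397, s1, g1, g402]
                      · rcases d6 with ⟨g405, g406⟩ | ⟨g407, g408⟩
                        · linarith only [g403, s1, s3, g381, C.o0, C.o2, C.f11_0, C.f11_1, C.f11_2, g405, C.f33_7]
                        · linarith only [C.a4, s2, g381, C.b5, C.o2, g407, g403]
                      · rcases d7 with ⟨g409, g410⟩ | ⟨g411, g412⟩
                        · rcases d6 with ⟨g413, g414⟩ | ⟨g415, g416⟩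
                          · linarith only [s1, s2, g377, C.b5, C.o0, C.o2, C.f11_0, C.f11_1, C.f11_2, g413, g409, g404]
                          · linarith only [g415, s2, g377, C.b5, C.o0, C.o2, C.f11_0, C.f11_1, C.f11_2, g1, g386, C.f13_4, g409, g404]
                        · linarith only [s3, C.o2, g411, g404]
                    · linarith only [C.o0, s3, g326, C.f11_0, C.f11_1, C.f11_2, g1, g386, C.f33_7, g398]
                    · linarith only [g399, s3, g392, C.f33_7]
                · rcases d4 with ⟨g417, g418⟩ | ⟨g419, g420⟩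
                  · linarith only [C.a4, g377, g388, g417, C.f13_7]
                  · rcases d8 with g421 | g422 | g423 | g424 | g425 | g426
                    · linarith only [g421, g20]
                    · linarith only [C.o0, g20, g422]
                    · linarith only [g423, g20, s1, C.o0, C.o2, C.f11_0, C.f33_1]
                    · rcases d6 with ⟨g427, g428⟩ | ⟨g429, g430⟩
                      · linarith only [C.f33_4, s1, C.o2, C.f11_0, g2, C.f13_3, g388, g427]
                      · rcases d9 with g431 | g432 | g433 | g434 | g435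
                        · linarith only [g431, g20]
                        · linarith only [g432, e1]
                        · linarith only [g424, s1, g1, g433]
                        · linarith only [g434, s1, g15, C.o2, C.f11_0, C.f11_1, C.f13_3, g388, C.f33_1, g429, g424]
                        · rcases d7 with ⟨g436, g437⟩ | ⟨g438, g439⟩
                          · linarith only [s1, s3, g15, g377, C.o2, C.f11_0, C.f33_1, g429, g436, g435]
                          · linarith only [g438, s3, C.o2, g435]
                    · linarith only [s3, s1, g15, g377, g326, C.f11_0, C.f11_2, g388, C.f33_1, C.f33_7, g425]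
                    · linarith only [g426, s3, g419, C.f33_7]
              · linarith only [g382, g21]
              · linarith only [g383, s1, g15, g377, g326, C.f11_0, C.f33_1]
              · rcases d3 with ⟨g440, g441⟩ | ⟨g442, g443⟩
                · rcases d4 with ⟨g444, g445⟩ | ⟨g446, g447⟩
                  · linarith only [g444, s3, C.o0, C.f11_0, C.f11_1, C.f11_2, g1, g440, C.f13_7, C.f33_7]
                  · rcases d8 with g448 | g449 | g450 | g451 | g452 | g453
                    · linarith only [g448, g20]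
                    · linarith only [C.b2, g20, g449, g15, g384]
                    · linarith only [g450, g20, s1, C.o0, C.o2, C.f11_0, C.f33_1]
                    · rcases d9 with g454 | g455 | g456 | g457 | g458
                      · linarith only [g454, g20]
                      · linarith only [g455, e1]
                      · linarith only [g456, s1, g1, g451]
                      · rcases d6 with ⟨g459, g460⟩ | ⟨g461, g462⟩
                        · linarith only [g451, s1, s3, g15, C.b2, g326, C.f11_0, C.f11_1, C.f11_2, g1, g459, C.f33_7, g457]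
                        · linarith only [C.f33_1, s1, s3, g15, C.b2, g326, C.f11_0, C.f11_2, g1, g461, C.f33_7, g451, g457]
                      · rcases d7 with ⟨g463, g464⟩ | ⟨g465, g466⟩
                        · rcases d6 with ⟨g467, g468⟩ | ⟨g469, g470⟩
                          · linarith only [s1, s2, C.b5, C.o0, g384, C.o2, C.f11_0, C.f11_1, C.f11_2, g467, g463, g458]
                          · linarith only [g469, s2, C.b5, C.o0, g384, C.o2, C.f11_0, C.f11_1, C.f11_2, g1, g440, C.f13_4, g463, g458]
                        · linarith only [s3, C.o2, g465, g458]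
                    · linarith only [s3, g326, C.o0, C.f11_0, C.f11_1, C.f11_2, g1, g440, C.f33_7, g452]
                    · linarith only [g453, s3, g446, C.f33_7]
                · rcases d4 with ⟨g471, g472⟩ | ⟨g473, g474⟩
                  · linarith only [C.a4, C.b5, g384, C.o2, g442, g471, C.f13_7]
                  · rcases d8 with g475 | g476 | g477 | g478 | g479 | g480
                    · linarith only [g475, g20]
                    · linarith only [C.b2, g20, g476, g15, g384]
                    · linarith only [g477, g20, s1, C.o0, C.o2, C.f11_0, C.f33_1]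
                    · rcases d6 with ⟨g481, g482⟩ | ⟨g483, g484⟩
                      · linarith only [C.f33_4, s1, C.o2, C.f11_0, g2, C.f13_3, g442, g481]
                      · rcases d7 with ⟨g485, g486⟩ | ⟨g487, g488⟩
                        · linarith only [C.f33_7, s1, g15, C.b5, g384, C.o2, C.f11_0, C.f33_1, g483, g485]
                        · linarith only [g478, s1, g15, C.b5, g384, C.f11_1, C.f11_2, C.f13_3, g442, C.f33_1, g487, g9]
                    · linarith only [s3, s1, g15, g326, g384, C.f11_0, C.f11_2, g442, C.f33_1, g479, g9]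
                    · linarith only [s3, g473, C.f33_7, g480]
            · linarith only [g379, g326]
      · linarith only [g16, e0]
      · rcases d7 with ⟨g489, g490⟩ | ⟨g491, g492⟩
        · linarith only [g17, s2, C.a5, C.f11_0, C.f11_1, g489, C.f33_7]
        · rcases d11 with g493 | g494 | g495 | g496 | g497 | g498
          · linarith only [g493, s1, C.f11_0, C.f33_0]
          · rcases d1 with ⟨g499, g500⟩ | ⟨g501, g502⟩
            · linarith only [g499, g494]
            · rcases d14 with g503 | g504 | g505 | g506 | g507 | g508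
              · linarith only [C.o0, e0, g503]
              · rcases d0 with ⟨g509, g510⟩ | ⟨g511, g512⟩
                · rcases d3 with ⟨g513, g514⟩ | ⟨g515, g516⟩
                  · rcases d4 with ⟨g517, g518⟩ | ⟨g519, g520⟩
                    · linarith only [C.o0, s3, C.f11_0, C.f11_1, C.f11_2, g1, g513, g517, C.f13_7, g492]
                    · rcases d8 with g521 | g522 | g523 | g524 | g525 | g526
                      · linarith only [g521, e0]
                      · linarith only [g522, g509]
                      · linarith only [e1, C.o2, g523]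
                      · rcases d9 with g527 | g528 | g529 | g530 | g531
                        · linarith only [g527, e0]
                        · linarith only [g528, e1]
                        · linarith only [g529, s1, g1, g524]
                        · linarith only [s2, g494, g504, g501, C.f11_1, g1, g524, g530]
                        · linarith only [g531, s3, C.o2, g491]
                      · rcases d9 with g532 | g533 | g534 | g535 | g536
                        · linarith only [g532, e0]
                        · linarith only [g533, e1]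
                        · linarith only [C.b3, s1, C.f11_1, g1, g513, g525, g534]
                        · linarith only [s2, g510, g1, g513, g525, g535]
                        · linarith only [g536, s3, C.o2, g491]
                      · linarith only [g526, s3, g519, g492]
                  · linarith only [s1, g494, g504, C.o2, C.f11_0, g2, C.f13_3, g515, C.f33_1]
                · linarith only [g501, g494, g504, g512]
              · linarith only [g505, s1, g494, C.f11_0, C.f33_1]
              · linarith only [g506, s1, C.o0, C.f11_0, C.f33_0]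
              · rcases d3 with ⟨g537, g538⟩ | ⟨g539, g540⟩
                · rcases d4 with ⟨g541, g542⟩ | ⟨g543, g544⟩
                  · linarith only [C.o0, s3, C.f11_0, C.f11_1, C.f11_2, g1, g537, g541, C.f13_7, g492]
                  · rcases d8 with g545 | g546 | g547 | g548 | g549 | g550
                    · linarith only [g545, e0]
                    · linarith only [C.o0, e0, g546]
                    · linarith only [g547, e0, s1, C.o0, C.o2, C.f11_0, C.f33_1]
                    · rcases d9 with g551 | g552 | g553 | g554 | g555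
                      · linarith only [g551, e0]
                      · linarith only [g552, e1]
                      · linarith only [g553, s1, g1, g548]
                      · linarith only [g17, s2, g494, g501, C.f11_1, g1, g548, g554]
                      · linarith only [s3, C.o2, g491, g555]
                    · rcases d9 with g556 | g557 | g558 | g559 | g560
                      · linarith only [g556, e0]
                      · linarith only [g557, e1]
                      · linarith only [g558, s1, C.b3, C.f11_1, g1, g537, g549]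
                      · linarith only [s2, g494, g501, C.b3, g1, g537, g549, g559]
                      · linarith only [g560, s3, C.o2, g491]
                    · linarith only [g550, s3, g543, g492]
                · linarith only [g17, s1, g507, C.o2, C.f11_0, g2, C.f13_3, g539, C.f33_1]
              · linarith only [g508, g502]
          · linarith only [g17, s2, g495, C.f11_0, C.f11_1, C.f33_4]
          · linarith only [g496, e0]
          · rcases d0 with ⟨g561, g562⟩ | ⟨g563, g564⟩
            · rcases d14 with g565 | g566 | g567 | g568 | g569 | g570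
              · linarith only [g565, g561]
              · rcases d3 with ⟨g571, g572⟩ | ⟨g573, g574⟩
                · rcases d4 with ⟨g575, g576⟩ | ⟨g577, g578⟩
                  · linarith only [C.f13_7, s3, C.o0, C.f11_0, C.f11_1, C.f11_2, g1, g571, g575, g492]
                  · rcases d8 with g579 | g580 | g581 | g582 | g583 | g584
                    · linarith only [g579, e0]
                    · linarith only [g580, g561]
                    · linarith only [e1, C.o2, g581]
                    · rcases d9 with g585 | g586 | g587 | g588 | g589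
                      · linarith only [g585, e0]
                      · linarith only [g586, e1]
                      · linarith only [g582, s1, g1, g587]
                      · linarith only [s2, g562, g497, C.f11_1, g1, g582, g588]
                      · linarith only [g589, s3, C.o2, g491]
                    · rcases d9 with g590 | g591 | g592 | g593 | g594
                      · linarith only [g590, e0]
                      · linarith only [g591, e1]
                      · linarith only [g583, s1, C.b3, C.f11_1, g1, g571, g592]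
                      · linarith only [s2, g562, g1, g571, g583, g593]
                      · linarith only [g594, s3, C.o2, g491]
                    · linarith only [g584, s3, g577, g492]
                · linarith only [g573, s2, g566, g497, C.o2, C.f11_0, C.f11_1, g2, C.f13_3, C.f33_4]
              · linarith only [C.f33_4, s2, g567, g497, C.f11_0, C.f11_1]
              · linarith only [C.o0, s1, g568, C.f11_0, C.f33_0]
              · rcases d3 with ⟨g595, g596⟩ | ⟨g597, g598⟩
                · rcases d4 with ⟨g599, g600⟩ | ⟨g601, g602⟩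
                  · linarith only [C.f13_7, s3, C.o0, C.f11_0, C.f11_1, C.f11_2, g1, g595, g599, g492]
                  · rcases d8 with g603 | g604 | g605 | g606 | g607 | g608
                    · linarith only [g603, e0]
                    · linarith only [g604, g561]
                    · linarith only [e1, C.o2, g605]
                    · rcases d9 with g609 | g610 | g611 | g612 | g613
                      · linarith only [g609, e0]
                      · linarith only [g610, e1]
                      · linarith only [g606, s1, g1, g611]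
                      · linarith only [g562, s2, g497, C.f11_1, g1, g606, g612]
                      · linarith only [g613, s3, C.o2, g491]
                    · rcases d9 with g614 | g615 | g616 | g617 | g618
                      · linarith only [g614, e0]
                      · linarith only [g615, e1]
                      · linarith only [g607, s1, C.b3, C.f11_1, g1, g595, g616]
                      · linarith only [s2, g562, g1, g595, g607, g617]
                      · linarith only [g618, s3, C.o2, g491]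
                    · linarith only [g608, s3, g601, g492]
                · linarith only [g597, s1, g569, g497, C.o2, C.f11_0, g2, C.f13_3, C.f33_1]
              · linarith only [g570, s3, g497, C.f11_0, C.f11_1, C.f11_2, g492]
            · linarith only [g564, g497]
          · linarith only [g17, s3, g498, C.f11_0, C.f11_1, C.f11_2, g492]
  · linarith only [g3, s1, C.o2, C.f11_0, C.f13_0, C.f33_1]


theorem c0_11_22_33_k1 {n1 n2 n3 A1 A2 A3 B1 B2 B3 m11_1 m11_2 m11_3 m13_1 m13_2 m13_3 m22_1 m22_2 m22_3 m23_1 m23_2 m23_3 m33_1 m33_2 m33_3 : ℤ}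
    (C : Ctx0 n1 n2 n3 A1 A2 A3 B1 B2 B3 m11_1 m11_2 m11_3 m13_1 m13_2 m13_3 m22_1 m22_2 m22_3 m23_1 m23_2 m23_3 m33_1 m33_2 m33_3)
    (e0 : 0 < B1)
    (e1 : 0 < B2)
    (e2 : 0 < A3)
    (s1 : 1 * A1 + 2 * B1 ≤ m11_1 + m22_1 + m33_1)
    (s2 : 1 * A2 + 2 * B2 ≤ m11_2 + m22_2 + m33_2)
    (s3 : 1 * A3 + 2 * B3 ≤ m11_3 + m22_3 + m33_3) : False := by
  have d0 : ((0 ≤ -1 + A1) ∧ (0 ≤ -1 + A1 - A2 + n2)) ∨ ((0 ≤ -1 + B1) ∧ (0 ≤ -1 + B1 - B2 + n2)) := by
    have h := C.t12
    clear C e0 e1 e2 s1 s2 s3
    omega
  have d1 : ((0 ≤ -1 - A1 + A2) ∧ (0 ≤ -1 + A2 - A3 + n3)) ∨ ((0 ≤ -1 - B1 + B2) ∧ (0 ≤ -1 + B2 - B3 + n3)) := by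
    have h := C.t23
    clear C e0 e1 e2 s1 s2 s3
    omega
  have d2 : ((0 ≤ 0 + m22_1 - n1) ∧ (0 ≤ 0 - m22_1 + n1)) ∨ ((0 ≤ 1 - B2 + m22_1) ∧ (0 ≤ -1 + B2 - m22_1)) := by
    have h := C.f22_2
    clear C e0 e1 e2 s1 s2 s3
    omega
  have d3 : ((0 ≤ 0 - m22_1 + m22_2 - n2) ∧ (0 ≤ 0 + m22_1 - m22_2 + n2)) ∨ ((0 ≤ 1 - B2 + m22_2) ∧ (0 ≤ -1 + B2 - m22_2)) := by
    have h := C.f22_5
    clear C e0 e1 e2 s1 s2 s3
    omega
  have d4 : ((0 ≤ 0 + m23_1 - n1) ∧ (0 ≤ 0 - m23_1 + n1)) ∨ ((0 ≤ 1 - A2 + m23_1) ∧ (0 ≤ -1 + A2 - m23_1)) ∨ ((0 ≤ 1 - B3 + m23_1) ∧ (0 ≤ -1 + B3 - m23_1)) := by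
    have h := C.f23_3
    clear C e0 e1 e2 s1 s2 s3
    omega
  have d5 : ((0 ≤ 0 - m23_1 + m23_2 - n2) ∧ (0 ≤ 0 + m23_1 - m23_2 + n2)) ∨ ((0 ≤ 1 - A2 + m23_2) ∧ (0 ≤ -1 + A2 - m23_2)) ∨ ((0 ≤ 1 - B3 + m23_2) ∧ (0 ≤ -1 + B3 - m23_2)) := by
    have h := C.f23_7
    clear C e0 e1 e2 s1 s2 s3
    omega
  have d6 : ((0 ≤ 0 - m23_2 + m23_3 - n3) ∧ (0 ≤ 0 + m23_2 - m23_3 + n3)) ∨ ((0 ≤ 1 - B3 + m23_3) ∧ (0 ≤ -1 + B3 - m23_3)) := by
    have h := C.f23_10
    clear C e0 e1 e2 s1 s2 s3
    omega
  have d7 : ((0 ≤ 0 + m33_1 - n1) ∧ (0 ≤ 0 - m33_1 + n1)) ∨ ((0 ≤ 1 - A3 + m33_1) ∧ (0 ≤ -1 + A3 - m33_1)) := by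
    have h := C.f33_2
    clear C e0 e1 e2 s1 s2 s3
    omega
  have d8 : ((0 ≤ 0 - m33_1 + m33_2 - n2) ∧ (0 ≤ 0 + m33_1 - m33_2 + n2)) ∨ ((0 ≤ 1 - A3 + m33_2) ∧ (0 ≤ -1 + A3 - m33_2)) := by
    have h := C.f33_5
    clear C e0 e1 e2 s1 s2 s3
    omega
  have d9 : ((0 ≤ 0 - m33_2 + m33_3 - n3) ∧ (0 ≤ 0 + m33_2 - m33_3 + n3)) ∨ ((0 ≤ 1 - A3 + m33_3) ∧ (0 ≤ -1 + A3 - m33_3)) := by
    have h := C.f33_8
    clear C e0 e1 e2 s1 s2 s3
    omega
  have d10 : ((0 ≤ 0 - B1)) ∨ ((0 ≤ 0 - A2)) ∨ ((0 ≤ 0 - B3)) ∨ ((0 ≤ -1 + 2 * B1 - m11_1 - m23_1)) ∨ ((0 ≤ -1 + 2 * B2 - m11_2 - m23_2)) ∨ ((0 ≤ -1 + 2 * B3 - m11_3 - m23_3)) := by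
    have h := C.p11_23B
    clear C e0 e1 e2 s1 s2 s3
    omega
  have d11 : ((0 ≤ 0 - B1)) ∨ ((0 ≤ 0 - A3)) ∨ ((0 ≤ -1 + 2 * B1 - m11_1 - m33_1)) ∨ ((0 ≤ -1 + 2 * B2 - m11_2 - m33_2)) ∨ ((0 ≤ -1 + 2 * B3 - m11_3 - m33_3)) := by
    have h := C.p11_33B
    clear C e0 e1 e2 s1 s2 s3
    omega
  have d12 : ((0 ≤ 0 - B2)) ∨ ((0 ≤ 0 - A3)) ∨ ((0 ≤ -1 + 2 * A1 - m22_1 - m33_1)) ∨ ((0 ≤ -1 + 2 * A2 - m22_2 - m33_2)) ∨ ((0 ≤ -1 + 2 * A3 - m22_3 - m33_3)) := by
    have h := C.p22_33A
    clear C e0 e1 e2 s1 s2 s3
    omega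
  have d13 : ((0 ≤ 0 + A1 - n1)) ∨ ((0 ≤ 0 + A1 - A2)) ∨ ((0 ≤ 0 + A2 - A3)) ∨ ((0 ≤ 0 - B1)) ∨ ((0 ≤ 0 - B1 + B2 - n2)) ∨ ((0 ≤ 0 - B2 + B3 - n3)) := by
    have h := C.tmzp
    clear C e0 e1 e2 s1 s2 s3
    omega
  have d14 : ((0 ≤ 0 - A1 + A2 - n2)) ∨ ((0 ≤ 1 + A2 - A3)) ∨ ((0 ≤ 0 + B1 - B2)) ∨ ((0 ≤ 1 - B2 + B3 - n3)) := by
    have h := C.tzmp
    clear C e0 e1 e2 s1 s2 s3
    omega
  have d16 : ((0 ≤ 0 - A1)) ∨ ((0 ≤ 1 - A1 + A2 - n2)) ∨ ((0 ≤ 0 + A2 - A3)) ∨ ((0 ≤ 0 + B1 - n1)) ∨ ((0 ≤ 1 + B1 - B2)) ∨ ((0 ≤ 0 - B2 + B3 - n3)) := by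
    have h := C.tpmz
    clear C e0 e1 e2 s1 s2 s3
    omega
  have d17 : ((0 ≤ 0 - A1)) ∨ ((0 ≤ 0 - A1 + A2 - n2)) ∨ ((0 ≤ 0 - A2 + A3 - n3)) ∨ ((0 ≤ 0 + B1 - n1)) ∨ ((0 ≤ 0 + B1 - B2)) ∨ ((0 ≤ 0 + B2 - B3)) ∨ ((0 ≤ 1 + A3 - B3)) ∨ ((0 ≤ 1 - A1 + B1) ∧ (0 ≤ 0 - A2 + B2)) := by
    have h := C.tpzm
    clear C e0 e1 e2 s1 s2 s3
    omega
  rcases d11 with g1 | g2 | g3 | g4 | g5
  · linarith only [g1, e0]
  · linarith only [g2, e2]
  · rcases d7 with ⟨g6, g7⟩ | ⟨g8, g9⟩
    · linarith only [g6, s1, C.o0, C.f11_0, C.f22_0, g3]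
    · linarith only [g8, s1, C.a4, C.o0, C.o1, C.f11_0, C.f22_1, g3]
  · linarith only [g4, s2, C.o1, C.f22_4]
  · rcases d9 with ⟨g10, g11⟩ | ⟨g12, g13⟩
    · linarith only [C.b5, s2, C.o1, C.f11_2, C.f22_4, g10, g5]
    · rcases d12 with g14 | g15 | g16 | g17 | g18
      · linarith only [g14, e1]
      · linarith only [g15, e2]
      · rcases d4 with ⟨g19, g20⟩ | ⟨g21, g22⟩ | ⟨g23, g24⟩
        · rcases d5 with ⟨g25, g26⟩ | ⟨g27, g28⟩ | ⟨g29, g30⟩
          · linarith only [C.a3, C.a1, g19, g25, C.f23_5]
          · rcases d10 with g31 | g32 | g33 | g34 | g35 | g36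
            · linarith only [g31, e0]
            · linarith only [C.a1, e0, s1, C.f11_0, g19, C.f23_1, g32, g16]
            · linarith only [e2, C.o2, g33]
            · linarith only [g34, s1, C.a1, g19, g16]
            · rcases d17 with g37 | g38 | g39 | g40 | g41 | g42 | g43 | ⟨g44, g45⟩
              · linarith only [g37, e0, s1, C.f11_0, g16]
              · linarith only [C.b3, s1, g38, C.f11_1, g27, g35, g16]
              · linarith only [C.o1, s3, g39, C.f22_4, C.f22_6, g5]
              · linarith only [g40, s1, C.a1, C.f11_0, g16]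
              · linarith only [C.a3, s1, C.a1, g41, C.f11_1, g19, C.f23_1, g27, g35, g16]
              · linarith only [C.o1, s2, s3, g42, C.f11_2, C.f22_4, C.f22_6, g27, C.f33_4, g12, g35, g5]
              · rcases d16 with g46 | g47 | g48 | g49 | g50 | g51
                · linarith only [s1, e0, g46, C.f11_0, g16]
                · rcases d2 with ⟨g52, g53⟩ | ⟨g54, g55⟩
                  · linarith only [g52, s1, s2, g47, C.f11_0, C.f11_1, C.f22_4, g27, C.f33_0, C.f33_3, g35, g16]
                  · linarith only [g54, s1, s2, g47, C.f11_0, C.f11_1, C.f22_4, g19, C.f23_1, g27, C.f33_0, C.f33_3, g35, g16]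
                · linarith only [s3, s2, g48, g43, C.f11_2, C.f22_4, C.f22_6, C.f33_4, g12, g5]
                · linarith only [g49, s1, C.a1, C.f11_0, g16]
                · linarith only [s2, s1, C.a1, g50, C.f11_0, C.f11_1, C.f22_4, g19, C.f23_1, g27, C.f33_0, C.f33_3, g35, g16]
                · linarith only [s3, g51, g43, C.f22_4, C.f22_6, g5]
              · linarith only [g44, s1, C.f11_0, g16]
            · rcases d6 with ⟨g56, g57⟩ | ⟨g58, g59⟩
              · linarith only [C.o1, s3, C.f22_4, C.f22_6, g27, g56, g13, g36]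
              · linarith only [C.b3, s3, C.f11_0, C.f11_1, C.f11_2, C.f22_4, C.f22_6, g58, g13, g36]
          · linarith only [C.a4, s2, s3, C.f11_2, C.f22_4, C.f22_6, C.f23_5, g29, C.f33_4, g12, g5]
        · rcases d10 with g60 | g61 | g62 | g63 | g64 | g65
          · linarith only [g60, e0]
          · linarith only [g61, e0, s1, C.a2, C.f11_0, g16]
          · linarith only [e2, C.o2, g62]
          · linarith only [g63, s1, C.a2, g21, g16]
          · rcases d5 with ⟨g66, g67⟩ | ⟨g68, g69⟩ | ⟨g70, g71⟩
            · linarith only [g64, s1, C.a2, C.b3, C.f11_1, g21, g66, g16]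
            · rcases d17 with g72 | g73 | g74 | g75 | g76 | g77 | g78 | ⟨g79, g80⟩
              · linarith only [g72, e0, s1, C.f11_0, g16]
              · linarith only [C.b3, s1, g73, C.f11_1, g68, g64, g16]
              · linarith only [C.o1, s3, g74, C.o2, C.f11_2, C.f22_4, C.f22_6, g68, g13, g64]
              · linarith only [g75, s1, C.a1, C.f11_0, g16]
              · linarith only [C.a3, s1, C.a2, g76, C.f11_1, g68, g64, g16]
              · linarith only [C.o1, s2, g77, C.o2, C.f22_4, g68, C.f33_4, g64]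
              · rcases d14 with g81 | g82 | g83 | g84
                · linarith only [C.b3, s1, g81, C.f11_1, g68, g64, g16]
                · linarith only [C.o1, s2, g82, C.f22_4, g68, C.f33_4, g64]
                · linarith only [C.a3, s1, C.a2, g83, C.f11_1, g68, g64, g16]
                · rcases d16 with g85 | g86 | g87 | g88 | g89 | g90
                  · linarith only [g85, e0, s1, C.f11_0, g16]
                  · linarith only [g86, s1, s3, g84, C.f11_0, C.f11_1, C.f11_2, C.f22_4, C.f22_6, g68, g13, g64, g16]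
                  · linarith only [C.b4, s2, g87, g78, C.f22_4, g68, C.f33_4, g64]
                  · linarith only [g88, s1, C.a1, C.f11_0, g16]
                  · linarith only [C.a2, s1, s3, g89, g84, C.f11_0, C.f11_2, C.f22_4, C.f22_6, g68, g13, g64, g16]
                  · linarith only [C.a5, s3, g90, g78, C.f11_2, C.f22_4, C.f22_6, g68, g13, g64]
              · linarith only [g79, s1, C.f11_0, g16]
            · linarith only [C.a4, s2, s3, C.f11_2, C.f22_4, C.f22_6, C.f23_5, g70, C.f33_4, g12, g5]
          · rcases d6 with ⟨g91, g92⟩ | ⟨g93, g94⟩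
            · rcases d5 with ⟨g95, g96⟩ | ⟨g97, g98⟩ | ⟨g99, g100⟩
              · linarith only [C.a3, s3, C.a2, C.o1, C.f22_4, C.f22_6, g21, g95, g91, g13, g65]
              · linarith only [s3, C.o1, C.f22_4, C.f22_6, g97, g91, g13, g65]
              · linarith only [C.a4, s2, s3, C.o1, C.f11_2, C.f22_4, C.f22_6, g99, g91, C.f33_4, g13, g65, g5]
            · linarith only [g93, s3, C.b3, C.f11_0, C.f11_1, C.f11_2, C.f22_4, C.f22_6, g13, g65]
        · linarith only [C.a4, s2, s3, C.f11_2, C.f22_4, C.f22_6, C.f23_1, g23, C.f33_4, g12, g5]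
      · rcases d4 with ⟨g101, g102⟩ | ⟨g103, g104⟩ | ⟨g105, g106⟩
        · rcases d5 with ⟨g107, g108⟩ | ⟨g109, g110⟩ | ⟨g111, g112⟩
          · linarith only [C.a3, C.a1, g101, g107, C.f23_5]
          · rcases d10 with g113 | g114 | g115 | g116 | g117 | g118
            · linarith only [g113, e0]
            · linarith only [C.a1, e0, C.o0, g101, C.f23_1, g114]
            · linarith only [e2, C.o2, g115]
            · linarith only [g116, C.a1, C.o0, C.f11_0, g101]
            · linarith only [g117, s2, g109, g17]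
            · rcases d6 with ⟨g119, g120⟩ | ⟨g121, g122⟩
              · linarith only [C.b5, s2, C.f11_2, g109, g119, g118, g17]
              · linarith only [C.b3, s3, C.f11_0, C.f11_1, C.f11_2, C.f22_4, C.f22_6, g121, g13, g118]
          · linarith only [C.a4, s2, s3, C.f11_2, C.f22_4, C.f22_6, C.f23_5, g111, C.f33_4, g12, g5]
        · rcases d5 with ⟨g123, g124⟩ | ⟨g125, g126⟩ | ⟨g127, g128⟩
          · rcases d0 with ⟨g129, g130⟩ | ⟨g131, g132⟩
            · linarith only [C.f23_5, C.a2, g130, g103, g123]
            · linarith only [g132, C.b2, g103, g123, C.f23_5]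
          · rcases d10 with g133 | g134 | g135 | g136 | g137 | g138
            · linarith only [g133, e0]
            · linarith only [e0, C.a2, C.o0, g134]
            · linarith only [C.a5, e1, s2, C.a4, C.f11_2, g12, g135, g5, g17]
            · rcases d1 with ⟨g139, g140⟩ | ⟨g141, g142⟩
              · linarith only [g139, C.o0, C.f11_0, g103, g136]
              · rcases d17 with g143 | g144 | g145 | g146 | g147 | g148 | g149 | ⟨g150, g151⟩
                · linarith only [g143, e0, C.o0]
                · linarith only [g144, s2, g141, C.o0, C.f11_0, C.f11_1, g103, g136, g17]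
                · linarith only [g145, s2, g142, C.f11_2, g12, g5, g17]
                · linarith only [C.a1, g146, C.o0]
                · linarith only [g147, g141]
                · linarith only [C.a4, s2, g148, g142, C.f11_2, g12, g5, g17]
                · linarith only [g142, s2, g141, g149, C.f11_0, C.f11_2, g103, g12, g136, g5, g17]
                · rcases d13 with g152 | g153 | g154 | g155 | g156 | g157
                  · linarith only [g152, s1, C.o1, C.f22_1, g103, C.f33_0, g136]
                  · rcases d2 with ⟨g158, g159⟩ | ⟨g160, g161⟩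
                    · linarith only [g158, s1, C.o0, C.o1, C.f11_0, C.f22_1, g103, C.f33_0, g136]
                    · rcases d3 with ⟨g162, g163⟩ | ⟨g164, g165⟩
                      · linarith only [C.a2, s2, C.o0, g151, C.f11_0, C.f11_1, g160, g162, C.f22_4, g17]
                      · rcases d8 with ⟨g166, g167⟩ | ⟨g168, g169⟩
                        · linarith only [g166, s1, s2, g153, g151, C.f11_0, C.f11_1, g161, g164, g17]
                        · linarith only [g168, s1, g153, g150, C.f11_0, g161, g164, C.f33_1, g17]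
                  · linarith only [C.f33_1, s1, g154, C.o0, C.o1, C.f11_0, C.f22_1, g103, g136]
                  · linarith only [g155, e0]
                  · linarith only [g17, s2, g156, g151, C.f11_0, C.f11_1]
                  · linarith only [g157, g142]
            · linarith only [g137, s2, g125, g17]
            · rcases d6 with ⟨g170, g171⟩ | ⟨g172, g173⟩
              · linarith only [C.b5, s2, C.f11_2, g125, g170, g138, g17]
              · linarith only [C.b3, s3, C.f11_0, C.f11_1, C.f11_2, C.f22_4, C.f22_6, g172, g13, g138]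
          · linarith only [C.a4, s2, s3, C.f11_2, C.f22_4, C.f22_6, C.f23_5, g127, C.f33_4, g12, g5]
        · linarith only [C.a4, s2, s3, C.f11_2, C.f22_4, C.f22_6, C.f23_1, g105, C.f33_4, g12, g5]
      · linarith only [s3, g12, g5, g18]


theorem c2_11_11_33_k0 {n1 n2 n3 A1 A2 A3 B1 B2 B3 m11_1 m11_2 m11_3 m12_1 m12_2 m12_3 m13_1 m13_2 m13_3 m22_1 m22_2 m22_3 m33_1 m33_2 m33_3 : ℤ}
    (C : Ctx2 n1 n2 n3 A1 A2 A3 B1 B2 B3 m11_1 m11_2 m11_3 m12_1 m12_2 m12_3 m13_1 m13_2 m13_3 m22_1 m22_2 m22_3 m33_1 m33_2 m33_3)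
    (e0 : 0 < B1)
    (e1 : 0 < A3)
    (s1 : 0 * A1 + 3 * B1 ≤ m11_1 + m11_1 + m33_1)
    (s2 : 0 * A2 + 3 * B2 ≤ m11_2 + m11_2 + m33_2)
    (s3 : 0 * A3 + 3 * B3 ≤ m11_3 + m11_3 + m33_3) : False := by
  have d1 : ((0 ≤ -1 - A1 + A2) ∧ (0 ≤ -1 + A2 - A3 + n3)) ∨ ((0 ≤ -1 - B1 + B2) ∧ (0 ≤ -1 + B2 - B3 + n3)) := by
    have h := C.t23
    clear C e0 e1 s1 s2 s3
    omega
  have d2 : ((0 ≤ 1 - A1 + m12_1) ∧ (0 ≤ -1 + A1 - m12_1)) ∨ ((0 ≤ 1 - B2 + m12_1) ∧ (0 ≤ -1 + B2 - m12_1)) := by
    have h := C.f12_2
    clear C e0 e1 s1 s2 s3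
    omega
  have d3 : ((0 ≤ 0 - m12_1 + m12_2 - n2) ∧ (0 ≤ 0 + m12_1 - m12_2 + n2)) ∨ ((0 ≤ 1 - B2 + m12_2) ∧ (0 ≤ -1 + B2 - m12_2)) := by
    have h := C.f12_5
    clear C e0 e1 s1 s2 s3
    omega
  have d5 : ((0 ≤ 0 - m33_1 + m33_2 - n2) ∧ (0 ≤ 0 + m33_1 - m33_2 + n2)) ∨ ((0 ≤ 1 - A3 + m33_2) ∧ (0 ≤ -1 + A3 - m33_2)) := by
    have h := C.f33_5
    clear C e0 e1 s1 s2 s3
    omega
  have d6 : ((0 ≤ 0 - m33_2 + m33_3 - n3) ∧ (0 ≤ 0 + m33_2 - m33_3 + n3)) ∨ ((0 ≤ 1 - A3 + m33_3) ∧ (0 ≤ -1 + A3 - m33_3)) := by
    have h := C.f33_8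
    clear C e0 e1 s1 s2 s3
    omega
  have d7 : ((0 ≤ 0 - B1)) ∨ ((0 ≤ 0 - A1)) ∨ ((0 ≤ 0 - B2)) ∨ ((0 ≤ -1 + 2 * B1 - m11_1 - m12_1)) ∨ ((0 ≤ -1 + 2 * B2 - m11_2 - m12_2)) ∨ ((0 ≤ -1 + 2 * B3 - m11_3 - m12_3)) := by
    have h := C.p11_12B
    clear C e0 e1 s1 s2 s3
    omega
  have d9 : ((0 ≤ 0 - B1)) ∨ ((0 ≤ 0 - A3)) ∨ ((0 ≤ -1 + 2 * B1 - m11_1 - m33_1)) ∨ ((0 ≤ -1 + 2 * B2 - m11_2 - m33_2)) ∨ ((0 ≤ -1 + 2 * B3 - m11_3 - m33_3)) := by
    have h := C.p11_33B
    clear C e0 e1 s1 s2 s3
    omega
  have d10 : ((0 ≤ 0 - A1)) ∨ ((0 ≤ 0 - B2)) ∨ ((0 ≤ 0 - A3)) ∨ ((0 ≤ -1 + 2 * A1 - m12_1 - m33_1)) ∨ ((0 ≤ -1 + 2 * A2 - m12_2 - m33_2)) ∨ ((0 ≤ -1 + 2 * A3 - m12_3 - m33_3)) := by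
    have h := C.p12_33A
    clear C e0 e1 s1 s2 s3
    omega
  have d11 : ((0 ≤ 0 + A1 - n1)) ∨ ((0 ≤ 0 + A1 - A2)) ∨ ((0 ≤ 0 + A2 - A3)) ∨ ((0 ≤ 0 - B1)) ∨ ((0 ≤ 0 - B1 + B2 - n2)) ∨ ((0 ≤ 0 - B2 + B3 - n3)) := by
    have h := C.tmzp
    clear C e0 e1 s1 s2 s3
    omega
  have d12 : ((0 ≤ 0 + A1 - n1)) ∨ ((0 ≤ 1 + A1 - A2)) ∨ ((0 ≤ 0 - B1)) ∨ ((0 ≤ 1 - B1 + B2 - n2)) := by
    have h := C.tmpp
    clear C e0 e1 s1 s2 s3
    omega
  have d13 : ((0 ≤ 0 - A1 + A2 - n2)) ∨ ((0 ≤ 1 + A2 - A3)) ∨ ((0 ≤ 0 + B1 - B2)) ∨ ((0 ≤ 1 - B2 + B3 - n3)) := by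
    have h := C.tzmp
    clear C e0 e1 s1 s2 s3
    omega
  have d14 : ((0 ≤ 0 - A1)) ∨ ((0 ≤ 1 - A1 + A2 - n2)) ∨ ((0 ≤ 0 + B1 - n1)) ∨ ((0 ≤ 1 + B1 - B2)) ∨ ((0 ≤ 1 + A2 - B2) ∧ (0 ≤ 1 + A3 - B3)) ∨ ((0 ≤ 1 - A1 + B1)) := by
    have h := C.tpmm
    clear C e0 e1 s1 s2 s3
    omega
  have d15 : ((0 ≤ 0 - A1)) ∨ ((0 ≤ 1 - A1 + A2 - n2)) ∨ ((0 ≤ 0 + A2 - A3)) ∨ ((0 ≤ 0 + B1 - n1)) ∨ ((0 ≤ 1 + B1 - B2)) ∨ ((0 ≤ 0 - B2 + B3 - n3)) ∨ ((0 ≤ 1 - A1 + B1)) := by
    have h := C.tpmz
    clear C e0 e1 s1 s2 s3
    omega
  rcases d2 with ⟨g1, g2⟩ | ⟨g3, g4⟩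
  · rcases d3 with ⟨g5, g6⟩ | ⟨g7, g8⟩
    · linarith only [C.b3, C.o0, g1, g5, C.f12_4]
    · rcases d7 with g9 | g10 | g11 | g12 | g13 | g14
      · linarith only [g9, e0]
      · linarith only [g10, e0, C.o0]
      · linarith only [C.a2, e0, C.o0, C.o1, g11]
      · rcases d10 with g15 | g16 | g17 | g18 | g19 | g20
        · linarith only [g15, e0, C.o0]
        · linarith only [C.a2, e0, C.o0, C.o1, g16]
        · linarith only [g17, e1]
        · linarith only [g12, s1, C.f11_0, g1, g18]
        · rcases d12 with g21 | g22 | g23 | g24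
          · linarith only [g21, s1, C.f11_0, g1, C.f33_0, g12]
          · rcases d5 with ⟨g25, g26⟩ | ⟨g27, g28⟩
            · linarith only [g25, s1, s2, C.o1, C.f11_0, C.f11_1, g7, g19]
            · linarith only [g12, s1, g22, C.o1, C.f11_0, g1, g7, C.f33_1, g27, g19]
          · linarith only [g23, e0]
          · linarith only [s2, g24, C.o1, C.f11_0, C.f11_1, g7, g19]
        · rcases d14 with g29 | g30 | g31 | g32 | ⟨g33, g34⟩ | g35
          · linarith only [g29, e0, C.o0]
          · linarith only [C.b3, g30, C.o0, C.o1]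
          · linarith only [s1, g31, C.f11_0, C.f33_0]
          · linarith only [g32, C.a2, C.o0, C.o1]
          · rcases d12 with g36 | g37 | g38 | g39
            · linarith only [g36, s1, C.f11_0, g1, C.f33_0, g12]
            · rcases d15 with g40 | g41 | g42 | g43 | g44 | g45 | g46
              · linarith only [g40, e0, C.o0]
              · linarith only [C.b3, g41, C.o0, C.o1]
              · linarith only [g12, s1, g37, g42, C.f11_0, g1, C.f33_1]
              · linarith only [g43, s1, C.f11_0, C.f33_0]
              · linarith only [C.a2, g44, C.o0, C.o1]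
              · rcases d1 with ⟨g47, g48⟩ | ⟨g49, g50⟩
                · linarith only [g48, g45, C.o1, g34]
                · linarith only [g50, g45]
              · rcases d13 with g51 | g52 | g53 | g54
                · linarith only [C.b3, g51, C.o0, C.o1]
                · rcases d11 with g55 | g56 | g57 | g58 | g59 | g60
                  · linarith only [g55, s1, g46, C.f11_0, C.f33_0]
                  · linarith only [g52, s1, g56, g46, C.f11_0, C.f33_1]
                  · linarith only [g37, s1, g57, g46, C.f11_0, C.f33_1]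
                  · linarith only [g58, e0]
                  · linarith only [g52, s2, g59, C.o1, C.f11_0, C.f11_1, C.f33_4]
                  · rcases d1 with ⟨g61, g62⟩ | ⟨g63, g64⟩
                    · linarith only [g62, g60, C.o1, g34]
                    · linarith only [g64, g60]
                · linarith only [C.a2, g53, C.o0, C.o1]
                · rcases d11 with g65 | g66 | g67 | g68 | g69 | g70
                  · linarith only [g65, s1, g46, C.f11_0, C.f33_0]
                  · rcases d1 with ⟨g71, g72⟩ | ⟨g73, g74⟩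
                    · linarith only [g71, g66]
                    · rcases d6 with ⟨g75, g76⟩ | ⟨g77, g78⟩
                      · rcases d5 with ⟨g79, g80⟩ | ⟨g81, g82⟩
                        · linarith only [s1, s2, g74, C.o2, C.f11_0, C.f11_1, g79, g75, C.f33_7]
                        · linarith only [C.a4, g74, g33, C.o2, g81, g75, C.f33_7]
                      · linarith only [g20, g74, C.o2, g7, C.f12_6, g77]
                  · linarith only [g37, s1, g67, g46, C.f11_0, C.f33_1]
                  · linarith only [g68, e0]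
                  · linarith only [C.f33_7, s3, g69, g54, C.o2, C.f11_0, C.f11_1, C.f11_2]
                  · rcases d1 with ⟨g83, g84⟩ | ⟨g85, g86⟩
                    · linarith only [g84, g70, C.o1, g34]
                    · linarith only [g86, g70]
            · linarith only [g38, e0]
            · rcases d6 with ⟨g87, g88⟩ | ⟨g89, g90⟩
              · linarith only [s2, s3, g39, C.o2, C.f11_0, C.f11_1, C.f11_2, g7, C.f12_6, g87, g20]
              · linarith only [g89, s3, g39, C.o2, C.f11_0, C.f11_1, C.f11_2, g7, C.f12_6, g20]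
          · rcases d9 with g91 | g92 | g93 | g94 | g95
            · linarith only [g91, e0]
            · linarith only [g92, e1]
            · linarith only [s1, C.f11_0, g93]
            · rcases d12 with g96 | g97 | g98 | g99
              · linarith only [g96, s1, g35, C.f11_0, C.f33_0]
              · rcases d5 with ⟨g100, g101⟩ | ⟨g102, g103⟩
                · linarith only [s2, s1, C.f11_0, C.f11_1, g100, g94]
                · rcases d6 with ⟨g104, g105⟩ | ⟨g106, g107⟩
                  · linarith only [C.a5, s1, s2, g97, g35, C.f11_0, g7, C.f12_6, C.f33_1, g102, g104, g94, g20]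
                  · linarith only [g106, s1, s2, g97, C.a5, g35, C.f11_0, g7, C.f12_6, C.f33_1, g102, g94, g20]
              · linarith only [g98, e0]
              · linarith only [s2, g99, C.f11_0, C.f11_1, g94]
            · rcases d12 with g108 | g109 | g110 | g111
              · linarith only [g108, s1, g35, C.f11_0, C.f33_0]
              · rcases d13 with g112 | g113 | g114 | g115
                · linarith only [C.b3, g112, C.o0, C.o1]
                · rcases d11 with g116 | g117 | g118 | g119 | g120 | g121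
                  · linarith only [s1, g116, g35, C.f11_0, C.f33_0]
                  · linarith only [g117, s1, g113, g35, C.f11_0, C.f33_1]
                  · linarith only [g109, s1, g118, g35, C.f11_0, C.f33_1]
                  · linarith only [g119, e0]
                  · linarith only [g113, s2, g120, C.o1, C.f11_0, C.f11_1, C.f33_4]
                  · rcases d1 with ⟨g122, g123⟩ | ⟨g124, g125⟩
                    · rcases d5 with ⟨g126, g127⟩ | ⟨g128, g129⟩
                      · linarith only [g113, s1, s3, g123, g121, C.o1, C.f11_0, C.f11_1, C.f11_2, g7, C.f12_6, g126, C.f33_4, g20]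
                      · rcases d6 with ⟨g130, g131⟩ | ⟨g132, g133⟩
                        · linarith only [g130, s1, g109, g123, g35, C.o1, C.f11_0, g7, C.f12_6, C.f33_1, g128, g20]
                        · linarith only [g132, g123, C.o1, g7, C.f12_6, g20]
                    · linarith only [g125, g121]
                · linarith only [C.a2, g114, C.o0, C.o1]
                · rcases d11 with g134 | g135 | g136 | g137 | g138 | g139
                  · linarith only [g134, s1, g35, C.f11_0, C.f33_0]
                  · rcases d1 with ⟨g140, g141⟩ | ⟨g142, g143⟩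
                    · linarith only [g140, g135]
                    · rcases d6 with ⟨g144, g145⟩ | ⟨g146, g147⟩
                      · rcases d5 with ⟨g148, g149⟩ | ⟨g150, g151⟩
                        · linarith only [g148, s1, s2, g143, C.f11_0, C.f11_1, C.f11_2, g144, g95]
                        · linarith only [g150, s1, s2, g135, C.a5, g143, g35, C.f11_0, C.f11_2, g7, C.f12_6, C.f33_1, g144, g95, g20]
                      · linarith only [s3, g143, g7, C.f12_6, g146, g95, g20]
                  · linarith only [g109, s1, g136, g35, C.f11_0, C.f33_1]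
                  · linarith only [g137, e0]
                  · linarith only [C.f33_7, s3, g138, g115, C.o2, C.f11_0, C.f11_1, C.f11_2]
                  · rcases d1 with ⟨g152, g153⟩ | ⟨g154, g155⟩
                    · rcases d6 with ⟨g156, g157⟩ | ⟨g158, g159⟩
                      · rcases d5 with ⟨g160, g161⟩ | ⟨g162, g163⟩
                        · linarith only [g160, s1, s3, g153, g139, C.o1, C.f11_0, C.f11_1, C.f11_2, g7, C.f12_6, g156, g20]
                        · linarith only [g162, s1, g109, g153, g35, C.o1, C.f11_0, g7, C.f12_6, C.f33_1, g156, g20]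
                      · linarith only [g158, g153, C.o1, g7, C.f12_6, g20]
                    · linarith only [g155, g139]
              · linarith only [g110, e0]
              · rcases d6 with ⟨g164, g165⟩ | ⟨g166, g167⟩
                · linarith only [s2, s3, g111, C.o2, C.f11_0, C.f11_1, C.f11_2, g7, C.f12_6, g164, g20]
                · linarith only [g166, s3, g111, C.o2, C.f11_0, C.f11_1, C.f11_2, g7, C.f12_6, g20]
      · rcases d15 with g168 | g169 | g170 | g171 | g172 | g173 | g174
        · linarith only [g168, e0, C.o0]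
        · linarith only [C.b3, g169, C.o0, C.o1]
        · linarith only [g13, s2, g170, C.o1, g7, C.f33_4]
        · linarith only [g171, s1, C.f11_0, C.f33_0]
        · linarith only [C.a2, g172, C.o0, C.o1]
        · linarith only [g13, s3, g173, C.o2, C.f11_2, g7, C.f33_7]
        · rcases d10 with g175 | g176 | g177 | g178 | g179 | g180
          · linarith only [g175, e0, C.o0]
          · linarith only [g176, e0, C.a2, C.o0, C.o1]
          · linarith only [g177, e1]
          · linarith only [g178, s1, g174, C.f11_0, g1]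
          · linarith only [g179, s2, C.o1, g7, g13]
          · rcases d6 with ⟨g181, g182⟩ | ⟨g183, g184⟩
            · linarith only [s2, s3, C.o2, C.f11_2, g7, C.f12_6, g181, g13, g180]
            · linarith only [g183, s3, C.o2, C.f11_2, g7, C.f12_6, g13, g180]
      · linarith only [C.b5, s3, C.a5, C.o1, g7, C.f12_6, C.f33_7, g14]
  · linarith only [C.a2, C.o1, C.f12_0, g3]


theorem c0_11_13_33_k2 {n1 n2 n3 A1 A2 A3 B1 B2 B3 m11_1 m11_2 m11_3 m13_1 m13_2 m13_3 m22_1 m22_2 m22_3 m23_1 m23_2 m23_3 m33_1 m33_2 m33_3 : ℤ}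
    (C : Ctx0 n1 n2 n3 A1 A2 A3 B1 B2 B3 m11_1 m11_2 m11_3 m13_1 m13_2 m13_3 m22_1 m22_2 m22_3 m23_1 m23_2 m23_3 m33_1 m33_2 m33_3)
    (e0 : 0 < B1)
    (e1 : 0 < A1)
    (e2 : 0 < B3)
    (e3 : 0 < A3)
    (s1 : 2 * A1 + 1 * B1 ≤ m11_1 + m13_1 + m33_1)
    (s2 : 2 * A2 + 1 * B2 ≤ m11_2 + m13_2 + m33_2)
    (s3 : 2 * A3 + 1 * B3 ≤ m11_3 + m13_3 + m33_3) : False := by
  have d1 : ((0 ≤ -1 - A1 + A2) ∧ (0 ≤ -1 + A2 - A3 + n3)) ∨ ((0 ≤ -1 - B1 + B2) ∧ (0 ≤ -1 + B2 - B3 + n3)) := by
    have h := C.t23
    clear C e0 e1 e2 e3 s1 s2 s3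
    omega
  have d2 : ((0 ≤ 1 - A1 + m13_1) ∧ (0 ≤ -1 + A1 - m13_1)) ∨ ((0 ≤ 1 - B3 + m13_1) ∧ (0 ≤ -1 + B3 - m13_1)) := by
    have h := C.f13_2
    clear C e0 e1 e2 e3 s1 s2 s3
    omega
  have d3 : ((0 ≤ 0 - m13_1 + m13_2 - n2) ∧ (0 ≤ 0 + m13_1 - m13_2 + n2)) ∨ ((0 ≤ 1 - B3 + m13_2) ∧ (0 ≤ -1 + B3 - m13_2)) := by
    have h := C.f13_5
    clear C e0 e1 e2 e3 s1 s2 s3
    omega
  have d4 : ((0 ≤ 0 - m13_2 + m13_3 - n3) ∧ (0 ≤ 0 + m13_2 - m13_3 + n3)) ∨ ((0 ≤ 1 - B3 + m13_3) ∧ (0 ≤ -1 + B3 - m13_3)) := by
    have h := C.f13_8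
    clear C e0 e1 e2 e3 s1 s2 s3
    omega
  have d6 : ((0 ≤ 0 - m33_1 + m33_2 - n2) ∧ (0 ≤ 0 + m33_1 - m33_2 + n2)) ∨ ((0 ≤ 1 - A3 + m33_2) ∧ (0 ≤ -1 + A3 - m33_2)) := by
    have h := C.f33_5
    clear C e0 e1 e2 e3 s1 s2 s3
    omega
  have d7 : ((0 ≤ 0 - m33_2 + m33_3 - n3) ∧ (0 ≤ 0 + m33_2 - m33_3 + n3)) ∨ ((0 ≤ 1 - A3 + m33_3) ∧ (0 ≤ -1 + A3 - m33_3)) := by
    have h := C.f33_8
    clear C e0 e1 e2 e3 s1 s2 s3
    omega
  have d8 : ((0 ≤ 0 - B1)) ∨ ((0 ≤ 0 - A1)) ∨ ((0 ≤ 0 - B3)) ∨ ((0 ≤ -1 + 2 * B1 - m11_1 - m13_1)) ∨ ((0 ≤ -1 + 2 * B2 - m11_2 - m13_2)) ∨ ((0 ≤ -1 + 2 * B3 - m11_3 - m13_3)) := by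
    have h := C.p11_13B
    clear C e0 e1 e2 e3 s1 s2 s3
    omega
  have d9 : ((0 ≤ 0 - B1)) ∨ ((0 ≤ 0 - A3)) ∨ ((0 ≤ -1 + 2 * A1 - m11_1 - m33_1)) ∨ ((0 ≤ -1 + 2 * A2 - m11_2 - m33_2)) ∨ ((0 ≤ -1 + 2 * A3 - m11_3 - m33_3)) := by
    have h := C.p11_33A
    clear C e0 e1 e2 e3 s1 s2 s3
    omega
  have d11 : ((0 ≤ 0 - A1)) ∨ ((0 ≤ 0 - B3)) ∨ ((0 ≤ 0 - A3)) ∨ ((0 ≤ -1 + 2 * A1 - m13_1 - m33_1)) ∨ ((0 ≤ -1 + 2 * A2 - m13_2 - m33_2)) ∨ ((0 ≤ -1 + 2 * A3 - m13_3 - m33_3)) := by
    have h := C.p13_33A
    clear C e0 e1 e2 e3 s1 s2 s3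
    omega
  have d12 : ((0 ≤ 0 + A1 - n1)) ∨ ((0 ≤ 0 + A1 - A2)) ∨ ((0 ≤ 0 + A2 - A3)) ∨ ((0 ≤ 0 - B1)) ∨ ((0 ≤ 0 - B1 + B2 - n2)) ∨ ((0 ≤ 0 - B2 + B3 - n3)) := by
    have h := C.tmzp
    clear C e0 e1 e2 e3 s1 s2 s3
    omega
  have d13 : ((0 ≤ 0 + A1 - n1)) ∨ ((0 ≤ 1 + A1 - A2)) ∨ ((0 ≤ 0 - B1)) ∨ ((0 ≤ 1 - B1 + B2 - n2)) := by
    have h := C.tmpp
    clear C e0 e1 e2 e3 s1 s2 s3
    omega
  rcases d2 with ⟨g1, g2⟩ | ⟨g3, g4⟩
  · rcases d11 with g5 | g6 | g7 | g8 | g9 | g10
    · linarith only [g5, e1]
    · linarith only [g6, e2]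
    · linarith only [g7, e3]
    · linarith only [g8, s1, C.f11_0]
    · rcases d13 with g11 | g12 | g13 | g14
      · linarith only [g11, s1, C.f11_0, g2, C.f33_0]
      · rcases d12 with g15 | g16 | g17 | g18 | g19 | g20
        · linarith only [g15, s1, C.f11_0, g2, C.f33_0]
        · rcases d1 with ⟨g21, g22⟩ | ⟨g23, g24⟩
          · linarith only [g21, g16]
          · rcases d9 with g25 | g26 | g27 | g28 | g29
            · linarith only [g25, e0]
            · linarith only [g26, e3]
            · rcases d8 with g30 | g31 | g32 | g33 | g34 | g35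
              · linarith only [g30, e0]
              · linarith only [g31, e1]
              · linarith only [g32, e2]
              · linarith only [g33, s1, C.f11_0, g27]
              · rcases d3 with ⟨g36, g37⟩ | ⟨g38, g39⟩
                · linarith only [g36, s1, s2, C.f11_0, C.f11_1, g34, g27, g9]
                · linarith only [C.b4, s2, g38, g34, g9]
              · rcases d4 with ⟨g40, g41⟩ | ⟨g42, g43⟩
                · rcases d3 with ⟨g44, g45⟩ | ⟨g46, g47⟩
                  · linarith only [s2, s1, g24, C.f11_0, C.f11_1, C.f11_2, g44, g40, g35, g27, g9]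
                  · linarith only [g46, s2, s3, g24, C.o1, C.f11_2, g40, C.f33_4, C.f33_7, g35, g9]
                · linarith only [g42, s2, g24, C.f11_2, g35, g9]
            · rcases d4 with ⟨g48, g49⟩ | ⟨g50, g51⟩
              · linarith only [C.f13_7, s2, g24, g48, g28]
              · rcases d8 with g52 | g53 | g54 | g55 | g56 | g57
                · linarith only [g52, e0]
                · linarith only [g53, e1]
                · linarith only [g54, e2]
                · rcases d6 with ⟨g58, g59⟩ | ⟨g60, g61⟩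
                  · linarith only [g28, s1, s2, g16, g23, C.f11_0, C.f11_1, g58, g55, g9]
                  · linarith only [C.a4, s2, g16, g23, C.f11_0, g1, g60, g55, g28, g9]
                · linarith only [g28, s2, g56, g9]
                · linarith only [g57, s2, g24, C.f11_2, g50, g9]
            · linarith only [C.f13_7, s3, g29]
        · linarith only [g12, s1, g17, C.f11_0, g2, C.f33_1]
        · linarith only [g18, e0]
        · linarith only [g19, s2, C.f11_0, C.f11_1, g9]
        · rcases d9 with g62 | g63 | g64 | g65 | g66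
          · linarith only [g62, e0]
          · linarith only [g63, e3]
          · rcases d8 with g67 | g68 | g69 | g70 | g71 | g72
            · linarith only [g67, e0]
            · linarith only [g68, e1]
            · linarith only [g69, e2]
            · linarith only [g70, s1, C.f11_0, g64]
            · rcases d3 with ⟨g73, g74⟩ | ⟨g75, g76⟩
              · linarith only [s2, s1, C.f11_0, C.f11_1, g73, g71, g64, g9]
              · linarith only [g75, s2, s3, g20, C.o1, C.f11_2, C.f13_6, C.f33_4, C.f33_7, g71, g9]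
            · rcases d4 with ⟨g77, g78⟩ | ⟨g79, g80⟩
              · rcases d3 with ⟨g81, g82⟩ | ⟨g83, g84⟩
                · linarith only [g81, s1, s2, C.b5, C.f11_0, C.f11_1, C.f11_2, g77, g72, g64, g9]
                · linarith only [g83, s1, s2, s3, g12, C.b5, C.o1, C.f11_0, C.f11_2, g2, g77, C.f33_1, C.f33_7, g72, g9]
              · linarith only [g79, s2, C.b5, C.f11_2, g72, g9]
          · rcases d4 with ⟨g85, g86⟩ | ⟨g87, g88⟩
            · linarith only [C.f13_7, s2, C.b5, g85, g65]
            · rcases d8 with g89 | g90 | g91 | g92 | g93 | g94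
              · linarith only [g89, e0]
              · linarith only [g90, e1]
              · linarith only [g91, e2]
              · rcases d6 with ⟨g95, g96⟩ | ⟨g97, g98⟩
                · linarith only [g92, s1, s2, g12, C.b2, g20, C.f11_0, C.f11_1, C.f13_6, g87, g95, g9]
                · linarith only [C.f33_1, s1, s2, g12, C.b2, g97, g92, g65, g9]
              · linarith only [s2, g93, g65, g9]
              · linarith only [s2, C.b5, C.f11_2, g87, g94, g9]
          · linarith only [s3, C.f13_7, g66]
      · linarith only [g13, e0]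
      · linarith only [s2, g14, C.f11_0, C.f11_1, g9]
    · rcases d9 with g99 | g100 | g101 | g102 | g103
      · linarith only [g99, e0]
      · linarith only [g100, e3]
      · rcases d8 with g104 | g105 | g106 | g107 | g108 | g109
        · linarith only [g104, e0]
        · linarith only [g105, e1]
        · linarith only [g106, e2]
        · linarith only [g107, s1, C.f11_0, g101]
        · rcases d3 with ⟨g110, g111⟩ | ⟨g112, g113⟩
          · linarith only [C.b3, s1, C.f11_0, C.f11_1, g110, g108, g101]
          · linarith only [C.o2, s2, C.b3, C.o1, C.f11_0, C.f11_1, g112, C.f33_4, g108]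
        · rcases d4 with ⟨g114, g115⟩ | ⟨g116, g117⟩
          · rcases d3 with ⟨g118, g119⟩ | ⟨g120, g121⟩
            · linarith only [s1, s3, C.f11_0, C.f11_1, C.f11_2, g118, g114, g109, g101, g10]
            · linarith only [C.a4, s3, C.a5, g120, g114, g109, g10]
          · linarith only [g116, s3, g109, g10]
      · rcases d4 with ⟨g122, g123⟩ | ⟨g124, g125⟩
        · linarith only [C.f13_7, s2, C.b5, g122, g102]
        · rcases d8 with g126 | g127 | g128 | g129 | g130 | g131
          · linarith only [g126, e0]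
          · linarith only [g127, e1]
          · linarith only [g128, e2]
          · rcases d6 with ⟨g132, g133⟩ | ⟨g134, g135⟩
            · linarith only [C.a3, s1, C.f11_0, C.f11_1, g132, g129, g102]
            · rcases d7 with ⟨g136, g137⟩ | ⟨g138, g139⟩
              · linarith only [s2, C.b5, C.o2, C.f13_4, g124, g134, g136, g102, g10]
              · rcases d12 with g140 | g141 | g142 | g143 | g144 | g145
                · linarith only [g140, s1, C.f11_0, g2, C.f33_0]
                · linarith only [C.a3, s1, g141, C.f11_0, C.f11_1, C.f33_1, g134, g129, g102]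
                · rcases d13 with g146 | g147 | g148 | g149
                  · linarith only [g146, s1, C.f11_0, g2, C.f33_0]
                  · linarith only [g147, s1, g142, C.f11_0, g2, C.f33_1]
                  · linarith only [g148, e0]
                  · linarith only [g149, s2, g142, C.f11_0, C.f11_1, C.f13_4, g124, g135, g138, g10]
                · linarith only [g143, e0]
                · linarith only [C.f13_3, s2, g144, C.f11_0, g129, g102]
                · rcases d13 with g150 | g151 | g152 | g153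
                  · linarith only [g150, s1, C.f11_0, g2, C.f33_0]
                  · linarith only [s3, s1, g151, C.b2, g145, C.f11_2, C.f33_1, g134, g129, g102, g10]
                  · linarith only [g152, e0]
                  · linarith only [g153, s3, g145, C.f11_0, C.f11_1, C.f11_2, g10]
          · linarith only [C.b3, s2, C.f11_0, C.f11_1, g130, g102]
          · linarith only [g131, s3, g124, g10]
      · linarith only [C.f13_7, s3, g103]
  · linarith only [g3, s1, C.o2, C.f11_0, C.f13_0, C.f33_1]


theorem c2_11_22_33_k2 {n1 n2 n3 A1 A2 A3 B1 B2 B3 m11_1 m11_2 m11_3 m12_1 m12_2 m12_3 m13_1 m13_2 m13_3 m22_1 m22_2 m22_3 m33_1 m33_2 m33_3 : ℤ}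
    (C : Ctx2 n1 n2 n3 A1 A2 A3 B1 B2 B3 m11_1 m11_2 m11_3 m12_1 m12_2 m12_3 m13_1 m13_2 m13_3 m22_1 m22_2 m22_3 m33_1 m33_2 m33_3)
    (e0 : 0 < B1)
    (e1 : 0 < A2)
    (e2 : 0 < A3)
    (s1 : 2 * A1 + 1 * B1 ≤ m11_1 + m22_1 + m33_1)
    (s2 : 2 * A2 + 1 * B2 ≤ m11_2 + m22_2 + m33_2)
    (s3 : 2 * A3 + 1 * B3 ≤ m11_3 + m22_3 + m33_3) : False := by
  have d2 : ((0 ≤ 1 - A1 + m12_1) ∧ (0 ≤ -1 + A1 - m12_1)) ∨ ((0 ≤ 1 - B2 + m12_1) ∧ (0 ≤ -1 + B2 - m12_1)) := by
    have h := C.f12_2
    clear C e0 e1 e2 s1 s2 s3
    omega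
  have d3 : ((0 ≤ 0 - m12_1 + m12_2 - n2) ∧ (0 ≤ 0 + m12_1 - m12_2 + n2)) ∨ ((0 ≤ 1 - B2 + m12_2) ∧ (0 ≤ -1 + B2 - m12_2)) := by
    have h := C.f12_5
    clear C e0 e1 e2 s1 s2 s3
    omega
  have d5 : ((0 ≤ 0 - m22_1 + m22_2 - n2) ∧ (0 ≤ 0 + m22_1 - m22_2 + n2)) ∨ ((0 ≤ 1 - A2 + m22_2) ∧ (0 ≤ -1 + A2 - m22_2)) := by
    have h := C.f22_5
    clear C e0 e1 e2 s1 s2 s3
    omega
  have d6 : ((0 ≤ 0 + m33_1 - n1) ∧ (0 ≤ 0 - m33_1 + n1)) ∨ ((0 ≤ 1 - A3 + m33_1) ∧ (0 ≤ -1 + A3 - m33_1)) := by
    have h := C.f33_2
    clear C e0 e1 e2 s1 s2 s3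
    omega
  have d8 : ((0 ≤ 0 - m33_2 + m33_3 - n3) ∧ (0 ≤ 0 + m33_2 - m33_3 + n3)) ∨ ((0 ≤ 1 - A3 + m33_3) ∧ (0 ≤ -1 + A3 - m33_3)) := by
    have h := C.f33_8
    clear C e0 e1 e2 s1 s2 s3
    omega
  have d9 : ((0 ≤ 0 - B1)) ∨ ((0 ≤ 0 - A2)) ∨ ((0 ≤ -1 + 2 * B1 - m11_1 - m22_1)) ∨ ((0 ≤ -1 + 2 * B2 - m11_2 - m22_2)) ∨ ((0 ≤ -1 + 2 * B3 - m11_3 - m22_3)) := by
    have h := C.p11_22B
    clear C e0 e1 e2 s1 s2 s3
    omega
  have d10 : ((0 ≤ 0 - B1)) ∨ ((0 ≤ 0 - A3)) ∨ ((0 ≤ -1 + 2 * A1 - m11_1 - m33_1)) ∨ ((0 ≤ -1 + 2 * A2 - m11_2 - m33_2)) ∨ ((0 ≤ -1 + 2 * A3 - m11_3 - m33_3)) := by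
    have h := C.p11_33A
    clear C e0 e1 e2 s1 s2 s3
    omega
  have d12 : ((0 ≤ 0 - A1)) ∨ ((0 ≤ 0 - B2)) ∨ ((0 ≤ 0 - A3)) ∨ ((0 ≤ -1 + 2 * A1 - m12_1 - m33_1)) ∨ ((0 ≤ -1 + 2 * A2 - m12_2 - m33_2)) ∨ ((0 ≤ -1 + 2 * A3 - m12_3 - m33_3)) := by
    have h := C.p12_33A
    clear C e0 e1 e2 s1 s2 s3
    omega
  have d15 : ((0 ≤ 0 - A1)) ∨ ((0 ≤ 1 - A1 + A2 - n2)) ∨ ((0 ≤ 0 + B1 - n1)) ∨ ((0 ≤ 1 + B1 - B2)) ∨ ((0 ≤ 1 + A2 - B2) ∧ (0 ≤ 1 + A3 - B3)) ∨ ((0 ≤ 1 - A1 + B1)) := by
    have h := C.tpmm
    clear C e0 e1 e2 s1 s2 s3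
    omega
  rcases d2 with ⟨g1, g2⟩ | ⟨g3, g4⟩
  · rcases d3 with ⟨g5, g6⟩ | ⟨g7, g8⟩
    · linarith only [C.b3, C.o0, g1, g5, C.f12_4]
    · rcases d15 with g9 | g10 | g11 | g12 | ⟨g13, g14⟩ | g15
      · linarith only [g9, e0, C.o0]
      · linarith only [C.b3, g10, C.o0, C.o1]
      · linarith only [C.a1, g11, C.o0]
      · linarith only [C.a2, g12, C.o0, C.o1]
      · rcases d9 with g16 | g17 | g18 | g19 | g20
        · linarith only [g16, e0]
        · linarith only [g17, e1]
        · rcases d10 with g21 | g22 | g23 | g24 | g25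
          · linarith only [g21, e0]
          · linarith only [g22, e2]
          · linarith only [g23, s1, C.f11_0, g18]
          · linarith only [s2, C.o1, C.f22_4, g24]
          · rcases d8 with ⟨g26, g27⟩ | ⟨g28, g29⟩
            · linarith only [s2, s3, C.o1, C.o2, C.f11_2, C.f22_4, C.f22_6, g26, g25]
            · linarith only [g28, s3, C.b3, C.o1, C.o2, C.f11_0, C.f11_1, C.f11_2, C.f22_4, C.f22_6, g25]
        · rcases d8 with ⟨g30, g31⟩ | ⟨g32, g33⟩
          · linarith only [g19, s2, C.a5, g13, g30, C.f33_7]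
          · rcases d12 with g34 | g35 | g36 | g37 | g38 | g39
            · linarith only [g34, e0, C.o0]
            · linarith only [e1, C.o1, g35]
            · linarith only [g36, e2]
            · rcases d6 with ⟨g40, g41⟩ | ⟨g42, g43⟩
              · linarith only [g40, s1, C.f11_0, g1, C.f22_0, g37]
              · linarith only [C.a4, s1, C.f11_0, g1, C.f22_1, g42, g37]
            · linarith only [g19, s2, g7, g38]
            · linarith only [g39, s3, C.o2, C.f11_2, g7, C.f12_6, C.f22_6, g32, g19]
        · linarith only [g20, s3, g14, C.f33_7]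
      · rcases d10 with g44 | g45 | g46 | g47 | g48
        · linarith only [g44, e0]
        · linarith only [g45, e2]
        · rcases d5 with ⟨g49, g50⟩ | ⟨g51, g52⟩
          · linarith only [C.a3, s1, g15, g49, C.f22_4, g46]
          · rcases d9 with g53 | g54 | g55 | g56 | g57
            · linarith only [g53, e0]
            · linarith only [g54, e1]
            · linarith only [s1, C.f11_0, g55, g46]
            · rcases d12 with g58 | g59 | g60 | g61 | g62 | g63
              · linarith only [g58, e0, C.o0]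
              · linarith only [C.a2, e0, C.a3, C.o0, C.f11_0, C.f11_1, g51, g56, g59]
              · linarith only [g60, e2]
              · rcases d6 with ⟨g64, g65⟩ | ⟨g66, g67⟩
                · linarith only [g64, s1, C.f11_0, g1, C.f22_0, g61]
                · linarith only [g66, s1, C.a4, C.f11_0, g1, C.f22_1, g61]
              · linarith only [s2, g7, g56, g62]
              · rcases d8 with ⟨g68, g69⟩ | ⟨g70, g71⟩
                · linarith only [s2, C.a5, g7, C.f12_6, g68, g56, g63]
                · linarith only [g70, s3, C.o2, C.f11_2, g7, C.f12_6, C.f22_6, g56, g63]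
            · rcases d12 with g72 | g73 | g74 | g75 | g76 | g77
              · linarith only [g72, e0, C.o0]
              · linarith only [C.a2, e0, C.a3, C.b5, C.o0, C.f11_0, C.f11_1, C.f11_2, g51, C.f22_6, g57, g73]
              · linarith only [g74, e2]
              · rcases d6 with ⟨g78, g79⟩ | ⟨g80, g81⟩
                · linarith only [g78, s1, C.f11_0, g1, C.f22_0, g75]
                · linarith only [C.a4, s1, C.f11_0, g1, C.f22_1, g80, g75]
              · linarith only [g76, s2, C.b5, C.f11_2, g7, C.f22_6, g57]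
              · linarith only [g77, s3, C.b5, g7, C.f12_6, g57]
        · linarith only [C.o1, s2, C.f22_4, g47]
        · rcases d8 with ⟨g82, g83⟩ | ⟨g84, g85⟩
          · linarith only [s2, s3, C.o1, C.o2, C.f11_2, C.f22_4, C.f22_6, g82, g48]
          · linarith only [g84, s3, C.b3, C.o1, C.o2, C.f11_0, C.f11_1, C.f11_2, C.f22_4, C.f22_6, g48]
  · linarith only [C.a2, C.o1, C.f12_0, g3]


theorem c2_13_22_33_k3 {n1 n2 n3 A1 A2 A3 B1 B2 B3 m11_1 m11_2 m11_3 m12_1 m12_2 m12_3 m13_1 m13_2 m13_3 m22_1 m22_2 m22_3 m33_1 m33_2 m33_3 : ℤ}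
    (C : Ctx2 n1 n2 n3 A1 A2 A3 B1 B2 B3 m11_1 m11_2 m11_3 m12_1 m12_2 m12_3 m13_1 m13_2 m13_3 m22_1 m22_2 m22_3 m33_1 m33_2 m33_3)
    (e0 : 0 < A1)
    (e1 : 0 < B3)
    (e2 : 0 < A2)
    (e3 : 0 < A3)
    (s1 : 3 * A1 + 0 * B1 ≤ m13_1 + m22_1 + m33_1)
    (s2 : 3 * A2 + 0 * B2 ≤ m13_2 + m22_2 + m33_2)
    (s3 : 3 * A3 + 0 * B3 ≤ m13_3 + m22_3 + m33_3) : False := by
  have d2 : ((0 ≤ 1 - A1 + m12_1) ∧ (0 ≤ -1 + A1 - m12_1)) ∨ ((0 ≤ 1 - B2 + m12_1) ∧ (0 ≤ -1 + B2 - m12_1)) := by
    have h := C.f12_2
    clear C e0 e1 e2 e3 s1 s2 s3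
    omega
  have d3 : ((0 ≤ 0 - m12_1 + m12_2 - n2) ∧ (0 ≤ 0 + m12_1 - m12_2 + n2)) ∨ ((0 ≤ 1 - B2 + m12_2) ∧ (0 ≤ -1 + B2 - m12_2)) := by
    have h := C.f12_5
    clear C e0 e1 e2 e3 s1 s2 s3
    omega
  have d4 : ((0 ≤ 1 - A1 + m13_1) ∧ (0 ≤ -1 + A1 - m13_1)) ∨ ((0 ≤ 1 - B3 + m13_1) ∧ (0 ≤ -1 + B3 - m13_1)) := by
    have h := C.f13_2
    clear C e0 e1 e2 e3 s1 s2 s3
    omega
  have d7 : ((0 ≤ 0 + m22_1 - n1) ∧ (0 ≤ 0 - m22_1 + n1)) ∨ ((0 ≤ 1 - A2 + m22_1) ∧ (0 ≤ -1 + A2 - m22_1)) := by
    have h := C.f22_2
    clear C e0 e1 e2 e3 s1 s2 s3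
    omega
  have d8 : ((0 ≤ 0 - m22_1 + m22_2 - n2) ∧ (0 ≤ 0 + m22_1 - m22_2 + n2)) ∨ ((0 ≤ 1 - A2 + m22_2) ∧ (0 ≤ -1 + A2 - m22_2)) := by
    have h := C.f22_5
    clear C e0 e1 e2 e3 s1 s2 s3
    omega
  have d9 : ((0 ≤ 0 + m33_1 - n1) ∧ (0 ≤ 0 - m33_1 + n1)) ∨ ((0 ≤ 1 - A3 + m33_1) ∧ (0 ≤ -1 + A3 - m33_1)) := by
    have h := C.f33_2
    clear C e0 e1 e2 e3 s1 s2 s3
    omega
  have d10 : ((0 ≤ 0 - m33_1 + m33_2 - n2) ∧ (0 ≤ 0 + m33_1 - m33_2 + n2)) ∨ ((0 ≤ 1 - A3 + m33_2) ∧ (0 ≤ -1 + A3 - m33_2)) := by
    have h := C.f33_5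
    clear C e0 e1 e2 e3 s1 s2 s3
    omega
  have d11 : ((0 ≤ 0 - m33_2 + m33_3 - n3) ∧ (0 ≤ 0 + m33_2 - m33_3 + n3)) ∨ ((0 ≤ 1 - A3 + m33_3) ∧ (0 ≤ -1 + A3 - m33_3)) := by
    have h := C.f33_8
    clear C e0 e1 e2 e3 s1 s2 s3
    omega
  have d12 : ((0 ≤ 0 - A1)) ∨ ((0 ≤ 0 - B2)) ∨ ((0 ≤ 0 - A3)) ∨ ((0 ≤ -1 + 2 * A1 - m12_1 - m33_1)) ∨ ((0 ≤ -1 + 2 * A2 - m12_2 - m33_2)) ∨ ((0 ≤ -1 + 2 * A3 - m12_3 - m33_3)) := by
    have h := C.p12_33A
    clear C e0 e1 e2 e3 s1 s2 s3
    omega
  have d13 : ((0 ≤ 0 - A1)) ∨ ((0 ≤ 0 - B3)) ∨ ((0 ≤ 0 - A2)) ∨ ((0 ≤ -1 + 2 * A1 - m13_1 - m22_1)) ∨ ((0 ≤ -1 + 2 * A2 - m13_2 - m22_2)) ∨ ((0 ≤ -1 + 2 * A3 - m13_3 - m22_3)) := by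
    have h := C.p13_22A
    clear C e0 e1 e2 e3 s1 s2 s3
    omega
  have d14 : ((0 ≤ 0 - A1)) ∨ ((0 ≤ 0 - B3)) ∨ ((0 ≤ 0 - A3)) ∨ ((0 ≤ -1 + 2 * A1 - m13_1 - m33_1)) ∨ ((0 ≤ -1 + 2 * A2 - m13_2 - m33_2)) ∨ ((0 ≤ -1 + 2 * A3 - m13_3 - m33_3)) := by
    have h := C.p13_33A
    clear C e0 e1 e2 e3 s1 s2 s3
    omega
  rcases d2 with ⟨g1, g2⟩ | ⟨g3, g4⟩
  · rcases d3 with ⟨g5, g6⟩ | ⟨g7, g8⟩
    · linarith only [C.f12_4, C.b3, C.o0, g1, g5]
    · rcases d4 with ⟨g9, g10⟩ | ⟨g11, g12⟩
      · rcases d13 with g13 | g14 | g15 | g16 | g17 | g18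
        · linarith only [g13, e0]
        · linarith only [g14, e1]
        · linarith only [g15, e2]
        · rcases d14 with g19 | g20 | g21 | g22 | g23 | g24
          · linarith only [g19, e0]
          · linarith only [g20, e1]
          · linarith only [g21, e3]
          · linarith only [g22, s1, g9, g16]
          · linarith only [g23, s2, C.f22_4]
          · rcases d7 with ⟨g25, g26⟩ | ⟨g27, g28⟩
            · linarith only [s1, g9, g25, C.f33_0, g16]
            · rcases d8 with ⟨g29, g30⟩ | ⟨g31, g32⟩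
              · linarith only [C.a2, C.b3, C.o0, C.o1, g27, g29, C.f22_4]
              · rcases d12 with g33 | g34 | g35 | g36 | g37 | g38
                · linarith only [g33, e0]
                · linarith only [e2, C.o1, g34]
                · linarith only [g35, e3]
                · linarith only [g16, s1, g1, g36]
                · rcases d10 with ⟨g39, g40⟩ | ⟨g41, g42⟩
                  · linarith only [g39, s1, s2, C.o1, g7, g10, C.f13_3, g32, g37, g16]
                  · linarith only [g41, s1, C.o1, g7, g9, g27, C.f33_1, g37, g16]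
                · rcases d11 with ⟨g43, g44⟩ | ⟨g45, g46⟩
                  · rcases d10 with ⟨g47, g48⟩ | ⟨g49, g50⟩
                    · linarith only [s1, s2, s3, C.o1, g7, C.f12_6, g10, C.f13_3, g32, C.f22_6, g47, g43, g38, g16, g24]
                    · linarith only [g49, s2, s3, C.b5, C.o1, g7, C.f12_6, C.f13_4, g32, C.f22_6, g43, g38, g24]
                  · linarith only [g45, s3, C.o1, g7, C.f12_6, g32, C.f22_6, g38, g24]
        · rcases d11 with ⟨g51, g52⟩ | ⟨g53, g54⟩
          · linarith only [s2, C.a5, g51, C.f33_7, g17]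
          · rcases d12 with g55 | g56 | g57 | g58 | g59 | g60
            · linarith only [g55, e0]
            · linarith only [g56, e2, C.o1]
            · linarith only [g57, e3]
            · rcases d9 with ⟨g61, g62⟩ | ⟨g63, g64⟩
              · linarith only [g61, s1, g1, g10, C.f22_0, g58]
              · linarith only [g63, s1, s2, g1, g10, C.f22_1, C.f33_4, g58, g17]
            · linarith only [s2, C.o1, g7, g59, g17]
            · linarith only [g60, s3, C.o1, g7, C.f12_6, C.f13_6, C.f22_6, g53, g17]
        · linarith only [C.f33_7, s3, g18]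
      · linarith only [C.b4, C.a2, C.o1, C.f13_0, g11]
  · linarith only [C.a2, C.o1, C.f12_0, g3]


theorem c0_11_13_23_k0 {n1 n2 n3 A1 A2 A3 B1 B2 B3 m11_1 m11_2 m11_3 m13_1 m13_2 m13_3 m22_1 m22_2 m22_3 m23_1 m23_2 m23_3 m33_1 m33_2 m33_3 : ℤ}
    (C : Ctx0 n1 n2 n3 A1 A2 A3 B1 B2 B3 m11_1 m11_2 m11_3 m13_1 m13_2 m13_3 m22_1 m22_2 m22_3 m23_1 m23_2 m23_3 m33_1 m33_2 m33_3)
    (e0 : 0 < B1)
    (e1 : 0 < A1)
    (e2 : 0 < B3)
    (e3 : 0 < A2)
    (s1 : 0 * A1 + 3 * B1 ≤ m11_1 + m13_1 + m23_1)
    (s2 : 0 * A2 + 3 * B2 ≤ m11_2 + m13_2 + m23_2)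
    (s3 : 0 * A3 + 3 * B3 ≤ m11_3 + m13_3 + m23_3) : False := by
  have d2 : ((0 ≤ 1 - A1 + m13_1) ∧ (0 ≤ -1 + A1 - m13_1)) ∨ ((0 ≤ 1 - B3 + m13_1) ∧ (0 ≤ -1 + B3 - m13_1)) := by
    have h := C.f13_2
    clear C e0 e1 e2 e3 s1 s2 s3
    omega
  have d3 : ((0 ≤ 0 - m13_1 + m13_2 - n2) ∧ (0 ≤ 0 + m13_1 - m13_2 + n2)) ∨ ((0 ≤ 1 - B3 + m13_2) ∧ (0 ≤ -1 + B3 - m13_2)) := by
    have h := C.f13_5
    clear C e0 e1 e2 e3 s1 s2 s3
    omega
  have d8 : ((0 ≤ 0 - m23_1 + m23_2 - n2) ∧ (0 ≤ 0 + m23_1 - m23_2 + n2)) ∨ ((0 ≤ 1 - A2 + m23_2) ∧ (0 ≤ -1 + A2 - m23_2)) ∨ ((0 ≤ 1 - B3 + m23_2) ∧ (0 ≤ -1 + B3 - m23_2)) := by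
    have h := C.f23_7
    clear C e0 e1 e2 e3 s1 s2 s3
    omega
  have d14 : ((0 ≤ 0 - B1)) ∨ ((0 ≤ 0 - A1)) ∨ ((0 ≤ 0 - B3)) ∨ ((0 ≤ -1 + 2 * B1 - m11_1 - m13_1)) ∨ ((0 ≤ -1 + 2 * B2 - m11_2 - m13_2)) ∨ ((0 ≤ -1 + 2 * B3 - m11_3 - m13_3)) := by
    have h := C.p11_13B
    clear C e0 e1 e2 e3 s1 s2 s3
    omega
  have d18 : ((0 ≤ 0 - B1)) ∨ ((0 ≤ 0 - A2)) ∨ ((0 ≤ 0 - B3)) ∨ ((0 ≤ -1 + 2 * B1 - m11_1 - m23_1)) ∨ ((0 ≤ -1 + 2 * B2 - m11_2 - m23_2)) ∨ ((0 ≤ -1 + 2 * B3 - m11_3 - m23_3)) := by
    have h := C.p11_23B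
    clear C e0 e1 e2 e3 s1 s2 s3
    omega
  have d36 : ((0 ≤ 0 + A1 - A2)) ∨ ((0 ≤ 1 - A2 + A3 - n3)) ∨ ((0 ≤ 0 - B1 + B2 - n2)) ∨ ((0 ≤ 1 + B2 - B3)) ∨ ((0 ≤ -1 + A2 - B2) ∧ (0 ≤ 1 + A3 - B3)) := by
    have h := C.tzpm
    clear C e0 e1 e2 e3 s1 s2 s3
    omega
  rcases d2 with ⟨g1, g2⟩ | ⟨g3, g4⟩
  · rcases d14 with g5 | g6 | g7 | g8 | g9 | g10
    · linarith only [g5, e0]
    · linarith only [g6, e1]
    · linarith only [g7, e2]
    · rcases d18 with g11 | g12 | g13 | g14 | g15 | g16
      · linarith only [g11, e0]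
      · linarith only [g12, e3]
      · linarith only [g13, e2]
      · linarith only [g14, s1, C.f11_0, g8]
      · rcases d36 with g17 | g18 | g19 | g20 | ⟨g21, g22⟩
        · linarith only [s1, g17, C.f11_0, g1, C.f23_1, g8]
        · linarith only [C.f13_7, s3, g18, C.o1, C.o2, C.f11_2, C.f23_8, g15]
        · linarith only [s2, g19, C.f11_0, C.f13_3, g8, g15]
        · linarith only [g20, s2, C.f13_4, g15]
        · rcases d8 with ⟨g23, g24⟩ | ⟨g25, g26⟩ | ⟨g27, g28⟩
          · linarith only [s2, s1, C.f11_0, C.f11_1, C.f13_3, g23, g8, g15]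
          · linarith only [g21, s2, C.f11_0, C.f11_1, C.f13_3, g25, g8, g15]
          · linarith only [g27, s2, C.f11_0, C.f11_1, C.f13_3, C.f13_4, g8, g15]
      · linarith only [g16, s3, C.f13_7]
    · rcases d3 with ⟨g29, g30⟩ | ⟨g31, g32⟩
      · linarith only [C.b3, s2, C.a3, C.f11_0, C.f11_1, g1, g29, C.f23_5, g9]
      · linarith only [g31, s2, C.a4, C.b3, C.o2, C.f11_0, C.f11_1, C.f23_5, g9]
    · linarith only [g10, s3, C.f23_9]
  · linarith only [C.a2, C.a4, C.o2, C.f13_0, g3]


end Pool.Agent.Helper6.TQ
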