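import Pool.Agent.Helper89.TQ.Ctx

/-! TQ (helper89): hard integer lemmas, generated by a search for case distinctions. -/

set_option autoImplicit false
set_option linter.all false
set_option maxHeartbeats 4000000

namespace Pool.Agent.Helper6.TQ

open Pool.Agent.Helper89.TQ

theorem c0_11_11_33_k0 {n1 n2 n3 A1 A2 A3 B1 B2 B3 m11_1 m11_2 m11_3 m13_1 m13_2 m13_3 m22_1 m22_2 m22_3 m23_1 m23_2 m23_3 m33_1 m33_2 m33_3 : ℤ}
    (C : Ctx0 n1 n2 n3 A1 A2 A3 B1 B2 B3 m11_1 m11_2 m11_3 m13_1 m13_2 m13_3 m22_1 m22_2 m22_3 m23_1 m23_2 m23_3 m33_1 m33_2 m33_3)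
    (e0 : 0 < B1)
    (e1 : 0 < A3)
    (s1 : 0 * A1 + 3 * B1 ≤ m11_1 + m11_1 + m33_1)
    (s2 : 0 * A2 + 3 * B2 ≤ m11_2 + m11_2 + m33_2)
    (s3 : 0 * A3 + 3 * B3 ≤ m11_3 + m11_3 + m33_3) : False := by
  have d0 : ((0 ≤ -1 + A1) ∧ (0 ≤ -1 + A1 - A2 + n2)) ∨ ((0 ≤ -1 + B1) ∧ (0 ≤ -1 + B1 - B2 + n2)) := by
    have h := C.t12
    clear C e0 e1 s1 s2 s3
    omega
  have d1 : ((0 ≤ -1 - A1 + A2) ∧ (0 ≤ -1 + A2 - A3 + n3)) ∨ ((0 ≤ -1 - B1 + B2) ∧ (0 ≤ -1 + B2 - B3 + n3)) := by
    have h := C.t23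
    clear C e0 e1 s1 s2 s3
    omega
  have d2 : ((0 ≤ 0 + m22_1 - n1) ∧ (0 ≤ 0 - m22_1 + n1)) ∨ ((0 ≤ 1 - B2 + m22_1) ∧ (0 ≤ -1 + B2 - m22_1)) := by
    have h := C.f22_2
    clear C e0 e1 s1 s2 s3
    omega
  have d3 : ((0 ≤ 0 - m22_1 + m22_2 - n2) ∧ (0 ≤ 0 + m22_1 - m22_2 + n2)) ∨ ((0 ≤ 1 - B2 + m22_2) ∧ (0 ≤ -1 + B2 - m22_2)) := by
    have h := C.f22_5
    clear C e0 e1 s1 s2 s3
    omega
  have d4 : ((0 ≤ 0 + m23_1 - n1) ∧ (0 ≤ 0 - m23_1 + n1)) ∨ ((0 ≤ 1 - A2 + m23_1) ∧ (0 ≤ -1 + A2 - m23_1)) ∨ ((0 ≤ 1 - B3 + m23_1) ∧ (0 ≤ -1 + B3 - m23_1)) := by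
    have h := C.f23_3
    clear C e0 e1 s1 s2 s3
    omega
  have d5 : ((0 ≤ 0 - m23_1 + m23_2 - n2) ∧ (0 ≤ 0 + m23_1 - m23_2 + n2)) ∨ ((0 ≤ 1 - A2 + m23_2) ∧ (0 ≤ -1 + A2 - m23_2)) ∨ ((0 ≤ 1 - B3 + m23_2) ∧ (0 ≤ -1 + B3 - m23_2)) := by
    have h := C.f23_7
    clear C e0 e1 s1 s2 s3
    omega
  have d6 : ((0 ≤ 0 - m23_2 + m23_3 - n3) ∧ (0 ≤ 0 + m23_2 - m23_3 + n3)) ∨ ((0 ≤ 1 - B3 + m23_3) ∧ (0 ≤ -1 + B3 - m23_3)) := by
    have h := C.f23_10
    clear C e0 e1 s1 s2 s3
    omega
  have d8 : ((0 ≤ 0 - m33_1 + m33_2 - n2) ∧ (0 ≤ 0 + m33_1 - m33_2 + n2)) ∨ ((0 ≤ 1 - A3 + m33_2) ∧ (0 ≤ -1 + A3 - m33_2)) := by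
    have h := C.f33_5
    clear C e0 e1 s1 s2 s3
    omega
  have d9 : ((0 ≤ 0 - m33_2 + m33_3 - n3) ∧ (0 ≤ 0 + m33_2 - m33_3 + n3)) ∨ ((0 ≤ 1 - A3 + m33_3) ∧ (0 ≤ -1 + A3 - m33_3)) := by
    have h := C.f33_8
    clear C e0 e1 s1 s2 s3
    omega
  have d11 : ((0 ≤ 0 - B1)) ∨ ((0 ≤ 0 - A2)) ∨ ((0 ≤ 0 - B3)) ∨ ((0 ≤ -1 + 2 * B1 - m11_1 - m23_1)) ∨ ((0 ≤ -1 + 2 * B2 - m11_2 - m23_2)) ∨ ((0 ≤ -1 + 2 * B3 - m11_3 - m23_3)) := by
    have h := C.p11_23B
    clear C e0 e1 s1 s2 s3
    omega
  have d13 : ((0 ≤ 0 - B1)) ∨ ((0 ≤ 0 - A3)) ∨ ((0 ≤ -1 + 2 * B1 - m11_1 - m33_1)) ∨ ((0 ≤ -1 + 2 * B2 - m11_2 - m33_2)) ∨ ((0 ≤ -1 + 2 * B3 - m11_3 - m33_3)) := by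
    have h := C.p11_33B
    clear C e0 e1 s1 s2 s3
    omega
  have d14 : ((0 ≤ 0 - B2)) ∨ ((0 ≤ 0 - A3)) ∨ ((0 ≤ -1 + 2 * A1 - m22_1 - m33_1)) ∨ ((0 ≤ -1 + 2 * A2 - m22_2 - m33_2)) ∨ ((0 ≤ -1 + 2 * A3 - m22_3 - m33_3)) := by
    have h := C.p22_33A
    clear C e0 e1 s1 s2 s3
    omega
  have d16 : ((0 ≤ 0 - A1 + A2 - n2)) ∨ ((0 ≤ 1 + A2 - A3)) ∨ ((0 ≤ 0 + B1 - B2)) ∨ ((0 ≤ 1 - B2 + B3 - n3)) := by
    have h := C.tzmp
    clear C e0 e1 s1 s2 s3
    omega
  have d17 : ((0 ≤ 0 + A1 - A2)) ∨ ((0 ≤ 1 - A2 + A3 - n3)) ∨ ((0 ≤ 0 - B1 + B2 - n2)) ∨ ((0 ≤ 1 + B2 - B3)) ∨ ((0 ≤ -1 + A2 - B2) ∧ (0 ≤ 1 + A3 - B3)) := by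
    have h := C.tzpm
    clear C e0 e1 s1 s2 s3
    omega
  have d18 : ((0 ≤ 0 - A1)) ∨ ((0 ≤ 1 - A1 + A2 - n2)) ∨ ((0 ≤ 0 + A2 - A3)) ∨ ((0 ≤ 0 + B1 - n1)) ∨ ((0 ≤ 1 + B1 - B2)) ∨ ((0 ≤ 0 - B2 + B3 - n3)) := by
    have h := C.tpmz
    clear C e0 e1 s1 s2 s3
    omega
  rcases d13 with g1 | g2 | g3 | g4 | g5
  · linarith only [g1, e0]
  · linarith only [g2, e1]
  · linarith only [g3, s1, C.f11_0]
  · rcases d8 with ⟨g6, g7⟩ | ⟨g8, g9⟩
    · linarith only [s2, s1, C.f11_0, C.f11_1, g6, g4]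
    · linarith only [g8, s2, C.a4, C.o1, g4]
  · rcases d4 with ⟨g10, g11⟩ | ⟨g12, g13⟩ | ⟨g14, g15⟩
    · rcases d5 with ⟨g16, g17⟩ | ⟨g18, g19⟩ | ⟨g20, g21⟩
      · linarith only [C.a1, C.a3, g10, g16, C.f23_5]
      · rcases d11 with g22 | g23 | g24 | g25 | g26 | g27
        · linarith only [g22, e0]
        · linarith only [g23, e0, s1, C.f11_0, g10, C.f23_1, C.f33_0]
        · linarith only [g24, e0, s1, C.a4, C.o2, C.f11_0, g10, C.f23_1, C.f33_0]
        · linarith only [g25, s1, C.f11_0, g10, C.f33_0]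
        · rcases d18 with g28 | g29 | g30 | g31 | g32 | g33
          · linarith only [C.o0, e0, g28]
          · rcases d16 with g34 | g35 | g36 | g37
            · rcases d0 with ⟨g38, g39⟩ | ⟨g40, g41⟩
              · linarith only [g39, g34]
              · linarith only [g26, g34, g41, C.o0, C.f11_0, C.f11_1, g18]
            · linarith only [g29, s2, g35, C.o0, C.f11_0, C.f11_1, g18, C.f33_4, g26]
            · linarith only [C.a1, s1, C.a3, g36, C.f11_0, C.f11_1, g10, C.f23_1, g18, C.f33_0, g26]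
            · linarith only [C.f33_7, s3, g29, g37, C.o0, C.o2, C.f11_0, C.f11_1, C.f11_2, g18, g26]
          · linarith only [C.o1, s2, g30, g18, C.f33_4, g26]
          · linarith only [g31, s1, C.f11_0, C.f33_0]
          · linarith only [C.a1, s1, C.a3, g32, C.f11_0, C.f11_1, g10, C.f23_1, g18, C.f33_0, g26]
          · linarith only [C.o1, s3, g33, C.o2, C.f11_2, g18, C.f33_7, g26]
        · rcases d6 with ⟨g42, g43⟩ | ⟨g44, g45⟩
          · linarith only [C.b5, s3, C.o1, C.o2, g18, g42, C.f33_7, g27]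
          · linarith only [g44, s3, C.o2, C.f33_7, g27]
      · linarith only [C.a4, C.o2, C.f23_5, g20]
    · rcases d5 with ⟨g46, g47⟩ | ⟨g48, g49⟩ | ⟨g50, g51⟩
      · rcases d0 with ⟨g52, g53⟩ | ⟨g54, g55⟩
        · linarith only [g53, C.a2, g12, g46, C.f23_5]
        · linarith only [C.b2, g55, g12, g46, C.f23_5]
      · rcases d0 with ⟨g56, g57⟩ | ⟨g58, g59⟩
        · rcases d1 with ⟨g60, g61⟩ | ⟨g62, g63⟩
          · rcases d11 with g64 | g65 | g66 | g67 | g68 | g69
            · linarith only [g64, e0]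
            · linarith only [g60, e0, C.o0, g65]
            · linarith only [g66, e0, s1, C.o2, C.f11_0, C.f33_1]
            · linarith only [g67, g60, C.o0, C.f11_0, g12]
            · rcases d18 with g70 | g71 | g72 | g73 | g74 | g75
              · linarith only [g70, g56]
              · rcases d16 with g76 | g77 | g78 | g79
                · linarith only [g76, g57]
                · linarith only [C.o0, s2, g71, g77, C.f11_0, C.f11_1, g48, C.f33_4, g68]
                · linarith only [C.o0, g60, g57, g78, C.f11_0, C.f11_1, g48, g68]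
                · linarith only [C.f33_7, s3, g71, g79, C.o0, C.o2, C.f11_0, C.f11_1, C.f11_2, g48, g68]
              · linarith only [C.o1, s2, g72, g48, C.f33_4, g68]
              · linarith only [g73, s1, C.f11_0, C.f33_0]
              · linarith only [g57, g60, g74, C.o0, C.f11_0, C.f11_1, g48, g68]
              · linarith only [C.o1, s3, g61, g75, C.f11_2, g48, C.f33_7, g68]
            · rcases d6 with ⟨g80, g81⟩ | ⟨g82, g83⟩
              · linarith only [C.b5, s3, g61, C.o1, g48, g80, C.f33_7, g69]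
              · linarith only [C.o2, s3, g82, C.f33_7, g69]
          · rcases d6 with ⟨g84, g85⟩ | ⟨g86, g87⟩
            · linarith only [C.f23_9, g63, C.o1, g48, g84]
            · rcases d11 with g88 | g89 | g90 | g91 | g92 | g93
              · linarith only [g88, e0]
              · linarith only [C.a2, e0, C.o0, g89]
              · linarith only [g90, e0, s1, C.o2, C.f11_0, C.f33_1]
              · rcases d16 with g94 | g95 | g96 | g97
                · linarith only [g94, g57]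
                · linarith only [g95, s1, C.f11_0, g12, C.f33_1, g91]
                · linarith only [g96, g62]
                · rcases d18 with g98 | g99 | g100 | g101 | g102 | g103
                  · linarith only [g98, g56]
                  · linarith only [C.o0, s3, g99, g62, g97, C.o2, C.f11_1, C.f11_2, g12, C.f33_7, g91]
                  · linarith only [g100, s1, C.f11_0, g12, C.f33_1, g91]
                  · linarith only [g101, s1, C.f11_0, C.f33_0]
                  · rcases d2 with ⟨g104, g105⟩ | ⟨g106, g107⟩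
                    · linarith only [C.f22_1, s1, g102, C.f11_0, g104, C.f33_0]
                    · rcases d3 with ⟨g108, g109⟩ | ⟨g110, g111⟩
                      · linarith only [g57, C.a2, g106, g108, C.f22_4]
                      · rcases d14 with g112 | g113 | g114 | g115 | g116
                        · linarith only [g112, e0, g62]
                        · linarith only [g113, e1]
                        · linarith only [g114, s1, C.a2, g62, g106, g12, g91]
                        · rcases d8 with ⟨g117, g118⟩ | ⟨g119, g120⟩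
                          · linarith only [s2, s1, g62, C.f11_1, g110, g12, g117, g91, g115]
                          · linarith only [C.f33_1, s1, g62, g110, g12, g119, g91, g115]
                        · rcases d9 with ⟨g121, g122⟩ | ⟨g123, g124⟩
                          · rcases d8 with ⟨g125, g126⟩ | ⟨g127, g128⟩
                            · linarith only [s1, s2, g63, C.o2, C.f11_0, C.f11_1, g125, g121, C.f33_7]
                            · linarith only [C.b4, g63, g127, g121, C.f33_7]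
                          · linarith only [g116, g63, C.o2, g110, C.f22_6, g123]
                  · linarith only [g103, g63]
              · rcases d9 with ⟨g129, g130⟩ | ⟨g131, g132⟩
                · linarith only [C.o1, s2, g63, C.o2, g48, g129, C.f33_7, g92]
                · rcases d18 with g133 | g134 | g135 | g136 | g137 | g138
                  · linarith only [g133, g56]
                  · rcases d16 with g139 | g140 | g141 | g142
                    · linarith only [g139, g57]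
                    · linarith only [C.o0, s2, g134, g140, C.f11_0, C.f11_1, g48, C.f33_4, g92]
                    · linarith only [g141, g62]
                    · linarith only [g142, s3, g134, C.o0, C.o2, C.f11_0, C.f11_1, C.f11_2, g48, g132, g92]
                  · linarith only [C.o1, s2, g135, g48, C.f33_4, g92]
                  · linarith only [g136, s1, C.f11_0, C.f33_0]
                  · rcases d16 with g143 | g144 | g145 | g146
                    · linarith only [g143, g57]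
                    · linarith only [C.f33_1, s1, s2, g144, g137, C.f11_0, g48, C.f33_4, g92]
                    · linarith only [g145, g62]
                    · rcases d2 with ⟨g147, g148⟩ | ⟨g149, g150⟩
                      · linarith only [C.f22_1, s1, g137, C.f11_0, g147, C.f33_0]
                      · rcases d3 with ⟨g151, g152⟩ | ⟨g153, g154⟩
                        · linarith only [C.f22_4, s3, g62, g146, C.o2, C.f11_0, C.f11_1, C.f11_2, g149, g151, g132]
                        · rcases d14 with g155 | g156 | g157 | g158 | g159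
                          · linarith only [g155, e0, g62]
                          · linarith only [g156, e1]
                          · linarith only [g157, s1, s3, C.a2, g137, g146, C.o2, C.f11_0, C.f11_2, g149, g48, g132, g92]
                          · rcases d8 with ⟨g160, g161⟩ | ⟨g162, g163⟩
                            · linarith only [g160, s1, s3, g146, C.o2, C.f11_0, C.f11_1, C.f11_2, g153, g48, g132, g92, g158]
                            · linarith only [g162, s1, s3, g137, g146, C.o2, C.f11_0, C.f11_2, g153, g48, C.f33_1, g132, g92, g158]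
                          · linarith only [g159, g63, C.o2, g153, C.f22_6, g131]
                  · linarith only [g138, g63]
              · linarith only [g93, s3, g86, g5]
        · rcases d1 with ⟨g164, g165⟩ | ⟨g166, g167⟩
          · rcases d11 with g168 | g169 | g170 | g171 | g172 | g173
            · linarith only [g168, g58]
            · linarith only [g169, g58, g164, C.o0]
            · linarith only [g170, g58, s1, C.o2, C.f11_0, C.f33_1]
            · linarith only [g171, g164, C.o0, C.f11_0, g12]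
            · rcases d17 with g174 | g175 | g176 | g177 | ⟨g178, g179⟩
              · linarith only [g174, g164]
              · linarith only [C.f33_7, s3, g175, C.o1, C.o2, C.f11_2, g48, g172]
              · linarith only [g176, g59]
              · linarith only [g177, s2, C.o1, C.o2, g48, C.f33_4, g172]
              · linarith only [g59, g178, C.f11_0, C.f11_1, g48, g172]
            · rcases d6 with ⟨g180, g181⟩ | ⟨g182, g183⟩
              · linarith only [C.b5, s3, g165, C.o1, g48, g180, C.f33_7, g173]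
              · linarith only [C.o2, s3, g182, C.f33_7, g173]
          · rcases d6 with ⟨g184, g185⟩ | ⟨g186, g187⟩
            · linarith only [C.f23_9, g167, C.o1, g48, g184]
            · rcases d11 with g188 | g189 | g190 | g191 | g192 | g193
              · linarith only [g188, g58]
              · linarith only [g189, g58, C.a2, C.o0]
              · linarith only [g190, g58, s1, C.o2, C.f11_0, C.f33_1]
              · rcases d18 with g194 | g195 | g196 | g197 | g198 | g199
                · linarith only [g194, g58, C.o0]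
                · linarith only [g59, g195, g166, C.o0, C.f11_0, g12, g191]
                · linarith only [g196, s1, C.f11_0, g12, C.f33_1, g191]
                · linarith only [g197, s1, C.f11_0, C.f33_0]
                · rcases d2 with ⟨g200, g201⟩ | ⟨g202, g203⟩
                  · linarith only [C.f22_1, s1, g198, C.f11_0, g200, C.f33_0]
                  · rcases d3 with ⟨g204, g205⟩ | ⟨g206, g207⟩
                    · linarith only [g59, g166, g202, g204, C.f22_4]
                    · rcases d14 with g208 | g209 | g210 | g211 | g212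
                      · linarith only [g208, g58, g166]
                      · linarith only [g209, e1]
                      · linarith only [g210, s1, C.a2, g166, g202, g12, g191]
                      · rcases d8 with ⟨g213, g214⟩ | ⟨g215, g216⟩
                        · linarith only [s2, s1, g166, C.f11_1, g206, g12, g213, g191, g211]
                        · linarith only [C.f33_1, s1, g166, g206, g12, g215, g191, g211]
                      · rcases d9 with ⟨g217, g218⟩ | ⟨g219, g220⟩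
                        · rcases d8 with ⟨g221, g222⟩ | ⟨g223, g224⟩
                          · linarith only [C.f33_7, s1, g59, g167, C.o2, C.f11_0, g221, g217]
                          · linarith only [C.b4, g167, g223, g217, C.f33_7]
                        · linarith only [g212, g167, C.o2, g206, C.f22_6, g219]
                · linarith only [g199, g167]
              · rcases d18 with g225 | g226 | g227 | g228 | g229 | g230
                · linarith only [g225, g58, C.o0]
                · linarith only [g226, g59, C.o0, C.f11_0, C.f11_1, g48, g192]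
                · linarith only [C.o1, s2, g227, g48, C.f33_4, g192]
                · linarith only [g228, s1, C.f11_0, C.f33_0]
                · rcases d17 with g231 | g232 | g233 | g234 | ⟨g235, g236⟩
                  · rcases d16 with g237 | g238 | g239 | g240
                    · linarith only [g237, g231, g166, g59]
                    · linarith only [g238, s1, g229, g59, C.f11_0, C.f11_1, g48, C.f33_1, g192]
                    · linarith only [g239, g166]
                    · rcases d2 with ⟨g241, g242⟩ | ⟨g243, g244⟩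
                      · linarith only [C.f22_1, s1, g229, C.f11_0, g241, C.f33_0]
                      · rcases d3 with ⟨g245, g246⟩ | ⟨g247, g248⟩
                        · linarith only [C.f22_4, s3, g166, g240, C.o2, C.f11_0, C.f11_1, C.f11_2, g243, g245, C.f33_7]
                        · rcases d14 with g249 | g250 | g251 | g252 | g253
                          · linarith only [g249, g58, g166]
                          · linarith only [g250, e1]
                          · linarith only [g251, s1, s3, C.a2, g229, g240, C.o2, C.f11_0, C.f11_2, g243, g48, C.f33_7, g192]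
                          · rcases d8 with ⟨g254, g255⟩ | ⟨g256, g257⟩
                            · linarith only [g252, s1, g59, C.f11_1, g247, g48, g254, g192]
                            · linarith only [C.f33_1, s1, g229, g59, C.f11_1, g247, g48, g256, g192, g252]
                          · linarith only [C.o0, s3, C.a2, g229, g240, C.o2, C.f11_2, g247, C.f22_6, g48, g192, g253]
                  · linarith only [g232, C.a2, g229, g167, C.o0, C.o2]
                  · linarith only [g233, g59]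
                  · linarith only [g234, s1, g229, C.o2, C.f11_0, C.f33_1]
                  · linarith only [g59, g235, C.f11_0, C.f11_1, g48, g192]
                · linarith only [g230, g167]
              · linarith only [s3, C.o2, g186, C.f33_7, g193]
      · linarith only [C.a4, C.o2, C.f23_5, g50]
    · linarith only [C.f23_1, C.a4, C.o2, g14]


theorem c0_13_22_33_k2 {n1 n2 n3 A1 A2 A3 B1 B2 B3 m11_1 m11_2 m11_3 m13_1 m13_2 m13_3 m22_1 m22_2 m22_3 m23_1 m23_2 m23_3 m33_1 m33_2 m33_3 : ℤ}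
    (C : Ctx0 n1 n2 n3 A1 A2 A3 B1 B2 B3 m11_1 m11_2 m11_3 m13_1 m13_2 m13_3 m22_1 m22_2 m22_3 m23_1 m23_2 m23_3 m33_1 m33_2 m33_3)
    (e0 : 0 < A1)
    (e1 : 0 < B3)
    (e2 : 0 < B2)
    (e3 : 0 < A3)
    (s1 : 2 * A1 + 1 * B1 ≤ m13_1 + m22_1 + m33_1)
    (s2 : 2 * A2 + 1 * B2 ≤ m13_2 + m22_2 + m33_2)
    (s3 : 2 * A3 + 1 * B3 ≤ m13_3 + m22_3 + m33_3) : False := by
  have d0 : ((0 ≤ -1 + A1) ∧ (0 ≤ -1 + A1 - A2 + n2)) ∨ ((0 ≤ -1 + B1) ∧ (0 ≤ -1 + B1 - B2 + n2)) := by
    have h := C.t12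
    clear C e0 e1 e2 e3 s1 s2 s3
    omega
  have d1 : ((0 ≤ -1 - A1 + A2) ∧ (0 ≤ -1 + A2 - A3 + n3)) ∨ ((0 ≤ -1 - B1 + B2) ∧ (0 ≤ -1 + B2 - B3 + n3)) := by
    have h := C.t23
    clear C e0 e1 e2 e3 s1 s2 s3
    omega
  have d2 : ((0 ≤ 1 - A1 + m13_1) ∧ (0 ≤ -1 + A1 - m13_1)) ∨ ((0 ≤ 1 - B3 + m13_1) ∧ (0 ≤ -1 + B3 - m13_1)) := by
    have h := C.f13_2
    clear C e0 e1 e2 e3 s1 s2 s3
    omega
  have d3 : ((0 ≤ 0 - m13_1 + m13_2 - n2) ∧ (0 ≤ 0 + m13_1 - m13_2 + n2)) ∨ ((0 ≤ 1 - B3 + m13_2) ∧ (0 ≤ -1 + B3 - m13_2)) := by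
    have h := C.f13_5
    clear C e0 e1 e2 e3 s1 s2 s3
    omega
  have d4 : ((0 ≤ 0 - m13_2 + m13_3 - n3) ∧ (0 ≤ 0 + m13_2 - m13_3 + n3)) ∨ ((0 ≤ 1 - B3 + m13_3) ∧ (0 ≤ -1 + B3 - m13_3)) := by
    have h := C.f13_8
    clear C e0 e1 e2 e3 s1 s2 s3
    omega
  have d5 : ((0 ≤ 0 + m22_1 - n1) ∧ (0 ≤ 0 - m22_1 + n1)) ∨ ((0 ≤ 1 - B2 + m22_1) ∧ (0 ≤ -1 + B2 - m22_1)) := by
    have h := C.f22_2
    clear C e0 e1 e2 e3 s1 s2 s3
    omega
  have d6 : ((0 ≤ 0 - m22_1 + m22_2 - n2) ∧ (0 ≤ 0 + m22_1 - m22_2 + n2)) ∨ ((0 ≤ 1 - B2 + m22_2) ∧ (0 ≤ -1 + B2 - m22_2)) := by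
    have h := C.f22_5
    clear C e0 e1 e2 e3 s1 s2 s3
    omega
  have d9 : ((0 ≤ 0 - m33_2 + m33_3 - n3) ∧ (0 ≤ 0 + m33_2 - m33_3 + n3)) ∨ ((0 ≤ 1 - A3 + m33_3) ∧ (0 ≤ -1 + A3 - m33_3)) := by
    have h := C.f33_8
    clear C e0 e1 e2 e3 s1 s2 s3
    omega
  have d10 : ((0 ≤ 0 - A1)) ∨ ((0 ≤ 0 - B3)) ∨ ((0 ≤ 0 - B2)) ∨ ((0 ≤ -1 + 2 * B1 - m13_1 - m22_1)) ∨ ((0 ≤ -1 + 2 * B2 - m13_2 - m22_2)) ∨ ((0 ≤ -1 + 2 * B3 - m13_3 - m22_3)) := by
    have h := C.p13_22B
    clear C e0 e1 e2 e3 s1 s2 s3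
    omega
  have d11 : ((0 ≤ 0 - A1)) ∨ ((0 ≤ 0 - B3)) ∨ ((0 ≤ 0 - A3)) ∨ ((0 ≤ -1 + 2 * A1 - m13_1 - m33_1)) ∨ ((0 ≤ -1 + 2 * A2 - m13_2 - m33_2)) ∨ ((0 ≤ -1 + 2 * A3 - m13_3 - m33_3)) := by
    have h := C.p13_33A
    clear C e0 e1 e2 e3 s1 s2 s3
    omega
  have d12 : ((0 ≤ 0 - B2)) ∨ ((0 ≤ 0 - A3)) ∨ ((0 ≤ -1 + 2 * A1 - m22_1 - m33_1)) ∨ ((0 ≤ -1 + 2 * A2 - m22_2 - m33_2)) ∨ ((0 ≤ -1 + 2 * A3 - m22_3 - m33_3)) := by
    have h := C.p22_33A
    clear C e0 e1 e2 e3 s1 s2 s3
    omega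
  have d13 : ((0 ≤ 0 + A1 - n1)) ∨ ((0 ≤ 0 + A1 - A2)) ∨ ((0 ≤ 0 + A2 - A3)) ∨ ((0 ≤ 0 - B1)) ∨ ((0 ≤ 0 - B1 + B2 - n2)) ∨ ((0 ≤ 0 - B2 + B3 - n3)) := by
    have h := C.tmzp
    clear C e0 e1 e2 e3 s1 s2 s3
    omega
  have d14 : ((0 ≤ 0 - A1)) ∨ ((0 ≤ 1 - A1 + A2 - n2)) ∨ ((0 ≤ 0 + B1 - n1)) ∨ ((0 ≤ 1 + B1 - B2)) ∨ ((0 ≤ 1 + A3 - B3)) := by
    have h := C.tpmm
    clear C e0 e1 e2 e3 s1 s2 s3
    omega
  have d15 : ((0 ≤ 0 - A1)) ∨ ((0 ≤ 0 - A1 + A2 - n2)) ∨ ((0 ≤ 0 - A2 + A3 - n3)) ∨ ((0 ≤ 0 + B1 - n1)) ∨ ((0 ≤ 0 + B1 - B2)) ∨ ((0 ≤ 0 + B2 - B3)) ∨ ((0 ≤ 1 + A3 - B3)) ∨ ((0 ≤ 1 - A1 + B1) ∧ (0 ≤ 0 - A2 + B2)) := by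
    have h := C.tpzm
    clear C e0 e1 e2 e3 s1 s2 s3
    omega
  rcases d2 with ⟨g1, g2⟩ | ⟨g3, g4⟩
  · rcases d11 with g5 | g6 | g7 | g8 | g9 | g10
    · linarith only [g5, e0]
    · linarith only [g6, e1]
    · linarith only [g7, e3]
    · rcases d6 with ⟨g11, g12⟩ | ⟨g13, g14⟩
      · linarith only [C.b3, s1, g11, C.f22_4, g8]
      · rcases d15 with g15 | g16 | g17 | g18 | g19 | g20 | g21 | ⟨g22, g23⟩
        · linarith only [g15, e0]
        · linarith only [C.f33_3, s2, g16, C.f13_3, g14, g8]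
        · linarith only [C.o1, s3, g17, C.f13_7, g14, C.f22_6, C.f33_7]
        · linarith only [g18, C.a1, C.o0]
        · linarith only [s1, g19, C.f22_1, g8]
        · linarith only [C.a4, g20, C.o1, C.o2]
        · rcases d10 with g24 | g25 | g26 | g27 | g28 | g29
          · linarith only [g24, e0]
          · linarith only [g25, e1]
          · linarith only [g26, e2]
          · linarith only [g27, s1, C.o0, g1, g8]
          · rcases d12 with g30 | g31 | g32 | g33 | g34
            · linarith only [g30, e2]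
            · linarith only [g31, e3]
            · rcases d3 with ⟨g35, g36⟩ | ⟨g37, g38⟩
              · linarith only [C.b3, s1, g35, g13, g28, g32]
              · linarith only [C.o1, s2, C.o2, g37, g13, C.f33_4, g28]
            · linarith only [g33, s2, g13, g28]
            · linarith only [g34, s3, C.f13_7]
          · linarith only [g29, s3, g21, C.f33_7]
        · rcases d12 with g39 | g40 | g41 | g42 | g43
          · linarith only [g39, e2]
          · linarith only [g40, e3]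
          · linarith only [g41, s1, g22, g2]
          · rcases d10 with g44 | g45 | g46 | g47 | g48 | g49
            · linarith only [g44, e0]
            · linarith only [g45, e1]
            · linarith only [g46, e2]
            · linarith only [g8, s1, C.o0, g1, g47]
            · linarith only [g42, s2, g13, g48]
            · rcases d14 with g50 | g51 | g52 | g53 | g54
              · linarith only [g50, e0]
              · linarith only [g51, s2, g23, g2, C.f13_3, g42]
              · linarith only [C.a1, g52, C.o0]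
              · linarith only [g8, s1, g53, C.f22_1]
              · linarith only [g49, s3, g54, C.f33_7]
          · linarith only [g43, s3, C.f13_7]
    · linarith only [g9, s2, C.f22_4]
    · rcases d12 with g55 | g56 | g57 | g58 | g59
      · linarith only [g55, e2]
      · linarith only [g56, e3]
      · rcases d0 with ⟨g60, g61⟩ | ⟨g62, g63⟩
        · rcases d15 with g64 | g65 | g66 | g67 | g68 | g69 | g70 | ⟨g71, g72⟩
          · linarith only [g64, g60]
          · linarith only [g65, g61]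
          · linarith only [C.o1, s3, g66, C.o2, C.f22_4, C.f22_6, g10]
          · linarith only [C.a1, s1, g67, g2, g57]
          · rcases d1 with ⟨g73, g74⟩ | ⟨g75, g76⟩
            · rcases d13 with g77 | g78 | g79 | g80 | g81 | g82
              · linarith only [C.f22_1, s1, g77, g68, g2, C.f33_0]
              · linarith only [g78, g73]
              · rcases d4 with ⟨g83, g84⟩ | ⟨g85, g86⟩
                · linarith only [C.f13_7, s1, s2, s3, g79, g68, g2, g83, C.f22_1, C.f22_4, C.f22_6, C.f33_1, C.f33_4, g10, g57]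
                · rcases d9 with ⟨g87, g88⟩ | ⟨g89, g90⟩
                  · linarith only [g87, s1, s2, s3, g79, g68, g2, C.f13_4, g85, C.f22_1, C.f22_4, C.f22_6, C.f33_1, C.f33_4, g10, g57]
                  · linarith only [g89, s2, g79, C.f13_4, g85, C.f22_4, C.f33_4, g10]
              · linarith only [g80, e2, g68]
              · linarith only [g61, g73, g68, g81]
              · linarith only [g82, s3, C.f22_4, C.f22_6, g10]
            · linarith only [g75, g68]
          · linarith only [C.a4, g69, C.o1, C.o2]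
          · rcases d10 with g91 | g92 | g93 | g94 | g95 | g96
            · linarith only [g91, g60]
            · linarith only [g92, e1]
            · linarith only [g93, e2]
            · rcases d5 with ⟨g97, g98⟩ | ⟨g99, g100⟩
              · linarith only [s1, g2, g97, C.f33_0, g94, g57]
              · linarith only [C.b2, s1, g99, g94, g57]
            · rcases d1 with ⟨g101, g102⟩ | ⟨g103, g104⟩
              · rcases d3 with ⟨g105, g106⟩ | ⟨g107, g108⟩
                · rcases d6 with ⟨g109, g110⟩ | ⟨g111, g112⟩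
                  · rcases d5 with ⟨g113, g114⟩ | ⟨g115, g116⟩
                    · linarith only [C.b3, s1, C.a1, g2, g105, g113, g109, g95, g57]
                    · linarith only [g115, s1, g101, g61, C.b3, g105, g109, g95, g57]
                  · linarith only [g111, s1, C.b3, g105, g95, g57]
                · rcases d6 with ⟨g117, g118⟩ | ⟨g119, g120⟩
                  · rcases d5 with ⟨g121, g122⟩ | ⟨g123, g124⟩
                    · linarith only [s1, s2, C.b3, C.o1, C.o2, g2, C.f13_3, g107, g121, g117, C.f33_0, C.f33_4, g95]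
                    · linarith only [g123, s1, s2, C.b3, C.o1, C.o2, g2, C.f13_3, g107, g117, C.f33_1, C.f33_4, g95]
                  · linarith only [g119, s2, C.o1, C.o2, g107, C.f33_4, g95]
              · rcases d3 with ⟨g125, g126⟩ | ⟨g127, g128⟩
                · rcases d6 with ⟨g129, g130⟩ | ⟨g131, g132⟩
                  · rcases d5 with ⟨g133, g134⟩ | ⟨g135, g136⟩
                    · linarith only [g133, s1, C.b3, g2, g125, g129, C.f33_0, g95, g57]
                    · linarith only [g135, s1, g103, C.b3, g125, g129, g95, g57]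
                  · linarith only [g131, s1, C.b3, g125, g95, g57]
                · rcases d6 with ⟨g137, g138⟩ | ⟨g139, g140⟩
                  · rcases d5 with ⟨g141, g142⟩ | ⟨g143, g144⟩
                    · linarith only [s1, s2, C.b3, C.o1, C.o2, g2, C.f13_3, g127, g141, g137, C.f33_0, C.f33_4, g95]
                    · linarith only [g143, s1, s2, C.b3, C.o1, C.o2, g2, C.f13_3, g127, g137, C.f33_1, C.f33_4, g95]
                  · linarith only [g139, s2, C.o1, C.o2, g127, C.f33_4, g95]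
            · linarith only [g96, s3, g70, C.f33_7]
          · linarith only [s1, g71, g2, g57]
        · rcases d1 with ⟨g145, g146⟩ | ⟨g147, g148⟩
          · rcases d13 with g149 | g150 | g151 | g152 | g153 | g154
            · rcases d15 with g155 | g156 | g157 | g158 | g159 | g160 | g161 | ⟨g162, g163⟩
              · linarith only [g155, e0]
              · linarith only [C.f13_3, s2, g149, g156, g2, C.f22_4, C.f33_0, C.f33_3]
              · linarith only [g157, g146]
              · linarith only [g158, s1, C.a1, g2, g57]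
              · linarith only [g159, s1, g149, g2, C.f22_1, C.f33_0]
              · linarith only [C.o1, C.a4, g160, C.o2]
              · rcases d10 with g164 | g165 | g166 | g167 | g168 | g169
                · linarith only [g164, e0]
                · linarith only [g165, e1]
                · linarith only [g166, e2]
                · linarith only [C.f33_0, s1, g149, g2, g167, g57]
                · rcases d6 with ⟨g170, g171⟩ | ⟨g172, g173⟩
                  · linarith only [C.f33_0, s1, g149, g63, g2, g170, C.f22_4]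
                  · rcases d3 with ⟨g174, g175⟩ | ⟨g176, g177⟩
                    · linarith only [g63, s1, g174, g172, g168, g57]
                    · linarith only [C.o1, s2, C.o2, g176, g172, C.f33_4, g168]
                · linarith only [g169, s3, g161, C.f33_7]
              · linarith only [g162, s1, g2, g57]
            · linarith only [g150, g145]
            · rcases d15 with g178 | g179 | g180 | g181 | g182 | g183 | g184 | ⟨g185, g186⟩
              · linarith only [g178, e0]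
              · linarith only [g179, s2, g151, g2, C.f13_3, C.f22_4, C.f33_4]
              · linarith only [g180, g146]
              · linarith only [C.a1, s1, g181, g2, g57]
              · rcases d4 with ⟨g187, g188⟩ | ⟨g189, g190⟩
                · linarith only [C.f13_7, s1, s2, s3, g151, g182, g2, g187, C.f22_1, C.f22_4, C.f22_6, C.f33_1, C.f33_4, g10, g57]
                · rcases d9 with ⟨g191, g192⟩ | ⟨g193, g194⟩
                  · linarith only [g191, s1, s2, s3, g151, g182, g2, C.f13_4, g189, C.f22_1, C.f22_4, C.f22_6, C.f33_1, C.f33_4, g10, g57]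
                  · linarith only [g193, s2, g151, C.f13_4, g189, C.f22_4, C.f33_4, g10]
              · linarith only [C.o1, s2, g151, g183, C.f13_4, C.f22_4, C.f33_4]
              · linarith only [g184, s2, g151, C.f13_4, C.f22_4, C.f33_4]
              · linarith only [g185, s1, g2, g57]
            · linarith only [g152, g62]
            · linarith only [g153, g63]
            · linarith only [s3, g154, C.f22_4, C.f22_6, g10]
          · rcases d15 with g195 | g196 | g197 | g198 | g199 | g200 | g201 | ⟨g202, g203⟩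
            · linarith only [g195, e0]
            · rcases d13 with g204 | g205 | g206 | g207 | g208 | g209
              · linarith only [C.f13_3, s2, g204, g196, g2, C.f22_4, C.f33_0, C.f33_3]
              · linarith only [g147, g205, g196, g63]
              · linarith only [C.f13_3, s2, g196, g206, g2, C.f22_4, C.f33_4]
              · linarith only [g207, g62]
              · linarith only [g208, g63]
              · linarith only [g209, g148]
            · linarith only [C.o1, s3, g197, C.o2, C.f22_4, C.f22_6, g10]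
            · linarith only [C.a1, s1, g198, g2, g57]
            · linarith only [g199, g147]
            · linarith only [C.a4, g200, C.o1, C.o2]
            · rcases d10 with g210 | g211 | g212 | g213 | g214 | g215
              · linarith only [g210, e0]
              · linarith only [g211, e1]
              · linarith only [g212, e2]
              · rcases d5 with ⟨g216, g217⟩ | ⟨g218, g219⟩
                · linarith only [s1, g2, g216, C.f33_0, g213, g57]
                · linarith only [g147, s1, g218, g213, g57]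
              · rcases d13 with g220 | g221 | g222 | g223 | g224 | g225
                · rcases d6 with ⟨g226, g227⟩ | ⟨g228, g229⟩
                  · linarith only [C.f33_0, s1, g220, g63, g2, g226, C.f22_4]
                  · rcases d3 with ⟨g230, g231⟩ | ⟨g232, g233⟩
                    · linarith only [g230, s1, g63, g228, g214, g57]
                    · linarith only [s2, C.o1, C.o2, g232, g228, C.f33_4, g214]
                · rcases d5 with ⟨g234, g235⟩ | ⟨g236, g237⟩
                  · linarith only [g234, C.a1, g221, C.o1, C.f22_1]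
                  · rcases d6 with ⟨g238, g239⟩ | ⟨g240, g241⟩
                    · linarith only [g147, g63, g236, g238, C.f22_4]
                    · rcases d3 with ⟨g242, g243⟩ | ⟨g244, g245⟩
                      · linarith only [g214, s1, g63, g242, g240, g57]
                      · linarith only [s2, C.o1, C.o2, g244, g240, C.f33_4, g214]
                · linarith only [C.f13_4, s2, g222, g201, C.f22_4, C.f33_4]
                · linarith only [g223, g62]
                · linarith only [g224, g63]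
                · linarith only [g225, g148]
              · linarith only [g215, s3, g201, C.f33_7]
            · linarith only [g202, s1, g2, g57]
      · rcases d4 with ⟨g246, g247⟩ | ⟨g248, g249⟩
        · linarith only [C.f13_7, s2, C.b5, g246, g58]
        · rcases d10 with g250 | g251 | g252 | g253 | g254 | g255
          · linarith only [g250, e0]
          · linarith only [g251, e1]
          · linarith only [g252, e2]
          · rcases d5 with ⟨g256, g257⟩ | ⟨g258, g259⟩
            · linarith only [s1, C.o0, g1, g256, C.f33_0, g253]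
            · rcases d1 with ⟨g260, g261⟩ | ⟨g262, g263⟩
              · rcases d13 with g264 | g265 | g266 | g267 | g268 | g269
                · linarith only [g264, s1, C.o0, C.f33_0, g253]
                · linarith only [g265, g260]
                · rcases d9 with ⟨g270, g271⟩ | ⟨g272, g273⟩
                  · linarith only [g270, s1, s2, s3, g266, C.o0, g1, C.f13_4, g248, g258, C.f22_4, C.f22_6, C.f33_1, C.f33_4, g253, g10]
                  · linarith only [g272, s2, g266, C.f13_4, g248, C.f22_4, C.f33_4, g10]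
                · linarith only [g267, e2, C.o0, g1, g258, g253]
                · linarith only [C.a3, g260, g268, C.o0, g1, g258, g253]
                · linarith only [g269, s3, C.f22_4, C.f22_6, g10]
              · linarith only [g262, C.o0, g1, g258, g253]
          · rcases d6 with ⟨g274, g275⟩ | ⟨g276, g277⟩
            · rcases d5 with ⟨g278, g279⟩ | ⟨g280, g281⟩
              · linarith only [C.f22_4, s1, C.b3, C.o0, g2, g278, g274, C.f33_0]
              · linarith only [C.a3, s2, C.a2, g280, g274, g254, g58]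
            · linarith only [g276, s2, g254, g58]
          · linarith only [g255, s3, g248, g10]
      · linarith only [C.f13_7, s3, g59]
  · linarith only [C.a4, C.a2, C.o2, C.f13_0, g3]


theorem c0_11_23_33_k2 {n1 n2 n3 A1 A2 A3 B1 B2 B3 m11_1 m11_2 m11_3 m13_1 m13_2 m13_3 m22_1 m22_2 m22_3 m23_1 m23_2 m23_3 m33_1 m33_2 m33_3 : ℤ}
    (C : Ctx0 n1 n2 n3 A1 A2 A3 B1 B2 B3 m11_1 m11_2 m11_3 m13_1 m13_2 m13_3 m22_1 m22_2 m22_3 m23_1 m23_2 m23_3 m33_1 m33_2 m33_3)
    (e0 : 0 < B1)
    (e1 : 0 < A2)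
    (e2 : 0 < B3)
    (e3 : 0 < A3)
    (s1 : 2 * A1 + 1 * B1 ≤ m11_1 + m23_1 + m33_1)
    (s2 : 2 * A2 + 1 * B2 ≤ m11_2 + m23_2 + m33_2)
    (s3 : 2 * A3 + 1 * B3 ≤ m11_3 + m23_3 + m33_3) : False := by
  have d1 : ((0 ≤ -1 - A1 + A2) ∧ (0 ≤ -1 + A2 - A3 + n3)) ∨ ((0 ≤ -1 - B1 + B2) ∧ (0 ≤ -1 + B2 - B3 + n3)) := by
    have h := C.t23
    clear C e0 e1 e2 e3 s1 s2 s3
    omega
  have d5 : ((0 ≤ 0 + m22_1 - n1) ∧ (0 ≤ 0 - m22_1 + n1)) ∨ ((0 ≤ 1 - B2 + m22_1) ∧ (0 ≤ -1 + B2 - m22_1)) := by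
    have h := C.f22_2
    clear C e0 e1 e2 e3 s1 s2 s3
    omega
  have d6 : ((0 ≤ 0 - m22_1 + m22_2 - n2) ∧ (0 ≤ 0 + m22_1 - m22_2 + n2)) ∨ ((0 ≤ 1 - B2 + m22_2) ∧ (0 ≤ -1 + B2 - m22_2)) := by
    have h := C.f22_5
    clear C e0 e1 e2 e3 s1 s2 s3
    omega
  have d7 : ((0 ≤ 0 + m23_1 - n1) ∧ (0 ≤ 0 - m23_1 + n1)) ∨ ((0 ≤ 1 - A2 + m23_1) ∧ (0 ≤ -1 + A2 - m23_1)) ∨ ((0 ≤ 1 - B3 + m23_1) ∧ (0 ≤ -1 + B3 - m23_1)) := by
    have h := C.f23_3
    clear C e0 e1 e2 e3 s1 s2 s3
    omega
  have d8 : ((0 ≤ 0 - m23_1 + m23_2 - n2) ∧ (0 ≤ 0 + m23_1 - m23_2 + n2)) ∨ ((0 ≤ 1 - A2 + m23_2) ∧ (0 ≤ -1 + A2 - m23_2)) ∨ ((0 ≤ 1 - B3 + m23_2) ∧ (0 ≤ -1 + B3 - m23_2)) := by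
    have h := C.f23_7
    clear C e0 e1 e2 e3 s1 s2 s3
    omega
  have d9 : ((0 ≤ 0 - m23_2 + m23_3 - n3) ∧ (0 ≤ 0 + m23_2 - m23_3 + n3)) ∨ ((0 ≤ 1 - B3 + m23_3) ∧ (0 ≤ -1 + B3 - m23_3)) := by
    have h := C.f23_10
    clear C e0 e1 e2 e3 s1 s2 s3
    omega
  have d11 : ((0 ≤ 0 - m33_1 + m33_2 - n2) ∧ (0 ≤ 0 + m33_1 - m33_2 + n2)) ∨ ((0 ≤ 1 - A3 + m33_2) ∧ (0 ≤ -1 + A3 - m33_2)) := by
    have h := C.f33_5
    clear C e0 e1 e2 e3 s1 s2 s3
    omega
  have d12 : ((0 ≤ 0 - m33_2 + m33_3 - n3) ∧ (0 ≤ 0 + m33_2 - m33_3 + n3)) ∨ ((0 ≤ 1 - A3 + m33_3) ∧ (0 ≤ -1 + A3 - m33_3)) := by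
    have h := C.f33_8
    clear C e0 e1 e2 e3 s1 s2 s3
    omega
  have d16 : ((0 ≤ 0 - B1)) ∨ ((0 ≤ 0 - B2)) ∨ ((0 ≤ -1 + 2 * B1 - m11_1 - m22_1)) ∨ ((0 ≤ -1 + 2 * B2 - m11_2 - m22_2)) ∨ ((0 ≤ -1 + 2 * B3 - m11_3 - m22_3)) := by
    have h := C.p11_22B
    clear C e0 e1 e2 e3 s1 s2 s3
    omega
  have d17 : ((0 ≤ 0 - B1)) ∨ ((0 ≤ 0 - A2)) ∨ ((0 ≤ 0 - B3)) ∨ ((0 ≤ -1 + 2 * A1 - m11_1 - m23_1)) ∨ ((0 ≤ -1 + 2 * A2 - m11_2 - m23_2)) ∨ ((0 ≤ -1 + 2 * A3 - m11_3 - m23_3)) := by
    have h := C.p11_23A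
    clear C e0 e1 e2 e3 s1 s2 s3
    omega
  have d18 : ((0 ≤ 0 - B1)) ∨ ((0 ≤ 0 - A2)) ∨ ((0 ≤ 0 - B3)) ∨ ((0 ≤ -1 + 2 * B1 - m11_1 - m23_1)) ∨ ((0 ≤ -1 + 2 * B2 - m11_2 - m23_2)) ∨ ((0 ≤ -1 + 2 * B3 - m11_3 - m23_3)) := by
    have h := C.p11_23B
    clear C e0 e1 e2 e3 s1 s2 s3
    omega
  have d19 : ((0 ≤ 0 - B1)) ∨ ((0 ≤ 0 - A3)) ∨ ((0 ≤ -1 + 2 * A1 - m11_1 - m33_1)) ∨ ((0 ≤ -1 + 2 * A2 - m11_2 - m33_2)) ∨ ((0 ≤ -1 + 2 * A3 - m11_3 - m33_3)) := by
    have h := C.p11_33A
    clear C e0 e1 e2 e3 s1 s2 s3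
    omega
  have d20 : ((0 ≤ 0 - B1)) ∨ ((0 ≤ 0 - A3)) ∨ ((0 ≤ -1 + 2 * B1 - m11_1 - m33_1)) ∨ ((0 ≤ -1 + 2 * B2 - m11_2 - m33_2)) ∨ ((0 ≤ -1 + 2 * B3 - m11_3 - m33_3)) := by
    have h := C.p11_33B
    clear C e0 e1 e2 e3 s1 s2 s3
    omega
  have d31 : ((0 ≤ 0 - A2)) ∨ ((0 ≤ 0 - B3)) ∨ ((0 ≤ 0 - A3)) ∨ ((0 ≤ -1 + 2 * A1 - m23_1 - m33_1)) ∨ ((0 ≤ -1 + 2 * A2 - m23_2 - m33_2)) ∨ ((0 ≤ -1 + 2 * A3 - m23_3 - m33_3)) := by
    have h := C.p23_33A
    clear C e0 e1 e2 e3 s1 s2 s3
    omega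
  have d34 : ((0 ≤ 0 + A1 - n1)) ∨ ((0 ≤ 1 + A1 - A2)) ∨ ((0 ≤ 0 - B1)) ∨ ((0 ≤ 1 - B1 + B2 - n2)) := by
    have h := C.tmpp
    clear C e0 e1 e2 e3 s1 s2 s3
    omega
  have d35 : ((0 ≤ 0 - A1 + A2 - n2)) ∨ ((0 ≤ 1 + A2 - A3)) ∨ ((0 ≤ 0 + B1 - B2)) ∨ ((0 ≤ 1 - B2 + B3 - n3)) := by
    have h := C.tzmp
    clear C e0 e1 e2 e3 s1 s2 s3
    omega
  have d38 : ((0 ≤ 0 - A1)) ∨ ((0 ≤ 1 - A1 + A2 - n2)) ∨ ((0 ≤ 0 + A2 - A3)) ∨ ((0 ≤ 0 + B1 - n1)) ∨ ((0 ≤ 1 + B1 - B2)) ∨ ((0 ≤ 0 - B2 + B3 - n3)) := by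
    have h := C.tpmz
    clear C e0 e1 e2 e3 s1 s2 s3
    omega
  rcases d17 with g1 | g2 | g3 | g4 | g5 | g6
  · linarith only [g1, e0]
  · linarith only [g2, e1]
  · linarith only [g3, e2]
  · rcases d20 with g7 | g8 | g9 | g10 | g11
    · linarith only [g7, e0]
    · linarith only [g8, e3]
    · linarith only [g4, s1, C.f11_0, g9]
    · linarith only [C.o1, s2, C.f23_5, g10]
    · rcases d12 with ⟨g12, g13⟩ | ⟨g14, g15⟩
      · linarith only [C.f23_5, s2, C.b5, C.o1, C.f11_2, g12, g11]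
      · rcases d31 with g16 | g17 | g18 | g19 | g20 | g21
        · linarith only [g16, e1]
        · linarith only [g17, e2]
        · linarith only [g18, e3]
        · linarith only [g19, s1, C.f11_0]
        · rcases d34 with g22 | g23 | g24 | g25
          · linarith only [C.f23_0, s1, g22, C.f11_0, C.f33_0]
          · rcases d7 with ⟨g26, g27⟩ | ⟨g28, g29⟩ | ⟨g30, g31⟩
            · linarith only [g26, s1, g23, C.f11_0, C.f23_1, C.f33_0]
            · rcases d8 with ⟨g32, g33⟩ | ⟨g34, g35⟩ | ⟨g36, g37⟩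
              · linarith only [g32, s2, C.b2, C.f11_0, C.f11_1, g28, C.f23_5, g20]
              · rcases d5 with ⟨g38, g39⟩ | ⟨g40, g41⟩
                · linarith only [C.f22_1, s1, g23, C.o1, C.f11_0, g38, g29, C.f33_0]
                · rcases d6 with ⟨g42, g43⟩ | ⟨g44, g45⟩
                  · linarith only [C.f22_4, s2, C.b2, C.f11_0, C.f11_1, g40, g42, g20]
                  · rcases d16 with g46 | g47 | g48 | g49 | g50
                    · linarith only [g46, e0]
                    · linarith only [g47, e0, C.b2]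
                    · rcases d11 with ⟨g51, g52⟩ | ⟨g53, g54⟩
                      · linarith only [C.a3, s1, g23, C.f11_0, g29, g34, g51, g20]
                      · rcases d18 with g55 | g56 | g57 | g58 | g59 | g60
                        · linarith only [g55, e0]
                        · linarith only [g56, e1]
                        · linarith only [g57, e2]
                        · linarith only [g58, s1, C.o0, C.f11_0, g28, g34, C.f33_1, g53, g20]
                        · linarith only [C.o1, s2, g34, g59, g20]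
                        · rcases d9 with ⟨g61, g62⟩ | ⟨g63, g64⟩
                          · linarith only [s2, s1, C.b5, C.o0, C.f11_0, C.f11_2, g40, g29, g34, g61, C.f33_1, g53, g48, g60, g20]
                          · linarith only [g63, s2, C.b5, C.f11_2, g60, g20]
                    · linarith only [g49, s2, g44, g20]
                    · linarith only [g50, s2, C.b5, C.f11_2, g44, C.f22_6, g20]
              · linarith only [g36, s1, s2, g23, C.b5, C.f11_0, C.f11_2, g29, C.f23_5, C.f33_1, g14, g11, g20]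
            · linarith only [s2, C.b5, C.f11_2, C.f23_1, g30, C.f23_5, C.f33_4, g14, g11]
          · linarith only [g24, e0]
          · linarith only [s2, g25, C.f11_0, C.f11_1, g20]
        · rcases d19 with g65 | g66 | g67 | g68 | g69
          · linarith only [g65, e0]
          · linarith only [g66, e3]
          · rcases d18 with g70 | g71 | g72 | g73 | g74 | g75
            · linarith only [g70, e0]
            · linarith only [g71, e1]
            · linarith only [g72, e2]
            · linarith only [s1, C.f11_0, g73, g67]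
            · rcases d8 with ⟨g76, g77⟩ | ⟨g78, g79⟩ | ⟨g80, g81⟩
              · linarith only [s1, C.b3, C.f11_0, C.f11_1, g76, g74, g67]
              · rcases d35 with g82 | g83 | g84 | g85
                · linarith only [C.b3, s2, g82, C.f11_0, C.f33_3, g74, g67]
                · linarith only [C.o1, s2, g83, C.f33_4, g74]
                · linarith only [C.a2, s1, C.a3, g84, C.f11_0, C.f11_1, C.f23_1, g78, g74, g67]
                · rcases d38 with g86 | g87 | g88 | g89 | g90 | g91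
                  · linarith only [g86, e0, C.o0]
                  · linarith only [g87, s3, g85, C.o0, C.f11_0, C.f11_1, C.f11_2, g78, g74, g21]
                  · linarith only [C.o1, s2, g88, C.f33_4, g74]
                  · linarith only [C.a1, g89, C.o0]
                  · linarith only [s3, s1, g90, g85, C.f11_2, C.f23_1, g78, g74, g67, g21]
                  · linarith only [C.o1, s3, g91, C.f11_2, g78, g74, g21]
              · linarith only [g80, s2, s3, C.o1, C.f23_5, C.f33_4, g14, g74, g11, g21]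
            · rcases d9 with ⟨g92, g93⟩ | ⟨g94, g95⟩
              · rcases d8 with ⟨g96, g97⟩ | ⟨g98, g99⟩ | ⟨g100, g101⟩
                · linarith only [g67, s1, s3, C.f11_0, C.f11_1, C.f11_2, g96, g92, g75, g21]
                · linarith only [C.o1, s3, C.b5, g98, g92, g75, g21]
                · linarith only [s2, s3, C.b5, C.o1, C.f11_2, g100, g92, C.f33_4, g15, g75, g21]
              · linarith only [g94, s3, g75, g21]
          · rcases d9 with ⟨g102, g103⟩ | ⟨g104, g105⟩
            · linarith only [g102, s2, C.b5, C.o2, g14, g68, g21]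
            · rcases d18 with g106 | g107 | g108 | g109 | g110 | g111
              · linarith only [g106, e0]
              · linarith only [g107, e1]
              · linarith only [g108, e2]
              · rcases d7 with ⟨g112, g113⟩ | ⟨g114, g115⟩ | ⟨g116, g117⟩
                · linarith only [g112, s1, C.o0, C.f11_0, C.f33_0, g109]
                · linarith only [s2, C.b2, C.f11_0, g114, C.f23_5, g109, g68]
                · linarith only [g116, s2, C.b2, C.b5, C.f11_0, C.f11_2, C.f23_5, C.f33_4, g14, g109, g68, g11]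
              · linarith only [C.b3, s2, C.f11_0, C.f11_1, g110, g68]
              · linarith only [g21, s3, g104, g111]
          · linarith only [C.o2, s3, g14, g69, g21]
  · rcases d12 with ⟨g118, g119⟩ | ⟨g120, g121⟩
    · linarith only [g5, s2, C.b5, C.o2, g118, C.f33_7]
    · rcases d31 with g122 | g123 | g124 | g125 | g126 | g127
      · linarith only [g122, e1]
      · linarith only [g123, e2]
      · linarith only [g124, e3]
      · linarith only [g125, s1, C.f11_0]
      · rcases d34 with g128 | g129 | g130 | g131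
        · linarith only [C.f23_0, s1, g128, C.f11_0, C.f33_0]
        · rcases d20 with g132 | g133 | g134 | g135 | g136
          · linarith only [g132, e0]
          · linarith only [g133, e3]
          · linarith only [s1, g129, C.o0, C.f23_1, g134]
          · linarith only [C.o1, s2, C.f23_5, g135]
          · rcases d7 with ⟨g137, g138⟩ | ⟨g139, g140⟩ | ⟨g141, g142⟩
            · linarith only [g129, s1, C.f11_0, g137, C.f23_1, C.f33_0]
            · rcases d8 with ⟨g143, g144⟩ | ⟨g145, g146⟩ | ⟨g147, g148⟩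
              · linarith only [C.f23_5, s2, C.b2, C.f11_0, C.f11_1, g139, g143, g126]
              · rcases d9 with ⟨g149, g150⟩ | ⟨g151, g152⟩
                · linarith only [C.f23_9, s2, C.b5, g145, g149, g5, g126]
                · rcases d18 with g153 | g154 | g155 | g156 | g157 | g158
                  · linarith only [g153, e0]
                  · linarith only [g154, e1]
                  · linarith only [g155, e2]
                  · rcases d1 with ⟨g159, g160⟩ | ⟨g161, g162⟩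
                    · linarith only [g159, C.o0, C.f11_0, g139, g156]
                    · linarith only [g161, s2, C.f11_0, g139, g145, g5, g156, g126]
                  · linarith only [s2, C.o1, g145, g157, g126]
                  · linarith only [C.b5, s2, C.f11_2, g151, g158, g126]
              · linarith only [s2, s1, g129, C.b5, C.f11_0, C.f11_2, g140, C.f23_5, g147, C.f33_1, g120, g136, g126]
            · linarith only [g141, s1, s2, g129, C.b5, C.f11_0, C.f11_2, C.f23_1, C.f33_1, g120, g136, g126]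
        · linarith only [g130, e0]
        · linarith only [g131, s2, C.f11_0, C.f11_1, g126]
      · rcases d19 with g163 | g164 | g165 | g166 | g167
        · linarith only [g163, e0]
        · linarith only [g164, e3]
        · rcases d18 with g168 | g169 | g170 | g171 | g172 | g173
          · linarith only [g168, e0]
          · linarith only [g169, e1]
          · linarith only [g170, e2]
          · linarith only [g171, s1, C.f11_0, g165]
          · rcases d8 with ⟨g174, g175⟩ | ⟨g176, g177⟩ | ⟨g178, g179⟩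
            · linarith only [C.b3, s1, C.f11_0, C.f11_1, g174, g172, g165]
            · rcases d35 with g180 | g181 | g182 | g183
              · linarith only [C.b3, s2, g180, C.f11_0, C.f33_3, g172, g165]
              · linarith only [C.o1, s2, g181, C.f33_4, g172]
              · linarith only [C.a2, s1, C.a3, g182, C.f11_0, C.f11_1, C.f23_1, g176, g172, g165]
              · rcases d38 with g184 | g185 | g186 | g187 | g188 | g189
                · linarith only [g184, e0, C.o0]
                · linarith only [g185, s3, g183, C.o0, C.f11_0, C.f11_1, C.f11_2, g176, g172, g127]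
                · linarith only [C.o1, s2, g186, C.f33_4, g172]
                · linarith only [C.a1, g187, C.o0]
                · linarith only [s3, s1, g188, g183, C.f11_2, C.f23_1, g176, g172, g165, g127]
                · linarith only [C.o1, s3, g189, C.f11_2, g176, g172, g127]
            · linarith only [g178, s2, C.o2, C.f23_5, C.f33_4, g5, g172]
          · rcases d9 with ⟨g190, g191⟩ | ⟨g192, g193⟩
            · rcases d8 with ⟨g194, g195⟩ | ⟨g196, g197⟩ | ⟨g198, g199⟩
              · linarith only [g165, s1, s3, C.f11_0, C.f11_1, C.f11_2, g194, g190, g173, g127]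
              · linarith only [C.o1, s3, C.b5, g196, g190, g173, g127]
              · linarith only [s2, s3, C.b5, C.o1, C.f11_2, g198, g190, C.f33_4, g121, g173, g127]
            · linarith only [g192, s3, g173, g127]
        · rcases d9 with ⟨g200, g201⟩ | ⟨g202, g203⟩
          · linarith only [s2, C.b5, C.o2, g200, g120, g166, g127]
          · rcases d18 with g204 | g205 | g206 | g207 | g208 | g209
            · linarith only [g204, e0]
            · linarith only [g205, e1]
            · linarith only [g206, e2]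
            · rcases d7 with ⟨g210, g211⟩ | ⟨g212, g213⟩ | ⟨g214, g215⟩
              · linarith only [g210, s1, C.o0, C.f11_0, C.f33_0, g207]
              · linarith only [s2, C.b2, C.f11_0, g212, C.f23_5, g207, g166]
              · linarith only [C.a4, s2, C.b2, C.o2, C.f11_0, g214, C.f23_5, g207, g166]
            · linarith only [C.b3, s2, C.f11_0, C.f11_1, g208, g166]
            · linarith only [g202, s3, g209, g127]
        · linarith only [C.o2, s3, g120, g167, g127]
  · linarith only [s3, C.o2, C.f33_7, g6]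


theorem c0_11_22_33_k3 {n1 n2 n3 A1 A2 A3 B1 B2 B3 m11_1 m11_2 m11_3 m13_1 m13_2 m13_3 m22_1 m22_2 m22_3 m23_1 m23_2 m23_3 m33_1 m33_2 m33_3 : ℤ}
    (C : Ctx0 n1 n2 n3 A1 A2 A3 B1 B2 B3 m11_1 m11_2 m11_3 m13_1 m13_2 m13_3 m22_1 m22_2 m22_3 m23_1 m23_2 m23_3 m33_1 m33_2 m33_3)
    (e0 : 0 < B1)
    (e1 : 0 < B2)
    (e2 : 0 < A3)
    (s1 : 3 * A1 + 0 * B1 ≤ m11_1 + m22_1 + m33_1)
    (s2 : 3 * A2 + 0 * B2 ≤ m11_2 + m22_2 + m33_2)
    (s3 : 3 * A3 + 0 * B3 ≤ m11_3 + m22_3 + m33_3) : False := by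
  have d1 : ((0 ≤ -1 - A1 + A2) ∧ (0 ≤ -1 + A2 - A3 + n3)) ∨ ((0 ≤ -1 - B1 + B2) ∧ (0 ≤ -1 + B2 - B3 + n3)) := by
    have h := C.t23
    clear C e0 e1 e2 s1 s2 s3
    omega
  have d2 : ((0 ≤ 1 - A1 + m13_1) ∧ (0 ≤ -1 + A1 - m13_1)) ∨ ((0 ≤ 1 - B3 + m13_1) ∧ (0 ≤ -1 + B3 - m13_1)) := by
    have h := C.f13_2
    clear C e0 e1 e2 s1 s2 s3
    omega
  have d3 : ((0 ≤ 0 - m13_1 + m13_2 - n2) ∧ (0 ≤ 0 + m13_1 - m13_2 + n2)) ∨ ((0 ≤ 1 - B3 + m13_2) ∧ (0 ≤ -1 + B3 - m13_2)) := by
    have h := C.f13_5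
    clear C e0 e1 e2 s1 s2 s3
    omega
  have d4 : ((0 ≤ 0 - m13_2 + m13_3 - n3) ∧ (0 ≤ 0 + m13_2 - m13_3 + n3)) ∨ ((0 ≤ 1 - B3 + m13_3) ∧ (0 ≤ -1 + B3 - m13_3)) := by
    have h := C.f13_8
    clear C e0 e1 e2 s1 s2 s3
    omega
  have d6 : ((0 ≤ 0 - m22_1 + m22_2 - n2) ∧ (0 ≤ 0 + m22_1 - m22_2 + n2)) ∨ ((0 ≤ 1 - B2 + m22_2) ∧ (0 ≤ -1 + B2 - m22_2)) := by
    have h := C.f22_5
    clear C e0 e1 e2 s1 s2 s3
    omega
  have d7 : ((0 ≤ 0 + m23_1 - n1) ∧ (0 ≤ 0 - m23_1 + n1)) ∨ ((0 ≤ 1 - A2 + m23_1) ∧ (0 ≤ -1 + A2 - m23_1)) ∨ ((0 ≤ 1 - B3 + m23_1) ∧ (0 ≤ -1 + B3 - m23_1)) := by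
    have h := C.f23_3
    clear C e0 e1 e2 s1 s2 s3
    omega
  have d8 : ((0 ≤ 0 - m23_1 + m23_2 - n2) ∧ (0 ≤ 0 + m23_1 - m23_2 + n2)) ∨ ((0 ≤ 1 - A2 + m23_2) ∧ (0 ≤ -1 + A2 - m23_2)) ∨ ((0 ≤ 1 - B3 + m23_2) ∧ (0 ≤ -1 + B3 - m23_2)) := by
    have h := C.f23_7
    clear C e0 e1 e2 s1 s2 s3
    omega
  have d9 : ((0 ≤ 0 - m23_2 + m23_3 - n3) ∧ (0 ≤ 0 + m23_2 - m23_3 + n3)) ∨ ((0 ≤ 1 - B3 + m23_3) ∧ (0 ≤ -1 + B3 - m23_3)) := by
    have h := C.f23_10
    clear C e0 e1 e2 s1 s2 s3
    omega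
  have d10 : ((0 ≤ 0 + m33_1 - n1) ∧ (0 ≤ 0 - m33_1 + n1)) ∨ ((0 ≤ 1 - A3 + m33_1) ∧ (0 ≤ -1 + A3 - m33_1)) := by
    have h := C.f33_2
    clear C e0 e1 e2 s1 s2 s3
    omega
  have d12 : ((0 ≤ 0 - m33_2 + m33_3 - n3) ∧ (0 ≤ 0 + m33_2 - m33_3 + n3)) ∨ ((0 ≤ 1 - A3 + m33_3) ∧ (0 ≤ -1 + A3 - m33_3)) := by
    have h := C.f33_8
    clear C e0 e1 e2 s1 s2 s3
    omega
  have d13 : ((0 ≤ 0 - B1)) ∨ ((0 ≤ 0 - B2)) ∨ ((0 ≤ -1 + 2 * B1 - m11_1 - m22_1)) ∨ ((0 ≤ -1 + 2 * B2 - m11_2 - m22_2)) ∨ ((0 ≤ -1 + 2 * B3 - m11_3 - m22_3)) := by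
    have h := C.p11_22B
    clear C e0 e1 e2 s1 s2 s3
    omega
  have d14 : ((0 ≤ 0 - B1)) ∨ ((0 ≤ 0 - A3)) ∨ ((0 ≤ -1 + 2 * A1 - m11_1 - m33_1)) ∨ ((0 ≤ -1 + 2 * A2 - m11_2 - m33_2)) ∨ ((0 ≤ -1 + 2 * A3 - m11_3 - m33_3)) := by
    have h := C.p11_33A
    clear C e0 e1 e2 s1 s2 s3
    omega
  have d15 : ((0 ≤ 0 - A1)) ∨ ((0 ≤ 0 - B3)) ∨ ((0 ≤ 0 - B2)) ∨ ((0 ≤ -1 + 2 * A1 - m13_1 - m22_1)) ∨ ((0 ≤ -1 + 2 * A2 - m13_2 - m22_2)) ∨ ((0 ≤ -1 + 2 * A3 - m13_3 - m22_3)) := by
    have h := C.p13_22A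
    clear C e0 e1 e2 s1 s2 s3
    omega
  have d16 : ((0 ≤ 0 - A1)) ∨ ((0 ≤ 0 - B3)) ∨ ((0 ≤ 0 - A2)) ∨ ((0 ≤ -1 + 2 * A1 - m13_1 - m23_1)) ∨ ((0 ≤ -1 + 2 * A2 - m13_2 - m23_2)) ∨ ((0 ≤ -1 + 2 * A3 - m13_3 - m23_3)) := by
    have h := C.p13_23A
    clear C e0 e1 e2 s1 s2 s3
    omega
  have d17 : ((0 ≤ 0 - B2)) ∨ ((0 ≤ 0 - A3)) ∨ ((0 ≤ -1 + 2 * A1 - m22_1 - m33_1)) ∨ ((0 ≤ -1 + 2 * A2 - m22_2 - m33_2)) ∨ ((0 ≤ -1 + 2 * A3 - m22_3 - m33_3)) := by
    have h := C.p22_33A
    clear C e0 e1 e2 s1 s2 s3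
    omega
  rcases d2 with ⟨g1, g2⟩ | ⟨g3, g4⟩
  · rcases d14 with g5 | g6 | g7 | g8 | g9
    · linarith only [g5, e0]
    · linarith only [g6, e2]
    · rcases d6 with ⟨g10, g11⟩ | ⟨g12, g13⟩
      · linarith only [C.a3, s1, C.o1, g10, C.f22_4, g7]
      · rcases d15 with g14 | g15 | g16 | g17 | g18 | g19
        · linarith only [g14, e0, C.o0]
        · linarith only [e2, C.o2, g15]
        · linarith only [g16, e1]
        · linarith only [g17, s1, g1, g7]
        · rcases d13 with g20 | g21 | g22 | g23 | g24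
          · linarith only [g20, e0]
          · linarith only [g21, e1]
          · linarith only [g22, s1, C.o0, C.f11_0, g7]
          · rcases d17 with g25 | g26 | g27 | g28 | g29
            · linarith only [g25, e1]
            · linarith only [g26, e2]
            · linarith only [g27, s1, C.o0, C.f11_0]
            · linarith only [g28, s2, C.o1, g12, g23]
            · rcases d3 with ⟨g30, g31⟩ | ⟨g32, g33⟩
              · rcases d4 with ⟨g34, g35⟩ | ⟨g36, g37⟩
                · linarith only [C.b3, C.b5, C.o0, g1, g30, g34, C.f13_7]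
                · rcases d10 with ⟨g38, g39⟩ | ⟨g40, g41⟩
                  · rcases d12 with ⟨g42, g43⟩ | ⟨g44, g45⟩
                    · linarith only [s2, s3, C.b5, C.o0, C.o2, C.f11_0, C.f11_1, C.f11_2, g1, g30, g12, C.f22_6, g42, g18, g29]
                    · rcases d1 with ⟨g46, g47⟩ | ⟨g48, g49⟩
                      · rcases d7 with ⟨g50, g51⟩ | ⟨g52, g53⟩ | ⟨g54, g55⟩
                        · rcases d8 with ⟨g56, g57⟩ | ⟨g58, g59⟩ | ⟨g60, g61⟩
                          · linarith only [C.a3, C.a1, g50, g56, C.f23_5]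
                          · rcases d16 with g62 | g63 | g64 | g65 | g66 | g67
                            · linarith only [g62, e0, s1, C.f11_0, C.f22_0, g38, g7]
                            · linarith only [C.b4, e0, s1, C.f11_0, C.f22_0, C.f22_1, g38, g7, g63]
                            · linarith only [g64, e0, s1, s3, C.f11_0, C.f11_1, C.f11_2, g1, g30, C.f22_0, C.f22_1, g12, C.f22_6, g38, g44, g7, g18, g29]
                            · linarith only [g65, s1, g1, C.f22_0, g50, g7]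
                            · linarith only [s2, s1, s3, C.f11_1, C.f11_2, g1, g30, C.f22_0, C.f22_6, g58, g38, C.f33_3, g44, g7, g66, g29]
                            · rcases d9 with ⟨g68, g69⟩ | ⟨g70, g71⟩
                              · linarith only [g47, C.o2, g36, g58, g68, g67]
                              · linarith only [g70, C.o2, g36, g67]
                          · linarith only [C.a4, C.o2, C.f23_5, g60]
                        · rcases d8 with ⟨g72, g73⟩ | ⟨g74, g75⟩ | ⟨g76, g77⟩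
                          · linarith only [g72, s1, s3, C.f11_1, C.f11_2, g1, g30, C.f22_1, g12, C.f22_6, C.f23_0, g52, C.f23_5, g38, g44, g7, g18, g29]
                          · rcases d16 with g78 | g79 | g80 | g81 | g82 | g83
                            · linarith only [g78, e0, s1, s3, C.f11_0, C.f11_1, C.f11_2, g1, g30, C.f22_1, g12, C.f22_6, C.f23_0, g52, g38, g44, g7, g18, g29]
                            · linarith only [C.b4, e0, s1, s3, C.f11_0, C.f11_1, C.f11_2, g1, g30, C.f22_1, g12, C.f22_6, C.f23_0, g52, g38, g44, g7, g79, g18, g29]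
                            · linarith only [g80, e0, s1, s3, C.f11_0, C.f11_1, C.f11_2, g1, g30, C.f22_1, g12, C.f22_6, C.f23_0, g52, g38, g44, g7, g18, g29]
                            · linarith only [g81, s1, s3, C.f11_1, C.f11_2, g1, g30, C.f22_1, g12, C.f22_6, C.f23_0, g52, g38, g44, g7, g18, g29]
                            · linarith only [g82, s1, s3, C.f11_1, C.f11_2, g1, g30, C.f22_1, g12, C.f22_6, C.f23_0, g52, g74, g38, g44, g7, g29]
                            · rcases d9 with ⟨g84, g85⟩ | ⟨g86, g87⟩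
                              · linarith only [g84, s1, s3, C.o2, C.f11_1, C.f11_2, g1, g30, g36, C.f22_1, g12, C.f23_0, g52, g74, g38, g7, g18, g83, g29]
                              · linarith only [g86, C.o2, g36, g83]
                          · linarith only [s2, s1, s3, C.o2, C.f11_1, C.f11_2, g1, g30, C.f22_1, g12, C.f22_6, C.f23_0, g52, C.f23_5, g76, g38, C.f33_4, g44, g7, g18, g29]
                        · linarith only [C.a1, s1, s2, s3, C.o2, C.f11_1, C.f11_2, g1, g30, C.f22_1, g12, C.f22_6, C.f23_0, g54, g38, C.f33_4, g44, g7, g18, g29]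
                      · linarith only [g49, C.o2, g12, C.f22_6, g44, g29]
                  · linarith only [C.a2, s2, C.f11_1, g1, g30, g40, C.f33_4, g7, g18]
              · linarith only [C.a4, s2, C.o2, g32, g12, C.f33_4, g23, g18]
          · rcases d17 with g88 | g89 | g90 | g91 | g92
            · linarith only [g88, e1]
            · linarith only [g89, e2]
            · linarith only [g90, s1, C.o0, C.f11_0]
            · linarith only [g91, s2, C.b5, C.o1, C.f11_2, g12, C.f22_6, g24]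
            · rcases d1 with ⟨g93, g94⟩ | ⟨g95, g96⟩
              · rcases d3 with ⟨g97, g98⟩ | ⟨g99, g100⟩
                · rcases d4 with ⟨g101, g102⟩ | ⟨g103, g104⟩
                  · linarith only [C.b5, C.b3, C.o0, g1, g97, g101, C.f13_7]
                  · rcases d10 with ⟨g105, g106⟩ | ⟨g107, g108⟩
                    · rcases d12 with ⟨g109, g110⟩ | ⟨g111, g112⟩
                      · linarith only [s2, s3, C.b5, C.o0, C.f11_0, C.f11_1, C.f11_2, g1, g97, g12, C.f22_6, g109, g24, g18, g92]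
                      · rcases d7 with ⟨g113, g114⟩ | ⟨g115, g116⟩ | ⟨g117, g118⟩
                        · rcases d8 with ⟨g119, g120⟩ | ⟨g121, g122⟩ | ⟨g123, g124⟩
                          · linarith only [C.a3, C.a1, g113, g119, C.f23_5]
                          · rcases d16 with g125 | g126 | g127 | g128 | g129 | g130
                            · linarith only [g125, e0, s1, C.f11_0, C.f22_0, g105, g7]
                            · linarith only [C.b4, e0, s1, C.f11_0, C.f22_0, C.f22_1, g105, g7, g126]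
                            · linarith only [g127, e0, s1, s3, C.f11_0, C.f11_1, C.f11_2, g1, g97, C.f22_0, C.f22_1, g12, C.f22_6, g105, g111, g7, g18, g92]
                            · linarith only [g128, s1, g1, C.f22_0, g113, g7]
                            · linarith only [s2, s1, s3, C.f11_1, C.f11_2, g1, g97, C.f22_0, C.f22_6, g121, g105, C.f33_3, g111, g7, g129, g92]
                            · rcases d9 with ⟨g131, g132⟩ | ⟨g133, g134⟩
                              · linarith only [g94, C.o2, g103, g121, g131, g130]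
                              · linarith only [g133, C.o2, g103, g130]
                          · linarith only [s3, C.a4, C.f23_5, g123, g112, g24]
                        · rcases d8 with ⟨g135, g136⟩ | ⟨g137, g138⟩ | ⟨g139, g140⟩
                          · linarith only [g135, s1, s3, C.f11_1, C.f11_2, g1, g97, C.f22_1, g12, C.f22_6, C.f23_0, g115, C.f23_5, g105, g111, g7, g18, g92]
                          · rcases d16 with g141 | g142 | g143 | g144 | g145 | g146
                            · linarith only [g141, e0, s1, s3, C.f11_0, C.f11_1, C.f11_2, g1, g97, C.f22_1, g12, C.f22_6, C.f23_0, g115, g105, g111, g7, g18, g92]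
                            · linarith only [C.b4, e0, s1, s3, C.f11_0, C.f11_1, C.f11_2, g1, g97, C.f22_1, g12, C.f22_6, C.f23_0, g115, g105, g111, g7, g142, g18, g92]
                            · linarith only [g143, e0, s1, s3, C.f11_0, C.f11_1, C.f11_2, g1, g97, C.f22_1, g12, C.f22_6, C.f23_0, g115, g105, g111, g7, g18, g92]
                            · linarith only [g144, s1, s3, C.f11_1, C.f11_2, g1, g97, C.f22_1, g12, C.f22_6, C.f23_0, g115, g105, g111, g7, g18, g92]
                            · linarith only [g145, s1, s3, C.f11_1, C.f11_2, g1, g97, C.f22_1, g12, C.f22_6, C.f23_0, g115, g137, g105, g111, g7, g92]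
                            · rcases d9 with ⟨g147, g148⟩ | ⟨g149, g150⟩
                              · linarith only [g147, s1, s3, C.o2, C.f11_1, C.f11_2, g1, g97, g103, C.f22_1, g12, C.f23_0, g115, g137, g105, g7, g18, g146, g92]
                              · linarith only [g149, C.o2, g103, g146]
                          · linarith only [s2, s1, s3, C.o2, C.f11_1, C.f11_2, g1, g97, C.f22_1, g12, C.f22_6, C.f23_0, g115, C.f23_5, g139, g105, C.f33_4, g111, g7, g18, g92]
                        · linarith only [C.a1, s1, s2, s3, C.f11_1, C.f11_2, g1, g97, C.f22_1, g12, C.f22_6, C.f23_0, g117, g105, C.f33_4, g24, g7, g18, g92]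
                    · linarith only [g93, s2, C.f11_1, g1, g97, g107, C.f33_4, g7, g18]
                · linarith only [C.b5, s2, g94, C.f11_2, g99, g12, C.f22_6, C.f33_4, g24, g18]
              · linarith only [C.b3, g96, C.f11_0, C.f11_1, C.f11_2, g12, C.f22_6, g24]
        · rcases d4 with ⟨g151, g152⟩ | ⟨g153, g154⟩
          · rcases d3 with ⟨g155, g156⟩ | ⟨g157, g158⟩
            · linarith only [C.b3, C.b5, C.o0, C.o2, g1, g155, g151, g12, C.f22_6, g19]
            · linarith only [C.a4, C.b5, C.o1, C.o2, g157, g151, g12, C.f22_6, g19]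
          · linarith only [g153, C.b5, C.o2, g12, C.f22_6, g19]
    · linarith only [g8, s2, C.o1, C.f22_4]
    · rcases d12 with ⟨g159, g160⟩ | ⟨g161, g162⟩
      · linarith only [s2, s3, C.o1, C.f11_2, C.f22_4, C.f22_6, g159, g9]
      · linarith only [g161, s3, C.b3, C.f11_0, C.f11_1, C.f11_2, C.f22_4, C.f22_6, g9]
  · linarith only [C.a4, C.a2, C.o2, C.f13_0, g3]


theorem c0_13_22_33_k3 {n1 n2 n3 A1 A2 A3 B1 B2 B3 m11_1 m11_2 m11_3 m13_1 m13_2 m13_3 m22_1 m22_2 m22_3 m23_1 m23_2 m23_3 m33_1 m33_2 m33_3 : ℤ}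
    (C : Ctx0 n1 n2 n3 A1 A2 A3 B1 B2 B3 m11_1 m11_2 m11_3 m13_1 m13_2 m13_3 m22_1 m22_2 m22_3 m23_1 m23_2 m23_3 m33_1 m33_2 m33_3)
    (e0 : 0 < A1)
    (e1 : 0 < B3)
    (e2 : 0 < B2)
    (e3 : 0 < A3)
    (s1 : 3 * A1 + 0 * B1 ≤ m13_1 + m22_1 + m33_1)
    (s2 : 3 * A2 + 0 * B2 ≤ m13_2 + m22_2 + m33_2)
    (s3 : 3 * A3 + 0 * B3 ≤ m13_3 + m22_3 + m33_3) : F1 n1 n2 n3 A1 A2 A3 B1 B2 B3 ∨ F2 n1 n2 n3 A1 A2 A3 B1 B2 B3 := by
  by_contra hc
  rw [not_or] at hc
  obtain ⟨hF1, hF2⟩ := hc
  unfold F1 at hF1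
  unfold F2 at hF2
  have d2 : ((0 ≤ 1 - A1 + m13_1) ∧ (0 ≤ -1 + A1 - m13_1)) ∨ ((0 ≤ 1 - B3 + m13_1) ∧ (0 ≤ -1 + B3 - m13_1)) := by
    have h := C.f13_2
    clear C e0 e1 e2 e3 s1 s2 s3 hF1 hF2
    omega
  have d4 : ((0 ≤ 0 - m13_2 + m13_3 - n3) ∧ (0 ≤ 0 + m13_2 - m13_3 + n3)) ∨ ((0 ≤ 1 - B3 + m13_3) ∧ (0 ≤ -1 + B3 - m13_3)) := by
    have h := C.f13_8
    clear C e0 e1 e2 e3 s1 s2 s3 hF1 hF2
    omega
  have d5 : ((0 ≤ 0 + m22_1 - n1) ∧ (0 ≤ 0 - m22_1 + n1)) ∨ ((0 ≤ 1 - B2 + m22_1) ∧ (0 ≤ -1 + B2 - m22_1)) := by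
    have h := C.f22_2
    clear C e0 e1 e2 e3 s1 s2 s3 hF1 hF2
    omega
  have d6 : ((0 ≤ 0 - m22_1 + m22_2 - n2) ∧ (0 ≤ 0 + m22_1 - m22_2 + n2)) ∨ ((0 ≤ 1 - B2 + m22_2) ∧ (0 ≤ -1 + B2 - m22_2)) := by
    have h := C.f22_5
    clear C e0 e1 e2 e3 s1 s2 s3 hF1 hF2
    omega
  have d7 : ((0 ≤ 0 + m23_1 - n1) ∧ (0 ≤ 0 - m23_1 + n1)) ∨ ((0 ≤ 1 - A2 + m23_1) ∧ (0 ≤ -1 + A2 - m23_1)) ∨ ((0 ≤ 1 - B3 + m23_1) ∧ (0 ≤ -1 + B3 - m23_1)) := by
    have h := C.f23_3
    clear C e0 e1 e2 e3 s1 s2 s3 hF1 hF2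
    omega
  have d8 : ((0 ≤ 0 - m23_1 + m23_2 - n2) ∧ (0 ≤ 0 + m23_1 - m23_2 + n2)) ∨ ((0 ≤ 1 - A2 + m23_2) ∧ (0 ≤ -1 + A2 - m23_2)) ∨ ((0 ≤ 1 - B3 + m23_2) ∧ (0 ≤ -1 + B3 - m23_2)) := by
    have h := C.f23_7
    clear C e0 e1 e2 e3 s1 s2 s3 hF1 hF2
    omega
  have d9 : ((0 ≤ 0 - m23_2 + m23_3 - n3) ∧ (0 ≤ 0 + m23_2 - m23_3 + n3)) ∨ ((0 ≤ 1 - B3 + m23_3) ∧ (0 ≤ -1 + B3 - m23_3)) := by
    have h := C.f23_10
    clear C e0 e1 e2 e3 s1 s2 s3 hF1 hF2
    omega
  have d10 : ((0 ≤ 0 + m33_1 - n1) ∧ (0 ≤ 0 - m33_1 + n1)) ∨ ((0 ≤ 1 - A3 + m33_1) ∧ (0 ≤ -1 + A3 - m33_1)) := by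
    have h := C.f33_2
    clear C e0 e1 e2 e3 s1 s2 s3 hF1 hF2
    omega
  have d11 : ((0 ≤ 0 - m33_1 + m33_2 - n2) ∧ (0 ≤ 0 + m33_1 - m33_2 + n2)) ∨ ((0 ≤ 1 - A3 + m33_2) ∧ (0 ≤ -1 + A3 - m33_2)) := by
    have h := C.f33_5
    clear C e0 e1 e2 e3 s1 s2 s3 hF1 hF2
    omega
  have d12 : ((0 ≤ 0 - m33_2 + m33_3 - n3) ∧ (0 ≤ 0 + m33_2 - m33_3 + n3)) ∨ ((0 ≤ 1 - A3 + m33_3) ∧ (0 ≤ -1 + A3 - m33_3)) := by
    have h := C.f33_8
    clear C e0 e1 e2 e3 s1 s2 s3 hF1 hF2
    omega
  have d13 : ((0 ≤ 0 - A1)) ∨ ((0 ≤ 0 - B3)) ∨ ((0 ≤ 0 - B2)) ∨ ((0 ≤ -1 + 2 * B1 - m13_1 - m22_1)) ∨ ((0 ≤ -1 + 2 * B2 - m13_2 - m22_2)) ∨ ((0 ≤ -1 + 2 * B3 - m13_3 - m22_3)) := by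
    have h := C.p13_22B
    clear C e0 e1 e2 e3 s1 s2 s3 hF1 hF2
    omega
  have d14 : ((0 ≤ 0 - A1)) ∨ ((0 ≤ 0 - B3)) ∨ ((0 ≤ 0 - A2)) ∨ ((0 ≤ -1 + 2 * A1 - m13_1 - m23_1)) ∨ ((0 ≤ -1 + 2 * A2 - m13_2 - m23_2)) ∨ ((0 ≤ -1 + 2 * A3 - m13_3 - m23_3)) := by
    have h := C.p13_23A
    clear C e0 e1 e2 e3 s1 s2 s3 hF1 hF2
    omega
  have d15 : ((0 ≤ 0 - A1)) ∨ ((0 ≤ 0 - B3)) ∨ ((0 ≤ 0 - A3)) ∨ ((0 ≤ -1 + 2 * A1 - m13_1 - m33_1)) ∨ ((0 ≤ -1 + 2 * A2 - m13_2 - m33_2)) ∨ ((0 ≤ -1 + 2 * A3 - m13_3 - m33_3)) := by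
    have h := C.p13_33A
    clear C e0 e1 e2 e3 s1 s2 s3 hF1 hF2
    omega
  have d16 : ((0 ≤ 0 - B2)) ∨ ((0 ≤ 0 - A3)) ∨ ((0 ≤ -1 + 2 * A1 - m22_1 - m33_1)) ∨ ((0 ≤ -1 + 2 * A2 - m22_2 - m33_2)) ∨ ((0 ≤ -1 + 2 * A3 - m22_3 - m33_3)) := by
    have h := C.p22_33A
    clear C e0 e1 e2 e3 s1 s2 s3 hF1 hF2
    omega
  have d17 : ((0 ≤ 0 + A1 - n1)) ∨ ((0 ≤ 0 + A1 - A2)) ∨ ((0 ≤ 0 + A2 - A3)) ∨ ((0 ≤ 0 - B1)) ∨ ((0 ≤ 0 - B1 + B2 - n2)) ∨ ((0 ≤ 0 - B2 + B3 - n3)) := by
    have h := C.tmzp
    clear C e0 e1 e2 e3 s1 s2 s3 hF1 hF2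
    omega
  have d18 : ((0 ≤ 0 - A1)) ∨ ((0 ≤ 1 - A1 + A2 - n2)) ∨ ((0 ≤ 0 + A2 - A3)) ∨ ((0 ≤ 0 + B1 - n1)) ∨ ((0 ≤ 1 + B1 - B2)) ∨ ((0 ≤ 0 - B2 + B3 - n3)) := by
    have h := C.tpmz
    clear C e0 e1 e2 e3 s1 s2 s3 hF1 hF2
    omega
  have d20 : ((0 ≤ 0 - A1)) ∨ ((0 ≤ 0 + 2 * A1 - n1)) ∨ ((0 ≤ 2 - n2)) ∨ ((0 ≤ -4 - 2 * A1 + n3)) ∨ ((0 ≤ 2 + 2 * A1 - n3)) ∨ ((0 ≤ -2 - A1 + A2)) ∨ ((0 ≤ 0 + A1 - A2)) ∨ ((0 ≤ -2 - A1 - A2 + A3)) ∨ ((0 ≤ 0 + A1 + A2 - A3)) ∨ ((0 ≤ -1 + B1)) ∨ ((0 ≤ -1 - B1)) ∨ ((0 ≤ -2 - B1 + B2)) ∨ ((0 ≤ 0 + B1 - B2)) ∨ ((0 ≤ -3 - 2 * A1 - B2 + B3)) ∨ ((0 ≤ 1 + 2 * A1 + B2 - B3)) := by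
    have h := hF2
    clear C e0 e1 e2 e3 s1 s2 s3 hF1 hF2
    omega
  rcases d2 with ⟨g1, g2⟩ | ⟨g3, g4⟩
  · rcases d15 with g5 | g6 | g7 | g8 | g9 | g10
    · linarith only [g5, e0]
    · linarith only [g6, e1]
    · linarith only [g7, e3]
    · rcases d10 with ⟨g11, g12⟩ | ⟨g13, g14⟩
      · linarith only [g11, s1, g1, C.f22_0, g8]
      · linarith only [C.a4, s1, C.o1, g1, C.f22_1, g13, g8]
    · linarith only [g9, s2, C.o1, C.f22_4]
    · rcases d16 with g15 | g16 | g17 | g18 | g19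
      · linarith only [g15, e2]
      · linarith only [g16, e3]
      · linarith only [g17, s1, g2]
      · rcases d4 with ⟨g20, g21⟩ | ⟨g22, g23⟩
        · linarith only [C.o1, s2, C.b5, g20, C.f13_7, g18]
        · rcases d7 with ⟨g24, g25⟩ | ⟨g26, g27⟩ | ⟨g28, g29⟩
          · rcases d8 with ⟨g30, g31⟩ | ⟨g32, g33⟩ | ⟨g34, g35⟩
            · linarith only [C.f23_5, s1, s2, g2, C.f13_3, C.f22_0, g24, g30, C.f33_0, g18]
            · rcases d14 with g36 | g37 | g38 | g39 | g40 | g41
              · linarith only [g36, e0]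
              · linarith only [g37, e1]
              · linarith only [e2, C.o1, g38]
              · linarith only [g39, s1, g1, C.f22_0, g24, C.f33_0]
              · linarith only [g40, s2, g32, g18]
              · rcases d9 with ⟨g42, g43⟩ | ⟨g44, g45⟩
                · linarith only [C.o1, s3, C.o2, g22, C.f22_4, C.f22_6, g32, g42, g41, g10]
                · linarith only [g44, C.o2, g22, g41]
            · linarith only [C.a4, C.o2, C.f23_5, g34]
          · rcases d8 with ⟨g46, g47⟩ | ⟨g48, g49⟩ | ⟨g50, g51⟩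
            · linarith only [C.a2, s2, g2, C.f13_3, g26, g46, C.f23_5, g18]
            · rcases d14 with g52 | g53 | g54 | g55 | g56 | g57
              · linarith only [g52, e0]
              · linarith only [g53, e1]
              · linarith only [e0, C.a2, g54]
              · rcases d5 with ⟨g58, g59⟩ | ⟨g60, g61⟩
                · linarith only [g55, s1, C.o1, g1, g58, C.f22_1, g26, C.f33_0]
                · rcases d6 with ⟨g62, g63⟩ | ⟨g64, g65⟩
                  · linarith only [C.a2, s2, g2, C.f13_3, g60, g62, C.f22_4, g18]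
                  · rcases d11 with ⟨g66, g67⟩ | ⟨g68, g69⟩
                    · linarith only [s2, s1, g2, C.f13_3, g61, g64, g26, g66, g55, g18]
                    · rcases d12 with ⟨g70, g71⟩ | ⟨g72, g73⟩
                      · linarith only [C.a4, s2, s3, C.f13_4, g22, C.f22_6, g68, g70, g10, g18]
                      · rcases d18 with g74 | g75 | g76 | g77 | g78 | g79
                        · linarith only [g74, e0]
                        · linarith only [s2, g75, g2, C.f13_3, g18]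
                        · linarith only [C.f13_4, s2, g76, C.o1, g22, g65, g69, g72, g10]
                        · linarith only [C.a1, g77, C.o0]
                        · rcases d17 with g80 | g81 | g82 | g83 | g84 | g85
                          · linarith only [g80, s1, g78, C.o0, g2, g61, C.f33_0]
                          · linarith only [g81, s1, g2, g61, g64, C.f33_1, g68, g18]
                          · linarith only [C.f13_4, s1, s2, g82, g78, C.o0, g2, g22, g61, g65, C.f33_1, g69, g72, g10]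
                          · rcases d20 with g86 | g87 | g88 | g89 | g90 | g91 | g92 | g93 | g94 | g95 | g96 | g97 | g98 | g99 | g100
                            · linarith only [g86, e0]
                            · linarith only [g87, s1, g83, g78, g2, g61, C.f33_0]
                            · linarith only [C.f33_1, s1, s2, g2, C.f13_3, g61, g64, g68, g18, g88]
                            · rcases d13 with g101 | g102 | g103 | g104 | g105 | g106
                              · linarith only [g101, e0]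
                              · linarith only [g102, e1]
                              · linarith only [g103, e2]
                              · linarith only [e2, e0, g83, g1, g60, g104]
                              · linarith only [s2, C.f13_4, g22, g64, g68, g72, g105, g10, g18]
                              · linarith only [e2, g1, g22, g64, C.f22_6, g26, g68, g72, g106, g55, g10, g18, g89]
                            · linarith only [s3, s1, g83, g78, g2, g61, g65, C.f22_6, C.f33_1, g10, g90]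
                            · linarith only [g91, g1, g26, g55]
                            · linarith only [g18, s1, g92, g2, g61, g64, C.f33_1, g68]
                            · linarith only [e2, g1, g64, g26, g68, g55, g18, g93]
                            · linarith only [g55, s1, g83, g78, g61, g26, C.f33_1, g94]
                            · linarith only [g95, g83]
                            · linarith only [g96, C.b0]
                            · linarith only [g97, g78]
                            · linarith only [e2, g83, g98]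
                            · linarith only [e2, g1, g22, g64, g26, g68, g72, g55, g10, g18, g99]
                            · linarith only [C.o2, s1, g83, g78, g2, g61, C.f33_1, g100]
                          · linarith only [s1, s2, g78, g84, g2, C.f13_3, g61, g64, C.f33_1, g68, g18]
                          · linarith only [g85, s3, g22, g65, C.f22_6, g72, g10]
                        · linarith only [g79, s3, g22, g65, C.f22_6, g72, g10]
              · linarith only [s2, g48, g56, g18]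
              · rcases d9 with ⟨g107, g108⟩ | ⟨g109, g110⟩
                · linarith only [s3, C.o1, C.f22_4, C.f22_6, g48, g107, C.f33_7, g57]
                · linarith only [C.o2, g22, g109, g57]
            · linarith only [C.a4, C.o2, C.f23_5, g50]
          · linarith only [C.a4, C.o2, C.f23_1, g28]
      · rcases d12 with ⟨g111, g112⟩ | ⟨g113, g114⟩
        · rcases d4 with ⟨g115, g116⟩ | ⟨g117, g118⟩
          · linarith only [s3, s2, C.b5, C.o1, g115, C.f13_7, C.f22_6, g111, g19]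
          · rcases d11 with ⟨g119, g120⟩ | ⟨g121, g122⟩
            · rcases d10 with ⟨g123, g124⟩ | ⟨g125, g126⟩
              · linarith only [g123, s1, s2, s3, C.b5, C.o1, g2, C.f13_3, g118, C.f22_0, C.f22_6, g119, g111, g10, g19]
              · linarith only [g125, s1, s2, s3, C.b5, C.o1, g2, C.f13_3, C.f13_4, g118, C.f22_1, C.f22_6, g119, g111, g10, g19]
            · linarith only [g121, s2, s3, C.b5, C.o1, C.f13_4, g118, C.f22_6, g111, g10, g19]
        · linarith only [g113, s3, g10, g19]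
  · linarith only [C.a2, C.a4, C.o2, C.f13_0, g3]


theorem c2_11_22_33_k0 {n1 n2 n3 A1 A2 A3 B1 B2 B3 m11_1 m11_2 m11_3 m12_1 m12_2 m12_3 m13_1 m13_2 m13_3 m22_1 m22_2 m22_3 m33_1 m33_2 m33_3 : ℤ}
    (C : Ctx2 n1 n2 n3 A1 A2 A3 B1 B2 B3 m11_1 m11_2 m11_3 m12_1 m12_2 m12_3 m13_1 m13_2 m13_3 m22_1 m22_2 m22_3 m33_1 m33_2 m33_3)
    (e0 : 0 < B1)
    (e1 : 0 < A2)
    (e2 : 0 < A3)
    (s1 : 0 * A1 + 3 * B1 ≤ m11_1 + m22_1 + m33_1)
    (s2 : 0 * A2 + 3 * B2 ≤ m11_2 + m22_2 + m33_2)
    (s3 : 0 * A3 + 3 * B3 ≤ m11_3 + m22_3 + m33_3) : False := by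
  have d2 : ((0 ≤ 1 - A1 + m12_1) ∧ (0 ≤ -1 + A1 - m12_1)) ∨ ((0 ≤ 1 - B2 + m12_1) ∧ (0 ≤ -1 + B2 - m12_1)) := by
    have h := C.f12_2
    clear C e0 e1 e2 s1 s2 s3
    omega
  have d3 : ((0 ≤ 0 - m12_1 + m12_2 - n2) ∧ (0 ≤ 0 + m12_1 - m12_2 + n2)) ∨ ((0 ≤ 1 - B2 + m12_2) ∧ (0 ≤ -1 + B2 - m12_2)) := by
    have h := C.f12_5
    clear C e0 e1 e2 s1 s2 s3
    omega
  have d4 : ((0 ≤ 1 - A1 + m13_1) ∧ (0 ≤ -1 + A1 - m13_1)) ∨ ((0 ≤ 1 - B3 + m13_1) ∧ (0 ≤ -1 + B3 - m13_1)) := by
    have h := C.f13_2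
    clear C e0 e1 e2 s1 s2 s3
    omega
  have d5 : ((0 ≤ 0 - m13_1 + m13_2 - n2) ∧ (0 ≤ 0 + m13_1 - m13_2 + n2)) ∨ ((0 ≤ 1 - B3 + m13_2) ∧ (0 ≤ -1 + B3 - m13_2)) := by
    have h := C.f13_5
    clear C e0 e1 e2 s1 s2 s3
    omega
  have d6 : ((0 ≤ 0 - m13_2 + m13_3 - n3) ∧ (0 ≤ 0 + m13_2 - m13_3 + n3)) ∨ ((0 ≤ 1 - B3 + m13_3) ∧ (0 ≤ -1 + B3 - m13_3)) := by
    have h := C.f13_8
    clear C e0 e1 e2 s1 s2 s3
    omega
  have d11 : ((0 ≤ 0 - m33_2 + m33_3 - n3) ∧ (0 ≤ 0 + m33_2 - m33_3 + n3)) ∨ ((0 ≤ 1 - A3 + m33_3) ∧ (0 ≤ -1 + A3 - m33_3)) := by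
    have h := C.f33_8
    clear C e0 e1 e2 s1 s2 s3
    omega
  have d12 : ((0 ≤ 0 - B1)) ∨ ((0 ≤ 0 - A2)) ∨ ((0 ≤ -1 + 2 * B1 - m11_1 - m22_1)) ∨ ((0 ≤ -1 + 2 * B2 - m11_2 - m22_2)) ∨ ((0 ≤ -1 + 2 * B3 - m11_3 - m22_3)) := by
    have h := C.p11_22B
    clear C e0 e1 e2 s1 s2 s3
    omega
  have d13 : ((0 ≤ 0 - B1)) ∨ ((0 ≤ 0 - A3)) ∨ ((0 ≤ -1 + 2 * B1 - m11_1 - m33_1)) ∨ ((0 ≤ -1 + 2 * B2 - m11_2 - m33_2)) ∨ ((0 ≤ -1 + 2 * B3 - m11_3 - m33_3)) := by
    have h := C.p11_33B
    clear C e0 e1 e2 s1 s2 s3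
    omega
  have d14 : ((0 ≤ 0 - A1)) ∨ ((0 ≤ 0 - B2)) ∨ ((0 ≤ 0 - B3)) ∨ ((0 ≤ -1 + 2 * B1 - m12_1 - m13_1)) ∨ ((0 ≤ -1 + 2 * B2 - m12_2 - m13_2)) ∨ ((0 ≤ -1 + 2 * B3 - m12_3 - m13_3)) := by
    have h := C.p12_13B
    clear C e0 e1 e2 s1 s2 s3
    omega
  have d16 : ((0 ≤ 0 - A1 + A2 - n2)) ∨ ((0 ≤ 1 + A2 - A3)) ∨ ((0 ≤ 0 + B1 - B2)) ∨ ((0 ≤ 1 - B2 + B3 - n3)) := by
    have h := C.tzmp
    clear C e0 e1 e2 s1 s2 s3
    omega
  rcases d2 with ⟨g1, g2⟩ | ⟨g3, g4⟩
  · rcases d3 with ⟨g5, g6⟩ | ⟨g7, g8⟩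
    · linarith only [C.f12_4, C.b3, C.o0, g1, g5]
    · rcases d4 with ⟨g9, g10⟩ | ⟨g11, g12⟩
      · rcases d14 with g13 | g14 | g15 | g16 | g17 | g18
        · linarith only [g13, e0, C.o0]
        · linarith only [e1, C.o1, g14]
        · linarith only [C.b4, e0, C.a2, C.o0, C.o1, g15]
        · linarith only [g16, C.o0, g1, g9]
        · rcases d12 with g19 | g20 | g21 | g22 | g23
          · linarith only [g19, e0]
          · linarith only [g20, e1]
          · rcases d13 with g24 | g25 | g26 | g27 | g28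
            · linarith only [g24, e0]
            · linarith only [g25, e2]
            · linarith only [g26, s1, C.f11_0, g21]
            · linarith only [C.o1, s2, C.f22_4, g27]
            · rcases d16 with g29 | g30 | g31 | g32
              · linarith only [C.b3, g29, C.o0, C.o1]
              · rcases d5 with ⟨g33, g34⟩ | ⟨g35, g36⟩
                · linarith only [g17, s2, g30, C.o0, C.o1, C.f11_0, C.f11_1, g7, g9, g33, C.f22_4, C.f33_4]
                · rcases d11 with ⟨g37, g38⟩ | ⟨g39, g40⟩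
                  · linarith only [g37, s2, s3, C.o1, C.f11_2, C.f22_4, C.f22_6, g28]
                  · linarith only [g17, s2, s3, C.o1, C.f11_2, g7, g35, C.f22_4, C.f22_6, C.f33_4, g39, g28]
              · linarith only [C.a2, g31, C.o0, C.o1]
              · linarith only [g32, s3, C.o1, C.f22_4, C.f22_6, g28]
          · rcases d16 with g41 | g42 | g43 | g44
            · linarith only [C.b3, g41, C.o0, C.o1]
            · linarith only [g42, s2, C.o1, C.f33_4, g22]
            · linarith only [C.a2, g43, C.o0, C.o1]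
            · linarith only [C.f33_7, s3, g44, C.o2, C.f11_2, C.f22_6, g22]
          · linarith only [g23, s3, C.o2, C.f33_7]
        · rcases d12 with g45 | g46 | g47 | g48 | g49
          · linarith only [g45, e0]
          · linarith only [g46, e1]
          · rcases d13 with g50 | g51 | g52 | g53 | g54
            · linarith only [g50, e0]
            · linarith only [g51, e2]
            · linarith only [g52, s1, C.f11_0, g47]
            · linarith only [C.o1, s2, C.f22_4, g53]
            · rcases d16 with g55 | g56 | g57 | g58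
              · linarith only [C.b3, g55, C.o0, C.o1]
              · rcases d6 with ⟨g59, g60⟩ | ⟨g61, g62⟩
                · rcases d5 with ⟨g63, g64⟩ | ⟨g65, g66⟩
                  · linarith only [g63, s2, s3, g56, C.o0, C.o1, C.f11_0, C.f11_1, g7, C.f12_6, g9, g59, C.f22_4, C.f22_6, C.f33_4, g54, g18]
                  · linarith only [C.a5, s3, C.a4, C.o1, g7, C.f12_6, g65, g59, C.f22_4, C.f22_6, g54, g18]
                · linarith only [g61, s3, C.o1, g7, C.f12_6, C.f22_4, C.f22_6, g54, g18]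
              · linarith only [C.a2, g57, C.o0, C.o1]
              · linarith only [g58, s3, C.o1, C.f22_4, C.f22_6, g54]
          · rcases d16 with g67 | g68 | g69 | g70
            · linarith only [C.b3, g67, C.o0, C.o1]
            · linarith only [g68, s2, C.o1, C.f33_4, g48]
            · linarith only [C.a2, g69, C.o0, C.o1]
            · linarith only [C.f33_7, s3, g70, C.o2, C.f11_2, C.f22_6, g48]
          · linarith only [g49, s3, C.o2, C.f33_7]
      · linarith only [C.a2, C.a4, C.o2, C.f13_0, g11]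
  · linarith only [C.a2, C.o1, C.f12_0, g3]


theorem c2_11_33_33_k3 {n1 n2 n3 A1 A2 A3 B1 B2 B3 m11_1 m11_2 m11_3 m12_1 m12_2 m12_3 m13_1 m13_2 m13_3 m22_1 m22_2 m22_3 m33_1 m33_2 m33_3 : ℤ}
    (C : Ctx2 n1 n2 n3 A1 A2 A3 B1 B2 B3 m11_1 m11_2 m11_3 m12_1 m12_2 m12_3 m13_1 m13_2 m13_3 m22_1 m22_2 m22_3 m33_1 m33_2 m33_3)
    (e0 : 0 < B1)
    (e1 : 0 < A3)
    (s1 : 3 * A1 + 0 * B1 ≤ m11_1 + m33_1 + m33_1)
    (s2 : 3 * A2 + 0 * B2 ≤ m11_2 + m33_2 + m33_2)
    (s3 : 3 * A3 + 0 * B3 ≤ m11_3 + m33_3 + m33_3) : False := by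
  have d1 : ((0 ≤ -1 - A1 + A2) ∧ (0 ≤ -1 + A2 - A3 + n3)) ∨ ((0 ≤ -1 - B1 + B2) ∧ (0 ≤ -1 + B2 - B3 + n3)) := by
    have h := C.t23
    clear C e0 e1 s1 s2 s3
    omega
  have d2 : ((0 ≤ 1 - A1 + m12_1) ∧ (0 ≤ -1 + A1 - m12_1)) ∨ ((0 ≤ 1 - B2 + m12_1) ∧ (0 ≤ -1 + B2 - m12_1)) := by
    have h := C.f12_2
    clear C e0 e1 s1 s2 s3
    omega
  have d3 : ((0 ≤ 0 - m12_1 + m12_2 - n2) ∧ (0 ≤ 0 + m12_1 - m12_2 + n2)) ∨ ((0 ≤ 1 - B2 + m12_2) ∧ (0 ≤ -1 + B2 - m12_2)) := by
    have h := C.f12_5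
    clear C e0 e1 s1 s2 s3
    omega
  have d5 : ((0 ≤ 0 - m33_1 + m33_2 - n2) ∧ (0 ≤ 0 + m33_1 - m33_2 + n2)) ∨ ((0 ≤ 1 - A3 + m33_2) ∧ (0 ≤ -1 + A3 - m33_2)) := by
    have h := C.f33_5
    clear C e0 e1 s1 s2 s3
    omega
  have d6 : ((0 ≤ 0 - m33_2 + m33_3 - n3) ∧ (0 ≤ 0 + m33_2 - m33_3 + n3)) ∨ ((0 ≤ 1 - A3 + m33_3) ∧ (0 ≤ -1 + A3 - m33_3)) := by
    have h := C.f33_8
    clear C e0 e1 s1 s2 s3
    omega
  have d9 : ((0 ≤ 0 - A1)) ∨ ((0 ≤ 0 - B2)) ∨ ((0 ≤ 0 - A3)) ∨ ((0 ≤ -1 + 2 * A1 - m12_1 - m33_1)) ∨ ((0 ≤ -1 + 2 * A2 - m12_2 - m33_2)) ∨ ((0 ≤ -1 + 2 * A3 - m12_3 - m33_3)) := by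
    have h := C.p12_33A
    clear C e0 e1 s1 s2 s3
    omega
  have d10 : ((0 ≤ 0 + A1 - n1)) ∨ ((0 ≤ 0 + A1 - A2)) ∨ ((0 ≤ 0 + A2 - A3)) ∨ ((0 ≤ 0 - B1)) ∨ ((0 ≤ 0 - B1 + B2 - n2)) ∨ ((0 ≤ 0 - B2 + B3 - n3)) := by
    have h := C.tmzp
    clear C e0 e1 s1 s2 s3
    omega
  have d11 : ((0 ≤ 0 + A1 - n1)) ∨ ((0 ≤ 1 + A1 - A2)) ∨ ((0 ≤ 0 - B1)) ∨ ((0 ≤ 1 - B1 + B2 - n2)) := by
    have h := C.tmpp
    clear C e0 e1 s1 s2 s3
    omega
  rcases d2 with ⟨g1, g2⟩ | ⟨g3, g4⟩
  · rcases d3 with ⟨g5, g6⟩ | ⟨g7, g8⟩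
    · linarith only [C.f12_4, C.b3, C.o0, g1, g5]
    · rcases d9 with g9 | g10 | g11 | g12 | g13 | g14
      · linarith only [g9, e0, C.o0]
      · linarith only [C.a2, e0, C.o0, C.o1, g10]
      · linarith only [g11, e1]
      · linarith only [g12, s1, C.o0, C.f11_0, g1]
      · rcases d11 with g15 | g16 | g17 | g18
        · linarith only [g15, s1, C.o0, C.f11_0, C.f33_0]
        · rcases d5 with ⟨g19, g20⟩ | ⟨g21, g22⟩
          · linarith only [C.o1, s1, s2, C.o0, C.f11_0, C.f11_1, g7, g19, g13]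
          · linarith only [g21, s1, g16, C.o0, C.o1, C.f11_0, g7, C.f33_1, g13]
        · linarith only [g17, e0]
        · linarith only [g18, s2, C.o1, C.f11_0, C.f11_1, g7, g13]
      · rcases d11 with g23 | g24 | g25 | g26
        · linarith only [g23, s1, C.o0, C.f11_0, C.f33_0]
        · rcases d10 with g27 | g28 | g29 | g30 | g31 | g32
          · linarith only [g27, s1, C.o0, C.f11_0, C.f33_0]
          · rcases d1 with ⟨g33, g34⟩ | ⟨g35, g36⟩
            · linarith only [g33, g28]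
            · rcases d6 with ⟨g37, g38⟩ | ⟨g39, g40⟩
              · rcases d5 with ⟨g41, g42⟩ | ⟨g43, g44⟩
                · linarith only [s3, s1, g36, C.o0, C.o2, C.f11_0, C.f11_1, C.f11_2, g7, C.f12_6, g41, g37, g14]
                · linarith only [C.a5, s1, g28, g36, C.o0, C.o2, C.f11_0, g7, C.f12_6, C.f33_1, g43, g37, g14]
              · linarith only [g39, g36, C.o2, g7, C.f12_6, g14]
          · linarith only [g24, s1, g29, C.o0, C.f11_0, C.f33_1]
          · linarith only [g30, e0]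
          · linarith only [g31, s3, C.a5, C.o1, C.f11_0, C.f11_1, C.f11_2, g7, C.f12_6, g14]
          · rcases d1 with ⟨g45, g46⟩ | ⟨g47, g48⟩
            · rcases d6 with ⟨g49, g50⟩ | ⟨g51, g52⟩
              · rcases d5 with ⟨g53, g54⟩ | ⟨g55, g56⟩
                · linarith only [g53, s1, s2, g46, C.o0, C.o1, C.f11_0, C.f11_1, g7, C.f12_6, g49, g14]
                · linarith only [g55, s1, g24, g46, C.o0, C.o1, C.f11_0, g7, C.f12_6, C.f33_1, g49, g14]
              · linarith only [g51, g46, C.o1, g7, C.f12_6, g14]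
            · linarith only [g48, g32]
        · linarith only [g25, e0]
        · linarith only [g26, s3, C.a5, C.o1, C.f11_0, C.f11_1, C.f11_2, g7, C.f12_6, g14]
  · linarith only [g3, C.a2, C.o1, C.f12_0]


theorem c0_11_33_33_k2 {n1 n2 n3 A1 A2 A3 B1 B2 B3 m11_1 m11_2 m11_3 m13_1 m13_2 m13_3 m22_1 m22_2 m22_3 m23_1 m23_2 m23_3 m33_1 m33_2 m33_3 : ℤ}
    (C : Ctx0 n1 n2 n3 A1 A2 A3 B1 B2 B3 m11_1 m11_2 m11_3 m13_1 m13_2 m13_3 m22_1 m22_2 m22_3 m23_1 m23_2 m23_3 m33_1 m33_2 m33_3)
    (e0 : 0 < B1)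
    (e1 : 0 < A3)
    (s1 : 2 * A1 + 1 * B1 ≤ m11_1 + m33_1 + m33_1)
    (s2 : 2 * A2 + 1 * B2 ≤ m11_2 + m33_2 + m33_2)
    (s3 : 2 * A3 + 1 * B3 ≤ m11_3 + m33_3 + m33_3) : False := by
  have d2 : ((0 ≤ 1 - A1 + m13_1) ∧ (0 ≤ -1 + A1 - m13_1)) ∨ ((0 ≤ 1 - B3 + m13_1) ∧ (0 ≤ -1 + B3 - m13_1)) := by
    have h := C.f13_2
    clear C e0 e1 s1 s2 s3
    omega
  have d3 : ((0 ≤ 0 - m13_1 + m13_2 - n2) ∧ (0 ≤ 0 + m13_1 - m13_2 + n2)) ∨ ((0 ≤ 1 - B3 + m13_2) ∧ (0 ≤ -1 + B3 - m13_2)) := by
    have h := C.f13_5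
    clear C e0 e1 s1 s2 s3
    omega
  have d4 : ((0 ≤ 0 - m13_2 + m13_3 - n3) ∧ (0 ≤ 0 + m13_2 - m13_3 + n3)) ∨ ((0 ≤ 1 - B3 + m13_3) ∧ (0 ≤ -1 + B3 - m13_3)) := by
    have h := C.f13_8
    clear C e0 e1 s1 s2 s3
    omega
  have d7 : ((0 ≤ 0 - m33_2 + m33_3 - n3) ∧ (0 ≤ 0 + m33_2 - m33_3 + n3)) ∨ ((0 ≤ 1 - A3 + m33_3) ∧ (0 ≤ -1 + A3 - m33_3)) := by
    have h := C.f33_8
    clear C e0 e1 s1 s2 s3
    omega
  have d9 : ((0 ≤ 0 - B1)) ∨ ((0 ≤ 0 - A3)) ∨ ((0 ≤ -1 + 2 * B1 - m11_1 - m33_1)) ∨ ((0 ≤ -1 + 2 * B2 - m11_2 - m33_2)) ∨ ((0 ≤ -1 + 2 * B3 - m11_3 - m33_3)) := by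
    have h := C.p11_33B
    clear C e0 e1 s1 s2 s3
    omega
  have d10 : ((0 ≤ 0 - A1)) ∨ ((0 ≤ 0 - B3)) ∨ ((0 ≤ 0 - A3)) ∨ ((0 ≤ -1 + 2 * A1 - m13_1 - m33_1)) ∨ ((0 ≤ -1 + 2 * A2 - m13_2 - m33_2)) ∨ ((0 ≤ -1 + 2 * A3 - m13_3 - m33_3)) := by
    have h := C.p13_33A
    clear C e0 e1 s1 s2 s3
    omega
  have d12 : ((0 ≤ 0 + A1 - A2)) ∨ ((0 ≤ 1 - A2 + A3 - n3)) ∨ ((0 ≤ 0 - B1 + B2 - n2)) ∨ ((0 ≤ 1 + B2 - B3)) ∨ ((0 ≤ -1 + A2 - B2) ∧ (0 ≤ 1 + A3 - B3)) := by
    have h := C.tzpm
    clear C e0 e1 s1 s2 s3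
    omega
  rcases d9 with g1 | g2 | g3 | g4 | g5
  · linarith only [g1, e0]
  · linarith only [g2, e1]
  · linarith only [g3, s1, C.o0, C.f11_0]
  · linarith only [C.o1, s2, C.b3, C.f11_0, C.f11_1, g4]
  · rcases d2 with ⟨g6, g7⟩ | ⟨g8, g9⟩
    · rcases d7 with ⟨g10, g11⟩ | ⟨g12, g13⟩
      · linarith only [s2, s3, C.b5, C.o1, C.f11_2, g10, C.f33_7, g5]
      · rcases d10 with g14 | g15 | g16 | g17 | g18 | g19
        · linarith only [g14, e0, C.o0]
        · linarith only [e1, s3, g13, g5, g15]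
        · linarith only [g16, e1]
        · linarith only [g17, s1, C.f11_0, g6]
        · rcases d3 with ⟨g20, g21⟩ | ⟨g22, g23⟩
          · rcases d12 with g24 | g25 | g26 | g27 | ⟨g28, g29⟩
            · linarith only [s2, g24, C.a3, C.b2, C.f11_0, C.f11_1, g6, g20, g18]
            · linarith only [C.b5, s2, s3, g25, C.o0, C.f11_0, C.f11_1, C.f11_2, g6, g20, g13, g5, g18]
            · linarith only [C.a3, s2, g26, C.f11_0, C.f11_1, g6, g20, g18]
            · linarith only [g27, s2, s3, C.a3, C.a4, C.o0, C.f11_0, C.f11_1, g6, g20, g13, g5, g18]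
            · linarith only [g29, s3, g13, g5]
          · linarith only [C.b5, s2, s3, C.a4, C.f11_2, g22, g5, g18]
        · rcases d4 with ⟨g30, g31⟩ | ⟨g32, g33⟩
          · rcases d3 with ⟨g34, g35⟩ | ⟨g36, g37⟩
            · linarith only [g34, s3, C.o0, C.f11_0, C.f11_1, C.f11_2, g6, g30, g13, g5, g19]
            · linarith only [C.a5, s3, C.a4, g36, g30, g5, g19]
          · linarith only [g32, s3, g5, g19]
    · linarith only [g8, s1, s3, C.f11_0, C.f13_0, C.f33_1, C.f33_7, g5]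


end Pool.Agent.Helper6.TQ
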